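import Pool.Agent.LibML82.Defs

/-!
# The family for approximation: `r` nested rings, the upper side of a ring is a double wall

Ring `j` (`0 ≤ j < r`, ring `0` innermost): upper side = two thin one-sided walls at the heights
`[j - th, j]` (wall R) and `[j + τ, j + τ + th]` (wall L) with `G = n r` gaps; the gap `g` (`1 ≤ g ≤ G`) is
near the position `2 G j + g`; in wall R it is `[2 G j + g - 1/4, X j g]`, in wall L it is
`[X j g, 2 G j + g + 1/4]`. Left, right and lower sides are solid; thin channels at the corners.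
-/

namespace Pool.LibML82.B

/-- The number of gaps of a ring. -/
def G (r n : ℕ) : ℕ := n * r

/-- The standard position of the gap `g` of ring `j`. -/
noncomputable def pos (r n j g : ℕ) : ℝ := 2 * (G r n : ℝ) * j + g

/-- The thickness of the thin walls. -/
noncomputable def th (r n : ℕ) : ℝ := 1 / (100 * (G r n : ℝ))

/-- Half the inner width of ring `j`. -/
noncomputable def W (r n j : ℕ) : ℝ := 2 * (G r n : ℝ) * r + 2 * (G r n : ℝ) + 10 + 3 * j

/-- The depth of ring `j`. -/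
noncomputable def D (j : ℕ) : ℝ := 2 + 3 * j

/-- The height of the channels at the corners. -/
noncomputable def ep (r n : ℕ) : ℝ := 1 / (16 * (W r n r + 1))

/-- The moving numbers are near their standard positions. -/
def Near (r n : ℕ) (X : ℕ → ℕ → ℝ) : Prop :=
  ∀ j g, j < r → 1 ≤ g → g ≤ G r n → |X j g - pos r n j g| ≤ 1 / 16

/-- No straight line passes the double walls of three consecutive rings. -/
def Blocked (r n : ℕ) (τ : ℝ) (X : ℕ → ℕ → ℝ) : Prop :=
  ∀ j g₁ g₂ g₃, j + 2 < r → 1 ≤ g₁ → g₁ ≤ G r n → 1 ≤ g₂ → g₂ ≤ G r n → 1 ≤ g₃ → g₃ ≤ G r n →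
    8 * (G r n : ℝ) * τ < |X j g₁ - 2 * X (j + 1) g₂ + X (j + 2) g₃|

/-- Left end of the `q`-th piece of wall R of ring `j`. -/
noncomputable def AR (r n : ℕ) (X : ℕ → ℕ → ℝ) (j q : ℕ) : ℝ :=
  if q = 0 then -W r n j - 1 else X j q
/-- Right end of the `q`-th piece of wall R of ring `j`. -/
noncomputable def BR (r n j q : ℕ) : ℝ :=
  if q = G r n then W r n j + 1 else pos r n j (q + 1) - 1 / 4
/-- Left end of the `q`-th piece of wall L of ring `j`. -/
noncomputable def AL (r n j q : ℕ) : ℝ :=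
  if q = 0 then -W r n j - 1 else pos r n j q + 1 / 4
/-- Right end of the `q`-th piece of wall L of ring `j`. -/
noncomputable def BL (r n : ℕ) (X : ℕ → ℕ → ℝ) (j q : ℕ) : ℝ :=
  if q = G r n then W r n j + 1 else X j (q + 1)

/-- Left, right and lower side of ring `j`. -/
noncomputable def side (r n j : ℕ) : Fin 3 → Rect :=
  ![⟨-W r n j - 1, -W r n j, -D j, j - th r n - ep r n⟩,
    ⟨W r n j, W r n j + 1, -D j, j - th r n - ep r n⟩,
    ⟨-W r n j - 1, W r n j + 1, -D j - 1 - ep r n, -D j - ep r n⟩]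

/-- Names of the obstacles: walls R, walls L, sides, `d` dummies far above. -/
abbrev Idx (r n d : ℕ) :=
  (Fin r × Fin (G r n + 1)) ⊕ (Fin r × Fin (G r n + 1)) ⊕ (Fin r × Fin 3) ⊕ Fin d

/-- The obstacles. -/
noncomputable def rect (r n d : ℕ) (X : ℕ → ℕ → ℝ) (τ : ℝ) : Idx r n d → Rect
  | .inl a => ⟨AR r n X a.1 a.2, BR r n a.1 a.2, (a.1 : ℕ) - th r n, (a.1 : ℕ)⟩
  | .inr (.inl a) => ⟨AL r n a.1 a.2, BL r n X a.1 a.2, (a.1 : ℕ) + τ, (a.1 : ℕ) + τ + th r n⟩
  | .inr (.inr (.inl a)) => side r n a.1 a.2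
  | .inr (.inr (.inr i)) => ⟨0, 1, r + 100 + 2 * (i : ℕ), r + 101 + 2 * (i : ℕ)⟩

/-- The label of an obstacle: the gap `(j, g)` on whose number `X j g` it depends. -/
def lab (r n d : ℕ) : Idx r n d → Option (ℕ × ℕ)
  | .inl a => if (a.2 : ℕ) = 0 then none else some (a.1, a.2)
  | .inr (.inl a) => if (a.2 : ℕ) = G r n then none else some (a.1, a.2 + 1)
  | .inr (.inr _) => none

/-- The moving number with a given label. -/
def val (X : ℕ → ℕ → ℝ) : Option (ℕ × ℕ) → ℝ
  | none => 0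
  | some a => X a.1 a.2

/-- The instance with parameters `X` and `τ`. -/
noncomputable def inst {r n d N : ℕ} (e : Fin N ≃ Idx r n d) (X : ℕ → ℕ → ℝ) (τ : ℝ) : Inst N where
  s := (0, r)
  t := (0, -1)
  obs := fun i => rect r n d X τ (e i)

/-- The inside of ring `j` (its boundary runs in the middle of the obstacles). -/
def In (r n j : ℕ) (p : ℝ × ℝ) : Prop :=
  |p.1| < W r n j + 1 / 2 ∧ -D j - ep r n - 1 / 2 < p.2 ∧ p.2 < j - th r n / 2

/-- Crossing the upper side of ring `j` (at half the height of wall R). -/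
def TopPt (r n j : ℕ) (p : ℝ × ℝ) : Prop :=
  |p.1| ≤ W r n j + 1 / 2 ∧ p.2 = j - th r n / 2

/-- Crossing the left or right side of ring `j`. -/
def SidePt (r n j : ℕ) (p : ℝ × ℝ) : Prop :=
  |p.1| = W r n j + 1 / 2 ∧ -D j - ep r n - 1 / 2 ≤ p.2 ∧ p.2 ≤ j - th r n / 2

/-- The path with three links along the line `x = α + β y`. -/
noncomputable def path3 (r : ℕ) (α β : ℝ) : Fin 4 → ℝ × ℝ :=
  ![(0, r), (α + β * r, r), (α - β, -1), (0, -1)]

/-- The weights. -/
noncomputable def kp (r j : ℕ) : ℝ := 1 / ((r : ℝ) ^ 2 + 1 - (j : ℝ) ^ 2)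

/-- The base point. -/
noncomputable def Xb (r : ℕ) (θ : Fin 3 → ℝ) (η : ℝ) (j g : ℕ) : ℝ :=
  θ 0 + θ 1 * g + θ 2 * j - η * (kp r j * (g : ℝ) ^ 2)

/-- The collapsed point of the line `g = 1 + u₀ + v₀ j`. -/
noncomputable def Xc (r u₀ v₀ : ℕ) (θ : Fin 3 → ℝ) (η : ℝ) (j g : ℕ) : ℝ :=
  θ 0 + θ 1 * g + θ 2 * j - η * (kp r j * ((g : ℝ) - (1 + u₀ + v₀ * j)) ^ 2)

/-- The three obstacles have three different labels, all on the line `g = 1 + u₀ + v₀ j`. -/
def Cov {r n d N : ℕ} (e : Fin N ≃ Idx r n d) (u₀ v₀ : ℕ) (who : Fin 3 → Fin N) : Prop :=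
  (∀ i, ∃ j, lab r n d (e (who i)) = some (j, 1 + u₀ + v₀ * j)) ∧
    Function.Injective (fun i => lab r n d (e (who i)))

end Pool.LibML82.B
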