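import Pool.Agent.LibML82.BFam

/-!
# Row BG1: a segment in a thin channel is nearly horizontal

(a) `channel`. Free segment `[p, q]`, a point `b` of it in the middle of the channel
`[xl, xl + 1] × [lo, lo + w]`; the boxes above and below the channel are forbidden. Then every point `z`
of the segment is in the channel (open in the first coordinate) or satisfies
`|z.2 - b.2| ≤ 2 w |z.1 - b.1|`.
Proof. Points of `[b, z]` are in `[p, q]` (segments are convex). If `xl < z.1 < xl + 1` and `z.2` is not in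
`[lo, lo + w]`, say `z.2 > lo + w`, choose a height `h` with `lo + w < h < min (z.2) (lo + w + σ)`: the point of
`[b, z]` at height `h` has its first coordinate strictly between `xl` and `xl + 1`: forbidden. If
`z.1 ≥ xl + 1` (or `≤ xl`, symmetric) and `z.2 - b.2 > 2 w (z.1 - b.1)`: the point `z'` of `[b, z]` with
`z'.1 = xl + 1` has `z'.2 - b.2 > 2 w · (1/2) = w`, so `z'.2 > lo + w`; choose `h` strictly between `lo + w` and
`min z'.2 (lo + w + σ)`; the point of `[b, z']` at height `h` has first coordinate strictly between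
`xl + 1/2` (or equal if ... no: strictly, since the height is `> b.2`) and `xl + 1`: forbidden. Same downwards.

(b) `side_height`: a free point `b` with `SidePt r n j b` is in one of the two channels: heights
`[j - th - ep, j - th]` or `[-D j - ep, -D j]` (pieces `0` and `G` of wall R reach to `|x| = W j + 1`;
side obstacles `0, 1, 2`).

(c) `side_near`: if `SidePt r n j b`, `b ∈ [p, q]` free, then every point `z` of the segment with
`|z.1| ≤ W r n r` satisfies `|z.2 - b.2| ≤ 1/4`, unless `W j < |z.1| < W j + 1` and `z.2` is in the same channel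
as `b` (that is `|z.2 - b.2| ≤ ep`); in both cases `|z.2 - b.2| ≤ 1/4`. (`4 ep (W r n r + 1) = 1/4`.)
-/

namespace Pool.LibML82.B

private theorem BG1_aux (S : Set (ℝ × ℝ)) (p q b z : ℝ × ℝ) (xl top σ s T : ℝ) (hσ : 0 < σ)
    (hS : segment ℝ p q ⊆ S) (hb : b ∈ segment ℝ p q) (hz : z ∈ segment ℝ p q)
    (hb1 : b.1 = xl + 1 / 2) (hbt : s * b.2 ≤ top) (hT0 : 0 ≤ T) (hT1 : T ≤ 1)
    (hTu : T * |z.1 - b.1| ≤ 1 / 2) (hTd : top < s * (b.2 + T * (z.2 - b.2)))
    (hforb : ∀ x y : ℝ, xl < x → x < xl + 1 → top < s * y → s * y < top + σ → (x, y) ∉ S) :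
    False := by
  set E : ℝ := s * (z.2 - b.2) with hE
  have hTE : top - s * b.2 < T * E := by
    have : s * (b.2 + T * (z.2 - b.2)) = s * b.2 + T * E := by rw [hE]; ring
    rw [this] at hTd; linarith
  have hTEpos : 0 < T * E := by linarith
  have hTpos : 0 < T := by
    rcases hT0.lt_or_eq with h | h
    · exact h
    · rw [← h] at hTEpos; simp at hTEpos
  have hEpos : 0 < E := by
    by_contra hne
    have : T * E ≤ 0 := mul_nonpos_of_nonneg_of_nonpos hT0 (not_lt.mp hne)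
    linarith
  obtain ⟨h, hh1, hh2⟩ : ∃ h : ℝ, top < h ∧ h < min (top + σ) (s * b.2 + T * E) :=
    exists_between (lt_min (by linarith) (by linarith))
  have hh3 : h < top + σ := lt_of_lt_of_le hh2 (min_le_left _ _)
  have hh4 : h < s * b.2 + T * E := lt_of_lt_of_le hh2 (min_le_right _ _)
  set t : ℝ := (h - s * b.2) / E with ht
  have htE : t * E = h - s * b.2 := by rw [ht]; field_simp
  have ht0 : 0 < t := by rw [ht]; apply div_pos (by linarith) hEpos
  have htT : t < T := by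
    rw [ht, div_lt_iff₀ hEpos]; linarith
  have hP : b + t • (z - b) ∈ segment ℝ p q :=
    (convex_segment p q).add_smul_sub_mem hb hz ⟨ht0.le, by linarith⟩
  have hPS := hS hP
  have hu : |t * (z.1 - b.1)| < 1 / 2 := by
    rw [abs_mul, abs_of_pos ht0]
    rcases (abs_nonneg (z.1 - b.1)).lt_or_eq with h0 | h0
    · have : t * |z.1 - b.1| < T * |z.1 - b.1| := mul_lt_mul_of_pos_right htT h0
      linarith
    · rw [← h0]; norm_num
  have hu' := abs_lt.mp hu
  have hP' : b + t • (z - b) = (b.1 + t * (z.1 - b.1), b.2 + t * (z.2 - b.2)) := by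
    ext <;> simp
  rw [hP'] at hPS
  have hs : s * (b.2 + t * (z.2 - b.2)) = h := by
    have : s * (b.2 + t * (z.2 - b.2)) = s * b.2 + t * E := by rw [hE]; ring
    rw [this, htE]; ring
  refine hforb _ _ ?_ ?_ ?_ ?_ hPS
  · linarith [hu'.1]
  · linarith [hu'.2]
  · rw [hs]; exact hh1
  · rw [hs]; exact hh3

private theorem BG1_half (S : Set (ℝ × ℝ)) (p q b z : ℝ × ℝ) (xl top w σ s : ℝ) (hσ : 0 < σ)
    (hw : 0 < w)
    (hS : segment ℝ p q ⊆ S) (hb : b ∈ segment ℝ p q) (hz : z ∈ segment ℝ p q)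
    (hb1 : b.1 = xl + 1 / 2) (hbt : s * b.2 ≤ top) (hbt' : top - w ≤ s * b.2)
    (hforb : ∀ x y : ℝ, xl < x → x < xl + 1 → top < s * y → s * y < top + σ → (x, y) ∉ S)
    (hin : xl < z.1 → z.1 < xl + 1 → top < s * z.2)
    (hbig : 2 * w * |z.1 - b.1| < s * (z.2 - b.2)) : False := by
  by_cases hu : |z.1 - b.1| < 1 / 2
  · have hu' := abs_lt.mp hu
    have h1 := hin (by linarith [hu'.1]) (by linarith [hu'.2])
    refine BG1_aux S p q b z xl top σ s 1 hσ hS hb hz hb1 hbt zero_le_one le_rfl (by linarith) ?_ hforb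
    have : b.2 + 1 * (z.2 - b.2) = z.2 := by ring
    rw [this]; exact h1
  · have hu1 : 1 / 2 ≤ |z.1 - b.1| := not_lt.mp hu
    have hupos : 0 < |z.1 - b.1| := by linarith
    refine BG1_aux S p q b z xl top σ s (1 / (2 * |z.1 - b.1|)) hσ hS hb hz hb1 hbt
      (by positivity) ?_ ?_ ?_ hforb
    · rw [div_le_one (by positivity)]; linarith
    · have : 1 / (2 * |z.1 - b.1|) * |z.1 - b.1| = 1 / 2 := by field_simp
      rw [this]
    · have h2 : w < 1 / (2 * |z.1 - b.1|) * (s * (z.2 - b.2)) := by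
        rw [one_div, ← div_eq_inv_mul, lt_div_iff₀ (by positivity)]
        linarith
      have h3 : s * (b.2 + 1 / (2 * |z.1 - b.1|) * (z.2 - b.2)) =
          s * b.2 + 1 / (2 * |z.1 - b.1|) * (s * (z.2 - b.2)) := by ring
      rw [h3]; linarith

theorem channel (S : Set (ℝ × ℝ)) (p q b z : ℝ × ℝ) (xl lo w σ : ℝ) (hσ : 0 < σ) (hw : 0 < w)
    (hS : segment ℝ p q ⊆ S) (hb : b ∈ segment ℝ p q) (hz : z ∈ segment ℝ p q)
    (hb1 : b.1 = xl + 1 / 2) (hb2 : lo ≤ b.2) (hb3 : b.2 ≤ lo + w)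
    (hup : ∀ x y : ℝ, xl < x → x < xl + 1 → lo + w < y → y < lo + w + σ → (x, y) ∉ S)
    (hdown : ∀ x y : ℝ, xl < x → x < xl + 1 → lo - σ < y → y < lo → (x, y) ∉ S) :
    (xl < z.1 ∧ z.1 < xl + 1 ∧ lo ≤ z.2 ∧ z.2 ≤ lo + w) ∨
      |z.2 - b.2| ≤ 2 * w * |z.1 - b.1| := by
  by_contra hcon
  rw [not_or, not_le] at hcon
  obtain ⟨hc1, hc2⟩ := hcon
  rcases lt_abs.mp hc2 with h | h
  · refine BG1_half S p q b z xl (lo + w) w σ 1 hσ hw hS hb hz hb1 (by linarith) (by linarith)
      (fun x y h1 h2 h3 h4 => hup x y h1 h2 (by linarith) (by linarith)) ?_ (by linarith)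
    intro h1 h2
    have hz2 : b.2 < z.2 := by
      have : 0 ≤ 2 * w * |z.1 - b.1| := by positivity
      linarith
    rw [one_mul]
    by_contra h3
    exact hc1 ⟨h1, h2, by linarith, not_lt.mp h3⟩
  · refine BG1_half S p q b z xl (-lo) w σ (-1) hσ hw hS hb hz hb1 (by linarith) (by linarith)
      (fun x y h1 h2 h3 h4 => hdown x y h1 h2 (by linarith) (by linarith)) ?_ (by linarith)
    intro h1 h2
    have hz2 : z.2 < b.2 := by
      have : 0 ≤ 2 * w * |z.1 - b.1| := by positivity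
      linarith
    by_contra h3
    exact hc1 ⟨h1, h2, by linarith, by linarith⟩

private theorem BG1_free {r n d N : ℕ} (e : Fin N ≃ Idx r n d) (X : ℕ → ℕ → ℝ) (τ : ℝ)
    (b : ℝ × ℝ) (h : b ∈ (inst e X τ).free) (a : Idx r n d) :
    b ∉ (rect r n d X τ a).inner := by
  have h1 := h (e.symm a)
  have h2 : (inst e X τ).obs (e.symm a) = rect r n d X τ a := by
    simp [inst]
  rwa [h2] at h1

private theorem BG1_G {r n : ℕ} (hr : 1 ≤ r) (hn : 1 ≤ n) : 1 ≤ G r n := by
  unfold G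
  exact Nat.one_le_iff_ne_zero.mpr (Nat.mul_ne_zero (by omega) (by omega))

private theorem BG1_th {r n : ℕ} (hr : 1 ≤ r) (hn : 1 ≤ n) : 0 < th r n ∧ th r n ≤ 1 / 100 := by
  have hG : (1 : ℝ) ≤ (G r n : ℝ) := by exact_mod_cast BG1_G hr hn
  unfold th
  refine ⟨by positivity, ?_⟩
  apply one_div_le_one_div_of_le (by norm_num)
  linarith

private theorem BG1_W (r n j : ℕ) : 10 ≤ W r n j := by
  unfold W
  have : (0 : ℝ) ≤ 2 * (G r n : ℝ) * r + 2 * (G r n : ℝ) + 3 * j := by positivity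
  linarith

private theorem BG1_Wle (r n j : ℕ) (hj : j < r) : W r n j ≤ W r n r := by
  unfold W
  have : (j : ℝ) < r := by exact_mod_cast hj
  linarith

private theorem BG1_ep (r n : ℕ) : 0 < ep r n ∧ ep r n ≤ 1 / 16 := by
  have := BG1_W r n r
  unfold ep
  refine ⟨by positivity, ?_⟩
  apply one_div_le_one_div_of_le (by norm_num)
  linarith

private theorem BG1_wall {r n d N : ℕ} (hr : 1 ≤ r) (hn : 1 ≤ n) (e : Fin N ≃ Idx r n d)
    (X : ℕ → ℕ → ℝ) (τ : ℝ) (hX : Near r n X) (j : ℕ) (hj : j < r) (xl : ℝ)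
    (hxl : xl = -W r n j - 1 ∨ xl = W r n j) (x y : ℝ) (h1 : xl < x) (h2 : x < xl + 1)
    (h3 : j - th r n < y) (h4 : y < j) : (x, y) ∉ (inst e X τ).free := by
  intro hfree
  have hG := BG1_G hr hn
  have hW := BG1_W r n j
  have hGr : (1 : ℝ) ≤ (G r n : ℝ) := by exact_mod_cast hG
  have hjr : (j : ℝ) < r := by exact_mod_cast hj
  have hj0 : (0 : ℝ) ≤ j := by positivity
  rcases hxl with hxl | hxl
  · have h5 := BG1_free e X τ (x, y) hfree (Sum.inl (⟨j, hj⟩, ⟨0, Nat.succ_pos _⟩))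
    apply h5
    have hB : BR r n j 0 = pos r n j (0 + 1) - 1 / 4 := by
      unfold BR; rw [if_neg (by omega)]
    have hA : AR r n X j 0 = -W r n j - 1 := by
      unfold AR; rw [if_pos rfl]
    have hpos : 1 ≤ pos r n j (0 + 1) := by
      unfold pos
      push_cast
      have : (0 : ℝ) ≤ 2 * (G r n : ℝ) * j := by positivity
      linarith
    refine ⟨?_, ?_, ?_, ?_⟩
    · show AR r n X j 0 < x
      rw [hA]; linarith
    · show x < BR r n j 0
      rw [hB]; linarith
    · exact h3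
    · exact h4
  · have h5 := BG1_free e X τ (x, y) hfree (Sum.inl (⟨j, hj⟩, ⟨G r n, Nat.lt_succ_self _⟩))
    apply h5
    have hB : BR r n j (G r n) = W r n j + 1 := by
      unfold BR; rw [if_pos rfl]
    have hA : AR r n X j (G r n) = X j (G r n) := by
      unfold AR; rw [if_neg (by omega)]
    have hXG := abs_le.mp (hX j (G r n) hj hG le_rfl)
    have hposG : pos r n j (G r n) = 2 * (G r n : ℝ) * j + G r n := rfl
    have hprod : 2 * (G r n : ℝ) * j ≤ 2 * (G r n : ℝ) * r := by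
      apply mul_le_mul_of_nonneg_left hjr.le (by positivity)
    have hWdef : W r n j = 2 * (G r n : ℝ) * r + 2 * (G r n : ℝ) + 10 + 3 * j := rfl
    refine ⟨?_, ?_, ?_, ?_⟩
    · show AR r n X j (G r n) < x
      rw [hA]; linarith [hXG.2]
    · show x < BR r n j (G r n)
      rw [hB]; linarith
    · exact h3
    · exact h4

private theorem BG1_side {r n d N : ℕ} (e : Fin N ≃ Idx r n d)
    (X : ℕ → ℕ → ℝ) (τ : ℝ) (j : ℕ) (hj : j < r) (xl : ℝ)
    (hxl : xl = -W r n j - 1 ∨ xl = W r n j) (x y : ℝ) (h1 : xl < x) (h2 : x < xl + 1)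
    (h3 : -D j < y) (h4 : y < j - th r n - ep r n) : (x, y) ∉ (inst e X τ).free := by
  intro hfree
  rcases hxl with hxl | hxl
  · have h5 := BG1_free e X τ (x, y) hfree (Sum.inr (Sum.inr (Sum.inl (⟨j, hj⟩, 0))))
    apply h5
    refine ⟨?_, ?_, ?_, ?_⟩
    · show -W r n j - 1 < x
      linarith
    · show x < -W r n j
      linarith
    · show -D j < y
      exact h3
    · show y < j - th r n - ep r n
      exact h4
  · have h5 := BG1_free e X τ (x, y) hfree (Sum.inr (Sum.inr (Sum.inl (⟨j, hj⟩, 1))))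
    apply h5
    refine ⟨?_, ?_, ?_, ?_⟩
    · show W r n j < x
      linarith
    · show x < W r n j + 1
      linarith
    · show -D j < y
      exact h3
    · show y < j - th r n - ep r n
      exact h4

private theorem BG1_bot {r n d N : ℕ} (e : Fin N ≃ Idx r n d)
    (X : ℕ → ℕ → ℝ) (τ : ℝ) (j : ℕ) (hj : j < r) (xl : ℝ)
    (hxl : xl = -W r n j - 1 ∨ xl = W r n j) (x y : ℝ) (h1 : xl < x) (h2 : x < xl + 1)
    (h3 : -D j - 1 - ep r n < y) (h4 : y < -D j - ep r n) : (x, y) ∉ (inst e X τ).free := by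
  intro hfree
  have hW := BG1_W r n j
  have h5 := BG1_free e X τ (x, y) hfree (Sum.inr (Sum.inr (Sum.inl (⟨j, hj⟩, 2))))
  apply h5
  refine ⟨?_, ?_, ?_, ?_⟩
  · show -W r n j - 1 < x
    rcases hxl with hxl | hxl <;> linarith
  · show x < W r n j + 1
    rcases hxl with hxl | hxl <;> linarith
  · show -D j - 1 - ep r n < y
    exact h3
  · show y < -D j - ep r n
    exact h4

private theorem BG1_xl {r n j : ℕ} {b : ℝ × ℝ} (hb : SidePt r n j b) :
    ∃ xl : ℝ, (xl = -W r n j - 1 ∨ xl = W r n j) ∧ b.1 = xl + 1 / 2 := by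
  have hW := BG1_W r n j
  rcases abs_choice b.1 with h | h
  · exact ⟨W r n j, Or.inr rfl, by rw [← h]; exact hb.1⟩
  · refine ⟨-W r n j - 1, Or.inl rfl, ?_⟩
    have h1 := hb.1
    rw [h] at h1
    linarith

theorem side_height {r n d N : ℕ} (hr : 1 ≤ r) (hn : 1 ≤ n) (e : Fin N ≃ Idx r n d)
    (X : ℕ → ℕ → ℝ) (τ : ℝ) (hX : Near r n X) (j : ℕ) (hj : j < r) (b : ℝ × ℝ)
    (hb : SidePt r n j b) (hfree : b ∈ (inst e X τ).free) :
    (j - th r n - ep r n ≤ b.2 ∧ b.2 ≤ j - th r n) ∨ (-D j - ep r n ≤ b.2 ∧ b.2 ≤ -D j) := by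
  obtain ⟨xl, hxl, hb1⟩ := BG1_xl hb
  have hth := BG1_th hr hn
  have hep := BG1_ep r n
  have hbb : b = (b.1, b.2) := rfl
  have h1 : b.2 ≤ j - th r n := by
    by_contra hcon
    rw [not_le] at hcon
    refine BG1_wall hr hn e X τ hX j hj xl hxl b.1 b.2 (by linarith) (by linarith) hcon ?_ hfree
    linarith [hb.2.2]
  have h2 : -D j - ep r n ≤ b.2 := by
    by_contra hcon
    rw [not_le] at hcon
    refine BG1_bot e X τ j hj xl hxl b.1 b.2 (by linarith) (by linarith) ?_ hcon hfree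
    linarith [hb.2.1]
  by_cases h3 : b.2 ≤ -D j
  · exact Or.inr ⟨h2, h3⟩
  · rw [not_le] at h3
    refine Or.inl ⟨?_, h1⟩
    by_contra hcon
    rw [not_le] at hcon
    exact BG1_side e X τ j hj xl hxl b.1 b.2 (by linarith) (by linarith) h3 hcon hfree

theorem side_near {r n d N : ℕ} (hr : 1 ≤ r) (hn : 1 ≤ n) (e : Fin N ≃ Idx r n d)
    (X : ℕ → ℕ → ℝ) (τ : ℝ) (hX : Near r n X) (j : ℕ) (hj : j < r) (p q b z : ℝ × ℝ)
    (hfree : segment ℝ p q ⊆ (inst e X τ).free) (hb : SidePt r n j b)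
    (hbm : b ∈ segment ℝ p q) (hz : z ∈ segment ℝ p q) (hz1 : |z.1| ≤ W r n r) :
    |z.2 - b.2| ≤ 1 / 4 := by
  obtain ⟨xl, hxl, hb1⟩ := BG1_xl hb
  have hth := BG1_th hr hn
  have hep := BG1_ep r n
  have hWr := BG1_W r n r
  have hWj := BG1_Wle r n j hj
  have hj0 : (0 : ℝ) ≤ j := by positivity
  have hD : D j = 2 + 3 * (j : ℝ) := rfl
  have hep4 : 4 * ep r n * (W r n r + 1) = 1 / 4 := by
    unfold ep
    have : W r n r + 1 ≠ 0 := by linarith
    field_simp
    norm_num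
  have key : ∀ lo : ℝ, lo ≤ b.2 → b.2 ≤ lo + ep r n →
      ((xl < z.1 ∧ z.1 < xl + 1 ∧ lo ≤ z.2 ∧ z.2 ≤ lo + ep r n) ∨
        |z.2 - b.2| ≤ 2 * ep r n * |z.1 - b.1|) → |z.2 - b.2| ≤ 1 / 4 := by
    intro lo h1 h2 h3
    rcases h3 with ⟨-, -, h4, h5⟩ | h3
    · rw [abs_le]; constructor <;> linarith
    · have h6 : |z.1 - b.1| ≤ 2 * (W r n r + 1) := by
        have h7 : |z.1 - b.1| ≤ |z.1| + |b.1| := abs_sub _ _
        have h8 := hb.1
        linarith
      have h9 : 2 * ep r n * |z.1 - b.1| ≤ 2 * ep r n * (2 * (W r n r + 1)) :=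
        mul_le_mul_of_nonneg_left h6 (by linarith)
      have h10 : 2 * ep r n * (2 * (W r n r + 1)) = 4 * ep r n * (W r n r + 1) := by ring
      rw [h10, hep4] at h9
      linarith
  rcases side_height hr hn e X τ hX j hj b hb (hfree hbm) with ⟨h1, h2⟩ | ⟨h1, h2⟩
  · apply key (j - th r n - ep r n) h1 (by linarith)
    refine channel (inst e X τ).free p q b z xl (j - th r n - ep r n) (ep r n) (th r n) hth.1 hep.1
      hfree hbm hz hb1 h1 (by linarith) ?_ ?_
    · intro x y hx1 hx2 hy1 hy2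
      exact BG1_wall hr hn e X τ hX j hj xl hxl x y hx1 hx2 (by linarith) (by linarith)
    · intro x y hx1 hx2 hy1 hy2
      exact BG1_side e X τ j hj xl hxl x y hx1 hx2 (by rw [hD]; linarith) (by linarith)
  · apply key (-D j - ep r n) h1 (by linarith)
    refine channel (inst e X τ).free p q b z xl (-D j - ep r n) (ep r n) (th r n) hth.1 hep.1
      hfree hbm hz hb1 h1 (by linarith) ?_ ?_
    · intro x y hx1 hx2 hy1 hy2
      exact BG1_side e X τ j hj xl hxl x y hx1 hx2 (by linarith) (by rw [hD] at hy2; linarith)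
    · intro x y hx1 hx2 hy1 hy2
      exact BG1_bot e X τ j hj xl hxl x y hx1 hx2 (by linarith) (by linarith)

end Pool.LibML82.B
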