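import Mathlib

/-!
# Row G2: crossing one wall

`crossing`: an affine function `y ↦ c + d y` which, for `y` in the open interval `(y₁, y₂)`, avoids
all the open intervals `(A q, B q)`, `q = 0, …, K`, stays on the closed interval `[y₁, y₂]` either left
of `A 0`, or right of `B K`, or inside one gap `[B q, A (q + 1)]`.
Proof. First a one-interval version: if an affine function avoids `(α, β)`, `α < β`, on `(y₁, y₂)` then
it is `≤ α` on all of `[y₁, y₂]` or `≥ β` on all of `[y₁, y₂]` (on the open interval: if the values at `u` and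
`v` are `≤ α` and `≥ β`, the affine function takes the value `(α + β) / 2` strictly between; then pass to
the closed interval, for example by continuity or by an affine estimate). Then let `q` be the largest
index `≤ K` with values `≥ B q` (if there is none: left of `A 0`; if `q = K`: right of `B K`); else the
values are `≤ A (q + 1)` by maximality. (Induction on `K` is also easy.)
-/

namespace Pool.LibML82

/-- One interval, open version. -/
private theorem one_open (α β c d y₁ y₂ : ℝ) (hαβ : α < β)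
    (H : ∀ y, y₁ < y → y < y₂ → ¬ (α < c + d * y ∧ c + d * y < β)) (u v : ℝ)
    (hu1 : y₁ < u) (hu2 : u < y₂) (hv1 : y₁ < v) (hv2 : v < y₂)
    (hu : c + d * u ≤ α) (hv : β ≤ c + d * v) : False := by
  have hcont : ContinuousOn (fun y : ℝ => c + d * y) (Set.uIcc u v) := by fun_prop
  have hmem : (α + β) / 2 ∈ Set.uIcc (c + d * u) (c + d * v) := by
    rw [Set.uIcc_of_le (by linarith)]
    constructor <;> linarith
  obtain ⟨y, hy, hyv⟩ := intermediate_value_uIcc hcont hmem
  have h1 : y₁ < y := lt_of_lt_of_le (lt_min hu1 hv1) hy.1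
  have h2 : y < y₂ := lt_of_le_of_lt hy.2 (max_lt hu2 hv2)
  simp only at hyv
  exact H y h1 h2 ⟨by rw [hyv]; linarith, by rw [hyv]; linarith⟩

/-- From the open to the closed interval. -/
private theorem close_le (c d y₁ y₂ κ : ℝ) (hy : y₁ < y₂)
    (h : ∀ y, y₁ < y → y < y₂ → c + d * y ≤ κ) (y : ℝ) (h1 : y₁ ≤ y) (h2 : y ≤ y₂) :
    c + d * y ≤ κ := by
  have hcl : y ∈ closure (Set.Ioo y₁ y₂) := by
    rw [closure_Ioo hy.ne]
    exact ⟨h1, h2⟩
  have hcls : IsClosed {y : ℝ | c + d * y ≤ κ} := isClosed_le (by fun_prop) continuous_const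
  have hsub : Set.Ioo y₁ y₂ ⊆ {y : ℝ | c + d * y ≤ κ} := fun z hz => h z hz.1 hz.2
  exact closure_minimal hsub hcls hcl

private theorem one (α β c d y₁ y₂ : ℝ) (hy : y₁ < y₂) (hαβ : α < β)
    (H : ∀ y, y₁ < y → y < y₂ → ¬ (α < c + d * y ∧ c + d * y < β)) :
    (∀ y, y₁ ≤ y → y ≤ y₂ → c + d * y ≤ α) ∨ (∀ y, y₁ ≤ y → y ≤ y₂ → β ≤ c + d * y) := by
  have hm1 : y₁ < (y₁ + y₂) / 2 := by linarith
  have hm2 : (y₁ + y₂) / 2 < y₂ := by linarith
  by_cases hmid : c + d * ((y₁ + y₂) / 2) ≤ α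
  · left
    apply close_le c d y₁ y₂ α hy
    intro y h1 h2
    by_contra hcon
    rw [not_le] at hcon
    have hβ : β ≤ c + d * y := by
      by_contra hlt
      rw [not_le] at hlt
      exact H y h1 h2 ⟨hcon, hlt⟩
    exact one_open α β c d y₁ y₂ hαβ H _ y hm1 hm2 h1 h2 hmid hβ
  · right
    rw [not_le] at hmid
    have hβm : β ≤ c + d * ((y₁ + y₂) / 2) := by
      by_contra hlt
      rw [not_le] at hlt
      exact H _ hm1 hm2 ⟨hmid, hlt⟩
    intro y h1 h2
    have h := close_le (-c) (-d) y₁ y₂ (-β) hy (fun y h1 h2 => by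
      by_contra hcon
      rw [not_le] at hcon
      have hlt : c + d * y < β := by linarith
      have hα : c + d * y ≤ α := by
        by_contra hgt
        rw [not_le] at hgt
        exact H y h1 h2 ⟨hgt, hlt⟩
      exact one_open α β c d y₁ y₂ hαβ H y _ h1 h2 hm1 hm2 hα hβm) y h1 h2
    linarith

theorem crossing (A B : ℕ → ℝ) (K : ℕ) (c d y₁ y₂ : ℝ) (hy : y₁ < y₂)
    (hAB : ∀ q, q ≤ K → A q < B q)
    (H : ∀ q, q ≤ K → ∀ y, y₁ < y → y < y₂ → ¬ (A q < c + d * y ∧ c + d * y < B q)) :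
    (∀ y, y₁ ≤ y → y ≤ y₂ → c + d * y ≤ A 0) ∨ (∀ y, y₁ ≤ y → y ≤ y₂ → B K ≤ c + d * y) ∨
      ∃ q, q < K ∧ ∀ y, y₁ ≤ y → y ≤ y₂ → B q ≤ c + d * y ∧ c + d * y ≤ A (q + 1) := by
  induction K with
  | zero =>
    rcases one (A 0) (B 0) c d y₁ y₂ hy (hAB 0 le_rfl) (H 0 le_rfl) with h | h
    · exact Or.inl h
    · exact Or.inr (Or.inl h)
  | succ K ih =>
    rcases ih (fun q hq => hAB q (by omega)) (fun q hq => H q (by omega)) with h | h | ⟨q, hq, h⟩
    · exact Or.inl h
    · rcases one (A (K + 1)) (B (K + 1)) c d y₁ y₂ hy (hAB _ le_rfl) (H _ le_rfl) with h' | h'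
      · exact Or.inr (Or.inr ⟨K, Nat.lt_succ_self K, fun y h1 h2 => ⟨h y h1 h2, h' y h1 h2⟩⟩)
      · exact Or.inr (Or.inl h')
    · exact Or.inr (Or.inr ⟨q, by omega, h⟩)

end Pool.LibML82
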