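import Pool.Agent.LibML82.BFam
import Pool.Agent.LibML82.G2

/-!
# Row BG2: a segment through the upper sides of five consecutive rings

`top_five`. Let `b k` be the point of the free segment `[p, q]` with `TopPt r n (j + k)` for
`k = 0, 1, 2, 3, 4`. The heights of `b 0` and `b 4` differ, so the segment is part of a line
`x = c + d y`, and all points `(c + d y, y)`, `j - th/2 ≤ y ≤ j + 4 - th/2`, are in the segment (between
`b 0` and `b 4`), so they are free. For `k = 1, 2, 3` use `crossing` (row G2, in `Pool.LibML82`) for wall R of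
ring `j + k`: `A = AR`, `B = BR`, `K = G`, heights `(j+k-th, j+k)`: the alternatives left of `-W - 1` and right
of `W + 1` are excluded by `|(b k).1| ≤ W + 1/2`, so there is `g` with
`pos (j+k) g - 1/4 ≤ c + d y ≤ X (j+k) g` on `[j+k-th, j+k]` (`g = q + 1`). Comparing `k = 1` and `k = 3`
(`pos` grows by `2 G` per ring, `|g - g'| < G`): `G ≤ d ≤ 4 G`. For wall L of ring `j + k` (`A = AL`, `B = BL`,
heights `(j+k+τ, j+k+τ+th)`): `c + d (j+k+τ)` is within `4 G τ ≤ 1/25` of `c + d (j+k)`, so it is again in a gap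
`g'`: `X (j+k) g' ≤ c + d y ≤ pos (j+k) g' + 1/4` on `[j+k+τ, j+k+τ+th]`. Now `g' = g`:
`pos g' - 1/16 ≤ X g' ≤ c + d (j+k+τ) ≤ X g + 1/25 ≤ pos g + 1/16 + 1/25` gives `g' ≤ g`, and
`pos g - 1/4 ≤ c + d (j+k-th) ≤ c + d (j+k+τ+th) ≤ pos g' + 1/4` gives `g ≤ g'`. So
`X (j+k) g - 4 G τ ≤ c + d (j+k) ≤ X (j+k) g` for `k = 1, 2, 3`, hence
`|X (j+1) g₁ - 2 X (j+2) g₂ + X (j+3) g₃| ≤ 8 G τ`, against `Blocked` (at `j + 1`; `j + 3 < r`).
-/

namespace Pool.LibML82.B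

private theorem BG2_G {r n : ℕ} (hr : 1 ≤ r) (hn : 1 ≤ n) : 1 ≤ G r n := by
  unfold G
  exact Nat.one_le_iff_ne_zero.2 (Nat.mul_ne_zero (by omega) (by omega))

private theorem BG2_th {r n : ℕ} (hG : 1 ≤ G r n) :
    0 < th r n ∧ th r n ≤ 1 / 100 ∧ (G r n : ℝ) * th r n = 1 / 100 := by
  have h1 : (1 : ℝ) ≤ (G r n : ℝ) := by exact_mod_cast hG
  have h2 : (0 : ℝ) < (G r n : ℝ) := by linarith
  unfold th
  refine ⟨by positivity, ?_, ?_⟩
  · rw [div_le_div_iff₀ (by positivity) (by norm_num)]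
    linarith
  · field_simp

private theorem BG2_pos {r n i : ℕ} (hi : i < r) {g : ℕ} (hg : g ≤ G r n) :
    0 ≤ pos r n i g ∧ pos r n i g + 1 < W r n i := by
  have h1 : (0 : ℝ) ≤ (G r n : ℝ) := Nat.cast_nonneg _
  have h2 : (i : ℝ) + 1 ≤ (r : ℝ) := by exact_mod_cast hi
  have h3 : (g : ℝ) ≤ (G r n : ℝ) := by exact_mod_cast hg
  have h4 : (0 : ℝ) ≤ (g : ℝ) := Nat.cast_nonneg _
  have h5 : (0 : ℝ) ≤ (i : ℝ) := Nat.cast_nonneg _
  have h6 : (G r n : ℝ) * i ≤ (G r n : ℝ) * r := mul_le_mul_of_nonneg_left (by linarith) h1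
  have h7 : 0 ≤ (G r n : ℝ) * i := mul_nonneg h1 h5
  unfold pos W
  constructor
  · nlinarith
  · nlinarith

private theorem BG2_R {r n : ℕ} (hG : 1 ≤ G r n) (X : ℕ → ℕ → ℝ) (hX : Near r n X) (i : ℕ) (hi : i < r)
    (c d : ℝ)
    (hR : ∀ q, q ≤ G r n → ∀ y, (i : ℝ) - th r n < y → y < (i : ℝ) →
      ¬ (AR r n X i q < c + d * y ∧ c + d * y < BR r n i q))
    (y0 : ℝ) (hy0 : (i : ℝ) - th r n ≤ y0) (hy0' : y0 ≤ (i : ℝ)) (hb : |c + d * y0| ≤ W r n i + 1 / 2) :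
    ∃ g, 1 ≤ g ∧ g ≤ G r n ∧ ∀ y, (i : ℝ) - th r n ≤ y → y ≤ (i : ℝ) →
      pos r n i g - 1 / 4 ≤ c + d * y ∧ c + d * y ≤ X i g := by
  obtain ⟨ht0, ht1, ht2⟩ := BG2_th hG
  obtain ⟨hb1, hb2⟩ := abs_le.1 hb
  have hps : ∀ q, pos r n i (q + 1) = pos r n i q + 1 := by
    intro q
    unfold pos
    push_cast
    ring
  have hAB : ∀ q, q ≤ G r n → AR r n X i q < BR r n i q := by
    intro q hq
    unfold AR BR
    by_cases h0 : q = 0
    · have h1 : q ≠ G r n := by omega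
      rw [if_pos h0, if_neg h1]
      have h2 := BG2_pos (n := n) hi (g := q + 1) (by omega)
      linarith
    · rw [if_neg h0]
      have h2 := BG2_pos hi hq
      have h3 := abs_le.1 (hX i q hi (by omega) hq)
      by_cases h1 : q = G r n
      · rw [if_pos h1]
        linarith
      · rw [if_neg h1, hps]
        linarith
  rcases crossing (AR r n X i) (BR r n i) (G r n) c d ((i : ℝ) - th r n) (i : ℝ) (by linarith) hAB hR with
    h | h | ⟨q, hq, h⟩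
  · exfalso
    have h1 := h y0 hy0 hy0'
    unfold AR at h1
    rw [if_pos rfl] at h1
    linarith
  · exfalso
    have h1 := h y0 hy0 hy0'
    unfold BR at h1
    rw [if_pos rfl] at h1
    linarith
  · refine ⟨q + 1, by omega, by omega, fun y h1 h2 => ?_⟩
    obtain ⟨h3, h4⟩ := h y h1 h2
    unfold BR at h3
    unfold AR at h4
    rw [if_neg (by omega)] at h3 h4
    exact ⟨h3, h4⟩

private theorem BG2_L {r n : ℕ} (hG : 1 ≤ G r n) (X : ℕ → ℕ → ℝ) (τ : ℝ) (hτ : 0 < τ) (hτ1 : τ ≤ th r n)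
    (hX : Near r n X) (i : ℕ) (hi : i < r) (c d : ℝ) (hd0 : 0 ≤ d) (hd : d ≤ 4 * (G r n : ℝ))
    (hL : ∀ q, q ≤ G r n → ∀ y, (i : ℝ) + τ < y → y < (i : ℝ) + τ + th r n →
      ¬ (AL r n i q < c + d * y ∧ c + d * y < BL r n X i q))
    (g : ℕ) (hg1 : 1 ≤ g) (hg : g ≤ G r n)
    (hlow : pos r n i g - 1 / 4 ≤ c + d * ((i : ℝ) - th r n)) (hup : c + d * (i : ℝ) ≤ X i g) :
    X i g ≤ c + d * ((i : ℝ) + τ) := by
  obtain ⟨ht0, ht1, ht2⟩ := BG2_th hG
  have hG1 : (1 : ℝ) ≤ (G r n : ℝ) := by exact_mod_cast hG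
  have hps : ∀ q, pos r n i (q + 1) = pos r n i q + 1 := by
    intro q
    unfold pos
    push_cast
    ring
  have hdt : d * τ ≤ 1 / 25 := by
    have h1 : d * τ ≤ 4 * (G r n : ℝ) * th r n := mul_le_mul hd hτ1 hτ.le (by linarith)
    have h2 : 4 * (G r n : ℝ) * th r n = 4 * ((G r n : ℝ) * th r n) := by ring
    rw [h2, ht2] at h1
    linarith
  have hdt0 : 0 ≤ d * τ := mul_nonneg hd0 hτ.le
  have hdth : d * th r n ≤ 1 / 25 := by
    have h1 : d * th r n ≤ 4 * (G r n : ℝ) * th r n := mul_le_mul_of_nonneg_right hd ht0.le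
    have h2 : 4 * (G r n : ℝ) * th r n = 4 * ((G r n : ℝ) * th r n) := by ring
    rw [h2, ht2] at h1
    linarith
  have hdth0 : 0 ≤ d * th r n := mul_nonneg hd0 ht0.le
  have hpg := BG2_pos hi hg
  have hXg := abs_le.1 (hX i g hi hg1 hg)
  have hAB : ∀ q, q ≤ G r n → AL r n i q < BL r n X i q := by
    intro q hq
    unfold AL BL
    by_cases h0 : q = 0
    · have h1 : q ≠ G r n := by omega
      rw [if_pos h0, if_neg h1]
      have h2 := BG2_pos (n := n) hi (g := q + 1) (by omega)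
      have h3 := abs_le.1 (hX i (q + 1) hi (by omega) (by omega))
      linarith
    · rw [if_neg h0]
      have h2 := BG2_pos hi hq
      by_cases h1 : q = G r n
      · rw [if_pos h1]
        linarith
      · rw [if_neg h1]
        have h3 := abs_le.1 (hX i (q + 1) hi (by omega) (by omega))
        rw [hps] at h3
        linarith
  have e1 : c + d * ((i : ℝ) + τ) = c + d * (i : ℝ) + d * τ := by ring
  have e2 : c + d * ((i : ℝ) - th r n) = c + d * (i : ℝ) - d * th r n := by ring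
  rcases crossing (AL r n i) (BL r n X i) (G r n) c d ((i : ℝ) + τ) ((i : ℝ) + τ + th r n) (by linarith) hAB hL
    with h | h | ⟨q, hq, h⟩
  · exfalso
    have h1 := h ((i : ℝ) + τ) le_rfl (by linarith)
    unfold AL at h1
    rw [if_pos rfl] at h1
    linarith
  · exfalso
    have h1 := h ((i : ℝ) + τ) le_rfl (by linarith)
    unfold BL at h1
    rw [if_pos rfl] at h1
    linarith
  · obtain ⟨h3, -⟩ := h ((i : ℝ) + τ) le_rfl (by linarith)
    obtain ⟨-, h4⟩ := h ((i : ℝ) + τ + th r n) (by linarith) le_rfl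
    unfold BL at h3
    unfold AL at h4
    rw [if_neg (by omega)] at h3 h4
    have h5 := abs_le.1 (hX i (q + 1) hi (by omega) (by omega))
    have e3 : c + d * ((i : ℝ) + τ + th r n) = c + d * (i : ℝ) + d * τ + d * th r n := by ring
    have hpp : pos r n i (q + 1) - pos r n i g = ((q + 1 : ℕ) : ℝ) - (g : ℝ) := by
      unfold pos
      ring
    have h6 : ((q + 1 : ℕ) : ℝ) < (g : ℝ) + 1 := by linarith
    have h7 : (g : ℝ) < ((q + 1 : ℕ) : ℝ) + 1 := by linarith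
    have h8 : q + 1 < g + 1 := by exact_mod_cast h6
    have h9 : g < q + 1 + 1 := by exact_mod_cast h7
    have h10 : q + 1 = g := by omega
    rw [h10] at h3
    exact h3

private theorem BG2_free {r n d N : ℕ} (e : Fin N ≃ Idx r n d) (X : ℕ → ℕ → ℝ) (τ : ℝ) {P : ℝ × ℝ}
    (h : P ∈ (inst e X τ).free) (a : Idx r n d) : P ∉ (rect r n d X τ a).inner := by
  have h1 := h (e.symm a)
  change P ∉ (rect r n d X τ (e (e.symm a))).inner at h1
  rwa [Equiv.apply_symm_apply] at h1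

/-- the segment is part of a line -/
private theorem BG2_line (p q b0 b4 : ℝ × ℝ) (h0 : b0 ∈ segment ℝ p q) (h4 : b4 ∈ segment ℝ p q)
    (h : b0.2 < b4.2) : ∃ c d : ℝ, (∀ z ∈ segment ℝ p q, z.1 = c + d * z.2) ∧
      ∀ y, b0.2 ≤ y → y ≤ b4.2 → (c + d * y, y) ∈ segment ℝ p q := by
  obtain ⟨a0, s0, ha0, hs0, has0, rfl⟩ := h0
  obtain ⟨a4, s4, ha4, hs4, has4, rfl⟩ := h4
  have e0 : a0 = 1 - s0 := by linarith
  have e4 : a4 = 1 - s4 := by linarith
  subst e0 e4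
  simp only [Prod.snd_add, Prod.smul_snd, smul_eq_mul] at h ⊢
  have h1 : 0 < (s4 - s0) * (q.2 - p.2) := by nlinarith
  have hq : q.2 - p.2 ≠ 0 := by
    intro h2
    rw [h2, mul_zero] at h1
    exact lt_irrefl _ h1
  obtain ⟨d, hd⟩ : ∃ d : ℝ, d = (q.1 - p.1) / (q.2 - p.2) := ⟨_, rfl⟩
  have hd' : q.1 - p.1 = d * (q.2 - p.2) := by
    rw [hd, div_mul_cancel₀ _ hq]
  have hline : ∀ z ∈ segment ℝ p q, z.1 = (p.1 - d * p.2) + d * z.2 := by
    rintro z ⟨a, s, ha, hs, has, rfl⟩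
    have e : a = 1 - s := by linarith
    subst e
    simp only [Prod.fst_add, Prod.smul_fst, Prod.snd_add, Prod.smul_snd, smul_eq_mul]
    linear_combination s * hd'
  refine ⟨p.1 - d * p.2, d, hline, ?_⟩
  intro y hy1 hy2
  have hc : Convex ℝ (segment ℝ p q) := convex_segment p q
  have hm0 : ((1 - s0) • p + s0 • q) ∈ segment ℝ p q := ⟨1 - s0, s0, ha0, hs0, by ring, rfl⟩
  have hm4 : ((1 - s4) • p + s4 • q) ∈ segment ℝ p q := ⟨1 - s4, s4, ha4, hs4, by ring, rfl⟩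
  obtain ⟨Y0, hY0⟩ : ∃ Y0 : ℝ, Y0 = (1 - s0) * p.2 + s0 * q.2 := ⟨_, rfl⟩
  obtain ⟨Y4, hY4⟩ : ∃ Y4 : ℝ, Y4 = (1 - s4) * p.2 + s4 * q.2 := ⟨_, rfl⟩
  rw [← hY0, ← hY4] at h
  rw [← hY0] at hy1
  rw [← hY4] at hy2
  have hpos : 0 < Y4 - Y0 := by linarith
  obtain ⟨t, ht⟩ : ∃ t : ℝ, t = (y - Y0) / (Y4 - Y0) := ⟨_, rfl⟩
  have ht0 : 0 ≤ t := by
    rw [ht]
    exact div_nonneg (by linarith) hpos.le
  have ht1 : t ≤ 1 := by
    rw [ht, div_le_one hpos]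
    linarith
  have hty : t * (Y4 - Y0) = y - Y0 := by
    rw [ht, div_mul_cancel₀ _ hpos.ne']
  have hmem := hc hm0 hm4 (show 0 ≤ 1 - t by linarith) ht0 (by ring)
  have hl := hline _ hmem
  have hy : ((1 - t) • ((1 - s0) • p + s0 • q) + t • ((1 - s4) • p + s4 • q)).2 = y := by
    simp only [Prod.snd_add, Prod.smul_snd, smul_eq_mul]
    rw [← hY0, ← hY4]
    linarith
  rw [hy] at hl
  have : ((p.1 - d * p.2) + d * y, y) = (1 - t) • ((1 - s0) • p + s0 • q) + t • ((1 - s4) • p + s4 • q) :=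
    Prod.ext hl.symm hy.symm
  rw [this]
  exact hmem

theorem top_five {r n d N : ℕ} (hr : 1 ≤ r) (hn : 1 ≤ n) (e : Fin N ≃ Idx r n d)
    (X : ℕ → ℕ → ℝ) (τ : ℝ) (hτ : 0 < τ) (hτ1 : τ ≤ th r n) (hX : Near r n X)
    (hB : Blocked r n τ X) (j : ℕ) (hj : j + 4 < r) (p q : ℝ × ℝ)
    (hfree : segment ℝ p q ⊆ (inst e X τ).free) (b : ℕ → ℝ × ℝ)
    (hb : ∀ k, k ≤ 4 → b k ∈ segment ℝ p q ∧ TopPt r n (j + k) (b k)) : False := by
  have hG := BG2_G hr hn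
  obtain ⟨ht0, ht1, ht2⟩ := BG2_th hG
  have hG1 : (1 : ℝ) ≤ (G r n : ℝ) := by exact_mod_cast hG
  obtain ⟨hb0, hb0'⟩ := hb 0 (by omega)
  obtain ⟨hb4, hb4'⟩ := hb 4 le_rfl
  have hy0 : (b 0).2 = (j : ℝ) - th r n / 2 := by
    have := hb0'.2
    push_cast at this
    linarith
  have hy4 : (b 4).2 = (j : ℝ) + 4 - th r n / 2 := by
    have := hb4'.2
    push_cast at this
    linarith
  obtain ⟨c, dd, hline, hseg⟩ := BG2_line p q (b 0) (b 4) hb0 hb4 (by rw [hy0, hy4]; linarith)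
  rw [hy0, hy4] at hseg
  have hfr : ∀ y, (j : ℝ) - th r n / 2 ≤ y → y ≤ (j : ℝ) + 4 - th r n / 2 → ∀ a : Idx r n d,
      (c + dd * y, y) ∉ (rect r n d X τ a).inner := fun y h1 h2 a =>
    BG2_free e X τ (hfree (hseg y h1 h2)) a
  -- wall R
  have hRk : ∀ k, 1 ≤ k → k ≤ 3 → ∃ g, 1 ≤ g ∧ g ≤ G r n ∧ ∀ y, ((j + k : ℕ) : ℝ) - th r n ≤ y →
      y ≤ ((j + k : ℕ) : ℝ) → pos r n (j + k) g - 1 / 4 ≤ c + dd * y ∧ c + dd * y ≤ X (j + k) g := by
    intro k hk1 hk3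
    obtain ⟨hbk, hbk'⟩ := hb k (by omega)
    have h1 := hline _ hbk
    have hk1' : (1 : ℝ) ≤ (k : ℝ) := by exact_mod_cast hk1
    have hk3' : (k : ℝ) ≤ 3 := by exact_mod_cast hk3
    have hbk2 : (b k).2 = ((j + k : ℕ) : ℝ) - th r n / 2 := by
      have := hbk'.2
      push_cast at this ⊢
      linarith
    refine BG2_R hG X hX (j + k) (by omega) c dd ?_ (((j + k : ℕ) : ℝ) - th r n / 2) (by linarith) (by linarith) ?_
    · intro q' hq' y hy1 hy2 ⟨h2, h3⟩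
      push_cast at hy1 hy2
      refine hfr y (by linarith) (by linarith) (Sum.inl (⟨j + k, by omega⟩, ⟨q', by omega⟩)) ?_
      refine ⟨h2, h3, ?_, ?_⟩
      · change ((j + k : ℕ) : ℝ) - th r n < y
        push_cast
        exact hy1
      · change y < ((j + k : ℕ) : ℝ)
        push_cast
        exact hy2
    · rw [← hbk2, ← h1]
      exact hbk'.1
  choose! g hg1 hg2 hgR using hRk
  -- the slope
  have hdd : 0 ≤ dd ∧ dd ≤ 4 * (G r n : ℝ) := by
    obtain ⟨h1, h2⟩ := hgR 1 le_rfl (by norm_num) ((j + 1 : ℕ) : ℝ) (by linarith) le_rfl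
    obtain ⟨h3, h4⟩ := hgR 3 (by norm_num) le_rfl ((j + 3 : ℕ) : ℝ) (by linarith) le_rfl
    have h5 := abs_le.1 (hX (j + 1) (g 1) (by omega) (hg1 1 le_rfl (by norm_num)) (hg2 1 le_rfl (by norm_num)))
    have h6 := abs_le.1 (hX (j + 3) (g 3) (by omega) (hg1 3 (by norm_num) le_rfl) (hg2 3 (by norm_num) le_rfl))
    have g1a : (1 : ℝ) ≤ (g 1 : ℝ) := by exact_mod_cast hg1 1 le_rfl (by norm_num)
    have g1b : (g 1 : ℝ) ≤ (G r n : ℝ) := by exact_mod_cast hg2 1 le_rfl (by norm_num)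
    have g3a : (1 : ℝ) ≤ (g 3 : ℝ) := by exact_mod_cast hg1 3 (by norm_num) le_rfl
    have g3b : (g 3 : ℝ) ≤ (G r n : ℝ) := by exact_mod_cast hg2 3 (by norm_num) le_rfl
    unfold pos at h1 h3 h5 h6
    push_cast at h1 h2 h3 h4 h5 h6
    constructor
    · nlinarith
    · nlinarith
  obtain ⟨hd0, hd4⟩ := hdd
  have hD : ∀ k, 1 ≤ k → k ≤ 3 → X (j + k) (g k) ≤ c + dd * (((j + k : ℕ) : ℝ) + τ) := by
    intro k hk1 hk3
    have hk1' : (1 : ℝ) ≤ (k : ℝ) := by exact_mod_cast hk1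
    have hk3' : (k : ℝ) ≤ 3 := by exact_mod_cast hk3
    refine BG2_L hG X τ hτ hτ1 hX (j + k) (by omega) c dd hd0 hd4 ?_ (g k) (hg1 k hk1 hk3) (hg2 k hk1 hk3)
      (hgR k hk1 hk3 _ le_rfl (by linarith)).1 (hgR k hk1 hk3 _ (by linarith) le_rfl).2
    intro q' hq' y hy1 hy2 ⟨h2, h3⟩
    push_cast at hy1 hy2
    refine hfr y (by linarith) (by linarith) (Sum.inr (Sum.inl (⟨j + k, by omega⟩, ⟨q', by omega⟩))) ?_
    refine ⟨h2, h3, ?_, ?_⟩
    · change ((j + k : ℕ) : ℝ) + τ < y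
      push_cast
      exact hy1
    · change y < ((j + k : ℕ) : ℝ) + τ + th r n
      push_cast
      exact hy2
  have hdt : dd * τ ≤ 4 * (G r n : ℝ) * τ := mul_le_mul_of_nonneg_right hd4 hτ.le
  have hU : ∀ k, 1 ≤ k → k ≤ 3 → c + dd * ((j + k : ℕ) : ℝ) ≤ X (j + k) (g k) := fun k hk1 hk3 =>
    (hgR k hk1 hk3 _ (by linarith) le_rfl).2
  have u1 := hU 1 le_rfl (by norm_num)
  have u2 := hU 2 (by norm_num) (by norm_num)
  have u3 := hU 3 (by norm_num) le_rfl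
  have l1 := hD 1 le_rfl (by norm_num)
  have l2 := hD 2 (by norm_num) (by norm_num)
  have l3 := hD 3 (by norm_num) le_rfl
  push_cast at u1 u2 u3 l1 l2 l3
  have hbl := hB (j + 1) (g 1) (g 2) (g 3) (by omega) (hg1 1 le_rfl (by norm_num)) (hg2 1 le_rfl (by norm_num))
    (hg1 2 (by norm_num) (by norm_num)) (hg2 2 (by norm_num) (by norm_num)) (hg1 3 (by norm_num) le_rfl)
    (hg2 3 (by norm_num) le_rfl)
  rw [show j + 1 + 1 = j + 2 from rfl, show j + 1 + 2 = j + 3 from rfl] at hbl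
  refine absurd hbl (not_lt.2 (abs_le.2 ⟨?_, ?_⟩))
  · nlinarith
  · nlinarith

end Pool.LibML82.B
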