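import Pool.Agent.LibML82.BG1
import Pool.Agent.LibML82.BG2

/-!
# Row BG4: every path has at least `r / 4` links

(a) `In_mono`: `In r n j p → In r n (j + k) p` (`W`, `D` and the height grow).
(b) `cross`: if `q` is inside ring `j` and `p` is not, then the free segment `[p, q]` has a point with `TopPt`
or `SidePt`. (The segment is connected, so it meets the frontier of the open box `In r n j`
(`IsPreconnected.inter_frontier_nonempty`); the frontier point is in the closed box and not in the open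
box; the lower side is impossible since it is inside the obstacle `side r n j 2`.)
(c) `no_side`: `j ≠ j'`, `q` inside both rings, `p` outside both rings, then the free segment has no point `b`
with `SidePt r n j b`. Proof: `side_height` for `b`. Case `j' < j`: `z = q` in `side_near`
(`|q.1| < W j' + 1/2 ≤ W r`): `|q.2 - b.2| ≤ 1/4`; but `q.2 < j' - th/2` and `q.2 > -D j' - ep - 1/2`, while
`b.2 ≥ j - th - ep` or `b.2 ≤ -D j`. Case `j < j'`: by `cross` for ring `j'` there is `b'` in the segment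
with `TopPt r n j' b'` or `SidePt r n j' b'`; `side_near` with `z = b'` gives `|b'.2 - b.2| ≤ 1/4`; but
`b'.2 = j' - th/2`, or (`side_height`) `b'.2 ∈ [j'-th-ep, j'-th]` or `b'.2 ∈ [-D j'-ep, -D j']`: all these are
at distance `> 1/4` from `b.2 ∈ [j-th-ep, j-th] ∪ [-D j-ep, -D j]`.
(d) `no_five`: there is no free segment `[p, q]` with `q` inside ring `j` and `p` outside ring `j + 4`. Proof:
`q` is inside and `p` outside all rings `j, …, j + 4`; `cross` and `no_side` give five points with `TopPt`;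
`top_five`.
(e) `links`: by induction on `i`, the vertex `p i` of a path is outside ring `j` whenever `j + 4 i < r`
(`p 0 = s = (0, r)` is outside all rings; `no_five`). The last vertex `t = (0, -1)` is inside ring `0`.
-/

namespace Pool.LibML82.B

private theorem BG4_G {r n : ℕ} (hr : 1 ≤ r) (hn : 1 ≤ n) : (1 : ℝ) ≤ (G r n : ℝ) := by
  have h : 1 ≤ G r n := by
    unfold G
    exact Nat.mul_pos hn hr
  exact_mod_cast h

private theorem BG4_th {r n : ℕ} (hr : 1 ≤ r) (hn : 1 ≤ n) : 0 < th r n ∧ th r n ≤ 1 / 100 := by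
  have hG := BG4_G hr hn
  unfold th
  constructor
  · positivity
  · apply one_div_le_one_div_of_le (by norm_num)
    linarith

private theorem BG4_W {r n : ℕ} (hr : 1 ≤ r) (hn : 1 ≤ n) (j : ℕ) : 10 ≤ W r n j := by
  have hG := BG4_G hr hn
  have hj : (0 : ℝ) ≤ j := Nat.cast_nonneg j
  have hr' : (0 : ℝ) ≤ r := Nat.cast_nonneg r
  unfold W
  have h1 : 0 ≤ 2 * (G r n : ℝ) * r := by positivity
  linarith

private theorem BG4_ep {r n : ℕ} (hr : 1 ≤ r) (hn : 1 ≤ n) : 0 < ep r n ∧ ep r n ≤ 1 / 100 := by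
  have hW := BG4_W hr hn r
  unfold ep
  constructor
  · apply one_div_pos.2
    linarith
  · apply one_div_le_one_div_of_le (by norm_num)
    linarith

private theorem BG4_Wadd {r n : ℕ} (j k : ℕ) : W r n (j + k) = W r n j + 3 * k := by
  unfold W
  push_cast
  ring

private theorem BG4_Dadd (j k : ℕ) : D (j + k) = D j + 3 * k := by
  unfold D
  push_cast
  ring

theorem In_mono {r n : ℕ} (j k : ℕ) (p : ℝ × ℝ) (h : In r n j p) : In r n (j + k) p := by
  obtain ⟨h1, h2, h3⟩ := h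
  have hk : (0 : ℝ) ≤ k := Nat.cast_nonneg k
  refine ⟨?_, ?_, ?_⟩
  · rw [BG4_Wadd]
    linarith
  · rw [BG4_Dadd]
    linarith
  · push_cast
    linarith

private theorem BG4_open {r n j : ℕ} : IsOpen {p : ℝ × ℝ | In r n j p} := by
  have h1 : {p : ℝ × ℝ | In r n j p} = {p : ℝ × ℝ | |p.1| < W r n j + 1 / 2} ∩
      ({p : ℝ × ℝ | -D j - ep r n - 1 / 2 < p.2} ∩ {p : ℝ × ℝ | p.2 < j - th r n / 2}) := by
    ext p
    rfl
  rw [h1]
  exact (isOpen_lt (continuous_abs.comp continuous_fst) continuous_const).inter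
    ((isOpen_lt continuous_const continuous_snd).inter (isOpen_lt continuous_snd continuous_const))

private theorem BG4_closure {r n j : ℕ} {p : ℝ × ℝ} (h : p ∈ closure {p : ℝ × ℝ | In r n j p}) :
    |p.1| ≤ W r n j + 1 / 2 ∧ -D j - ep r n - 1 / 2 ≤ p.2 ∧ p.2 ≤ j - th r n / 2 := by
  have hc : IsClosed ({p : ℝ × ℝ | |p.1| ≤ W r n j + 1 / 2} ∩
      ({p : ℝ × ℝ | -D j - ep r n - 1 / 2 ≤ p.2} ∩ {p : ℝ × ℝ | p.2 ≤ j - th r n / 2})) :=
    (isClosed_le (continuous_abs.comp continuous_fst) continuous_const).inter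
      ((isClosed_le continuous_const continuous_snd).inter (isClosed_le continuous_snd continuous_const))
  have hsub : {p : ℝ × ℝ | In r n j p} ⊆ ({p : ℝ × ℝ | |p.1| ≤ W r n j + 1 / 2} ∩
      ({p : ℝ × ℝ | -D j - ep r n - 1 / 2 ≤ p.2} ∩ {p : ℝ × ℝ | p.2 ≤ j - th r n / 2})) := by
    intro z hz
    exact ⟨hz.1.le, hz.2.1.le, hz.2.2.le⟩
  exact closure_minimal hsub hc h

theorem cross {r n d N : ℕ} (hr : 1 ≤ r) (hn : 1 ≤ n) (e : Fin N ≃ Idx r n d)
    (X : ℕ → ℕ → ℝ) (τ : ℝ) (j : ℕ) (hj : j < r) (p q : ℝ × ℝ)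
    (hfree : segment ℝ p q ⊆ (inst e X τ).free) (hq : In r n j q) (hp : ¬ In r n j p) :
    ∃ b ∈ segment ℝ p q, TopPt r n j b ∨ SidePt r n j b := by
  have hpre : IsPreconnected (segment ℝ p q) := (convex_segment p q).isPreconnected
  have hex : ∃ b ∈ segment ℝ p q, b ∈ closure {p : ℝ × ℝ | In r n j p} ∧
      b ∉ {p : ℝ × ℝ | In r n j p} := by
    by_contra hcon
    push Not at hcon
    have hcov : segment ℝ p q ⊆ {p : ℝ × ℝ | In r n j p} ∪
        (closure {p : ℝ × ℝ | In r n j p})ᶜ := by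
      intro z hz
      by_cases hzc : z ∈ closure {p : ℝ × ℝ | In r n j p}
      · exact Or.inl (hcon z hz hzc)
      · exact Or.inr hzc
    have hpc : p ∉ closure {p : ℝ × ℝ | In r n j p} := fun hpc =>
      hp (hcon p (left_mem_segment ℝ p q) hpc)
    obtain ⟨z, -, hz1, hz2⟩ := hpre _ _ BG4_open isClosed_closure.isOpen_compl hcov
      ⟨q, right_mem_segment ℝ p q, hq⟩ ⟨p, left_mem_segment ℝ p q, hpc⟩
    exact hz2 (subset_closure hz1)
  obtain ⟨b, hb, hbf⟩ := hex
  obtain ⟨h1, h2, h3⟩ := BG4_closure hbf.1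
  have hnot : ¬ In r n j b := hbf.2
  refine ⟨b, hb, ?_⟩
  by_cases ht : b.2 = j - th r n / 2
  · exact Or.inl ⟨h1, ht⟩
  by_cases hs : |b.1| = W r n j + 1 / 2
  · exact Or.inr ⟨hs, h2, h3⟩
  exfalso
  have hlow : b.2 = -D j - ep r n - 1 / 2 := by
    by_contra hcon
    exact hnot ⟨lt_of_le_of_ne h1 hs, lt_of_le_of_ne h2 (Ne.symm hcon), lt_of_le_of_ne h3 ht⟩
  have hf := hfree hb (e.symm (Sum.inr (Sum.inr (Sum.inl (⟨j, hj⟩, 2)))))
  apply hf
  have ho : (inst e X τ).obs (e.symm (Sum.inr (Sum.inr (Sum.inl (⟨j, hj⟩, 2))))) =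
      ⟨-W r n j - 1, W r n j + 1, -D j - 1 - ep r n, -D j - ep r n⟩ := by
    show rect r n d X τ (e (e.symm (Sum.inr (Sum.inr (Sum.inl (⟨j, hj⟩, 2)))))) = _
    rw [Equiv.apply_symm_apply]
    rfl
  rw [ho]
  rw [abs_le] at h1
  refine ⟨?_, ?_, ?_, ?_⟩
  · show -W r n j - 1 < b.1
    linarith [h1.1]
  · show b.1 < W r n j + 1
    linarith [h1.2]
  · show -D j - 1 - ep r n < b.2
    rw [hlow]
    linarith
  · show b.2 < -D j - ep r n
    rw [hlow]
    linarith

theorem no_side {r n d N : ℕ} (hr : 1 ≤ r) (hn : 1 ≤ n) (e : Fin N ≃ Idx r n d)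
    (X : ℕ → ℕ → ℝ) (τ : ℝ) (hX : Near r n X) (j j' : ℕ) (hj : j < r) (hj' : j' < r)
    (hne : j ≠ j') (p q b : ℝ × ℝ) (hfree : segment ℝ p q ⊆ (inst e X τ).free)
    (hq : In r n j q) (hq' : In r n j' q) (hp : ¬ In r n j p) (hp' : ¬ In r n j' p)
    (hb : b ∈ segment ℝ p q) : ¬ SidePt r n j b := by
  intro hs
  obtain ⟨hth, hth'⟩ := BG4_th hr hn
  obtain ⟨hep, hep'⟩ := BG4_ep hr hn
  have hheight := side_height hr hn e X τ hX j hj b hs (hfree hb)
  have hWr : W r n j' + 3 ≤ W r n r := by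
    obtain ⟨l, hl⟩ : ∃ l, r = j' + (l + 1) := ⟨r - j' - 1, by omega⟩
    have h1 : W r n r = W r n j' + 3 * ((l + 1 : ℕ) : ℝ) := by
      conv_lhs => rw [show W r n r = W r n (j' + (l + 1)) by rw [← hl]]
      rw [BG4_Wadd]
    rw [h1]
    push_cast
    have : (0 : ℝ) ≤ l := Nat.cast_nonneg l
    linarith
  have hj0 : (0 : ℝ) ≤ j := Nat.cast_nonneg j
  have hj0' : (0 : ℝ) ≤ j' := Nat.cast_nonneg j'
  rcases lt_or_gt_of_ne hne with hlt | hgt
  · -- `j < j'`
    have hjj : (j : ℝ) + 1 ≤ j' := by exact_mod_cast hlt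
    obtain ⟨b', hb', hb'T⟩ := cross hr hn e X τ j' hj' p q hfree hq' hp'
    have hb'1 : |b'.1| ≤ W r n r := by
      rcases hb'T with h | h
      · linarith [h.1]
      · linarith [h.1]
    have hnear := side_near hr hn e X τ hX j hj p q b b' hfree hs hb hb' hb'1
    rw [abs_le] at hnear
    have hb'2 : (j' - th r n - ep r n ≤ b'.2) ∨ (b'.2 ≤ -D j') := by
      rcases hb'T with h | h
      · left
        rw [h.2]
        linarith
      · rcases side_height hr hn e X τ hX j' hj' b' h (hfree hb') with h' | h'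
        · exact Or.inl h'.1
        · exact Or.inr h'.2
    unfold D at hheight hb'2
    rcases hheight with h | h <;> rcases hb'2 with h' | h' <;> linarith [h.1, h.2, hnear.1, hnear.2]
  · have hjj : (j' : ℝ) + 1 ≤ j := by exact_mod_cast hgt
    have hq1 : |q.1| ≤ W r n r := by linarith [hq'.1]
    have hnear := side_near hr hn e X τ hX j hj p q b q hfree hs hb (right_mem_segment ℝ p q) hq1
    rw [abs_le] at hnear
    have h1 := hq'.2.1
    have h2 := hq'.2.2
    unfold D at hheight h1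
    rcases hheight with h | h <;> linarith [h.1, h.2, hnear.1, hnear.2]

theorem no_five {r n d N : ℕ} (hr : 1 ≤ r) (hn : 1 ≤ n) (e : Fin N ≃ Idx r n d)
    (X : ℕ → ℕ → ℝ) (τ : ℝ) (hτ : 0 < τ) (hτ1 : τ ≤ th r n) (hX : Near r n X)
    (hB : Blocked r n τ X) (j : ℕ) (hj : j + 4 < r) (p q : ℝ × ℝ)
    (hfree : segment ℝ p q ⊆ (inst e X τ).free) (hq : In r n j q) : In r n (j + 4) p := by
  by_contra hcon
  have hqk : ∀ k, In r n (j + k) q := fun k => In_mono j k q hq
  have hpk : ∀ k, k ≤ 4 → ¬ In r n (j + k) p := by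
    intro k hk h
    apply hcon
    have h1 := In_mono (j + k) (4 - k) p h
    rwa [show j + k + (4 - k) = j + 4 by omega] at h1
  have hex : ∀ k, ∃ b : ℝ × ℝ, k ≤ 4 → b ∈ segment ℝ p q ∧ TopPt r n (j + k) b := by
    intro k
    by_cases hk : k ≤ 4
    · obtain ⟨b, hb, hbT⟩ := cross hr hn e X τ (j + k) (by omega) p q hfree (hqk k) (hpk k hk)
      refine ⟨b, fun _ => ⟨hb, ?_⟩⟩
      rcases hbT with h | h
      · exact h
      · exfalso
        by_cases hk0 : k = 0
        · exact no_side hr hn e X τ hX (j + k) (j + 4) (by omega) (by omega) (by omega) p q b hfree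
            (hqk k) (hqk 4) (hpk k hk) (hpk 4 le_rfl) hb h
        · exact no_side hr hn e X τ hX (j + k) (j + 0) (by omega) (by omega) (by omega) p q b hfree
            (hqk k) (hqk 0) (hpk k hk) (hpk 0 (by omega)) hb h
    · exact ⟨0, fun h => absurd h hk⟩
  choose b hb using hex
  exact top_five hr hn e X τ hτ hτ1 hX hB j hj p q hfree b hb

theorem links {r n d N : ℕ} (hr : 1 ≤ r) (hn : 1 ≤ n) (e : Fin N ≃ Idx r n d)
    (X : ℕ → ℕ → ℝ) (τ : ℝ) (hτ : 0 < τ) (hτ1 : τ ≤ th r n) (hX : Near r n X)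
    (hB : Blocked r n τ X) (k : ℕ) (p : Fin (k + 1) → ℝ × ℝ)
    (hp : (inst e X τ).IsPath k p) : r ≤ 4 * k := by
  obtain ⟨hth, hth'⟩ := BG4_th hr hn
  obtain ⟨hep, hep'⟩ := BG4_ep hr hn
  obtain ⟨hp0, hpl, hps⟩ := hp
  have key : ∀ (i : ℕ) (hi : i < k + 1) (j : ℕ), j + 4 * i < r → ¬ In r n j (p ⟨i, hi⟩) := by
    intro i
    induction i with
    | zero =>
      intro hi j hj h
      have h1 : p ⟨0, hi⟩ = (0, (r : ℝ)) := hp0
      rw [h1] at h
      have h2 : (r : ℝ) < j - th r n / 2 := h.2.2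
      have h3 : (j : ℝ) ≤ r := by
        have : j ≤ r := by omega
        exact_mod_cast this
      linarith
    | succ i ih =>
      intro hi j hj h
      have hseg := hps ⟨i, by omega⟩
      have h1 : (⟨i, by omega⟩ : Fin k).castSucc = ⟨i, by omega⟩ := rfl
      have h2 : (⟨i, by omega⟩ : Fin k).succ = ⟨i + 1, hi⟩ := rfl
      rw [h1, h2] at hseg
      have h3 := no_five hr hn e X τ hτ hτ1 hX hB j (by omega) _ _ hseg h
      exact ih (by omega) (j + 4) (by omega) h3
  by_contra hcon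
  push Not at hcon
  apply key k (by omega) 0 (by omega)
  have h1 : p ⟨k, by omega⟩ = (0, (-1 : ℝ)) := hpl
  rw [h1]
  have hW := BG4_W hr hn 0
  refine ⟨?_, ?_, ?_⟩
  · show |(0 : ℝ)| < W r n 0 + 1 / 2
    rw [abs_zero]
    linarith
  · show -D 0 - ep r n - 1 / 2 < (-1 : ℝ)
    unfold D
    push_cast
    linarith
  · show (-1 : ℝ) < ((0 : ℕ) : ℝ) - th r n / 2
    push_cast
    linarith

end Pool.LibML82.B
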