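import Pool.Agent.LibML82.Defs

/-!
# Decision trees: the adversary argument

`Tree.visited T I`: the queries made on `I`; `Tree.queries T`: all queries of the tree.
-/

namespace Pool.LibML82

variable {K N : ℕ}

/-- The queries made on `I`. -/
noncomputable def Tree.visited : Tree K N → Inst N → List (Query K N)
  | .leaf _ _, _ => []
  | .node Q next, I => Q :: (next (Q.ans I)).visited I

/-- All queries of the tree. -/
noncomputable def Tree.queries : Tree K N → List (Query K N)
  | .leaf _ _ => []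
  | .node Q next =>
      Q :: (Finset.univ : Finset (Fin Q.m → SignType)).toList.flatMap fun v => (next v).queries

theorem visited_length (T : Tree K N) (I : Inst N) : (T.visited I).length = T.cost I := by
  induction T with
  | leaf k out => rfl
  | node Q next ih =>
    simp only [Tree.visited, Tree.cost, List.length_cons]
    rw [ih]
    omega

theorem visited_sub (T : Tree K N) (I : Inst N) : ∀ Q ∈ T.visited I, Q ∈ T.queries := by
  induction T with
  | leaf k out => intro Q hQ; simp [Tree.visited] at hQ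
  | node Q next ih =>
    intro Q' hQ'
    simp only [Tree.visited, List.mem_cons] at hQ'
    simp only [Tree.queries, List.mem_cons, List.mem_flatMap]
    rcases hQ' with h | h
    · exact Or.inl h
    · exact Or.inr ⟨Q.ans I, Finset.mem_toList.2 (Finset.mem_univ _), ih _ Q' h⟩

theorem same_leaf (Φ : (I : Inst N) → (k : ℕ) → (Fin (k + 1) → ℝ × ℝ) → Prop)
    (T : Tree K N) (I J : Inst N) (h : ∀ Q ∈ T.visited I, Q.ans J = Q.ans I)
    (hI : T.Out Φ I) (hJ : T.Out Φ J) : ∃ k p p', Φ I k p ∧ Φ J k p' := by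
  induction T with
  | leaf k out => exact ⟨k, _, _, hI, hJ⟩
  | node Q next ih =>
    simp only [Tree.visited, List.mem_cons] at h
    have h0 := h Q (Or.inl rfl)
    simp only [Tree.Out] at hI hJ
    rw [h0] at hJ
    exact ih _ (fun Q' hQ' => h Q' (Or.inr hQ')) hI hJ

open Classical in
theorem cover_card {α : Type} [Fintype α] (Cov : α → (Fin K → Fin N) → Prop)
    (huniq : ∀ who a b, Cov a who → Cov b who → a = b) (L : List (Query K N)) :
    ((Finset.univ : Finset α).filter (fun a => ∃ Q ∈ L, Cov a Q.who)).card ≤ L.length := by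
  induction L with
  | nil => simp
  | cons Q L ih =>
    have hsub : ((Finset.univ : Finset α).filter (fun a => ∃ Q' ∈ Q :: L, Cov a Q'.who)) ⊆
        ((Finset.univ : Finset α).filter (fun a => Cov a Q.who)) ∪
        ((Finset.univ : Finset α).filter (fun a => ∃ Q' ∈ L, Cov a Q'.who)) := by
      intro q hq
      rw [Finset.mem_filter] at hq
      obtain ⟨hu, Q', hQ', hc⟩ := hq
      rw [Finset.mem_union, Finset.mem_filter, Finset.mem_filter]
      rcases List.mem_cons.1 hQ' with rfl | h
      · exact Or.inl ⟨hu, hc⟩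
      · exact Or.inr ⟨hu, Q', h, hc⟩
    have hone : ((Finset.univ : Finset α).filter (fun a => Cov a Q.who)).card ≤ 1 := by
      rw [Finset.card_le_one]
      intro q hq q' hq'
      rw [Finset.mem_filter] at hq hq'
      exact huniq _ _ _ hq.2 hq'.2
    calc _ ≤ _ := Finset.card_le_card hsub
      _ ≤ _ := Finset.card_union_le _ _
      _ ≤ 1 + L.length := Nat.add_le_add hone ih
      _ = (Q :: L).length := by rw [List.length_cons, Nat.add_comm]

open Classical in
/-- **The adversary argument.** Base instance `I0`, one collapsed instance `J a` for every `a`; a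
query which does not cover `a` has the same answer on both. Every randomised algorithm which outputs
a path with the property `Φ` with probability at least `1 - δ` on every instance of `H` makes at
least `(1 - 2 δ) |α|` queries in expectation on some instance of `H`. -/
theorem adversary {α : Type} [Fintype α] (H : Set (Inst N))
    (Φ : (I : Inst N) → (k : ℕ) → (Fin (k + 1) → ℝ × ℝ) → Prop)
    (Cov : α → (Fin K → Fin N) → Prop)
    (huniq : ∀ who a b, Cov a who → Cov b who → a = b)
    (hadv : ∀ L : List (Query K N), ∃ I0 ∈ H, ∃ J : α → Inst N, (∀ a, J a ∈ H) ∧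
      (∀ Q ∈ L, ∀ a, ¬ Cov a Q.who → Q.ans (J a) = Q.ans I0) ∧
      ∀ a k p p', Φ I0 k p → ¬ Φ (J a) k p')
    (Ω : Type) [Fintype Ω] (w : Ω → ℝ) (T : Ω → Tree K N) (δ : ℝ)
    (hw0 : ∀ ω, 0 ≤ w ω) (hw1 : ∑ ω, w ω = 1)
    (hcor : ∀ I ∈ H, 1 - δ ≤ ∑ ω, if (T ω).Out Φ I then w ω else 0) :
    ∃ I ∈ H, (1 - 2 * δ) * (Fintype.card α : ℝ) ≤ ∑ ω, w ω * ((T ω).cost I : ℝ) := by
  obtain ⟨I0, hI0, J, hJ, hans, hsep⟩ := hadv
    ((Finset.univ : Finset Ω).toList.flatMap fun ω => (T ω).queries)
  refine ⟨I0, hI0, ?_⟩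
  let K : Ω → Finset α := fun ω =>
    (Finset.univ : Finset α).filter (fun a => ∃ Q ∈ (T ω).visited I0, Cov a Q.who)
  have hKcard : ∀ ω, ((K ω).card : ℝ) ≤ ((T ω).cost I0 : ℝ) := by
    intro ω
    have h := cover_card Cov huniq ((T ω).visited I0)
    rw [visited_length] at h
    exact_mod_cast h
  have hbad : ∀ ω a, a ∉ K ω → ¬ ((T ω).Out Φ I0 ∧ (T ω).Out Φ (J a)) := by
    rintro ω a ha ⟨h1, h2⟩
    have hnc : ∀ Q ∈ (T ω).visited I0, ¬ Cov a Q.who := by
      intro Q hQ hcov
      exact ha (Finset.mem_filter.2 ⟨Finset.mem_univ _, Q, hQ, hcov⟩)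
    obtain ⟨k, p, p', hp, hp'⟩ := same_leaf Φ (T ω) I0 (J a) (fun Q hQ => by
      refine hans Q ?_ a (hnc Q hQ)
      rw [List.mem_flatMap]
      exact ⟨ω, Finset.mem_toList.2 (Finset.mem_univ ω), visited_sub _ _ Q hQ⟩) h1 h2
    exact hsep a k p p' hp hp'
  have hq : ∀ a : α, 1 - 2 * δ ≤ ∑ ω, if a ∈ K ω then w ω else 0 := by
    intro a
    have h1 := hcor _ hI0
    have h2 := hcor _ (hJ a)
    have h3 : ∀ ω, (if (T ω).Out Φ I0 then w ω else 0) +
        (if (T ω).Out Φ (J a) then w ω else 0) ≤ w ω + if a ∈ K ω then w ω else 0 := by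
      intro ω
      have hw := hw0 ω
      by_cases hK : a ∈ K ω
      · rw [if_pos hK]
        split_ifs <;> linarith
      · rw [if_neg hK]
        have := hbad ω a hK
        by_cases hA : (T ω).Out Φ I0
        · have hB : ¬ (T ω).Out Φ (J a) := fun hB => this ⟨hA, hB⟩
          rw [if_pos hA, if_neg hB]
        · rw [if_neg hA]
          split_ifs <;> linarith
    have h4 : (∑ ω, if (T ω).Out Φ I0 then w ω else 0) +
        (∑ ω, if (T ω).Out Φ (J a) then w ω else 0) ≤
          ∑ ω, w ω + ∑ ω, if a ∈ K ω then w ω else 0 := by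
      rw [← Finset.sum_add_distrib, ← Finset.sum_add_distrib]
      exact Finset.sum_le_sum fun ω _ => h3 ω
    rw [hw1] at h4
    linarith
  calc (1 - 2 * δ) * (Fintype.card α : ℝ)
      = ∑ _a : α, (1 - 2 * δ) := by
        rw [Finset.sum_const, Finset.card_univ, nsmul_eq_mul]
        ring
    _ ≤ ∑ a : α, ∑ ω, (if a ∈ K ω then w ω else 0) :=
        Finset.sum_le_sum fun a _ => hq a
    _ = ∑ ω, w ω * ((K ω).card : ℝ) := by
        rw [Finset.sum_comm]
        refine Finset.sum_congr rfl fun ω _ => ?_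
        rw [← Finset.sum_filter, Finset.sum_const, nsmul_eq_mul, mul_comm]
        congr 3
        ext a
        simp
    _ ≤ ∑ ω, w ω * ((T ω).cost I0 : ℝ) :=
        Finset.sum_le_sum fun ω _ => mul_le_mul_of_nonneg_left (hKcard ω) (hw0 ω)

end Pool.LibML82
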