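import Mathlib

/-!
# Minimum-link paths: model

Axis-parallel rectangles as obstacles, polygonal paths with `k` links in the free space, minimum-link
paths, and decision trees whose single queries ask for the signs of finitely many polynomials in the
coordinates of `s`, `t` and of at most `K` obstacles.
-/

namespace Pool.LibML82

/-- An axis-parallel rectangle `[x0, x1] × [y0, y1]`. -/
structure Rect where
  x0 : ℝ
  x1 : ℝ
  y0 : ℝ
  y1 : ℝ

/-- The closed rectangle. -/
def Rect.closed (R : Rect) : Set (ℝ × ℝ) :=
  {p | R.x0 ≤ p.1 ∧ p.1 ≤ R.x1 ∧ R.y0 ≤ p.2 ∧ p.2 ≤ R.y1}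

/-- The open interior of the rectangle. -/
def Rect.inner (R : Rect) : Set (ℝ × ℝ) :=
  {p | R.x0 < p.1 ∧ p.1 < R.x1 ∧ R.y0 < p.2 ∧ p.2 < R.y1}

/-- The four coordinates which describe the rectangle. -/
def Rect.coord (R : Rect) : Fin 4 → ℝ := ![R.x0, R.x1, R.y0, R.y1]

/-- An instance: two points and `N` rectangular obstacles. -/
structure Inst (N : ℕ) where
  s : ℝ × ℝ
  t : ℝ × ℝ
  obs : Fin N → Rect

variable {N : ℕ}

/-- The free space: the plane without the open interiors of the obstacles. -/
def Inst.free (I : Inst N) : Set (ℝ × ℝ) := {p | ∀ i, p ∉ (I.obs i).inner}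

/-- Valid instances: nondegenerate pairwise disjoint closed rectangles, `s` and `t` free. -/
structure Inst.Valid (I : Inst N) : Prop where
  nondeg : ∀ i, (I.obs i).x0 < (I.obs i).x1 ∧ (I.obs i).y0 < (I.obs i).y1
  disj : ∀ i j, i ≠ j → Disjoint (I.obs i).closed (I.obs j).closed
  s_free : I.s ∈ I.free
  t_free : I.t ∈ I.free

/-- `p 0, …, p k` are the vertices of a polygonal path with `k` links from `s` to `t`. -/
def Inst.IsPath (I : Inst N) (k : ℕ) (p : Fin (k + 1) → ℝ × ℝ) : Prop :=
  p 0 = I.s ∧ p (Fin.last k) = I.t ∧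
    ∀ j : Fin k, segment ℝ (p j.castSucc) (p j.succ) ⊆ I.free

/-- A minimum-link path. -/
def Inst.IsMinPath (I : Inst N) (k : ℕ) (p : Fin (k + 1) → ℝ × ℝ) : Prop :=
  I.IsPath k p ∧ ∀ k' p', I.IsPath k' p' → k ≤ k'

/-- A path with at most `c` times as many links as any other path. -/
def Inst.IsApprox (c : ℝ) (I : Inst N) (k : ℕ) (p : Fin (k + 1) → ℝ × ℝ) : Prop :=
  I.IsPath k p ∧ ∀ k' p', I.IsPath k' p' → (k : ℝ) ≤ c * k'

/-- A query: (at most) `K` obstacles, and finitely many real polynomials, of any degrees, in the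
four coordinates of `s` and `t` and the four coordinates of each of these obstacles. -/
structure Query (K N : ℕ) where
  who : Fin K → Fin N
  m : ℕ
  poly : Fin m → MvPolynomial (Fin 4 ⊕ Fin K × Fin 4) ℝ

/-- The numbers which are plugged into the polynomials of a query. -/
def Inst.coords {K : ℕ} (I : Inst N) (who : Fin K → Fin N) : Fin 4 ⊕ Fin K × Fin 4 → ℝ :=
  Sum.elim ![I.s.1, I.s.2, I.t.1, I.t.2] (fun q => (I.obs (who q.1)).coord q.2)

variable {K : ℕ}

/-- The answer to a query: the signs of all its polynomials. -/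
noncomputable def Query.ans (Q : Query K N) (I : Inst N) : Fin Q.m → SignType :=
  fun a => SignType.sign (MvPolynomial.eval (I.coords Q.who) (Q.poly a))

/-- Decision trees. A leaf outputs a number `k` of links and `k + 1` points, which may be
arbitrary functions of the whole instance. An inner node branches by the answer to a query. -/
inductive Tree (K N : ℕ) : Type
  | leaf (k : ℕ) (out : Inst N → Fin (k + 1) → ℝ × ℝ) : Tree K N
  | node (Q : Query K N) (next : (Fin Q.m → SignType) → Tree K N) : Tree K N

/-- The output of the tree on `I` has the property `Φ`. -/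
def Tree.Out (Φ : (I : Inst N) → (k : ℕ) → (Fin (k + 1) → ℝ × ℝ) → Prop) :
    Tree K N → Inst N → Prop
  | .leaf k out, I => Φ I k (out I)
  | .node Q next, I => (next (Q.ans I)).Out Φ I

/-- The number of queries made on the instance `I`. -/
noncomputable def Tree.cost : Tree K N → Inst N → ℕ
  | .leaf _ _, _ => 0
  | .node Q next, I => 1 + (next (Q.ans I)).cost I

end Pool.LibML82
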