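import Pool.Agent.LibML82.Defs

/-!
# The hard family: three thick walls with moving gap sides
-/

namespace Pool.LibML82

/-- A single polynomial test (used inside the proofs): three obstacles and one polynomial. -/
structure Test (N : ℕ) where
  who : Fin 3 → Fin N
  poly : MvPolynomial (Fin 4 ⊕ Fin 3 × Fin 4) ℝ

/-- The value of the polynomial of a test. -/
noncomputable def Test.val {N : ℕ} (T : Test N) (I : Inst N) : ℝ :=
  MvPolynomial.eval (I.coords T.who) T.poly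

/-- The moving numbers: right sides of the gaps of wall 1 (`x`) and of wall 3 (`z`), left sides of
the gaps of wall 2 (`y`). -/
structure Par where
  x : ℕ → ℝ
  y : ℕ → ℝ
  z : ℕ → ℝ

/-- Which moving number does an obstacle depend on (`st`: on none). -/
inductive Lab
  | st
  | x (i : ℕ)
  | y (m : ℕ)
  | z (k : ℕ)

/-- The moving number with a given label. -/
def Par.val (P : Par) : Lab → ℝ
  | .st => 0
  | .x i => P.x i
  | .y m => P.y m
  | .z k => P.z k

/-- The moving numbers are near their standard positions. -/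
def Near (n : ℕ) (P : Par) : Prop :=
  (∀ i, i < n → |P.x i - 2 * i| ≤ 1 / 16) ∧
  (∀ m, m < 2 * n - 1 → |P.y m - (2 * n + m)| ≤ 1 / 16) ∧
  (∀ k, k < n → |P.z k - (4 * n + 2 * k)| ≤ 1 / 16)

/-- A straight line passes the gaps `i`, `i + k`, `k` of the three walls. -/
def Pass (P : Par) (i k : ℕ) : Prop := 2 * P.y (i + k) ≤ P.x i + P.z k

/-- The thickness of the walls. -/
noncomputable def th (n : ℕ) : ℝ := 1 / (100 * n)

/-- Left end of the `q`-th piece of wall 1. -/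
noncomputable def A1 (n : ℕ) (P : Par) (q : ℕ) : ℝ := if q = 0 then -10 * n else P.x (q - 1)
/-- Right end of the `q`-th piece of wall 1. -/
noncomputable def B1 (n : ℕ) (q : ℕ) : ℝ := if q = n then 10 * n else 2 * q - 1 / 4
/-- Left end of the `q`-th piece of wall 2. -/
noncomputable def A2 (n : ℕ) (q : ℕ) : ℝ := if q = 0 then -30 * n else 2 * n + q - 3 / 4
/-- Right end of the `q`-th piece of wall 2. -/
noncomputable def B2 (n : ℕ) (P : Par) (q : ℕ) : ℝ := if q = 2 * n - 1 then 30 * n else P.y q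
/-- Left end of the `q`-th piece of wall 3. -/
noncomputable def A3 (n : ℕ) (P : Par) (q : ℕ) : ℝ := if q = 0 then -20 * n else P.z (q - 1)
/-- Right end of the `q`-th piece of wall 3. -/
noncomputable def B3 (n : ℕ) (q : ℕ) : ℝ := if q = n then 20 * n else 4 * n + 2 * q - 1 / 4

/-- Names of the obstacles: wall 1, wall 2, wall 3, six blocks, `r` dummies far above. -/
abbrev Idx (n r : ℕ) := Fin (n + 1) ⊕ Fin (2 * n) ⊕ Fin (n + 1) ⊕ Fin 6 ⊕ Fin r

/-- The six blocks which close the two corridors. -/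
noncomputable def block (n : ℕ) : Fin 6 → Rect :=
  ![⟨-10 * n, 10 * n, -th n - 2, -th n - 1⟩,
    ⟨-10 * n - 2, -10 * n - 1, -th n - 4, 0⟩,
    ⟨10 * n + 1, 10 * n + 2, -th n - 4, 0⟩,
    ⟨-20 * n, 20 * n, 3, 4⟩,
    ⟨-20 * n - 2, -20 * n - 1, 3 / 2, 6⟩,
    ⟨20 * n + 1, 20 * n + 2, 3 / 2, 6⟩]

/-- The obstacles. -/
noncomputable def rect (n r : ℕ) (P : Par) : Idx n r → Rect
  | .inl q => ⟨A1 n P q, B1 n q, -th n, 0⟩
  | .inr (.inl q) => ⟨A2 n q, B2 n P q, 1, 1 + th n⟩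
  | .inr (.inr (.inl q)) => ⟨A3 n P q, B3 n q, 2 - th n, 2⟩
  | .inr (.inr (.inr (.inl j))) => block n j
  | .inr (.inr (.inr (.inr j))) => ⟨0, 1, 100 + 2 * (j : ℕ), 101 + 2 * (j : ℕ)⟩

/-- The label of an obstacle. -/
def lab (n r : ℕ) : Idx n r → Lab
  | .inl q => if (q : ℕ) = 0 then .st else .x (q - 1)
  | .inr (.inl q) => if (q : ℕ) = 2 * n - 1 then .st else .y q
  | .inr (.inr (.inl q)) => if (q : ℕ) = 0 then .st else .z (q - 1)
  | .inr (.inr (.inr _)) => .st

/-- The instance with parameters `P`. -/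
noncomputable def inst {n r N : ℕ} (e : Fin N ≃ Idx n r) (P : Par) : Inst N where
  s := (-5 * n, -th n)
  t := (-5 * n, 2)
  obs := fun i => rect n r P (e i)

/-- The path with three links through the points `(x, 0)` and `(z, 2)`. -/
noncomputable def path3 (n : ℕ) (x z : ℝ) : Fin 4 → ℝ × ℝ :=
  ![(-5 * n, -th n), (x - (th n + 1 / 2) * ((z - x) / 2), -th n - 1 / 2),
    (x + 5 / 2 * ((z - x) / 2), 5 / 2), (-5 * n, 2)]

/-- The path with four links. -/
noncomputable def path4 (n : ℕ) : Fin 5 → ℝ × ℝ :=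
  ![(-5 * n, -th n), (-1 / 10 - (2 * n + 1 / 5) * (th n + 1 / 2), -th n - 1 / 2),
    (3 * n + 1 / 5, 3 / 2), (5 * n - 2 / 5, 5 / 2), (-5 * n, 2)]

/-- The test `T` looks at the three obstacles `x i0`, `y (i0 + k0)`, `z k0`. -/
def Covers {n r N : ℕ} (e : Fin N ≃ Idx n r) (T : Test N) (i0 k0 : ℕ) : Prop :=
  (∃ j, lab n r (e (T.who j)) = .x i0) ∧ (∃ j, lab n r (e (T.who j)) = .y (i0 + k0)) ∧
    (∃ j, lab n r (e (T.who j)) = .z k0)

/-- The base point (no straight passage). -/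
noncomputable def Pb (θ : Fin 3 → ℝ) (η : ℝ) : Par where
  x := fun i => θ 0 + 2 * θ 1 * i - η * (i : ℝ) ^ 2
  y := fun m => (θ 0 + θ 2) / 2 + θ 1 * m - η * ((m : ℝ) ^ 2 / 8 - 1)
  z := fun k => θ 2 + 2 * θ 1 * k - η * (k : ℝ) ^ 2

/-- The collapsed point of the pair `(i0, k0)` (one straight passage). -/
noncomputable def Pc (i0 k0 : ℕ) (θ : Fin 3 → ℝ) (η : ℝ) : Par where
  x := fun i => θ 0 + 2 * θ 1 * i - η * ((i : ℝ) - i0) ^ 2
  y := fun m => (θ 0 + θ 2) / 2 + θ 1 * m - η * (((m : ℝ) - i0 - k0) ^ 2 / 8)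
  z := fun k => θ 2 + 2 * θ 1 * k - η * ((k : ℝ) - k0) ^ 2

end Pool.LibML82
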