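import Pool.Agent.LibML82.Fam

/-!
# Row G1: the two corridors

(a) `corridor`: a segment which starts at `(σ, h)`, on the lower side of a wall piece, and avoids the
wall piece, a floor and two end blocks ends at a point `(X, Y)` with `Y ≤ h` and `|X| ≤ L + 1`.
Proof. If `Y > h`: points with small `τ > 0` are inside the wall piece (`H1`). So `Y ≤ h`. Suppose
`X > L + 1` (the case `X < -L - 1` is symmetric: or apply the case to `-σ, -X, -wx1, -wx0`). Put
`τ₁ = (L + 1 - σ) / (X - σ)`, in `(0, 1)`; the point of parameter `τ₁` has first coordinate `L + 1` and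
height `y₁ = h - τ₁ (h - Y)`. If `y₁ > h - 4`, a slightly larger `τ` gives a point in the right block
(`H4`). If `y₁ ≤ h - 4`, then `h - Y ≥ 4 / τ₁` and `τ₂ = (3/2) / (h - Y) ≤ (3/8) τ₁`; the point of
parameter `τ₂` has height `h - 3/2` and first coordinate between `σ` and
`σ + (3/8) (L + 1 - σ) < L`: it is in the floor (`H2`).

(b) `sight_s`, `sight_t`: what `s` and `t` see. For `sight_s` apply `corridor` with
`L = 10 n, h = -th n, σ = -5 n`, wall piece `= rect n r P (.inl 0)`, `wt = 0`, `ft = 0`, blocks `0, 1, 2`.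
For `sight_t` reflect in the x-axis: `L = 20 n, h = -2, σ = -5 n, Y = -Q.2`, wall piece
`rect n r P (.inr (.inr (.inl 0)))`, `wt = -2 + th n`, `ft = -3/2`, blocks `3, 4, 5`.
-/

namespace Pool.LibML82

private theorem G1_eps {a b c D1 D2 : ℝ} (ha : 0 < a) (hb : 0 < b) (hc : 0 < c) (hD1 : 0 ≤ D1)
    (hD2 : 0 ≤ D2) : ∃ ε : ℝ, 0 < ε ∧ ε ≤ a ∧ ε * D1 < b ∧ ε * D2 < c := by
  refine ⟨min a (min (b / (D1 + 1)) (c / (D2 + 1))), ?_, min_le_left _ _, ?_, ?_⟩
  · exact lt_min ha (lt_min (by positivity) (by positivity))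
  · have h1 : min a (min (b / (D1 + 1)) (c / (D2 + 1))) ≤ b / (D1 + 1) :=
      (min_le_right _ _).trans (min_le_left _ _)
    have h2 : b / (D1 + 1) * D1 < b := by
      rw [div_mul_eq_mul_div, div_lt_iff₀ (by positivity)]
      nlinarith
    exact (mul_le_mul_of_nonneg_right h1 hD1).trans_lt h2
  · have h1 : min a (min (b / (D1 + 1)) (c / (D2 + 1))) ≤ c / (D2 + 1) :=
      (min_le_right _ _).trans (min_le_right _ _)
    have h2 : c / (D2 + 1) * D2 < c := by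
      rw [div_mul_eq_mul_div, div_lt_iff₀ (by positivity)]
      nlinarith
    exact (mul_le_mul_of_nonneg_right h1 hD2).trans_lt h2

private theorem G1_right (L h σ X Y ft : ℝ) (hL : 3 ≤ L) (hσ : |σ| ≤ L / 2) (hft : h < ft)
    (hY : Y ≤ h)
    (H2 : ∀ τ : ℝ, 0 ≤ τ → τ ≤ 1 → ¬ (-L < (1 - τ) * σ + τ * X ∧ (1 - τ) * σ + τ * X < L ∧
      h - 2 < (1 - τ) * h + τ * Y ∧ (1 - τ) * h + τ * Y < h - 1))
    (H4 : ∀ τ : ℝ, 0 ≤ τ → τ ≤ 1 → ¬ (L + 1 < (1 - τ) * σ + τ * X ∧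
      (1 - τ) * σ + τ * X < L + 2 ∧ h - 4 < (1 - τ) * h + τ * Y ∧ (1 - τ) * h + τ * Y < ft)) :
    X ≤ L + 1 := by
  by_contra hX
  push Not at hX
  obtain ⟨hσ1, hσ2⟩ := abs_le.1 hσ
  have hD : 0 < X - σ := by linarith
  obtain ⟨τ₁, hτ₁⟩ : ∃ τ₁, τ₁ = (L + 1 - σ) / (X - σ) := ⟨_, rfl⟩
  have h1 : τ₁ * (X - σ) = L + 1 - σ := by
    rw [hτ₁, div_mul_cancel₀ _ hD.ne']
  have h2 : 0 < τ₁ := by
    rw [hτ₁]
    exact div_pos (by linarith) hD
  have h3 : τ₁ < 1 := by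
    rw [hτ₁, div_lt_one hD]
    linarith
  rcases lt_or_ge (τ₁ * (h - Y)) 4 with h4 | h4
  · obtain ⟨ε, he0, he1, he2, he3⟩ := G1_eps (a := 1 - τ₁) (b := 1) (c := 4 - τ₁ * (h - Y))
      (D1 := X - σ) (D2 := h - Y) (by linarith) one_pos (by linarith) hD.le (by linarith)
    have h5 : 0 < ε * (X - σ) := mul_pos he0 hD
    have h6 : 0 ≤ (τ₁ + ε) * (h - Y) := mul_nonneg (by linarith) (by linarith)
    refine H4 (τ₁ + ε) (by linarith) (by linarith) ⟨?_, ?_, ?_, ?_⟩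
    · nlinarith
    · nlinarith
    · nlinarith
    · nlinarith
  · have h5 : 0 < h - Y := by
      by_contra hcon
      nlinarith
    obtain ⟨τ₂, hτ₂⟩ : ∃ τ₂, τ₂ = (3 / 2) / (h - Y) := ⟨_, rfl⟩
    have h6 : τ₂ * (h - Y) = 3 / 2 := by
      rw [hτ₂, div_mul_cancel₀ _ h5.ne']
    have h7 : 0 < τ₂ := by
      rw [hτ₂]
      exact div_pos (by norm_num) h5
    have h8 : τ₂ ≤ 3 / 8 * τ₁ := by
      rw [hτ₂, div_le_iff₀ h5]
      linarith
    have h9 : τ₂ * (X - σ) ≤ 3 / 8 * (L + 1 - σ) := by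
      have := mul_le_mul_of_nonneg_right h8 hD.le
      linarith
    have h10 : 0 < τ₂ * (X - σ) := mul_pos h7 hD
    refine H2 τ₂ h7.le (by linarith) ⟨?_, ?_, ?_, ?_⟩
    · linarith
    · linarith
    · linarith
    · linarith

theorem corridor (L h σ X Y wx0 wx1 wt ft : ℝ) (hL : 3 ≤ L) (hσ : |σ| ≤ L / 2)
    (hw0 : wx0 < σ) (hw1 : σ < wx1) (hwt : h < wt) (hft : h < ft)
    (H1 : ∀ τ : ℝ, 0 ≤ τ → τ ≤ 1 → ¬ (wx0 < (1 - τ) * σ + τ * X ∧ (1 - τ) * σ + τ * X < wx1 ∧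
      h < (1 - τ) * h + τ * Y ∧ (1 - τ) * h + τ * Y < wt))
    (H2 : ∀ τ : ℝ, 0 ≤ τ → τ ≤ 1 → ¬ (-L < (1 - τ) * σ + τ * X ∧ (1 - τ) * σ + τ * X < L ∧
      h - 2 < (1 - τ) * h + τ * Y ∧ (1 - τ) * h + τ * Y < h - 1))
    (H3 : ∀ τ : ℝ, 0 ≤ τ → τ ≤ 1 → ¬ (-L - 2 < (1 - τ) * σ + τ * X ∧
      (1 - τ) * σ + τ * X < -L - 1 ∧ h - 4 < (1 - τ) * h + τ * Y ∧ (1 - τ) * h + τ * Y < ft))
    (H4 : ∀ τ : ℝ, 0 ≤ τ → τ ≤ 1 → ¬ (L + 1 < (1 - τ) * σ + τ * X ∧
      (1 - τ) * σ + τ * X < L + 2 ∧ h - 4 < (1 - τ) * h + τ * Y ∧ (1 - τ) * h + τ * Y < ft)) :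
    Y ≤ h ∧ |X| ≤ L + 1 := by
  have hY : Y ≤ h := by
    by_contra hY
    push Not at hY
    obtain ⟨ε, he0, he1, he2, he3⟩ := G1_eps (a := 1) (b := min (σ - wx0) (wx1 - σ))
      (c := wt - h) (D1 := |X - σ|) (D2 := Y - h) one_pos
      (lt_min (by linarith) (by linarith)) (by linarith) (abs_nonneg _) (by linarith)
    have h1 := he2.trans_le (min_le_left _ _)
    have h2 := he2.trans_le (min_le_right _ _)
    have h3 : ε * (X - σ) ≤ ε * |X - σ| := mul_le_mul_of_nonneg_left (le_abs_self _) he0.le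
    have h4 : -(ε * |X - σ|) ≤ ε * (X - σ) := by
      have := mul_le_mul_of_nonneg_left (neg_abs_le (X - σ)) he0.le
      linarith
    have h5 : 0 < ε * (Y - h) := mul_pos he0 (by linarith)
    refine H1 ε he0.le he1 ⟨?_, ?_, ?_, ?_⟩
    · linarith
    · linarith
    · linarith
    · linarith
  refine ⟨hY, abs_le.2 ⟨?_, G1_right L h σ X Y ft hL hσ hft hY H2 H4⟩⟩
  have h1 := G1_right L h (-σ) (-X) Y ft hL (by rwa [abs_neg]) hft hY
    (fun τ h0 h1 hh => H2 τ h0 h1 ⟨by linarith [hh.2.1], by linarith [hh.1], hh.2.2⟩)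
    (fun τ h0 h1 hh => H3 τ h0 h1 ⟨by linarith [hh.2.1], by linarith [hh.1], hh.2.2⟩)
  linarith

private theorem G1_th {n : ℕ} (hn : 1 ≤ n) : 0 < th n := by
  unfold th
  have : (0 : ℝ) < n := by exact_mod_cast hn
  positivity

theorem sight_s {n r N : ℕ} (hn : 1 ≤ n) (e : Fin N ≃ Idx n r) (P : Par) (Q : ℝ × ℝ)
    (H : segment ℝ (inst e P).s Q ⊆ (inst e P).free) : Q.2 ≤ -th n ∧ |Q.1| ≤ 10 * n + 1 := by
  have hn' : (1 : ℝ) ≤ n := by exact_mod_cast hn
  have hth := G1_th hn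
  have hn0 : ¬ 0 = n := by omega
  have key : ∀ (idx : Idx n r) (τ : ℝ), 0 ≤ τ → τ ≤ 1 →
      ((1 - τ) * (-5 * (n : ℝ)) + τ * Q.1, (1 - τ) * (-th n) + τ * Q.2) ∉
        (rect n r P idx).inner := by
    intro idx τ h0 h1 hmem
    have h2 : ((1 - τ) * (-5 * (n : ℝ)) + τ * Q.1, (1 - τ) * (-th n) + τ * Q.2) ∈
        segment ℝ (inst e P).s Q :=
      ⟨1 - τ, τ, by linarith, h0, by ring, by
        ext <;> simp [inst]⟩
    have h3 := H h2 (e.symm idx)
    apply h3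
    simpa [inst] using hmem
  refine corridor (10 * n) (-th n) (-5 * n) Q.1 Q.2 (-10 * n) (-1 / 4) 0 0 (by linarith) ?_
    (by linarith) (by linarith) (by linarith) (by linarith) ?_ ?_ ?_ ?_
  · rw [abs_le]
    constructor <;> linarith
  · intro τ h0 h1 hh
    refine key (.inl 0) τ h0 h1 ?_
    simp only [rect, Rect.inner, Set.mem_ofPred_eq, A1, B1]
    refine ⟨?_, ?_, hh.2.2⟩
    · simpa using hh.1
    · simp only [Fin.val_zero, hn0, if_false]
      push_cast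
      linarith [hh.2.1]
  · intro τ h0 h1 hh
    refine key (.inr (.inr (.inr (.inl 0)))) τ h0 h1 ?_
    simp only [rect, Rect.inner, Set.mem_ofPred_eq, block]
    simp only [Matrix.cons_val_zero]
    exact ⟨by linarith [hh.1], by linarith [hh.2.1], by linarith [hh.2.2.1], by linarith [hh.2.2.2]⟩
  · intro τ h0 h1 hh
    refine key (.inr (.inr (.inr (.inl 1)))) τ h0 h1 ?_
    simp only [rect, Rect.inner, Set.mem_ofPred_eq, block]
    simp only [Matrix.cons_val_one, Matrix.cons_val_zero]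
    exact ⟨by linarith [hh.1], by linarith [hh.2.1], by linarith [hh.2.2.1], by linarith [hh.2.2.2]⟩
  · intro τ h0 h1 hh
    refine key (.inr (.inr (.inr (.inl 2)))) τ h0 h1 ?_
    simp only [rect, Rect.inner, Set.mem_ofPred_eq, block]
    simp only [Matrix.cons_val]
    exact ⟨by linarith [hh.1], by linarith [hh.2.1], by linarith [hh.2.2.1], by linarith [hh.2.2.2]⟩

theorem sight_t {n r N : ℕ} (hn : 1 ≤ n) (e : Fin N ≃ Idx n r) (P : Par) (Q : ℝ × ℝ)
    (H : segment ℝ Q (inst e P).t ⊆ (inst e P).free) : 2 ≤ Q.2 ∧ |Q.1| ≤ 20 * n + 1 := by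
  have hn' : (1 : ℝ) ≤ n := by exact_mod_cast hn
  have hth := G1_th hn
  have hn0 : ¬ 0 = n := by omega
  have key : ∀ (idx : Idx n r) (τ : ℝ), 0 ≤ τ → τ ≤ 1 →
      ((1 - τ) * (-5 * (n : ℝ)) + τ * Q.1, (1 - τ) * 2 + τ * Q.2) ∉
        (rect n r P idx).inner := by
    intro idx τ h0 h1 hmem
    have h2 : ((1 - τ) * (-5 * (n : ℝ)) + τ * Q.1, (1 - τ) * 2 + τ * Q.2) ∈
        segment ℝ Q (inst e P).t :=
      ⟨τ, 1 - τ, h0, by linarith, by ring, by
        ext <;> simp [inst] <;> ring⟩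
    have h3 := H h2 (e.symm idx)
    apply h3
    simpa [inst] using hmem
  have h := corridor (20 * n) (-2) (-5 * n) Q.1 (-Q.2) (-20 * n) (4 * n - 1 / 4) (-2 + th n) (-3 / 2)
    (by linarith) (by
      rw [abs_le]
      constructor <;> linarith)
    (by linarith) (by linarith) (by linarith) (by norm_num) (by
      intro τ h0 h1 hh
      refine key (.inr (.inr (.inl 0))) τ h0 h1 ?_
      simp only [rect, Rect.inner, Set.mem_ofPred_eq, A3, B3]
      refine ⟨?_, ?_, ?_, ?_⟩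
      · simpa using hh.1
      · simp only [Fin.val_zero, hn0, if_false]
        push_cast
        linarith [hh.2.1]
      · linarith [hh.2.2.2]
      · linarith [hh.2.2.1]) (by
      intro τ h0 h1 hh
      refine key (.inr (.inr (.inr (.inl 3)))) τ h0 h1 ?_
      simp only [rect, Rect.inner, Set.mem_ofPred_eq, block]
      simp only [Matrix.cons_val]
      exact ⟨by linarith [hh.1], by linarith [hh.2.1], by linarith [hh.2.2.2],
        by linarith [hh.2.2.1]⟩) (by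
      intro τ h0 h1 hh
      refine key (.inr (.inr (.inr (.inl 4)))) τ h0 h1 ?_
      simp only [rect, Rect.inner, Set.mem_ofPred_eq, block]
      simp only [Matrix.cons_val]
      exact ⟨by linarith [hh.1], by linarith [hh.2.1], by linarith [hh.2.2.2],
        by linarith [hh.2.2.1]⟩) (by
      intro τ h0 h1 hh
      refine key (.inr (.inr (.inr (.inl 5)))) τ h0 h1 ?_
      simp only [rect, Rect.inner, Set.mem_ofPred_eq, block]
      simp only [Matrix.cons_val]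
      exact ⟨by linarith [hh.1], by linarith [hh.2.1], by linarith [hh.2.2.2],
        by linarith [hh.2.2.1]⟩)
  exact ⟨by linarith [h.1], h.2⟩

end Pool.LibML82
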