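import Pool.Agent.LibML82.G1
import Pool.Agent.LibML82.G2

/-!
# Row G3: three links force a straight passage

(a) `pad`: a path with `k` links can be padded to `K ≥ k` links (repeat the last point; the segment
`[t, t] = {t}` is free).
(b) `pass_of_three`. Let `s, P', Q', t` be the vertices. `sight_s` for `P'` and `sight_t` for `Q'` give
`P'.2 ≤ -th n`, `|P'.1| ≤ 10 n + 1`, `2 ≤ Q'.2`, `|Q'.1| ≤ 20 n + 1`. The segment `P'Q'` is the graph of
an affine function `x(y) = c + d y` over `[P'.2, Q'.2] ⊇ [-th n, 2]`. Use `crossing` three times: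
wall 2 (`A2 n`, `B2 n P`, `K = 2n - 1`, `(1, 1 + th n)`): left of `-30 n` and right of `30 n` are impossible
(`x(1)` is a convex combination of `P'.1` and `Q'.1`), so `x ∈ [P.y m, 2n + m + 1/4]` for `1 ≤ y ≤ 1 + th n`,
some `m < 2n - 1`. So `2n - 1/16 ≤ x(1) ≤ 4n`.
Wall 1 (`A1 n P`, `B1 n`, `K = n`, `(-th n, 0)`): gap `i`, or `x(0) ≤ -10 n`, or `x(0) ≥ 10 n`.
Wall 3 (`A3 n P`, `B3 n`, `K = n`, `(2 - th n, 2)`): gap `k`, or `x(2) ≤ -20 n`, or `x(2) ≥ 20 n`.
Always `x(0) + x(2) = 2 x(1)`, and `x(0)` is a convex combination of `P'.1` and `x(1)`, so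
`|x(0)| ≤ 10 n + 1`. If `|x(2)| ≥ 20 n` then `|x(0)| ≥ 12 n`, impossible. If wall 3 is passed in gap `k`
(`4n - 1/4 ≤ x(2) ≤ 6 n`) then `-2n - 1 ≤ x(0) ≤ 4n + 1/4`, so wall 1 is passed in a gap `i`:
`2i - 1/4 ≤ x(y) ≤ P.x i` for `-th n ≤ y ≤ 0`, `4n + 2k - 1/4 ≤ x(y) ≤ P.z k` for `2 - th n ≤ y ≤ 2`.
Now `P.y m ≤ x(1) ≤ (P.x i + P.z k) / 2 ≤ 2n + i + k + 1/16`, so `m ≤ i + k`. The slope `d` is `≥ 0`
(compare `x(-th n) ≤ P.x i` and `x(2 - th n) ≥ 4n + 2k - 1/4`), so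
`2n + m + 1/4 ≥ x(1 + th n) ≥ x(1 - th n) ≥ 2n + i + k - 1/4`, so `m ≥ i + k`. So `m = i + k` and
`2 P.y (i + k) ≤ 2 x(1) ≤ P.x i + P.z k`.
(c) `three_le`: every path has at least three links (pad to two links; the middle point would be
`≤ -th n` and `≥ 2` in height).
-/

namespace Pool.LibML82

private lemma g3_pad_one {N : ℕ} (I : Inst N) (ht : I.t ∈ I.free) (k : ℕ)
    (p : Fin (k + 1) → ℝ × ℝ) (hp : I.IsPath k p) :
    ∃ p' : Fin (k + 1 + 1) → ℝ × ℝ, I.IsPath (k + 1) p' := by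
  obtain ⟨h0, h1, h2⟩ := hp
  refine ⟨Fin.snoc (α := fun _ => ℝ × ℝ) p I.t, ?_, ?_, ?_⟩
  · have h := Fin.snoc_castSucc (α := fun _ : Fin (k + 1 + 1) => ℝ × ℝ) I.t p (0 : Fin (k + 1))
    rw [Fin.castSucc_zero] at h
    rw [h, h0]
  · exact Fin.snoc_last (α := fun _ : Fin (k + 1 + 1) => ℝ × ℝ) I.t p
  · intro j
    refine Fin.lastCases ?_ ?_ j
    · have h3 := Fin.snoc_castSucc (α := fun _ : Fin (k + 1 + 1) => ℝ × ℝ) I.t p (Fin.last k)
      have h4 := Fin.snoc_last (α := fun _ : Fin (k + 1 + 1) => ℝ × ℝ) I.t p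
      rw [Fin.succ_last, h3, h4, h1, segment_same]
      exact Set.singleton_subset_iff.2 ht
    · intro j'
      have h3 := Fin.snoc_castSucc (α := fun _ : Fin (k + 1 + 1) => ℝ × ℝ) I.t p (Fin.castSucc j')
      have h4 := Fin.snoc_castSucc (α := fun _ : Fin (k + 1 + 1) => ℝ × ℝ) I.t p (Fin.succ j')
      rw [Fin.succ_castSucc, h3, h4]
      exact h2 j'

theorem pad {N : ℕ} (I : Inst N) (ht : I.t ∈ I.free) (k K : ℕ) (hkK : k ≤ K)
    (p : Fin (k + 1) → ℝ × ℝ) (hp : I.IsPath k p) : ∃ p', I.IsPath K p' := by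
  induction K, hkK using Nat.le_induction with
  | base => exact ⟨p, hp⟩
  | succ K hK ih =>
    obtain ⟨p', hp'⟩ := ih
    exact g3_pad_one I ht K p' hp'

private lemma g3_th_pos {n : ℕ} (hn : 1 ≤ n) : 0 < th n := by
  unfold th
  have : (1 : ℝ) ≤ n := by exact_mod_cast hn
  positivity

private lemma g3_wall1 {n : ℕ} (hn : 1 ≤ n) (P : Par) (hP : Near n P) :
    ∀ q, q ≤ n → A1 n P q < B1 n q := by
  intro q hq
  have hn' : (1 : ℝ) ≤ n := by exact_mod_cast hn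
  unfold A1 B1
  by_cases h0 : q = 0
  · have hne : q ≠ n := by omega
    rw [if_pos h0, if_neg hne, h0]
    push_cast
    linarith
  · rw [if_neg h0]
    have h1 := hP.1 (q - 1) (by omega)
    have h2 : ((q - 1 : ℕ) : ℝ) = (q : ℝ) - 1 := by
      rw [Nat.cast_sub (by omega : 1 ≤ q)]
      simp
    rw [h2] at h1
    have h3 := abs_le.1 h1
    by_cases hqn : q = n
    · rw [if_pos hqn]
      have h4 : (q : ℝ) = n := by rw [hqn]
      linarith [h3.2]
    · rw [if_neg hqn]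
      linarith [h3.2]

private lemma g3_wall2 {n : ℕ} (hn : 1 ≤ n) (P : Par) (hP : Near n P) :
    ∀ q, q ≤ 2 * n - 1 → A2 n q < B2 n P q := by
  intro q hq
  have hn' : (1 : ℝ) ≤ n := by exact_mod_cast hn
  unfold A2 B2
  by_cases hqn : q = 2 * n - 1
  · have h0 : q ≠ 0 := by omega
    rw [if_neg h0, if_pos hqn]
    have h4 : (q : ℝ) = 2 * n - 1 := by
      rw [hqn, Nat.cast_sub (by omega : 1 ≤ 2 * n)]
      push_cast
      ring
    linarith
  · rw [if_neg hqn]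
    have h1 := hP.2.1 q (by omega)
    have h3 := abs_le.1 h1
    have hq0 : (0 : ℝ) ≤ q := Nat.cast_nonneg q
    by_cases h0 : q = 0
    · rw [if_pos h0]
      linarith [h3.1]
    · rw [if_neg h0]
      linarith [h3.1]

private lemma g3_wall3 {n : ℕ} (hn : 1 ≤ n) (P : Par) (hP : Near n P) :
    ∀ q, q ≤ n → A3 n P q < B3 n q := by
  intro q hq
  have hn' : (1 : ℝ) ≤ n := by exact_mod_cast hn
  unfold A3 B3
  by_cases h0 : q = 0
  · have hne : q ≠ n := by omega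
    rw [if_pos h0, if_neg hne, h0]
    push_cast
    linarith
  · rw [if_neg h0]
    have h1 := hP.2.2 (q - 1) (by omega)
    have h2 : ((q - 1 : ℕ) : ℝ) = (q : ℝ) - 1 := by
      rw [Nat.cast_sub (by omega : 1 ≤ q)]
      simp
    rw [h2] at h1
    have h3 := abs_le.1 h1
    by_cases hqn : q = n
    · rw [if_pos hqn]
      have h4 : (q : ℝ) = n := by rw [hqn]
      linarith [h3.2]
    · rw [if_neg hqn]
      linarith [h3.2]

private lemma g3_core {n : ℕ} (hn : 1 ≤ n) (P : Par) (hP : Near n P)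
    (c d Px Py Qx Qy : ℝ) (hPy : Py ≤ -th n) (hPx : |Px| ≤ 10 * n + 1)
    (hQy : 2 ≤ Qy) (hQx : |Qx| ≤ 20 * n + 1)
    (hcP : c + d * Py = Px) (hcQ : c + d * Qy = Qx)
    (H1 : ∀ q, q ≤ n → ∀ y, -th n < y → y < 0 → ¬ (A1 n P q < c + d * y ∧ c + d * y < B1 n q))
    (H2 : ∀ q, q ≤ 2 * n - 1 → ∀ y, 1 < y → y < 1 + th n →
      ¬ (A2 n q < c + d * y ∧ c + d * y < B2 n P q))
    (H3 : ∀ q, q ≤ n → ∀ y, 2 - th n < y → y < 2 →
      ¬ (A3 n P q < c + d * y ∧ c + d * y < B3 n q)) :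
    ∃ i k, i < n ∧ k < n ∧ Pass P i k := by
  have hn' : (1 : ℝ) ≤ n := by exact_mod_cast hn
  have hth := g3_th_pos hn
  obtain ⟨hP1, hP2⟩ := abs_le.1 hPx
  obtain ⟨hQ1, hQ2⟩ := abs_le.1 hQx
  -- bounds for x(1)
  have hx1u : c + d * 1 ≤ 20 * n + 1 := by
    rcases le_total 0 d with hd | hd
    · have : d * 1 ≤ d * Qy := mul_le_mul_of_nonneg_left (by linarith) hd
      linarith
    · have : d * 1 ≤ d * Py := mul_le_mul_of_nonpos_left (by linarith) hd
      linarith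
  have hx1l : -(20 * n + 1) ≤ c + d * 1 := by
    rcases le_total 0 d with hd | hd
    · have : d * Py ≤ d * 1 := mul_le_mul_of_nonneg_left (by linarith) hd
      linarith
    · have : d * Qy ≤ d * 1 := mul_le_mul_of_nonpos_left (by linarith) hd
      linarith
  -- wall 2
  have w2 := crossing (A2 n) (B2 n P) (2 * n - 1) c d 1 (1 + th n) (by linarith)
    (g3_wall2 hn P hP) H2
  have hw2 : ∃ m, m < 2 * n - 1 ∧ ∀ y, 1 ≤ y → y ≤ 1 + th n →
      B2 n P m ≤ c + d * y ∧ c + d * y ≤ A2 n (m + 1) := by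
    rcases w2 with h | h | h
    · exfalso
      have := h 1 le_rfl (by linarith)
      unfold A2 at this
      rw [if_pos rfl] at this
      linarith
    · exfalso
      have := h 1 le_rfl (by linarith)
      unfold B2 at this
      rw [if_pos rfl] at this
      linarith
    · exact h
  obtain ⟨m, hm, hm2⟩ := hw2
  have hmy : |P.y m - (2 * n + m)| ≤ 1 / 16 := hP.2.1 m hm
  obtain ⟨hmy1, hmy2⟩ := abs_le.1 hmy
  have hB2 : B2 n P m = P.y m := by
    unfold B2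
    rw [if_neg (by omega)]
  have hA2 : A2 n (m + 1) = 2 * n + m + 1 / 4 := by
    unfold A2
    rw [if_neg (by omega)]
    push_cast
    ring
  rw [hB2, hA2] at hm2
  have hm0 : (0 : ℝ) ≤ m := Nat.cast_nonneg m
  have hm1 : (m : ℝ) ≤ 2 * n - 2 := by
    have : m + 2 ≤ 2 * n := by omega
    have h' : ((m + 2 : ℕ) : ℝ) ≤ ((2 * n : ℕ) : ℝ) := by exact_mod_cast this
    push_cast at h'
    linarith
  obtain ⟨hx1a, hx1b⟩ := hm2 1 le_rfl (by linarith)
  obtain ⟨_, hx1c⟩ := hm2 (1 + th n) (by linarith) le_rfl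
  -- bounds for x(0)
  have hx0u : c + d * 0 ≤ 10 * n + 1 := by
    rcases le_total 0 d with hd | hd
    · linarith
    · have : d * 0 ≤ d * Py := mul_le_mul_of_nonpos_left (by linarith) hd
      linarith
  have hx0l : -(10 * n + 1) ≤ c + d * 0 := by
    rcases le_total 0 d with hd | hd
    · have : d * Py ≤ d * 0 := mul_le_mul_of_nonneg_left (by linarith) hd
      linarith
    · linarith
  -- wall 3
  have w3 := crossing (A3 n P) (B3 n) n c d (2 - th n) 2 (by linarith) (g3_wall3 hn P hP) H3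
  have hw3 : ∃ k, k < n ∧ ∀ y, 2 - th n ≤ y → y ≤ 2 →
      B3 n k ≤ c + d * y ∧ c + d * y ≤ A3 n P (k + 1) := by
    rcases w3 with h | h | h
    · exfalso
      have := h 2 (by linarith) le_rfl
      unfold A3 at this
      rw [if_pos rfl] at this
      linarith
    · exfalso
      have := h 2 (by linarith) le_rfl
      unfold B3 at this
      rw [if_pos rfl] at this
      linarith
    · exact h
  obtain ⟨k, hk, hk2⟩ := hw3
  obtain ⟨hkz1, hkz2⟩ := abs_le.1 (hP.2.2 k hk)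
  have hB3 : B3 n k = 4 * n + 2 * k - 1 / 4 := by
    unfold B3
    rw [if_neg (by omega)]
  have hA3 : A3 n P (k + 1) = P.z k := by
    unfold A3
    rw [if_neg (by omega), Nat.add_sub_cancel]
  rw [hB3, hA3] at hk2
  have hk0 : (0 : ℝ) ≤ k := Nat.cast_nonneg k
  have hk1 : (k : ℝ) ≤ n - 1 := by
    have h' : ((k + 1 : ℕ) : ℝ) ≤ (n : ℝ) := by exact_mod_cast hk
    push_cast at h'
    linarith
  obtain ⟨hx2a, hx2b⟩ := hk2 2 (by linarith) le_rfl
  obtain ⟨hx2c, hx2d⟩ := hk2 (2 - th n) le_rfl (by linarith)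
  -- wall 1
  have w1 := crossing (A1 n P) (B1 n) n c d (-th n) 0 (by linarith) (g3_wall1 hn P hP) H1
  have hw1 : ∃ i, i < n ∧ ∀ y, -th n ≤ y → y ≤ 0 →
      B1 n i ≤ c + d * y ∧ c + d * y ≤ A1 n P (i + 1) := by
    rcases w1 with h | h | h
    · exfalso
      have := h 0 (by linarith) le_rfl
      unfold A1 at this
      rw [if_pos rfl] at this
      linarith
    · exfalso
      have := h 0 (by linarith) le_rfl
      unfold B1 at this
      rw [if_pos rfl] at this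
      linarith
    · exact h
  obtain ⟨i, hi, hi2⟩ := hw1
  obtain ⟨hix1, hix2⟩ := abs_le.1 (hP.1 i hi)
  have hB1 : B1 n i = 2 * i - 1 / 4 := by
    unfold B1
    rw [if_neg (by omega)]
  have hA1 : A1 n P (i + 1) = P.x i := by
    unfold A1
    rw [if_neg (by omega), Nat.add_sub_cancel]
  rw [hB1, hA1] at hi2
  have hi0 : (0 : ℝ) ≤ i := Nat.cast_nonneg i
  have hi1 : (i : ℝ) ≤ n - 1 := by
    have h' : ((i + 1 : ℕ) : ℝ) ≤ (n : ℝ) := by exact_mod_cast hi
    push_cast at h'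
    linarith
  obtain ⟨hx0a, hx0b⟩ := hi2 0 (by linarith) le_rfl
  obtain ⟨hx0c, hx0d⟩ := hi2 (-th n) le_rfl (by linarith)
  -- comparison
  have hle : m ≤ i + k := by
    by_contra hcon
    have h1 : i + k + 1 ≤ m := by omega
    have h2 : ((i + k + 1 : ℕ) : ℝ) ≤ (m : ℝ) := by exact_mod_cast h1
    push_cast at h2
    linarith
  have hd : 0 ≤ d := by
    have e1 : c + d * (2 - th n) = c + d * (-th n) + 2 * d := by ring
    linarith
  have hge : i + k ≤ m := by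
    by_contra hcon
    have h1 : m + 1 ≤ i + k := by omega
    have h2 : ((m + 1 : ℕ) : ℝ) ≤ ((i + k : ℕ) : ℝ) := by exact_mod_cast h1
    push_cast at h2
    have e1 : c + d * (2 - th n) + (c + d * (-th n)) = 2 * (c + d * (1 + th n)) - 4 * (d * th n) := by
      ring
    have e2 : 0 ≤ d * th n := mul_nonneg hd hth.le
    linarith
  have hmik : m = i + k := le_antisymm hle hge
  refine ⟨i, k, hi, hk, ?_⟩
  unfold Pass
  rw [← hmik]
  linarith

private lemma g3_graph (P' Q' : ℝ × ℝ) (hPQ : P'.2 < Q'.2) (y : ℝ) (h1 : P'.2 ≤ y)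
    (h2 : y ≤ Q'.2) :
    ((P'.1 - (Q'.1 - P'.1) / (Q'.2 - P'.2) * P'.2) + (Q'.1 - P'.1) / (Q'.2 - P'.2) * y, y) ∈
      segment ℝ P' Q' := by
  have h3 : 0 < Q'.2 - P'.2 := by linarith
  have h4 : Q'.2 - P'.2 ≠ 0 := ne_of_gt h3
  refine ⟨(Q'.2 - y) / (Q'.2 - P'.2), (y - P'.2) / (Q'.2 - P'.2), ?_, ?_, ?_, ?_⟩
  · exact div_nonneg (by linarith) h3.le
  · exact div_nonneg (by linarith) h3.le
  · rw [← add_div]
    rw [div_eq_one_iff_eq h4]
    ring
  · refine Prod.ext ?_ ?_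
    · simp only [Prod.fst_add, Prod.smul_fst, smul_eq_mul]
      field_simp
      ring
    · simp only [Prod.snd_add, Prod.smul_snd, smul_eq_mul]
      field_simp
      ring

theorem pass_of_three {n r N : ℕ} (hn : 1 ≤ n) (e : Fin N ≃ Idx n r) (P : Par) (hP : Near n P)
    (p : Fin 4 → ℝ × ℝ) (hp : (inst e P).IsPath 3 p) : ∃ i k, i < n ∧ k < n ∧ Pass P i k := by
  obtain ⟨h0, h1, h2⟩ := hp
  have hth := g3_th_pos hn
  have s0 : segment ℝ (p 0) (p 1) ⊆ (inst e P).free := h2 0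
  have s1 : segment ℝ (p 1) (p 2) ⊆ (inst e P).free := h2 1
  have s2 : segment ℝ (p 2) (p 3) ⊆ (inst e P).free := h2 2
  have h1' : p 3 = (inst e P).t := h1
  rw [h0] at s0
  rw [h1'] at s2
  obtain ⟨hPy, hPx⟩ := sight_s hn e P (p 1) s0
  obtain ⟨hQy, hQx⟩ := sight_t hn e P (p 2) s2
  have hPQ : (p 1).2 < (p 2).2 := by linarith
  have h4 : (p 2).2 - (p 1).2 ≠ 0 := by
    have : 0 < (p 2).2 - (p 1).2 := by linarith
    exact ne_of_gt this
  have hfree : ∀ (j : Idx n r) (y : ℝ), (p 1).2 ≤ y → y ≤ (p 2).2 →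
      ¬ ((rect n r P j).x0 < ((p 1).1 - ((p 2).1 - (p 1).1) / ((p 2).2 - (p 1).2) * (p 1).2) +
          ((p 2).1 - (p 1).1) / ((p 2).2 - (p 1).2) * y ∧
        ((p 1).1 - ((p 2).1 - (p 1).1) / ((p 2).2 - (p 1).2) * (p 1).2) +
          ((p 2).1 - (p 1).1) / ((p 2).2 - (p 1).2) * y < (rect n r P j).x1 ∧
        (rect n r P j).y0 < y ∧ y < (rect n r P j).y1) := by
    intro j y hy1 hy2 hcon
    have hmem := s1 (g3_graph (p 1) (p 2) hPQ y hy1 hy2)
    have := hmem (e.symm j)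
    apply this
    have e1 : (inst e P).obs (e.symm j) = rect n r P j := by
      show rect n r P (e (e.symm j)) = rect n r P j
      rw [Equiv.apply_symm_apply]
    rw [e1]
    exact hcon
  refine g3_core hn P hP
    ((p 1).1 - ((p 2).1 - (p 1).1) / ((p 2).2 - (p 1).2) * (p 1).2)
    (((p 2).1 - (p 1).1) / ((p 2).2 - (p 1).2))
    (p 1).1 (p 1).2 (p 2).1 (p 2).2 hPy hPx hQy hQx ?_ ?_ ?_ ?_ ?_
  · ring
  · field_simp
    ring
  · intro q hq y hy1 hy2 hcon
    have h := hfree (Sum.inl ⟨q, Nat.lt_succ_of_le hq⟩) y (by linarith) (by linarith)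
    exact h ⟨hcon.1, hcon.2, hy1, hy2⟩
  · intro q hq y hy1 hy2 hcon
    have hthle : th n ≤ 1 := by
      unfold th
      have hn' : (1 : ℝ) ≤ n := by exact_mod_cast hn
      rw [div_le_one (by positivity)]
      linarith
    have h := hfree (Sum.inr (Sum.inl ⟨q, by omega⟩)) y (by linarith) (by linarith)
    exact h ⟨hcon.1, hcon.2, hy1, hy2⟩
  · intro q hq y hy1 hy2 hcon
    have hthle : th n ≤ 1 := by
      unfold th
      have hn' : (1 : ℝ) ≤ n := by exact_mod_cast hn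
      rw [div_le_one (by positivity)]
      linarith
    have h := hfree (Sum.inr (Sum.inr (Sum.inl ⟨q, Nat.lt_succ_of_le hq⟩))) y
      (by linarith) (by linarith)
    exact h ⟨hcon.1, hcon.2, hy1, hy2⟩

theorem three_le {n r N : ℕ} (hn : 1 ≤ n) (e : Fin N ≃ Idx n r) (P : Par)
    (ht : (inst e P).t ∈ (inst e P).free) (k : ℕ) (p : Fin (k + 1) → ℝ × ℝ)
    (hp : (inst e P).IsPath k p) : 3 ≤ k := by
  by_contra hcon
  have hk : k ≤ 2 := by omega
  obtain ⟨p', hp'⟩ := pad (inst e P) ht k 2 hk p hp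
  obtain ⟨h0, h1, h2⟩ := hp'
  have hth := g3_th_pos hn
  have s0 : segment ℝ (p' 0) (p' 1) ⊆ (inst e P).free := h2 0
  have s1 : segment ℝ (p' 1) (p' 2) ⊆ (inst e P).free := h2 1
  have h1' : p' 2 = (inst e P).t := h1
  rw [h0] at s0
  rw [h1'] at s1
  obtain ⟨hPy, _⟩ := sight_s hn e P (p' 1) s0
  obtain ⟨hQy, _⟩ := sight_t hn e P (p' 1) s1
  linarith

end Pool.LibML82
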