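import Pool.Agent.LibML82.QFam

/-!
# Row QA1: a polynomial of a query sees only the moving corners of its four obstacles

Near copy of `test_val` in `A1.lean`: every coordinate of `rect n r P v` is a constant, or the first or the
second coordinate of `P (lab n r v)`. Then substitute (`MvPolynomial.bind₁`).
-/

namespace Pool.LibML82.Q

private theorem QA1_cases (n r : ℕ) (v : Idx n r) (c : Fin 4) :
    (∃ κ : ℝ, ∀ P : Par, (rect n r P v).coord c = κ) ∨
      (∀ P : Par, (rect n r P v).coord c = (P (lab n r v)).1) ∨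
      (∀ P : Par, (rect n r P v).coord c = (P (lab n r v)).2) := by
  rcases v with q | q | q | j | j
  · by_cases hq : (q : ℕ) = 0
    · left
      refine ⟨(⟨-10 * n, B1 n q, -th n, 0⟩ : Rect).coord c, fun P => ?_⟩
      simp [rect, A1, T1, hq]
    · fin_cases c
      · right; left
        intro P
        simp [rect, A1, hq, Rect.coord, lab]
      · left; exact ⟨_, fun P => rfl⟩
      · left; exact ⟨_, fun P => rfl⟩
      · right; right
        intro P
        simp [rect, T1, hq, Rect.coord, lab]
  · by_cases hq : (q : ℕ) = 2 * n - 1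
    · left
      refine ⟨(⟨A2 n q, 30 * n, 1, 1 + th n⟩ : Rect).coord c, fun P => ?_⟩
      simp [rect, B2, L2, hq]
    · fin_cases c
      · left; exact ⟨_, fun P => rfl⟩
      · right; left
        intro P
        simp [rect, B2, hq, Rect.coord, lab]
      · right; right
        intro P
        simp [rect, L2, hq, Rect.coord, lab]
      · left; exact ⟨_, fun P => rfl⟩
  · by_cases hq : (q : ℕ) = 0
    · left
      refine ⟨(⟨-20 * n, B3 n q, 2 - th n, 2 + sg n⟩ : Rect).coord c, fun P => ?_⟩
      simp [rect, A3, T3, hq]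
    · fin_cases c
      · right; left
        intro P
        simp [rect, A3, hq, Rect.coord, lab]
      · left; exact ⟨_, fun P => rfl⟩
      · left; exact ⟨_, fun P => rfl⟩
      · right; right
        intro P
        simp [rect, T3, hq, Rect.coord, lab]
  · left; exact ⟨(block n j).coord c, fun P => rfl⟩
  · left
    exact ⟨(⟨0, 1, 100 + 2 * (j : ℕ), 101 + 2 * (j : ℕ)⟩ : Rect).coord c, fun P => rfl⟩

theorem test_val {n r N : ℕ} (e : Fin N ≃ Idx n r) (who : Fin 4 → Fin N)
    (p : MvPolynomial (Fin 4 ⊕ Fin 4 × Fin 4) ℝ) :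
    ∃ F : MvPolynomial (Fin 4 ⊕ Fin 4) ℝ, ∀ P : Par,
      MvPolynomial.eval ((inst e P).coords who) p =
        MvPolynomial.eval (vals P (fun j => lab n r (e (who j)))) F := by
  have hφ : ∀ a : Fin 4 ⊕ Fin 4 × Fin 4, ∃ p : MvPolynomial (Fin 4 ⊕ Fin 4) ℝ, ∀ P : Par,
      (inst e P).coords who a =
        MvPolynomial.eval (vals P (fun j => lab n r (e (who j)))) p := by
    rintro (a | ⟨j, c⟩)
    · refine ⟨MvPolynomial.C ((![-5 * (n : ℝ), -th n, -5 * (n : ℝ), 2 + sg n] : Fin 4 → ℝ) a),
        fun P => ?_⟩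
      rw [MvPolynomial.eval_C]
      rfl
    · rcases QA1_cases n r (e (who j)) c with ⟨κ, hκ⟩ | h | h
      · refine ⟨MvPolynomial.C κ, fun P => ?_⟩
        rw [MvPolynomial.eval_C]
        exact hκ P
      · refine ⟨MvPolynomial.X (Sum.inl j), fun P => ?_⟩
        rw [MvPolynomial.eval_X]
        exact h P
      · refine ⟨MvPolynomial.X (Sum.inr j), fun P => ?_⟩
        rw [MvPolynomial.eval_X]
        exact h P
  choose φ hφ using hφ
  refine ⟨MvPolynomial.bind₁ φ p, fun P => ?_⟩
  have h1 : (inst e P).coords who =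
      fun a => MvPolynomial.eval (vals P (fun j => lab n r (e (who j)))) (φ a) :=
    funext fun a => hφ a P
  rw [h1]
  simp only [MvPolynomial.eval, MvPolynomial.eval₂Hom_bind₁]

end Pool.LibML82.Q
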