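import Pool.Agent.LibML82.QFam

/-!
# Row QA2: four labels which do not cover the pair `(i0, k0)`

Either the collapsed values are base values at a shifted parameter (`Cond` for all four labels), or the
four lattice points are in general position. The conditions (`m0 = i0 + k0`):
  `x i`: `u0 + 2 i u1 = ρ i² - (i - i0)²`,
  `y m`: `u0 + m u1 + u2 = ρ (m²/8 - 1) - (m - m0)²/8`,
  `z k`: `u0 + 2 k u1 + 2 u2 = ρ k² - (k - k0)²`,
  `st`: nothing.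
Number of labels of the kinds `x`, `y`, `z`:
* At most one of the labels is not `x` or `st`: `ρ = 1`, `u0 = -i0²`, `u1 = i0` satisfy all `x` labels;
  `u2` is free and solves the remaining label.
* At most one is not `z` or `st`: `ρ = 1`, `u1 = k0`, `u0 + 2 u2 = -k0²`; one free number.
* At most one is not `y` or `st`: `ρ = 1`, `u1 = m0/4`, `u0 + u2 = -m0²/8 - 1`; one free number.
* Otherwise: kinds `x y z st`, `x x y z`, `x y y z`, `x y z z`, `x x y y`, `x x z z`, `y y z z` in some order.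
  If two labels of the four are equal, it is one of the earlier cases or the case `x i, y m, z k`: if
  `m ≠ i + k`: `ρ = 1` and the linear system has determinant `≠ 0`; if `m = i + k` then `(i, k) ≠ (i0, k0)`
  and `ρ = ((i-i0)² + (k-k0)² - (i+k-i0-k0)²/4) / (i² + k² - (i+k)²/4 + 2) > 0`, `u1 = 0` (see `solve_xyz` in `A1.lean`).
  `x i, x i', y m, z k` with `i ≠ i'`: if `m = i + k` (or `m = i' + k`, symmetric): the same `ρ`, then `u1, u0` from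
  the two `x` conditions, `u2` from the `z` condition, the `y` condition is the average of the conditions of
  `x i` and `z k`. If `m ≠ i + k`, `m ≠ i' + k`: general position. `x i, y m, z k, z k'`: the same.
  `x i, y m, y m', z k` with `m ≠ m'`: if `m = i + k`: the same `ρ`, `u1` and `w = u0 + u2` from the two `y`
  conditions, then `u0` from the `x` condition, `u2 = w - u0`, the `z` condition is `2 (y m) - (x i)`.
  `x i, x i', y m, y m'` (`i ≠ i'`, `m ≠ m'`) and the two similar cases: general position.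
(Suggestion: both sides of the disjunction are invariant under permutations of `Fin 4`; sort the
kinds with `Tuple.sort`, 35 sorted patterns remain; or all 256 patterns as in `A1.lean`.)
-/

namespace Pool.LibML82.Q

private def QA2_kd : Lab → ℕ
  | .st => 0
  | .x _ => 1
  | .y _ => 2
  | .z _ => 3

private def QA2_L (i0 k0 : ℕ) (a b c d : Lab) : Prop :=
  ∃ u0 u1 u2 ρ : ℝ, 0 < ρ ∧ Cond i0 k0 u0 u1 u2 ρ a ∧ Cond i0 k0 u0 u1 u2 ρ b ∧
    Cond i0 k0 u0 u1 u2 ρ c ∧ Cond i0 k0 u0 u1 u2 ρ d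

private def QA2_R (a b c d : Lab) : Prop :=
  (a ≠ .st ∧ b ≠ .st ∧ c ≠ .st ∧ d ≠ .st) ∧ orient (lpt a) (lpt b) (lpt c) ≠ 0 ∧
    orient (lpt a) (lpt b) (lpt d) ≠ 0 ∧ orient (lpt a) (lpt c) (lpt d) ≠ 0 ∧
    orient (lpt b) (lpt c) (lpt d) ≠ 0

private theorem QA2_st (i0 k0 : ℕ) (u0 u1 u2 ρ : ℝ) : Cond i0 k0 u0 u1 u2 ρ .st := Or.inl rfl

private theorem QA2_cx (i0 k0 : ℕ) (u0 u1 u2 ρ : ℝ) (i : ℕ)
    (h : u0 + 2 * i * u1 = ρ * (i : ℝ) ^ 2 - ((i : ℝ) - i0) ^ 2) :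
    Cond i0 k0 u0 u1 u2 ρ (.x i) := by
  right
  simp only [lpt, pb, pc]
  linear_combination h

private theorem QA2_cy (i0 k0 : ℕ) (u0 u1 u2 ρ : ℝ) (m : ℕ)
    (h : u0 + m * u1 + u2 = ρ * ((m : ℝ) ^ 2 / 8 - 1) - ((m : ℝ) - i0 - k0) ^ 2 / 8) :
    Cond i0 k0 u0 u1 u2 ρ (.y m) := by
  right
  simp only [lpt, pb, pc]
  linear_combination h

private theorem QA2_cz (i0 k0 : ℕ) (u0 u1 u2 ρ : ℝ) (k : ℕ)
    (h : u0 + 2 * k * u1 + 2 * u2 = ρ * (k : ℝ) ^ 2 - ((k : ℝ) - k0) ^ 2) :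
    Cond i0 k0 u0 u1 u2 ρ (.z k) := by
  right
  simp only [lpt, pb, pc]
  linear_combination h

/-- All `x` labels and one arbitrary label. -/
private theorem QA2_solve_x (i0 k0 : ℕ) (l : Lab) : ∃ u2 : ℝ,
    (∀ i, Cond i0 k0 (-(i0 : ℝ) ^ 2) i0 u2 1 (.x i)) ∧
      Cond i0 k0 (-(i0 : ℝ) ^ 2) i0 u2 1 l := by
  have hx : ∀ u2 : ℝ, ∀ i, Cond i0 k0 (-(i0 : ℝ) ^ 2) i0 u2 1 (.x i) := by
    intro u2 i
    exact QA2_cx _ _ _ _ _ _ _ (by ring)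
  cases l with
  | st => exact ⟨0, hx 0, QA2_st _ _ _ _ _ _⟩
  | x i => exact ⟨0, hx 0, hx 0 i⟩
  | y m =>
    exact ⟨1 * ((m : ℝ) ^ 2 / 8 - 1) - ((m : ℝ) - i0 - k0) ^ 2 / 8 - i0 * m + (i0 : ℝ) ^ 2, hx _,
      QA2_cy _ _ _ _ _ _ _ (by ring)⟩
  | z k =>
    exact ⟨(1 * (k : ℝ) ^ 2 - ((k : ℝ) - k0) ^ 2 - 2 * i0 * k + (i0 : ℝ) ^ 2) / 2, hx _,
      QA2_cz _ _ _ _ _ _ _ (by ring)⟩

/-- All `z` labels and one arbitrary label. -/
private theorem QA2_solve_z (i0 k0 : ℕ) (l : Lab) : ∃ u0 u2 : ℝ,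
    (∀ k, Cond i0 k0 u0 k0 u2 1 (.z k)) ∧ Cond i0 k0 u0 k0 u2 1 l := by
  have hz : ∀ u0 u2 : ℝ, u0 + 2 * u2 = -(k0 : ℝ) ^ 2 → ∀ k, Cond i0 k0 u0 k0 u2 1 (.z k) := by
    intro u0 u2 h k
    exact QA2_cz _ _ _ _ _ _ _ (by linear_combination h)
  cases l with
  | st => exact ⟨0, -(k0 : ℝ) ^ 2 / 2, hz _ _ (by ring), QA2_st _ _ _ _ _ _⟩
  | z k => exact ⟨0, -(k0 : ℝ) ^ 2 / 2, hz _ _ (by ring), hz _ _ (by ring) k⟩
  | x i =>
    obtain ⟨u0, hu⟩ : ∃ u0 : ℝ, u0 = 1 * (i : ℝ) ^ 2 - ((i : ℝ) - i0) ^ 2 - 2 * i * k0 := ⟨_, rfl⟩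
    exact ⟨u0, (-(k0 : ℝ) ^ 2 - u0) / 2, hz _ _ (by ring),
      QA2_cx _ _ _ _ _ _ _ (by linear_combination hu)⟩
  | y m =>
    obtain ⟨u0, hu⟩ : ∃ u0 : ℝ, u0 = 2 * (1 * ((m : ℝ) ^ 2 / 8 - 1) -
      ((m : ℝ) - i0 - k0) ^ 2 / 8 - m * k0) + (k0 : ℝ) ^ 2 := ⟨_, rfl⟩
    exact ⟨u0, (-(k0 : ℝ) ^ 2 - u0) / 2, hz _ _ (by ring),
      QA2_cy _ _ _ _ _ _ _ (by linear_combination hu / 2)⟩

/-- All `y` labels and one arbitrary label. -/
private theorem QA2_solve_y (i0 k0 : ℕ) (l : Lab) : ∃ u0 u2 : ℝ,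
    (∀ m, Cond i0 k0 u0 (((i0 : ℝ) + k0) / 4) u2 1 (.y m)) ∧
      Cond i0 k0 u0 (((i0 : ℝ) + k0) / 4) u2 1 l := by
  have hy : ∀ u0 u2 : ℝ, u0 + u2 = -((i0 : ℝ) + k0) ^ 2 / 8 - 1 →
      ∀ m, Cond i0 k0 u0 (((i0 : ℝ) + k0) / 4) u2 1 (.y m) := by
    intro u0 u2 h m
    exact QA2_cy _ _ _ _ _ _ _ (by linear_combination h)
  cases l with
  | st => exact ⟨0, -((i0 : ℝ) + k0) ^ 2 / 8 - 1, hy _ _ (by ring), QA2_st _ _ _ _ _ _⟩
  | y m => exact ⟨0, -((i0 : ℝ) + k0) ^ 2 / 8 - 1, hy _ _ (by ring), hy _ _ (by ring) m⟩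
  | x i =>
    obtain ⟨u0, hu⟩ : ∃ u0 : ℝ, u0 = 1 * (i : ℝ) ^ 2 - ((i : ℝ) - i0) ^ 2 -
      2 * i * (((i0 : ℝ) + k0) / 4) := ⟨_, rfl⟩
    exact ⟨u0, -((i0 : ℝ) + k0) ^ 2 / 8 - 1 - u0, hy _ _ (by ring),
      QA2_cx _ _ _ _ _ _ _ (by linear_combination hu)⟩
  | z k =>
    obtain ⟨u0, hu⟩ : ∃ u0 : ℝ, u0 = 2 * (-((i0 : ℝ) + k0) ^ 2 / 8 - 1) +
      2 * k * (((i0 : ℝ) + k0) / 4) - (1 * (k : ℝ) ^ 2 - ((k : ℝ) - k0) ^ 2) := ⟨_, rfl⟩
    exact ⟨u0, -((i0 : ℝ) + k0) ^ 2 / 8 - 1 - u0, hy _ _ (by ring),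
      QA2_cz _ _ _ _ _ _ _ (by linear_combination -hu)⟩

/-- The labels `x i`, `y m`, `z k` that are not on a line. -/
private theorem QA2_three (i0 k0 i m k : ℕ) (hm : m ≠ i + k) :
    ∃ u0 u1 u2 : ℝ, Cond i0 k0 u0 u1 u2 1 (.x i) ∧ Cond i0 k0 u0 u1 u2 1 (.y m) ∧
      Cond i0 k0 u0 u1 u2 1 (.z k) := by
  have hne : (m : ℝ) - i - k ≠ 0 := by
    intro hcon
    apply hm
    have : (m : ℝ) = i + k := by linarith
    exact_mod_cast this
  set X : ℝ := 1 * (i : ℝ) ^ 2 - ((i : ℝ) - i0) ^ 2 with hX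
  set Z : ℝ := 1 * (k : ℝ) ^ 2 - ((k : ℝ) - k0) ^ 2 with hZ
  set Y : ℝ := 1 * ((m : ℝ) ^ 2 / 8 - 1) - ((m : ℝ) - i0 - k0) ^ 2 / 8 with hY
  have hu : (Y - (X + Z) / 2) / ((m : ℝ) - i - k) * ((m : ℝ) - i - k) = Y - (X + Z) / 2 :=
    div_mul_cancel₀ _ hne
  set u1 : ℝ := (Y - (X + Z) / 2) / ((m : ℝ) - i - k) with hu1
  refine ⟨X - 2 * i * u1, u1, (Z - 2 * k * u1 - (X - 2 * i * u1)) / 2, ?_, ?_, ?_⟩
  · refine QA2_cx _ _ _ _ _ _ _ ?_
    rw [← hX]; ring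
  · refine QA2_cy _ _ _ _ _ _ _ ?_
    rw [← hY]; linear_combination hu
  · refine QA2_cz _ _ _ _ _ _ _ ?_
    rw [← hZ]; ring

/-- The labels `x i`, `y (i + k)`, `z k`: one free parameter. -/
private theorem QA2_line (i0 k0 i k : ℕ) (hne : ¬ (i = i0 ∧ k = k0)) :
    ∃ ρ : ℝ, 0 < ρ ∧ ∀ u1 : ℝ, ∃ u0 u2 : ℝ,
      u0 + 2 * i * u1 = ρ * (i : ℝ) ^ 2 - ((i : ℝ) - i0) ^ 2 ∧
      u0 + (i + k : ℕ) * u1 + u2 = ρ * (((i + k : ℕ) : ℝ) ^ 2 / 8 - 1) -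
        (((i + k : ℕ) : ℝ) - i0 - k0) ^ 2 / 8 ∧
      u0 + 2 * k * u1 + 2 * u2 = ρ * (k : ℝ) ^ 2 - ((k : ℝ) - k0) ^ 2 := by
  set D : ℝ := (i : ℝ) ^ 2 + (k : ℝ) ^ 2 - ((i : ℝ) + k) ^ 2 / 4 + 2 with hD
  set E : ℝ := ((i : ℝ) - i0) ^ 2 + ((k : ℝ) - k0) ^ 2 -
    ((i : ℝ) + k - i0 - k0) ^ 2 / 4 with hE
  have hD0 : 0 < D := by
    rw [hD]
    nlinarith [sq_nonneg ((i : ℝ) - k), sq_nonneg (i : ℝ), sq_nonneg (k : ℝ)]
  have hE0 : 0 < E := by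
    have h1 : 0 < ((i : ℝ) - i0) ^ 2 + ((k : ℝ) - k0) ^ 2 := by
      by_cases hi : i = i0
      · have hk : k ≠ k0 := fun hk => hne ⟨hi, hk⟩
        have : (k : ℝ) - k0 ≠ 0 := sub_ne_zero.2 (by exact_mod_cast hk)
        positivity
      · have : (i : ℝ) - i0 ≠ 0 := sub_ne_zero.2 (by exact_mod_cast hi)
        positivity
    rw [hE]
    nlinarith [sq_nonneg (((i : ℝ) - i0) - ((k : ℝ) - k0))]
  have hρ : E / D * D = E := div_mul_cancel₀ _ hD0.ne'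
  refine ⟨E / D, div_pos hE0 hD0, fun u1 => ?_⟩
  set ρ : ℝ := E / D with hρd
  refine ⟨ρ * (i : ℝ) ^ 2 - ((i : ℝ) - i0) ^ 2 - 2 * i * u1,
    (ρ * (k : ℝ) ^ 2 - ((k : ℝ) - k0) ^ 2 - 2 * k * u1 -
      (ρ * (i : ℝ) ^ 2 - ((i : ℝ) - i0) ^ 2 - 2 * i * u1)) / 2, by ring, ?_, by ring⟩
  push_cast
  rw [hD, hE] at hρ
  linear_combination hρ / 2

/-- The labels `x i`, `y (i + k)`, `z k` and one arbitrary label. -/
private theorem QA2_special (i0 k0 i k : ℕ) (hne : ¬ (i = i0 ∧ k = k0)) (d : Lab) :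
    ∃ u0 u1 u2 ρ : ℝ, 0 < ρ ∧ Cond i0 k0 u0 u1 u2 ρ (.x i) ∧
      Cond i0 k0 u0 u1 u2 ρ (.y (i + k)) ∧ Cond i0 k0 u0 u1 u2 ρ (.z k) ∧
      Cond i0 k0 u0 u1 u2 ρ d := by
  obtain ⟨ρ, hρ, H⟩ := QA2_line i0 k0 i k hne
  have fin : ∀ u1 : ℝ, (∀ u0 u2 : ℝ, u0 + 2 * i * u1 = ρ * (i : ℝ) ^ 2 - ((i : ℝ) - i0) ^ 2 →
      u0 + (i + k : ℕ) * u1 + u2 = ρ * (((i + k : ℕ) : ℝ) ^ 2 / 8 - 1) -
        (((i + k : ℕ) : ℝ) - i0 - k0) ^ 2 / 8 →
      u0 + 2 * k * u1 + 2 * u2 = ρ * (k : ℝ) ^ 2 - ((k : ℝ) - k0) ^ 2 →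
      Cond i0 k0 u0 u1 u2 ρ d) → ∃ u0 u1 u2 ρ : ℝ, 0 < ρ ∧ Cond i0 k0 u0 u1 u2 ρ (.x i) ∧
      Cond i0 k0 u0 u1 u2 ρ (.y (i + k)) ∧ Cond i0 k0 u0 u1 u2 ρ (.z k) ∧
      Cond i0 k0 u0 u1 u2 ρ d := by
    intro u1 hd
    obtain ⟨u0, u2, h1, h2, h3⟩ := H u1
    exact ⟨u0, u1, u2, ρ, hρ, QA2_cx _ _ _ _ _ _ _ h1, QA2_cy _ _ _ _ _ _ _ h2,
      QA2_cz _ _ _ _ _ _ _ h3, hd u0 u2 h1 h2 h3⟩
  cases d with
  | st => exact fin 0 (fun _ _ _ _ _ => QA2_st _ _ _ _ _ _)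
  | x i' =>
    by_cases hi : i' = i
    · subst hi
      exact fin 0 (fun _ _ h1 _ _ => QA2_cx _ _ _ _ _ _ _ h1)
    · have hne' : ((i' : ℝ) - i) ≠ 0 := sub_ne_zero.2 (by exact_mod_cast hi)
      obtain ⟨u1, hu1⟩ : ∃ u1 : ℝ, 2 * ((i' : ℝ) - i) * u1 =
          (ρ * (i' : ℝ) ^ 2 - ((i' : ℝ) - i0) ^ 2) - (ρ * (i : ℝ) ^ 2 - ((i : ℝ) - i0) ^ 2) := by
        refine ⟨((ρ * (i' : ℝ) ^ 2 - ((i' : ℝ) - i0) ^ 2) -
          (ρ * (i : ℝ) ^ 2 - ((i : ℝ) - i0) ^ 2)) / (2 * ((i' : ℝ) - i)), ?_⟩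
        field_simp
      exact fin u1 (fun _ _ h1 _ _ => QA2_cx _ _ _ _ _ _ _ (by linear_combination h1 + hu1))
  | y m' =>
    by_cases hi : m' = i + k
    · subst hi
      exact fin 0 (fun _ _ _ h2 _ => QA2_cy _ _ _ _ _ _ _ h2)
    · have hne' : ((m' : ℝ) - (i + k : ℕ)) ≠ 0 := sub_ne_zero.2 (by exact_mod_cast hi)
      obtain ⟨u1, hu1⟩ : ∃ u1 : ℝ, ((m' : ℝ) - (i + k : ℕ)) * u1 =
          (ρ * ((m' : ℝ) ^ 2 / 8 - 1) - ((m' : ℝ) - i0 - k0) ^ 2 / 8) -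
          (ρ * (((i + k : ℕ) : ℝ) ^ 2 / 8 - 1) - (((i + k : ℕ) : ℝ) - i0 - k0) ^ 2 / 8) :=
        ⟨_, mul_div_cancel₀ _ hne'⟩
      exact fin u1 (fun _ _ _ h2 _ => QA2_cy _ _ _ _ _ _ _ (by linear_combination h2 + hu1))
  | z k' =>
    by_cases hi : k' = k
    · subst hi
      exact fin 0 (fun _ _ _ _ h3 => QA2_cz _ _ _ _ _ _ _ h3)
    · have hne' : ((k' : ℝ) - k) ≠ 0 := sub_ne_zero.2 (by exact_mod_cast hi)
      obtain ⟨u1, hu1⟩ : ∃ u1 : ℝ, 2 * ((k' : ℝ) - k) * u1 =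
          (ρ * (k' : ℝ) ^ 2 - ((k' : ℝ) - k0) ^ 2) - (ρ * (k : ℝ) ^ 2 - ((k : ℝ) - k0) ^ 2) := by
        refine ⟨((ρ * (k' : ℝ) ^ 2 - ((k' : ℝ) - k0) ^ 2) -
          (ρ * (k : ℝ) ^ 2 - ((k : ℝ) - k0) ^ 2)) / (2 * ((k' : ℝ) - k)), ?_⟩
        field_simp
      exact fin u1 (fun _ _ _ _ h3 => QA2_cz _ _ _ _ _ _ _ (by linear_combination h3 + hu1))

/-- membership in the labels, for the hypothesis on covering -/
private def QA2_NC (i0 k0 : ℕ) (a b c d : Lab) : Prop :=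
  ¬ ((a = .x i0 ∨ b = .x i0 ∨ c = .x i0 ∨ d = .x i0) ∧
    (a = .y (i0 + k0) ∨ b = .y (i0 + k0) ∨ c = .y (i0 + k0) ∨ d = .y (i0 + k0)) ∧
    (a = .z k0 ∨ b = .z k0 ∨ c = .z k0 ∨ d = .z k0))

private theorem QA2_cne {a b : ℕ} (h : a ≠ b) : (a : ℝ) - b ≠ 0 :=
  sub_ne_zero.2 (by exact_mod_cast h)

private theorem QA2_cne3 {m i k : ℕ} (h : m ≠ i + k) : (m : ℝ) - i - k ≠ 0 := by
  intro hcon
  apply h
  have : (m : ℝ) = i + k := by linarith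
  exact_mod_cast this

private theorem QA2_sxyz (i0 k0 i m k : ℕ) (hl : QA2_NC i0 k0 .st (.x i) (.y m) (.z k)) :
    QA2_L i0 k0 .st (.x i) (.y m) (.z k) ∨ QA2_R .st (.x i) (.y m) (.z k) := by
  left
  by_cases hm : m = i + k
  · subst hm
    have hne : ¬ (i = i0 ∧ k = k0) := by
      rintro ⟨rfl, rfl⟩
      exact hl ⟨by simp, by simp, by simp⟩
    obtain ⟨u0, u1, u2, ρ, hρ, h1, h2, h3, h4⟩ := QA2_special i0 k0 i k hne .st
    exact ⟨u0, u1, u2, ρ, hρ, h4, h1, h2, h3⟩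
  · obtain ⟨u0, u1, u2, h1, h2, h3⟩ := QA2_three i0 k0 i m k hm
    exact ⟨u0, u1, u2, 1, one_pos, QA2_st _ _ _ _ _ _, h1, h2, h3⟩

private theorem QA2_xxyz (i0 k0 i' i m k : ℕ) (hl : QA2_NC i0 k0 (.x i') (.x i) (.y m) (.z k)) :
    QA2_L i0 k0 (.x i') (.x i) (.y m) (.z k) ∨ QA2_R (.x i') (.x i) (.y m) (.z k) := by
  by_cases hm : m = i + k
  · left
    subst hm
    have hne : ¬ (i = i0 ∧ k = k0) := by
      rintro ⟨rfl, rfl⟩
      exact hl ⟨by simp, by simp, by simp⟩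
    obtain ⟨u0, u1, u2, ρ, hρ, h1, h2, h3, h4⟩ := QA2_special i0 k0 i k hne (.x i')
    exact ⟨u0, u1, u2, ρ, hρ, h4, h1, h2, h3⟩
  by_cases hm' : m = i' + k
  · left
    subst hm'
    have hne : ¬ (i' = i0 ∧ k = k0) := by
      rintro ⟨rfl, rfl⟩
      exact hl ⟨by simp, by simp, by simp⟩
    obtain ⟨u0, u1, u2, ρ, hρ, h1, h2, h3, h4⟩ := QA2_special i0 k0 i' k hne (.x i)
    exact ⟨u0, u1, u2, ρ, hρ, h1, h4, h2, h3⟩
  by_cases hi : i' = i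
  · left
    subst hi
    obtain ⟨u0, u1, u2, h1, h2, h3⟩ := QA2_three i0 k0 i' m k hm
    exact ⟨u0, u1, u2, 1, one_pos, h1, h1, h2, h3⟩
  · right
    have e1 := QA2_cne3 hm
    have e2 := QA2_cne3 hm'
    have e3 := QA2_cne hi
    refine ⟨⟨by simp, by simp, by simp, by simp⟩, ?_, ?_, ?_, ?_⟩
    · intro h
      simp only [orient, lpt] at h
      exact e3 (by linear_combination -h / 2)
    · intro h
      simp only [orient, lpt] at h
      exact e3 (by linear_combination -h / 4)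
    · intro h
      simp only [orient, lpt] at h
      exact e2 (by linear_combination h / 2)
    · intro h
      simp only [orient, lpt] at h
      exact e1 (by linear_combination h / 2)

private theorem QA2_xyyz (i0 k0 i m' m k : ℕ) (hl : QA2_NC i0 k0 (.x i) (.y m') (.y m) (.z k)) :
    QA2_L i0 k0 (.x i) (.y m') (.y m) (.z k) ∨ QA2_R (.x i) (.y m') (.y m) (.z k) := by
  by_cases hm : m = i + k
  · left
    subst hm
    have hne : ¬ (i = i0 ∧ k = k0) := by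
      rintro ⟨rfl, rfl⟩
      exact hl ⟨by simp, by simp, by simp⟩
    obtain ⟨u0, u1, u2, ρ, hρ, h1, h2, h3, h4⟩ := QA2_special i0 k0 i k hne (.y m')
    exact ⟨u0, u1, u2, ρ, hρ, h1, h4, h2, h3⟩
  by_cases hm' : m' = i + k
  · left
    subst hm'
    have hne : ¬ (i = i0 ∧ k = k0) := by
      rintro ⟨rfl, rfl⟩
      exact hl ⟨by simp, by simp, by simp⟩
    obtain ⟨u0, u1, u2, ρ, hρ, h1, h2, h3, h4⟩ := QA2_special i0 k0 i k hne (.y m)
    exact ⟨u0, u1, u2, ρ, hρ, h1, h2, h4, h3⟩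
  by_cases hi : m' = m
  · left
    subst hi
    obtain ⟨u0, u1, u2, h1, h2, h3⟩ := QA2_three i0 k0 i m' k hm
    exact ⟨u0, u1, u2, 1, one_pos, h1, h2, h2, h3⟩
  · right
    have e1 := QA2_cne3 hm
    have e2 := QA2_cne3 hm'
    have e3 := QA2_cne hi
    refine ⟨⟨by simp, by simp, by simp, by simp⟩, ?_, ?_, ?_, ?_⟩
    · intro h
      simp only [orient, lpt] at h
      exact e3 (by linear_combination h)
    · intro h
      simp only [orient, lpt] at h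
      exact e2 (by linear_combination h / 2)
    · intro h
      simp only [orient, lpt] at h
      exact e1 (by linear_combination h / 2)
    · intro h
      simp only [orient, lpt] at h
      exact e3 (by linear_combination -h)

private theorem QA2_xyzz (i0 k0 i m k k' : ℕ) (hl : QA2_NC i0 k0 (.x i) (.y m) (.z k) (.z k')) :
    QA2_L i0 k0 (.x i) (.y m) (.z k) (.z k') ∨ QA2_R (.x i) (.y m) (.z k) (.z k') := by
  by_cases hm : m = i + k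
  · left
    subst hm
    have hne : ¬ (i = i0 ∧ k = k0) := by
      rintro ⟨rfl, rfl⟩
      exact hl ⟨by simp, by simp, by simp⟩
    obtain ⟨u0, u1, u2, ρ, hρ, h1, h2, h3, h4⟩ := QA2_special i0 k0 i k hne (.z k')
    exact ⟨u0, u1, u2, ρ, hρ, h1, h2, h3, h4⟩
  by_cases hm' : m = i + k'
  · left
    subst hm'
    have hne : ¬ (i = i0 ∧ k' = k0) := by
      rintro ⟨rfl, rfl⟩
      exact hl ⟨by simp, by simp, by simp⟩
    obtain ⟨u0, u1, u2, ρ, hρ, h1, h2, h3, h4⟩ := QA2_special i0 k0 i k' hne (.z k)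
    exact ⟨u0, u1, u2, ρ, hρ, h1, h2, h4, h3⟩
  by_cases hi : k = k'
  · left
    subst hi
    obtain ⟨u0, u1, u2, h1, h2, h3⟩ := QA2_three i0 k0 i m k hm
    exact ⟨u0, u1, u2, 1, one_pos, h1, h2, h3, h3⟩
  · right
    have e1 := QA2_cne3 hm
    have e2 := QA2_cne3 hm'
    have e3 := QA2_cne hi
    refine ⟨⟨by simp, by simp, by simp, by simp⟩, ?_, ?_, ?_, ?_⟩
    · intro h
      simp only [orient, lpt] at h
      exact e1 (by linear_combination h / 2)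
    · intro h
      simp only [orient, lpt] at h
      exact e2 (by linear_combination h / 2)
    · intro h
      simp only [orient, lpt] at h
      exact e3 (by linear_combination h / 4)
    · intro h
      simp only [orient, lpt] at h
      exact e3 (by linear_combination h / 2)

private theorem QA2_xxyy (i0 k0 i i' m m' : ℕ) :
    QA2_L i0 k0 (.x i) (.x i') (.y m) (.y m') ∨ QA2_R (.x i) (.x i') (.y m) (.y m') := by
  by_cases hi : i = i'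
  · left
    subst hi
    obtain ⟨u0, u2, hu, hc⟩ := QA2_solve_y i0 k0 (.x i)
    exact ⟨_, _, _, _, one_pos, hc, hc, hu m, hu m'⟩
  by_cases hm : m = m'
  · left
    subst hm
    obtain ⟨u2, hu, hc⟩ := QA2_solve_x i0 k0 (.y m)
    exact ⟨_, _, _, _, one_pos, hu i, hu i', hc, hc⟩
  · right
    have e1 := QA2_cne hi
    have e2 := QA2_cne hm
    refine ⟨⟨by simp, by simp, by simp, by simp⟩, ?_, ?_, ?_, ?_⟩
    · intro h
      simp only [orient, lpt] at h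
      exact e1 (by linear_combination -h / 2)
    · intro h
      simp only [orient, lpt] at h
      exact e1 (by linear_combination -h / 2)
    · intro h
      simp only [orient, lpt] at h
      exact e2 (by linear_combination h)
    · intro h
      simp only [orient, lpt] at h
      exact e2 (by linear_combination h)

private theorem QA2_xxzz (i0 k0 i i' k k' : ℕ) :
    QA2_L i0 k0 (.x i) (.x i') (.z k) (.z k') ∨ QA2_R (.x i) (.x i') (.z k) (.z k') := by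
  by_cases hi : i = i'
  · left
    subst hi
    obtain ⟨u0, u2, hu, hc⟩ := QA2_solve_z i0 k0 (.x i)
    exact ⟨_, _, _, _, one_pos, hc, hc, hu k, hu k'⟩
  by_cases hk : k = k'
  · left
    subst hk
    obtain ⟨u2, hu, hc⟩ := QA2_solve_x i0 k0 (.z k)
    exact ⟨_, _, _, _, one_pos, hu i, hu i', hc, hc⟩
  · right
    have e1 := QA2_cne hi
    have e2 := QA2_cne hk
    refine ⟨⟨by simp, by simp, by simp, by simp⟩, ?_, ?_, ?_, ?_⟩
    · intro h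
      simp only [orient, lpt] at h
      exact e1 (by linear_combination -h / 4)
    · intro h
      simp only [orient, lpt] at h
      exact e1 (by linear_combination -h / 4)
    · intro h
      simp only [orient, lpt] at h
      exact e2 (by linear_combination h / 4)
    · intro h
      simp only [orient, lpt] at h
      exact e2 (by linear_combination h / 4)

private theorem QA2_yyzz (i0 k0 m m' k k' : ℕ) :
    QA2_L i0 k0 (.y m) (.y m') (.z k) (.z k') ∨ QA2_R (.y m) (.y m') (.z k) (.z k') := by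
  by_cases hm : m = m'
  · left
    subst hm
    obtain ⟨u0, u2, hu, hc⟩ := QA2_solve_z i0 k0 (.y m)
    exact ⟨_, _, _, _, one_pos, hc, hc, hu k, hu k'⟩
  by_cases hk : k = k'
  · left
    subst hk
    obtain ⟨u0, u2, hu, hc⟩ := QA2_solve_y i0 k0 (.z k)
    exact ⟨_, _, _, _, one_pos, hu m, hu m', hc, hc⟩
  · right
    have e1 := QA2_cne hm
    have e2 := QA2_cne hk
    refine ⟨⟨by simp, by simp, by simp, by simp⟩, ?_, ?_, ?_, ?_⟩
    · intro h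
      simp only [orient, lpt] at h
      exact e1 (by linear_combination -h)
    · intro h
      simp only [orient, lpt] at h
      exact e1 (by linear_combination -h)
    · intro h
      simp only [orient, lpt] at h
      exact e2 (by linear_combination h / 2)
    · intro h
      simp only [orient, lpt] at h
      exact e2 (by linear_combination h / 2)

/-- The label is `st` or `x`. -/
private def QA2_isx : Lab → Bool
  | .st => true
  | .x _ => true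
  | .y _ => false
  | .z _ => false

/-- The label is `st` or `y`. -/
private def QA2_isy : Lab → Bool
  | .st => true
  | .x _ => false
  | .y _ => true
  | .z _ => false

/-- The label is `st` or `z`. -/
private def QA2_isz : Lab → Bool
  | .st => true
  | .x _ => false
  | .y _ => false
  | .z _ => true

private theorem QA2_X (i0 k0 : ℕ) (d : Lab) : ∃ u0 u1 u2 ρ : ℝ, 0 < ρ ∧
    (∀ a, QA2_isx a = true → Cond i0 k0 u0 u1 u2 ρ a) ∧ Cond i0 k0 u0 u1 u2 ρ d := by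
  obtain ⟨u2, hu, hc⟩ := QA2_solve_x i0 k0 d
  refine ⟨_, _, _, _, one_pos, fun a ha => ?_, hc⟩
  cases a with
  | st => exact QA2_st _ _ _ _ _ _
  | x i => exact hu i
  | y m => exact absurd ha Bool.false_ne_true
  | z k => exact absurd ha Bool.false_ne_true

private theorem QA2_Y (i0 k0 : ℕ) (d : Lab) : ∃ u0 u1 u2 ρ : ℝ, 0 < ρ ∧
    (∀ a, QA2_isy a = true → Cond i0 k0 u0 u1 u2 ρ a) ∧ Cond i0 k0 u0 u1 u2 ρ d := by
  obtain ⟨u0, u2, hu, hc⟩ := QA2_solve_y i0 k0 d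
  refine ⟨_, _, _, _, one_pos, fun a ha => ?_, hc⟩
  cases a with
  | st => exact QA2_st _ _ _ _ _ _
  | y m => exact hu m
  | x i => exact absurd ha Bool.false_ne_true
  | z k => exact absurd ha Bool.false_ne_true

private theorem QA2_Z (i0 k0 : ℕ) (d : Lab) : ∃ u0 u1 u2 ρ : ℝ, 0 < ρ ∧
    (∀ a, QA2_isz a = true → Cond i0 k0 u0 u1 u2 ρ a) ∧ Cond i0 k0 u0 u1 u2 ρ d := by
  obtain ⟨u0, u2, hu, hc⟩ := QA2_solve_z i0 k0 d
  refine ⟨_, _, _, _, one_pos, fun a ha => ?_, hc⟩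
  cases a with
  | st => exact QA2_st _ _ _ _ _ _
  | z k => exact hu k
  | x i => exact absurd ha Bool.false_ne_true
  | y m => exact absurd ha Bool.false_ne_true

private theorem QA2_gx (i0 k0 : ℕ) (a b c d : Lab) (ha : QA2_isx a = true)
    (hb : QA2_isx b = true) (hc : QA2_isx c = true) :
    QA2_L i0 k0 a b c d ∨ QA2_R a b c d := by
  obtain ⟨u0, u1, u2, ρ, hρ, h, hd⟩ := QA2_X i0 k0 d
  exact Or.inl ⟨u0, u1, u2, ρ, hρ, h a ha, h b hb, h c hc, hd⟩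

/-- three labels of kind `y` (or `st`), the fourth is at one of the first positions -/
private theorem QA2_gy (i0 k0 : ℕ) (a b c d : Lab)
    (h : ((QA2_isy a && QA2_isy b && QA2_isy c) || (QA2_isy a && QA2_isy c && QA2_isy d) ||
      (QA2_isy b && QA2_isy c && QA2_isy d)) = true) :
    QA2_L i0 k0 a b c d ∨ QA2_R a b c d := by
  left
  rw [Bool.or_eq_true, Bool.or_eq_true, Bool.and_eq_true, Bool.and_eq_true, Bool.and_eq_true,
    Bool.and_eq_true, Bool.and_eq_true, Bool.and_eq_true] at h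
  rcases h with (⟨⟨h1, h2⟩, h3⟩ | ⟨⟨h1, h2⟩, h3⟩) | ⟨⟨h1, h2⟩, h3⟩
  · obtain ⟨u0, u1, u2, ρ, hρ, H, hd⟩ := QA2_Y i0 k0 d
    exact ⟨u0, u1, u2, ρ, hρ, H a h1, H b h2, H c h3, hd⟩
  · obtain ⟨u0, u1, u2, ρ, hρ, H, hd⟩ := QA2_Y i0 k0 b
    exact ⟨u0, u1, u2, ρ, hρ, H a h1, hd, H c h2, H d h3⟩
  · obtain ⟨u0, u1, u2, ρ, hρ, H, hd⟩ := QA2_Y i0 k0 a
    exact ⟨u0, u1, u2, ρ, hρ, hd, H b h1, H c h2, H d h3⟩

/-- three labels of kind `z` (or `st`), the fourth is at one of the first positions -/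
private theorem QA2_gz (i0 k0 : ℕ) (a b c d : Lab)
    (h : ((QA2_isz a && QA2_isz b && QA2_isz c) || (QA2_isz a && QA2_isz c && QA2_isz d) ||
      (QA2_isz b && QA2_isz c && QA2_isz d)) = true) :
    QA2_L i0 k0 a b c d ∨ QA2_R a b c d := by
  left
  rw [Bool.or_eq_true, Bool.or_eq_true, Bool.and_eq_true, Bool.and_eq_true, Bool.and_eq_true,
    Bool.and_eq_true, Bool.and_eq_true, Bool.and_eq_true] at h
  rcases h with (⟨⟨h1, h2⟩, h3⟩ | ⟨⟨h1, h2⟩, h3⟩) | ⟨⟨h1, h2⟩, h3⟩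
  · obtain ⟨u0, u1, u2, ρ, hρ, H, hd⟩ := QA2_Z i0 k0 d
    exact ⟨u0, u1, u2, ρ, hρ, H a h1, H b h2, H c h3, hd⟩
  · obtain ⟨u0, u1, u2, ρ, hρ, H, hd⟩ := QA2_Z i0 k0 b
    exact ⟨u0, u1, u2, ρ, hρ, H a h1, hd, H c h2, H d h3⟩
  · obtain ⟨u0, u1, u2, ρ, hρ, H, hd⟩ := QA2_Z i0 k0 a
    exact ⟨u0, u1, u2, ρ, hρ, hd, H b h1, H c h2, H d h3⟩

private theorem QA2_sorted (i0 k0 : ℕ) (a b c d : Lab) (h01 : QA2_kd a ≤ QA2_kd b)
    (h12 : QA2_kd b ≤ QA2_kd c) (h23 : QA2_kd c ≤ QA2_kd d) (hl : QA2_NC i0 k0 a b c d) :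
    QA2_L i0 k0 a b c d ∨ QA2_R a b c d := by
  rcases a with _ | a | a | a <;> rcases b with _ | b | b | b <;>
    (try (exfalso; simp [QA2_kd] at h01; done)) <;> rcases c with _ | c | c | c <;>
    (try (exfalso; simp [QA2_kd] at h12; done)) <;> rcases d with _ | d | d | d <;>
    (try (exfalso; simp [QA2_kd] at h23; done)) <;>
    first
      | exact QA2_gx i0 k0 _ _ _ _ rfl rfl rfl
      | exact QA2_gy i0 k0 _ _ _ _ rfl
      | exact QA2_gz i0 k0 _ _ _ _ rfl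
      | exact QA2_sxyz i0 k0 _ _ _ hl
      | exact QA2_xxyz i0 k0 _ _ _ _ hl
      | exact QA2_xyyz i0 k0 _ _ _ _ hl
      | exact QA2_xyzz i0 k0 _ _ _ _ hl
      | exact QA2_xxyy i0 k0 _ _ _ _
      | exact QA2_xxzz i0 k0 _ _ _ _
      | exact QA2_yyzz i0 k0 _ _ _ _

private theorem QA2_gp (p : Fin 4 → ℝ × ℝ) (h : GenPos p) (i j k : Fin 4) (hij : i ≠ j)
    (hik : i ≠ k) (hjk : j ≠ k) : orient (p i) (p j) (p k) ≠ 0 := by
  obtain ⟨h1, h2, h3, h4⟩ := h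
  have s1 : ∀ a b c : ℝ × ℝ, orient a b c ≠ 0 → orient b a c ≠ 0 := by
    intro a b c h h'
    apply h
    unfold orient at h' ⊢
    linear_combination -h'
  have s2 : ∀ a b c : ℝ × ℝ, orient a b c ≠ 0 → orient a c b ≠ 0 := by
    intro a b c h h'
    apply h
    unfold orient at h' ⊢
    linear_combination -h'
  have A : ∀ a b c : ℝ × ℝ, orient a b c ≠ 0 → orient a b c ≠ 0 ∧ orient a c b ≠ 0 ∧
      orient b a c ≠ 0 ∧ orient b c a ≠ 0 ∧ orient c a b ≠ 0 ∧ orient c b a ≠ 0 := by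
    intro a b c h
    exact ⟨h, s2 _ _ _ h, s1 _ _ _ h, s2 _ _ _ (s1 _ _ _ h), s1 _ _ _ (s2 _ _ _ h),
      s2 _ _ _ (s1 _ _ _ (s2 _ _ _ h))⟩
  obtain ⟨a1, a2, a3, a4, a5, a6⟩ := A _ _ _ h1
  obtain ⟨b1, b2, b3, b4, b5, b6⟩ := A _ _ _ h2
  obtain ⟨c1, c2, c3, c4, c5, c6⟩ := A _ _ _ h3
  obtain ⟨d1, d2, d3, d4, d5, d6⟩ := A _ _ _ h4
  fin_cases i <;> fin_cases j <;> fin_cases k <;>
    first
      | exact absurd rfl hij
      | exact absurd rfl hik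
      | exact absurd rfl hjk
      | assumption

theorem classify (i0 k0 : ℕ) (l : Fin 4 → Lab)
    (hl : ¬ ((∃ j, l j = .x i0) ∧ (∃ j, l j = .y (i0 + k0)) ∧ (∃ j, l j = .z k0))) :
    (∃ u0 u1 u2 ρ : ℝ, 0 < ρ ∧ ∀ j, Cond i0 k0 u0 u1 u2 ρ (l j)) ∨
      ((∀ j, l j ≠ .st) ∧ GenPos (fun j => lpt (l j))) := by
  set σ : Equiv.Perm (Fin 4) := Tuple.sort (fun j => QA2_kd (l j)) with hσ
  have hmono : Monotone ((fun j => QA2_kd (l j)) ∘ σ) := Tuple.monotone_sort _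
  have h01 : QA2_kd (l (σ 0)) ≤ QA2_kd (l (σ 1)) := hmono (by decide)
  have h12 : QA2_kd (l (σ 1)) ≤ QA2_kd (l (σ 2)) := hmono (by decide)
  have h23 : QA2_kd (l (σ 2)) ≤ QA2_kd (l (σ 3)) := hmono (by decide)
  have hNC : QA2_NC i0 k0 (l (σ 0)) (l (σ 1)) (l (σ 2)) (l (σ 3)) := by
    rintro ⟨h1, h2, h3⟩
    have ex : ∀ a : Lab, (l (σ 0) = a ∨ l (σ 1) = a ∨ l (σ 2) = a ∨ l (σ 3) = a) →
        ∃ j, l j = a := by
      rintro a (h | h | h | h)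
      exacts [⟨_, h⟩, ⟨_, h⟩, ⟨_, h⟩, ⟨_, h⟩]
    exact hl ⟨ex _ h1, ex _ h2, ex _ h3⟩
  have hall : ∀ (p : Fin 4 → Prop), p (σ 0) → p (σ 1) → p (σ 2) → p (σ 3) → ∀ j, p j := by
    intro p p0 p1 p2 p3 j
    obtain ⟨i, rfl⟩ := σ.surjective j
    fin_cases i
    exacts [p0, p1, p2, p3]
  rcases QA2_sorted i0 k0 _ _ _ _ h01 h12 h23 hNC with h | h
  · left
    obtain ⟨u0, u1, u2, ρ, hρ, c0, c1, c2, c3⟩ := h
    exact ⟨u0, u1, u2, ρ, hρ, hall _ c0 c1 c2 c3⟩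
  · right
    obtain ⟨⟨n0, n1, n2, n3⟩, g1, g2, g3, g4⟩ := h
    refine ⟨hall _ n0 n1 n2 n3, ?_⟩
    have hg : GenPos (fun j => lpt (l (σ j))) := ⟨g1, g2, g3, g4⟩
    have key : ∀ i j k : Fin 4, i ≠ j → i ≠ k → j ≠ k →
        orient (lpt (l i)) (lpt (l j)) (lpt (l k)) ≠ 0 := by
      intro i j k hij hik hjk
      have h := QA2_gp _ hg (σ.symm i) (σ.symm j) (σ.symm k)
        (fun h => hij (σ.symm.injective h)) (fun h => hik (σ.symm.injective h))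
        (fun h => hjk (σ.symm.injective h))
      simpa only [Equiv.apply_symm_apply] using h
    exact ⟨key 0 1 2 (by decide) (by decide) (by decide),
      key 0 1 3 (by decide) (by decide) (by decide),
      key 0 2 3 (by decide) (by decide) (by decide),
      key 1 2 3 (by decide) (by decide) (by decide)⟩

end Pool.LibML82.Q
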