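import Pool.Agent.LibML82.QFam

/-!
# Row QA3: clearing the denominators

By `MvPolynomial.induction_on F`: for `C a` take `d = 0`; for a sum bring both to a common exponent; for
`F * X_v` take `d + 1` and multiply `Q` by the numerator of the variable `v` (a polynomial in `θ` and `η`; it is `0`
for the label `st`) and by the other three denominators. `ev θ η` is evaluation of a polynomial in `η` whose
coefficients are polynomials in `θ` (compare `vp`, `ev_vp` in `A2.lean`).
-/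

namespace Pool.LibML82.Q

/-- Evaluation at `(θ, η)`. -/
noncomputable def ev (θ : Fin 9 → ℝ) (η : ℝ) : Polynomial (MvPolynomial (Fin 9) ℝ) →+* ℝ :=
  Polynomial.eval₂RingHom (MvPolynomial.eval θ) η

private theorem ev_C (θ : Fin 9 → ℝ) (η : ℝ) (p : MvPolynomial (Fin 9) ℝ) :
    ev θ η (Polynomial.C p) = MvPolynomial.eval θ p := by
  simp [ev]

private theorem ev_X (θ : Fin 9 → ℝ) (η : ℝ) : ev θ η Polynomial.X = η := by
  simp [ev]

/-- The polynomial `a + b v.1 + c v.2` of three coordinates of `θ`. -/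
private noncomputable def lin (a b c : Fin 9) (v : ℝ × ℝ) : MvPolynomial (Fin 9) ℝ :=
  MvPolynomial.X a + MvPolynomial.X b * MvPolynomial.C v.1 + MvPolynomial.X c * MvPolynomial.C v.2

private theorem eval_lin (a b c : Fin 9) (v : ℝ × ℝ) (θ : Fin 9 → ℝ) :
    MvPolynomial.eval θ (lin a b c v) = θ a + θ b * v.1 + θ c * v.2 := by
  simp [lin]

/-- The numerator of the first coordinate. -/
private noncomputable def n1 : Lab → Polynomial (MvPolynomial (Fin 9) ℝ)
  | .st => 0
  | .x i => Polynomial.C (lin 0 1 2 (lpt (.x i))) - Polynomial.X * Polynomial.C (MvPolynomial.C (pb (.x i)))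
  | .y m => Polynomial.C (lin 0 1 2 (lpt (.y m))) - Polynomial.X * Polynomial.C (MvPolynomial.C (pb (.y m)))
  | .z k => Polynomial.C (lin 0 1 2 (lpt (.z k))) - Polynomial.X * Polynomial.C (MvPolynomial.C (pb (.z k)))

/-- The numerator of the second coordinate. -/
private noncomputable def n2 : Lab → Polynomial (MvPolynomial (Fin 9) ℝ)
  | .st => 0
  | .x i => Polynomial.C (lin 3 4 5 (lpt (.x i)))
  | .y m => Polynomial.C (lin 3 4 5 (lpt (.y m)))
  | .z k => Polynomial.C (lin 3 4 5 (lpt (.z k)))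

private theorem ev_n1 (θ : Fin 9 → ℝ) (η : ℝ) (l : Lab) (h : den θ (lpt l) ≠ 0) :
    ev θ η (n1 l) = den θ (lpt l) * (Pb θ η l).1 := by
  cases l with
  | st => simp [n1, Pb, fam]
  | x i =>
    simp only [n1, map_sub, map_mul, ev_C, ev_X, eval_lin, MvPolynomial.eval_C, Pb, fam, cor]
    rw [mul_div_cancel₀ _ h]
  | y m =>
    simp only [n1, map_sub, map_mul, ev_C, ev_X, eval_lin, MvPolynomial.eval_C, Pb, fam, cor]
    rw [mul_div_cancel₀ _ h]
  | z k =>
    simp only [n1, map_sub, map_mul, ev_C, ev_X, eval_lin, MvPolynomial.eval_C, Pb, fam, cor]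
    rw [mul_div_cancel₀ _ h]

private theorem ev_n2 (θ : Fin 9 → ℝ) (η : ℝ) (l : Lab) (h : den θ (lpt l) ≠ 0) :
    ev θ η (n2 l) = den θ (lpt l) * (Pb θ η l).2 := by
  cases l with
  | st => simp [n2, Pb, fam]
  | x i =>
    simp only [n2, ev_C, eval_lin, Pb, fam, cor]
    rw [mul_div_cancel₀ _ h]
  | y m =>
    simp only [n2, ev_C, eval_lin, Pb, fam, cor]
    rw [mul_div_cancel₀ _ h]
  | z k =>
    simp only [n2, ev_C, eval_lin, Pb, fam, cor]
    rw [mul_div_cancel₀ _ h]

/-- The denominator of a label as a polynomial. -/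
private noncomputable def dn (l : Lab) : Polynomial (MvPolynomial (Fin 9) ℝ) :=
  Polynomial.C (lin 6 7 8 (lpt l))

private theorem ev_dn (θ : Fin 9 → ℝ) (η : ℝ) (l : Lab) : ev θ η (dn l) = den θ (lpt l) := by
  rw [dn, ev_C, eval_lin, den]

private theorem exists_var (l : Fin 4 → Lab) (v : Fin 4 ⊕ Fin 4) :
    ∃ Q : Polynomial (MvPolynomial (Fin 9) ℝ), ∀ (θ : Fin 9 → ℝ) (η : ℝ),
      (∀ j, den θ (lpt (l j)) ≠ 0) →
        ev θ η Q = (∏ j, den θ (lpt (l j))) * vals (Pb θ η) l v := by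
  rcases v with j | j
  · refine ⟨n1 (l j) * ∏ k ∈ Finset.univ.erase j, dn (l k), fun θ η h => ?_⟩
    rw [map_mul, map_prod, ev_n1 θ η (l j) (h j), ← Finset.mul_prod_erase Finset.univ _ (Finset.mem_univ j)]
    simp only [ev_dn, vals, Sum.elim_inl]
    ring
  · refine ⟨n2 (l j) * ∏ k ∈ Finset.univ.erase j, dn (l k), fun θ η h => ?_⟩
    rw [map_mul, map_prod, ev_n2 θ η (l j) (h j), ← Finset.mul_prod_erase Finset.univ _ (Finset.mem_univ j)]
    simp only [ev_dn, vals, Sum.elim_inr]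
    ring

theorem clear (F : MvPolynomial (Fin 4 ⊕ Fin 4) ℝ) (l : Fin 4 → Lab) :
    ∃ (d : ℕ) (Q : Polynomial (MvPolynomial (Fin 9) ℝ)), ∀ (θ : Fin 9 → ℝ) (η : ℝ),
      (∀ j, den θ (lpt (l j)) ≠ 0) →
        ev θ η Q = (∏ j, den θ (lpt (l j))) ^ d * MvPolynomial.eval (vals (Pb θ η) l) F := by
  induction F using MvPolynomial.induction_on with
  | C a =>
    refine ⟨0, Polynomial.C (MvPolynomial.C a), fun θ η _ => ?_⟩
    rw [ev_C, MvPolynomial.eval_C, MvPolynomial.eval_C, pow_zero, one_mul]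
  | add p q hp hq =>
    obtain ⟨dp, Qs, hp⟩ := hp
    obtain ⟨dq, Qt, hq⟩ := hq
    refine ⟨dp + dq, (∏ j, dn (l j)) ^ dq * Qs + (∏ j, dn (l j)) ^ dp * Qt, fun θ η h => ?_⟩
    rw [map_add, map_mul, map_mul, map_pow, map_pow, map_prod, hp θ η h, hq θ η h, map_add]
    simp only [ev_dn]
    ring
  | mul_X p v hp =>
    obtain ⟨dp, Qs, hp⟩ := hp
    obtain ⟨Qv, hv⟩ := exists_var l v
    refine ⟨dp + 1, Qs * Qv, fun θ η h => ?_⟩
    rw [map_mul, hp θ η h, hv θ η h, map_mul, MvPolynomial.eval_X]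
    ring

end Pool.LibML82.Q
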