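import Pool.Agent.LibML82.QFam

/-!
# Row QA4: four points in general position go to any four points in general position

For three of the four points write the barycentric coordinates: with `Δ = orient (p 0) (p 1) (p 2)` put
`λ0 v = orient v (p 1) (p 2) / Δ`, `λ1 v = orient (p 0) v (p 2) / Δ`, `λ2 v = orient (p 0) (p 1) v / Δ`, affine
functions of `v` with `λa (p b) = δ_ab`; the same numbers `μa` for `q 3` with respect to `q 0, q 1, q 2`. The wanted map is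
`v ↦ (Σ_a (μa (q 3) / λa (p 3)) λa v (q a, 1))`: at `p a` (`a = 0, 1, 2`) the denominator is
`μa (q 3) / λa (p 3) ≠ 0` and the image is `q a`; at `p 3` it is `Σ_a μa (q 3) (q a, 1) = (q 3, 1)`. The nine
entries of `θ` are the coefficients of `1`, `v.1`, `v.2` in the three coordinates (first coordinate: `θ 0, θ 1, θ 2`,
second: `θ 3, θ 4, θ 5`, denominator: `θ 6, θ 7, θ 8`).
-/

namespace Pool.LibML82.Q

private lemma QA4_cor (θ : Fin 9 → ℝ) (v w : ℝ × ℝ) (d : ℝ) (hd : d ≠ 0)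
    (h0 : θ 6 + θ 7 * v.1 + θ 8 * v.2 = d) (h1 : θ 0 + θ 1 * v.1 + θ 2 * v.2 = d * w.1)
    (h2 : θ 3 + θ 4 * v.1 + θ 5 * v.2 = d * w.2) : den θ v ≠ 0 ∧ cor θ 0 v = w := by
  have h3 : den θ v = d := h0
  refine ⟨by rw [h3]; exact hd, ?_⟩
  unfold cor
  rw [h3, sub_zero, h1, h2, mul_div_cancel_left₀ _ hd, mul_div_cancel_left₀ _ hd]

theorem exists_proj (p q : Fin 4 → ℝ × ℝ) (hp : GenPos p) (hq : GenPos q) :
    ∃ θ : Fin 9 → ℝ, ∀ j, den θ (p j) ≠ 0 ∧ cor θ 0 (p j) = q j := by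
  obtain ⟨hp1, hp2, hp3, hp4⟩ := hp
  obtain ⟨hq1, hq2, hq3, hq4⟩ := hq
  -- the forms at the fourth point
  have hl0 : orient (p 1) (p 2) (p 3) ≠ 0 := hp4
  have hl1 : orient (p 0) (p 2) (p 3) ≠ 0 := hp3
  have hl2 : orient (p 0) (p 1) (p 3) ≠ 0 := hp2
  obtain ⟨k0, hk0⟩ : ∃ k, k * orient (p 1) (p 2) (p 3) = orient (q 1) (q 2) (q 3) :=
    ⟨_, div_mul_cancel₀ _ hl0⟩
  obtain ⟨k1, hk1⟩ : ∃ k, k * orient (p 0) (p 2) (p 3) = orient (q 0) (q 2) (q 3) :=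
    ⟨_, div_mul_cancel₀ _ hl1⟩
  obtain ⟨k2, hk2⟩ : ∃ k, k * orient (p 0) (p 1) (p 3) = orient (q 0) (q 1) (q 3) :=
    ⟨_, div_mul_cancel₀ _ hl2⟩
  have hk0' : k0 ≠ 0 := by
    rintro rfl
    rw [zero_mul] at hk0
    exact hq4 hk0.symm
  have hk1' : k1 ≠ 0 := by
    rintro rfl
    rw [zero_mul] at hk1
    exact hq3 hk1.symm
  have hk2' : k2 ≠ 0 := by
    rintro rfl
    rw [zero_mul] at hk2
    exact hq2 hk2.symm
  unfold orient at hk0 hk1 hk2 hp1 hq1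
  have hΔ0 := mul_ne_zero hk0' hp1
  have hΔ1 := mul_ne_zero hk1' hp1
  have hΔ2 := mul_ne_zero hk2' hp1
  refine ⟨![k0 * ((p 1).1 * (p 2).2 - (p 2).1 * (p 1).2) * (q 0).1 +
      k1 * ((p 2).1 * (p 0).2 - (p 0).1 * (p 2).2) * (q 1).1 +
      k2 * ((p 0).1 * (p 1).2 - (p 1).1 * (p 0).2) * (q 2).1,
    k0 * ((p 1).2 - (p 2).2) * (q 0).1 + k1 * ((p 2).2 - (p 0).2) * (q 1).1 +
      k2 * ((p 0).2 - (p 1).2) * (q 2).1,
    k0 * ((p 2).1 - (p 1).1) * (q 0).1 + k1 * ((p 0).1 - (p 2).1) * (q 1).1 +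
      k2 * ((p 1).1 - (p 0).1) * (q 2).1,
    k0 * ((p 1).1 * (p 2).2 - (p 2).1 * (p 1).2) * (q 0).2 +
      k1 * ((p 2).1 * (p 0).2 - (p 0).1 * (p 2).2) * (q 1).2 +
      k2 * ((p 0).1 * (p 1).2 - (p 1).1 * (p 0).2) * (q 2).2,
    k0 * ((p 1).2 - (p 2).2) * (q 0).2 + k1 * ((p 2).2 - (p 0).2) * (q 1).2 +
      k2 * ((p 0).2 - (p 1).2) * (q 2).2,
    k0 * ((p 2).1 - (p 1).1) * (q 0).2 + k1 * ((p 0).1 - (p 2).1) * (q 1).2 +
      k2 * ((p 1).1 - (p 0).1) * (q 2).2,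
    k0 * ((p 1).1 * (p 2).2 - (p 2).1 * (p 1).2) +
      k1 * ((p 2).1 * (p 0).2 - (p 0).1 * (p 2).2) +
      k2 * ((p 0).1 * (p 1).2 - (p 1).1 * (p 0).2),
    k0 * ((p 1).2 - (p 2).2) + k1 * ((p 2).2 - (p 0).2) + k2 * ((p 0).2 - (p 1).2),
    k0 * ((p 2).1 - (p 1).1) + k1 * ((p 0).1 - (p 2).1) + k2 * ((p 1).1 - (p 0).1)], ?_⟩
  intro j
  fin_cases j
  · refine QA4_cor _ (p 0) (q 0) _ hΔ0 ?_ ?_ ?_
    · show k0 * ((p 1).1 * (p 2).2 - (p 2).1 * (p 1).2) +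
        k1 * ((p 2).1 * (p 0).2 - (p 0).1 * (p 2).2) +
        k2 * ((p 0).1 * (p 1).2 - (p 1).1 * (p 0).2) +
        (k0 * ((p 1).2 - (p 2).2) + k1 * ((p 2).2 - (p 0).2) + k2 * ((p 0).2 - (p 1).2)) *
          (p 0).1 +
        (k0 * ((p 2).1 - (p 1).1) + k1 * ((p 0).1 - (p 2).1) + k2 * ((p 1).1 - (p 0).1)) *
          (p 0).2 = _
      ring
    · show k0 * ((p 1).1 * (p 2).2 - (p 2).1 * (p 1).2) * (q 0).1 +
        k1 * ((p 2).1 * (p 0).2 - (p 0).1 * (p 2).2) * (q 1).1 +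
        k2 * ((p 0).1 * (p 1).2 - (p 1).1 * (p 0).2) * (q 2).1 +
        (k0 * ((p 1).2 - (p 2).2) * (q 0).1 + k1 * ((p 2).2 - (p 0).2) * (q 1).1 +
          k2 * ((p 0).2 - (p 1).2) * (q 2).1) * (p 0).1 +
        (k0 * ((p 2).1 - (p 1).1) * (q 0).1 + k1 * ((p 0).1 - (p 2).1) * (q 1).1 +
          k2 * ((p 1).1 - (p 0).1) * (q 2).1) * (p 0).2 = _
      ring
    · show k0 * ((p 1).1 * (p 2).2 - (p 2).1 * (p 1).2) * (q 0).2 +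
        k1 * ((p 2).1 * (p 0).2 - (p 0).1 * (p 2).2) * (q 1).2 +
        k2 * ((p 0).1 * (p 1).2 - (p 1).1 * (p 0).2) * (q 2).2 +
        (k0 * ((p 1).2 - (p 2).2) * (q 0).2 + k1 * ((p 2).2 - (p 0).2) * (q 1).2 +
          k2 * ((p 0).2 - (p 1).2) * (q 2).2) * (p 0).1 +
        (k0 * ((p 2).1 - (p 1).1) * (q 0).2 + k1 * ((p 0).1 - (p 2).1) * (q 1).2 +
          k2 * ((p 1).1 - (p 0).1) * (q 2).2) * (p 0).2 = _
      ring
  · refine QA4_cor _ (p 1) (q 1) _ hΔ1 ?_ ?_ ?_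
    · show k0 * ((p 1).1 * (p 2).2 - (p 2).1 * (p 1).2) +
        k1 * ((p 2).1 * (p 0).2 - (p 0).1 * (p 2).2) +
        k2 * ((p 0).1 * (p 1).2 - (p 1).1 * (p 0).2) +
        (k0 * ((p 1).2 - (p 2).2) + k1 * ((p 2).2 - (p 0).2) + k2 * ((p 0).2 - (p 1).2)) *
          (p 1).1 +
        (k0 * ((p 2).1 - (p 1).1) + k1 * ((p 0).1 - (p 2).1) + k2 * ((p 1).1 - (p 0).1)) *
          (p 1).2 = _
      ring
    · show k0 * ((p 1).1 * (p 2).2 - (p 2).1 * (p 1).2) * (q 0).1 +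
        k1 * ((p 2).1 * (p 0).2 - (p 0).1 * (p 2).2) * (q 1).1 +
        k2 * ((p 0).1 * (p 1).2 - (p 1).1 * (p 0).2) * (q 2).1 +
        (k0 * ((p 1).2 - (p 2).2) * (q 0).1 + k1 * ((p 2).2 - (p 0).2) * (q 1).1 +
          k2 * ((p 0).2 - (p 1).2) * (q 2).1) * (p 1).1 +
        (k0 * ((p 2).1 - (p 1).1) * (q 0).1 + k1 * ((p 0).1 - (p 2).1) * (q 1).1 +
          k2 * ((p 1).1 - (p 0).1) * (q 2).1) * (p 1).2 = _
      ring
    · show k0 * ((p 1).1 * (p 2).2 - (p 2).1 * (p 1).2) * (q 0).2 +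
        k1 * ((p 2).1 * (p 0).2 - (p 0).1 * (p 2).2) * (q 1).2 +
        k2 * ((p 0).1 * (p 1).2 - (p 1).1 * (p 0).2) * (q 2).2 +
        (k0 * ((p 1).2 - (p 2).2) * (q 0).2 + k1 * ((p 2).2 - (p 0).2) * (q 1).2 +
          k2 * ((p 0).2 - (p 1).2) * (q 2).2) * (p 1).1 +
        (k0 * ((p 2).1 - (p 1).1) * (q 0).2 + k1 * ((p 0).1 - (p 2).1) * (q 1).2 +
          k2 * ((p 1).1 - (p 0).1) * (q 2).2) * (p 1).2 = _
      ring
  · refine QA4_cor _ (p 2) (q 2) _ hΔ2 ?_ ?_ ?_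
    · show k0 * ((p 1).1 * (p 2).2 - (p 2).1 * (p 1).2) +
        k1 * ((p 2).1 * (p 0).2 - (p 0).1 * (p 2).2) +
        k2 * ((p 0).1 * (p 1).2 - (p 1).1 * (p 0).2) +
        (k0 * ((p 1).2 - (p 2).2) + k1 * ((p 2).2 - (p 0).2) + k2 * ((p 0).2 - (p 1).2)) *
          (p 2).1 +
        (k0 * ((p 2).1 - (p 1).1) + k1 * ((p 0).1 - (p 2).1) + k2 * ((p 1).1 - (p 0).1)) *
          (p 2).2 = _
      ring
    · show k0 * ((p 1).1 * (p 2).2 - (p 2).1 * (p 1).2) * (q 0).1 +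
        k1 * ((p 2).1 * (p 0).2 - (p 0).1 * (p 2).2) * (q 1).1 +
        k2 * ((p 0).1 * (p 1).2 - (p 1).1 * (p 0).2) * (q 2).1 +
        (k0 * ((p 1).2 - (p 2).2) * (q 0).1 + k1 * ((p 2).2 - (p 0).2) * (q 1).1 +
          k2 * ((p 0).2 - (p 1).2) * (q 2).1) * (p 2).1 +
        (k0 * ((p 2).1 - (p 1).1) * (q 0).1 + k1 * ((p 0).1 - (p 2).1) * (q 1).1 +
          k2 * ((p 1).1 - (p 0).1) * (q 2).1) * (p 2).2 = _
      ring
    · show k0 * ((p 1).1 * (p 2).2 - (p 2).1 * (p 1).2) * (q 0).2 +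
        k1 * ((p 2).1 * (p 0).2 - (p 0).1 * (p 2).2) * (q 1).2 +
        k2 * ((p 0).1 * (p 1).2 - (p 1).1 * (p 0).2) * (q 2).2 +
        (k0 * ((p 1).2 - (p 2).2) * (q 0).2 + k1 * ((p 2).2 - (p 0).2) * (q 1).2 +
          k2 * ((p 0).2 - (p 1).2) * (q 2).2) * (p 2).1 +
        (k0 * ((p 2).1 - (p 1).1) * (q 0).2 + k1 * ((p 0).1 - (p 2).1) * (q 1).2 +
          k2 * ((p 1).1 - (p 0).1) * (q 2).2) * (p 2).2 = _
      ring
  · refine QA4_cor _ (p 3) (q 3) _ hq1 ?_ ?_ ?_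
    · show k0 * ((p 1).1 * (p 2).2 - (p 2).1 * (p 1).2) +
        k1 * ((p 2).1 * (p 0).2 - (p 0).1 * (p 2).2) +
        k2 * ((p 0).1 * (p 1).2 - (p 1).1 * (p 0).2) +
        (k0 * ((p 1).2 - (p 2).2) + k1 * ((p 2).2 - (p 0).2) + k2 * ((p 0).2 - (p 1).2)) *
          (p 3).1 +
        (k0 * ((p 2).1 - (p 1).1) + k1 * ((p 0).1 - (p 2).1) + k2 * ((p 1).1 - (p 0).1)) *
          (p 3).2 = _
      linear_combination hk0 - hk1 + hk2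
    · show k0 * ((p 1).1 * (p 2).2 - (p 2).1 * (p 1).2) * (q 0).1 +
        k1 * ((p 2).1 * (p 0).2 - (p 0).1 * (p 2).2) * (q 1).1 +
        k2 * ((p 0).1 * (p 1).2 - (p 1).1 * (p 0).2) * (q 2).1 +
        (k0 * ((p 1).2 - (p 2).2) * (q 0).1 + k1 * ((p 2).2 - (p 0).2) * (q 1).1 +
          k2 * ((p 0).2 - (p 1).2) * (q 2).1) * (p 3).1 +
        (k0 * ((p 2).1 - (p 1).1) * (q 0).1 + k1 * ((p 0).1 - (p 2).1) * (q 1).1 +
          k2 * ((p 1).1 - (p 0).1) * (q 2).1) * (p 3).2 = _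
      linear_combination (q 0).1 * hk0 - (q 1).1 * hk1 + (q 2).1 * hk2
    · show k0 * ((p 1).1 * (p 2).2 - (p 2).1 * (p 1).2) * (q 0).2 +
        k1 * ((p 2).1 * (p 0).2 - (p 0).1 * (p 2).2) * (q 1).2 +
        k2 * ((p 0).1 * (p 1).2 - (p 1).1 * (p 0).2) * (q 2).2 +
        (k0 * ((p 1).2 - (p 2).2) * (q 0).2 + k1 * ((p 2).2 - (p 0).2) * (q 1).2 +
          k2 * ((p 0).2 - (p 1).2) * (q 2).2) * (p 3).1 +
        (k0 * ((p 2).1 - (p 1).1) * (q 0).2 + k1 * ((p 0).1 - (p 2).1) * (q 1).2 +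
          k2 * ((p 1).1 - (p 0).1) * (q 2).2) * (p 3).2 = _
      linear_combination (q 0).2 * hk0 - (q 1).2 * hk1 + (q 2).2 * hk2

end Pool.LibML82.Q
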