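import Pool.Agent.LibML82.QFam

/-!
# Row QA5: the two families are near the standard positions

For `θ` near `th0 n = (0, 1, 2n, 0, 0, 1, 1, 0, 0)` and small `η ≥ 0` the base point and all collapsed points are
`Near`, and the denominators are positive. Explicit: `ε = δ = 1 / (10^6 (n + 1)^3)` or so. Or by continuity:
there are finitely many labels and pairs; for each of them the coordinates of `fam θ η p l` are continuous
in `(θ, η)` at `(th0 n, 0)`, where they have exactly the standard values `(2i, 0)`, `(2n + m, 1)`,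
`(4n + 2k, 2)` (the denominator is `1` there), and `sg n > 0`; take the minimum of finitely many `ε, δ`
(for example: intersect finitely many neighbourhoods of `(th0 n, 0)`, `Filter.eventually_all_finset`, then
`Metric.eventually_nhds_iff` in the product with the sup metric on `Fin 9 → ℝ`).
-/

namespace Pool.LibML82.Q

open Filter Topology in
private theorem QA5_cor (n : ℕ) (p : ℝ) (v : ℝ × ℝ) (e : ℝ) (he : 0 < e) :
    ∀ᶠ x : (Fin 9 → ℝ) × ℝ in nhds (th0 n, (0 : ℝ)), 0 < den x.1 v ∧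
      |(cor x.1 (x.2 * p) v).1 - (v.1 + 2 * n * v.2)| ≤ e ∧ |(cor x.1 (x.2 * p) v).2 - v.2| ≤ e := by
  have hc : ∀ j : Fin 9, Continuous fun x : (Fin 9 → ℝ) × ℝ => x.1 j := fun j =>
    (continuous_apply j).comp continuous_fst
  have hd : Continuous fun x : (Fin 9 → ℝ) × ℝ => den x.1 v :=
    ((hc 6).add ((hc 7).mul continuous_const)).add ((hc 8).mul continuous_const)
  have t0 : th0 n 0 = 0 := rfl
  have t1 : th0 n 1 = 1 := rfl
  have t2 : th0 n 2 = 2 * n := rfl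
  have t3 : th0 n 3 = 0 := rfl
  have t4 : th0 n 4 = 0 := rfl
  have t5 : th0 n 5 = 1 := rfl
  have t6 : th0 n 6 = 1 := rfl
  have t7 : th0 n 7 = 0 := rfl
  have t8 : th0 n 8 = 0 := rfl
  have hd1 : den (th0 n) v = 1 := by
    unfold den
    rw [t6, t7, t8]
    ring
  have h1 : ContinuousAt (fun x : (Fin 9 → ℝ) × ℝ => (cor x.1 (x.2 * p) v).1) (th0 n, (0 : ℝ)) := by
    refine ContinuousAt.div (Continuous.continuousAt ?_) hd.continuousAt ?_
    · exact ((((hc 0).add ((hc 1).mul continuous_const)).add ((hc 2).mul continuous_const))).sub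
        (continuous_snd.mul continuous_const)
    · change den (th0 n) v ≠ 0
      rw [hd1]
      exact one_ne_zero
  have h2 : ContinuousAt (fun x : (Fin 9 → ℝ) × ℝ => (cor x.1 (x.2 * p) v).2) (th0 n, (0 : ℝ)) := by
    refine ContinuousAt.div (Continuous.continuousAt ?_) hd.continuousAt ?_
    · exact (((hc 3).add ((hc 4).mul continuous_const)).add ((hc 5).mul continuous_const))
    · change den (th0 n) v ≠ 0
      rw [hd1]
      exact one_ne_zero
  have v1 : (cor (th0 n) (0 * p) v).1 = v.1 + 2 * n * v.2 := by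
    unfold cor
    rw [hd1, t0, t1, t2]
    ring
  have v2 : (cor (th0 n) (0 * p) v).2 = v.2 := by
    unfold cor
    rw [hd1, t3, t4, t5]
    ring
  have e0 : ∀ᶠ x : (Fin 9 → ℝ) × ℝ in nhds (th0 n, (0 : ℝ)), 0 < den x.1 v := by
    refine hd.continuousAt.eventually (lt_mem_nhds ?_)
    change 0 < den (th0 n) v
    rw [hd1]
    exact one_pos
  have e1 : ∀ᶠ x : (Fin 9 → ℝ) × ℝ in nhds (th0 n, (0 : ℝ)),
      |(cor x.1 (x.2 * p) v).1 - (v.1 + 2 * n * v.2)| ≤ e := by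
    have h3 := Metric.tendsto_nhds.1 h1 e he
    refine h3.mono fun x hx => ?_
    rw [Real.dist_eq] at hx
    have hx' : |(cor x.1 (x.2 * p) v).1 - (cor (th0 n) (0 * p) v).1| < e := hx
    rw [v1] at hx'
    exact hx'.le
  have e2 : ∀ᶠ x : (Fin 9 → ℝ) × ℝ in nhds (th0 n, (0 : ℝ)),
      |(cor x.1 (x.2 * p) v).2 - v.2| ≤ e := by
    have h3 := Metric.tendsto_nhds.1 h2 e he
    refine h3.mono fun x hx => ?_
    rw [Real.dist_eq] at hx
    have hx' : |(cor x.1 (x.2 * p) v).2 - (cor (th0 n) (0 * p) v).2| < e := hx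
    rw [v2] at hx'
    exact hx'.le
  filter_upwards [e0, e1, e2] with x a b c
  exact ⟨a, b, c⟩

private theorem QA5_all (n N : ℕ) {Q : ℕ → (Fin 9 → ℝ) × ℝ → Prop}
    (h : ∀ i, ∀ᶠ x in nhds (th0 n, (0 : ℝ)), Q i x) :
    ∀ᶠ x in nhds (th0 n, (0 : ℝ)), ∀ i, i < N → Q i x := by
  have h1 : ∀ᶠ x in nhds (th0 n, (0 : ℝ)), ∀ i ∈ Finset.range N, Q i x :=
    (Filter.eventually_all_finset _).2 fun i _ => h i
  exact h1.mono fun x hx i hi => hx i (Finset.mem_range.2 hi)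

private theorem QA5_near (n : ℕ) (hn : 1 ≤ n) (p : Lab → ℝ) :
    ∀ᶠ x : (Fin 9 → ℝ) × ℝ in nhds (th0 n, (0 : ℝ)), Near n (fam x.1 x.2 p) := by
  have hn' : (0 : ℝ) < n := by exact_mod_cast hn
  have hs : 0 < sg n := by
    unfold sg
    positivity
  have hm : 0 < min (1 / 16) (sg n) := lt_min (by norm_num) hs
  have a := QA5_all n n fun i => QA5_cor n (p (.x i)) (lpt (.x i)) _ hm
  have b := QA5_all n (2 * n - 1) fun i => QA5_cor n (p (.y i)) (lpt (.y i)) _ hm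
  have c := QA5_all n n fun i => QA5_cor n (p (.z i)) (lpt (.z i)) _ hm
  filter_upwards [a, b, c] with x a b c
  refine ⟨fun i hi => ?_, fun i hi => ?_, fun i hi => ?_⟩
  · obtain ⟨_, h1, h2⟩ := a i hi
    have e1 : (lpt (.x i)).1 + 2 * (n : ℝ) * (lpt (.x i)).2 = 2 * i := by
      change 2 * (i : ℝ) + 2 * (n : ℝ) * 0 = 2 * i
      ring
    have e2 : (lpt (.x i)).2 = 0 := rfl
    rw [e1] at h1
    rw [e2, sub_zero] at h2
    exact ⟨h1.trans (min_le_left _ _), h2.trans (min_le_right _ _)⟩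
  · obtain ⟨_, h1, h2⟩ := b i hi
    have e1 : (lpt (.y i)).1 + 2 * (n : ℝ) * (lpt (.y i)).2 = 2 * n + i := by
      change (i : ℝ) + 2 * (n : ℝ) * 1 = 2 * n + i
      ring
    have e2 : (lpt (.y i)).2 = 1 := rfl
    rw [e1] at h1
    rw [e2] at h2
    exact ⟨h1.trans (min_le_left _ _), h2.trans (min_le_right _ _)⟩
  · obtain ⟨_, h1, h2⟩ := c i hi
    have e1 : (lpt (.z i)).1 + 2 * (n : ℝ) * (lpt (.z i)).2 = 4 * n + 2 * i := by
      change 2 * (i : ℝ) + 2 * (n : ℝ) * 2 = 4 * n + 2 * i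
      ring
    have e2 : (lpt (.z i)).2 = 2 := rfl
    rw [e1] at h1
    rw [e2] at h2
    exact ⟨h1.trans (min_le_left _ _), h2.trans (min_le_right _ _)⟩

theorem near_family (n : ℕ) (hn : 1 ≤ n) : ∃ ε δ : ℝ, 0 < ε ∧ 0 < δ ∧
    ∀ θ : Fin 9 → ℝ, (∀ j, |θ j - th0 n j| < ε) → ∀ η : ℝ, 0 ≤ η → η < δ →
      Near n (Pb θ η) ∧ (∀ i0 k0 : ℕ, i0 < n → k0 < n → Near n (Pc i0 k0 θ η)) ∧
        (∀ i, i < n → 0 < den θ (lpt (.x i))) ∧ (∀ m, m < 2 * n - 1 → 0 < den θ (lpt (.y m))) ∧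
          (∀ k, k < n → 0 < den θ (lpt (.z k))) ∧ 0 < den θ (lpt .st) := by
  have h1 : ∀ᶠ x : (Fin 9 → ℝ) × ℝ in nhds (th0 n, (0 : ℝ)),
      Near n (Pb x.1 x.2) ∧ (∀ i0, i0 < n → ∀ k0, k0 < n → Near n (Pc i0 k0 x.1 x.2)) ∧
        (∀ i, i < n → 0 < den x.1 (lpt (.x i))) ∧ (∀ m, m < 2 * n - 1 → 0 < den x.1 (lpt (.y m))) ∧
          (∀ k, k < n → 0 < den x.1 (lpt (.z k))) ∧ 0 < den x.1 (lpt .st) := by
    have a := QA5_near n hn pb
    have b := QA5_all n n (Q := fun i0 x => ∀ k0, k0 < n → Near n (Pc i0 k0 x.1 x.2)) fun i0 =>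
      QA5_all n n fun k0 => QA5_near n hn (pc i0 k0)
    have c := QA5_all n n fun i => (QA5_cor n 0 (lpt (.x i)) 1 one_pos).mono fun x hx => hx.1
    have d := QA5_all n (2 * n - 1) fun i => (QA5_cor n 0 (lpt (.y i)) 1 one_pos).mono fun x hx => hx.1
    have e := QA5_all n n fun i => (QA5_cor n 0 (lpt (.z i)) 1 one_pos).mono fun x hx => hx.1
    have f := (QA5_cor n 0 (lpt .st) 1 one_pos).mono fun x hx => hx.1
    filter_upwards [a, b, c, d, e, f] with x a b c d e f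
    exact ⟨a, b, c, d, e, f⟩
  obtain ⟨ε, hε, h2⟩ := Metric.eventually_nhds_iff.1 h1
  refine ⟨ε, ε, hε, hε, fun θ hθ η h0 hη => ?_⟩
  have h3 := h2 (y := (θ, η)) (by
    rw [Prod.dist_eq]
    refine max_lt ((dist_pi_lt_iff hε).2 fun j => ?_) ?_
    · rw [Real.dist_eq]
      exact hθ j
    · rw [Real.dist_eq, sub_zero, abs_of_nonneg h0]
      exact hη)
  exact ⟨h3.1, fun i0 k0 hi hk => h3.2.1 i0 hi k0 hk, h3.2.2⟩

end Pool.LibML82.Q
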