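import Pool.Agent.LibML82.QA4

/-!
# Row QA6: the orbit of four points in general position is dense

If the value of `F` were zero for all `θ` (with nonzero denominators), then `F` times the product of the
four polynomials `orient` (in the eight variables `X (inl j)`, `X (inr j)`) would vanish everywhere: at a point
`v` with all four `orient` nonzero the four points `q j = (v (inl j), v (inr j))` are in general position and
`exists_proj` gives `θ` with `cor θ 0 (p j) = q j`. So the product is the zero polynomial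
(`MvPolynomial.funext`), so `F = 0` or one of the four `orient` polynomials is `0` (no zero divisors), but
these are nonzero: their values at `p` are not zero.
-/

namespace Pool.LibML82.Q

open MvPolynomial in
private noncomputable def QA6_O (a b c : Fin 4) : MvPolynomial (Fin 4 ⊕ Fin 4) ℝ :=
  (X (.inl b) - X (.inl a)) * (X (.inr c) - X (.inr a)) -
    (X (.inr b) - X (.inr a)) * (X (.inl c) - X (.inl a))

private lemma QA6_eval (v : Fin 4 ⊕ Fin 4 → ℝ) (a b c : Fin 4) :
    MvPolynomial.eval v (QA6_O a b c) =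
      orient (v (.inl a), v (.inr a)) (v (.inl b), v (.inr b)) (v (.inl c), v (.inr c)) := by
  simp [QA6_O, orient]

private lemma QA6_ne (p : Fin 4 → ℝ × ℝ) (a b c : Fin 4) (h : orient (p a) (p b) (p c) ≠ 0) :
    QA6_O a b c ≠ 0 := by
  intro h0
  have h1 := QA6_eval (Sum.elim (fun j => (p j).1) (fun j => (p j).2)) a b c
  rw [h0, map_zero] at h1
  exact h h1.symm

theorem exists_ne (F : MvPolynomial (Fin 4 ⊕ Fin 4) ℝ) (hF : F ≠ 0) (p : Fin 4 → ℝ × ℝ)
    (hp : GenPos p) : ∃ θ : Fin 9 → ℝ, (∀ j, den θ (p j) ≠ 0) ∧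
      MvPolynomial.eval (Sum.elim (fun j => (cor θ 0 (p j)).1) (fun j => (cor θ 0 (p j)).2)) F ≠ 0 := by
  by_contra hcon
  have h1 : ∀ θ : Fin 9 → ℝ, (∀ j, den θ (p j) ≠ 0) → MvPolynomial.eval
      (Sum.elim (fun j => (cor θ 0 (p j)).1) (fun j => (cor θ 0 (p j)).2)) F = 0 := by
    intro θ hθ
    by_contra h
    exact hcon ⟨θ, hθ, h⟩
  have h2 : F * (QA6_O 0 1 2 * QA6_O 0 1 3 * QA6_O 0 2 3 * QA6_O 1 2 3) = 0 := by
    apply MvPolynomial.funext
    intro v
    rw [map_mul, map_mul, map_mul, map_mul, QA6_eval, QA6_eval, QA6_eval, QA6_eval, map_zero]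
    by_cases hv : GenPos (fun j => (v (.inl j), v (.inr j)))
    · obtain ⟨θ, hθ⟩ := exists_proj p (fun j => (v (.inl j), v (.inr j))) hp hv
      have h3 := h1 θ (fun j => (hθ j).1)
      have h4 : (Sum.elim (fun j => (cor θ 0 (p j)).1) (fun j => (cor θ 0 (p j)).2)) = v := by
        funext s
        rcases s with j | j
        · show (cor θ 0 (p j)).1 = v (.inl j)
          rw [(hθ j).2]
        · show (cor θ 0 (p j)).2 = v (.inr j)
          rw [(hθ j).2]
      rw [h4] at h3
      rw [h3, zero_mul]
    · have h3 : orient (v (.inl 0), v (.inr 0)) (v (.inl 1), v (.inr 1)) (v (.inl 2), v (.inr 2)) *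
          orient (v (.inl 0), v (.inr 0)) (v (.inl 1), v (.inr 1)) (v (.inl 3), v (.inr 3)) *
          orient (v (.inl 0), v (.inr 0)) (v (.inl 2), v (.inr 2)) (v (.inl 3), v (.inr 3)) *
          orient (v (.inl 1), v (.inr 1)) (v (.inl 2), v (.inr 2)) (v (.inl 3), v (.inr 3)) =
          0 := by
        by_contra h
        apply hv
        have e4 := right_ne_zero_of_mul h
        have e123 := left_ne_zero_of_mul h
        have e3 := right_ne_zero_of_mul e123
        have e12 := left_ne_zero_of_mul e123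
        exact ⟨left_ne_zero_of_mul e12, right_ne_zero_of_mul e12, e3, e4⟩
      rw [h3, mul_zero]
  rcases mul_eq_zero.1 h2 with h | h
  · exact hF h
  · rcases mul_eq_zero.1 h with h | h
    · rcases mul_eq_zero.1 h with h | h
      · rcases mul_eq_zero.1 h with h | h
        · exact QA6_ne p 0 1 2 hp.1 h
        · exact QA6_ne p 0 1 3 hp.2.1 h
      · exact QA6_ne p 0 2 3 hp.2.2.1 h
    · exact QA6_ne p 1 2 3 hp.2.2.2 h

end Pool.LibML82.Q
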