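import Pool.Agent.LibML82.QFam

/-!
# Row QA7: base point blocked, collapsed point passes

Let `a, b, c` be the numerators of the first and second coordinate and the denominator. For the labels
`x i`, `y (i+k)`, `z k`: `b_x - 2 b_y + b_z = 0`, `c_x - 2 c_y + c_z = 0`, `a_x - 2 a_y + a_z = -η D` with
`D = i² + k² - (i+k)²/4 + 2 > 0` for the base point and `D = 0` for the collapsed point of `(i, k)`. After
multiplication by `c_x c_y c_z` the inequality `Pass3` is `κ (2 a_y - a_x - a_z) ≤ 0` with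
`κ = b_y c_x - b_x c_y`. `coll_pass`: both sides are equal (only `c_x, c_y, c_z ≠ 0` is needed).
`base_no_pass`: `hlt` is `b_x / c_x < b_y / c_y`, so `κ > 0`.
-/

namespace Pool.LibML82.Q

private lemma QA7_key (ax ay az bx b cx c bz cz : ℝ) (hx : cx ≠ 0) (hy : c ≠ 0) (hz : cz ≠ 0)
    (hb : bz = 2 * b - bx) (hc : cz = 2 * c - cx) :
    ((bz / cz - b / c) * (ax / cx) + (b / c - bx / cx) * (az / cz)) -
      (bz / cz - bx / cx) * (ay / c) = (b * cx - bx * c) * (ax + az - 2 * ay) / (cx * c * cz) := by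
  subst hb
  subst hc
  field_simp
  ring

private lemma QA7_diff (θ : Fin 9 → ℝ) (η : ℝ) (p : Lab → ℝ) (i k : ℕ)
    (hx : den θ (lpt (.x i)) ≠ 0) (hy : den θ (lpt (.y (i + k))) ≠ 0)
    (hz : den θ (lpt (.z k)) ≠ 0) :
    (((fam θ η p (.z k)).2 - (fam θ η p (.y (i + k))).2) * (fam θ η p (.x i)).1 +
      ((fam θ η p (.y (i + k))).2 - (fam θ η p (.x i)).2) * (fam θ η p (.z k)).1) -
      ((fam θ η p (.z k)).2 - (fam θ η p (.x i)).2) * (fam θ η p (.y (i + k))).1 =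
    ((θ 3 + θ 4 * (lpt (.y (i + k))).1 + θ 5 * (lpt (.y (i + k))).2) * den θ (lpt (.x i)) -
      (θ 3 + θ 4 * (lpt (.x i)).1 + θ 5 * (lpt (.x i)).2) * den θ (lpt (.y (i + k)))) *
      (-(η * (p (.x i) - 2 * p (.y (i + k)) + p (.z k)))) /
      (den θ (lpt (.x i)) * den θ (lpt (.y (i + k))) * den θ (lpt (.z k))) := by
  have h := QA7_key (θ 0 + θ 1 * (lpt (.x i)).1 + θ 2 * (lpt (.x i)).2 - η * p (.x i))
    (θ 0 + θ 1 * (lpt (.y (i + k))).1 + θ 2 * (lpt (.y (i + k))).2 - η * p (.y (i + k)))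
    (θ 0 + θ 1 * (lpt (.z k)).1 + θ 2 * (lpt (.z k)).2 - η * p (.z k))
    (θ 3 + θ 4 * (lpt (.x i)).1 + θ 5 * (lpt (.x i)).2)
    (θ 3 + θ 4 * (lpt (.y (i + k))).1 + θ 5 * (lpt (.y (i + k))).2)
    (den θ (lpt (.x i))) (den θ (lpt (.y (i + k))))
    (θ 3 + θ 4 * (lpt (.z k)).1 + θ 5 * (lpt (.z k)).2) (den θ (lpt (.z k))) hx hy hz
    (by simp only [lpt]; push_cast; ring) (by simp only [lpt, den]; push_cast; ring)
  have e : (θ 0 + θ 1 * (lpt (.x i)).1 + θ 2 * (lpt (.x i)).2 - η * p (.x i)) +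
      (θ 0 + θ 1 * (lpt (.z k)).1 + θ 2 * (lpt (.z k)).2 - η * p (.z k)) -
      2 * (θ 0 + θ 1 * (lpt (.y (i + k))).1 + θ 2 * (lpt (.y (i + k))).2 - η * p (.y (i + k))) =
      -(η * (p (.x i) - 2 * p (.y (i + k)) + p (.z k))) := by
    simp only [lpt]
    push_cast
    ring
  rw [e] at h
  exact h

theorem base_no_pass (θ : Fin 9 → ℝ) (η : ℝ) (hη : 0 < η) (i k : ℕ)
    (hx : 0 < den θ (lpt (.x i))) (hy : 0 < den θ (lpt (.y (i + k))))
    (hz : 0 < den θ (lpt (.z k)))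
    (hlt : (Pb θ η (.x i)).2 < (Pb θ η (.y (i + k))).2) : ¬ Pass (Pb θ η) i k := by
  intro h
  have h1 := QA7_diff θ η pb i k hx.ne' hy.ne' hz.ne'
  have h2 : 0 ≤ (((fam θ η pb (.z k)).2 - (fam θ η pb (.y (i + k))).2) * (fam θ η pb (.x i)).1 +
      ((fam θ η pb (.y (i + k))).2 - (fam θ η pb (.x i)).2) * (fam θ η pb (.z k)).1) -
      ((fam θ η pb (.z k)).2 - (fam θ η pb (.x i)).2) * (fam θ η pb (.y (i + k))).1 :=
    sub_nonneg.2 h
  rw [h1] at h2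
  have hκ : 0 < (θ 3 + θ 4 * (lpt (.y (i + k))).1 + θ 5 * (lpt (.y (i + k))).2) *
      den θ (lpt (.x i)) -
      (θ 3 + θ 4 * (lpt (.x i)).1 + θ 5 * (lpt (.x i)).2) * den θ (lpt (.y (i + k))) := by
    have h3 : (θ 3 + θ 4 * (lpt (.x i)).1 + θ 5 * (lpt (.x i)).2) / den θ (lpt (.x i)) <
        (θ 3 + θ 4 * (lpt (.y (i + k))).1 + θ 5 * (lpt (.y (i + k))).2) /
          den θ (lpt (.y (i + k))) := hlt
    rw [div_lt_div_iff₀ hx hy] at h3
    linarith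
  have hD : 0 < pb (.x i) - 2 * pb (.y (i + k)) + pb (.z k) := by
    simp only [pb]
    push_cast
    nlinarith [sq_nonneg ((i : ℝ) - k), sq_nonneg (i : ℝ), sq_nonneg (k : ℝ)]
  have h4 : (0 : ℝ) < den θ (lpt (.x i)) * den θ (lpt (.y (i + k))) * den θ (lpt (.z k)) := by
    positivity
  have h5 := mul_pos hη hD
  have h6 := mul_pos hκ h5
  have h7 : ((θ 3 + θ 4 * (lpt (.y (i + k))).1 + θ 5 * (lpt (.y (i + k))).2) *
      den θ (lpt (.x i)) -
      (θ 3 + θ 4 * (lpt (.x i)).1 + θ 5 * (lpt (.x i)).2) * den θ (lpt (.y (i + k)))) *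
      (-(η * (pb (.x i) - 2 * pb (.y (i + k)) + pb (.z k)))) /
      (den θ (lpt (.x i)) * den θ (lpt (.y (i + k))) * den θ (lpt (.z k))) < 0 := by
    apply div_neg_of_neg_of_pos _ h4
    linarith
  linarith

theorem coll_pass (θ : Fin 9 → ℝ) (η : ℝ) (i k : ℕ)
    (hx : den θ (lpt (.x i)) ≠ 0) (hy : den θ (lpt (.y (i + k))) ≠ 0)
    (hz : den θ (lpt (.z k)) ≠ 0) : Pass (Pc i k θ η) i k := by
  have h1 := QA7_diff θ η (pc i k) i k hx hy hz
  have hD : pc i k (.x i) - 2 * pc i k (.y (i + k)) + pc i k (.z k) = 0 := by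
    simp only [pc]
    push_cast
    ring
  rw [hD, mul_zero, neg_zero, mul_zero, zero_div] at h1
  exact le_of_eq (sub_eq_zero.1 h1).symm

end Pool.LibML82.Q
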