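import Pool.Agent.LibML82.QA3

/-!
# Row QA8: the sign is decided by the lowest coefficient

Near copy of `sign_stable` in `A2.lean`, for the polynomial `Q` of `clear` (row QA3): if `Q = 0` take `g = 1`
(both values are `0`, because the product of the denominators is not `0`); else `Q = X ^ m * Q'`,
`g = Q'.coeff 0 ≠ 0`. `den (θ + η • sh u0 u1 u2) v = den θ v` (the entries `6, 7, 8` of `sh` are `0`), and the
product of the denominators is positive, so the sign of the value of `F` is the sign of `ev`.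
-/

open Filter Topology

namespace Pool.LibML82.Q

private theorem qa8_ev_X (θ : Fin 9 → ℝ) (η : ℝ) : ev θ η Polynomial.X = η := by
  simp [ev]

private theorem qa8_ev_continuous (Q : Polynomial (MvPolynomial (Fin 9) ℝ)) :
    Continuous (fun a : (Fin 9 → ℝ) × ℝ => ev a.1 a.2 Q) := by
  have h : (fun a : (Fin 9 → ℝ) × ℝ => ev a.1 a.2 Q) = fun a =>
      ∑ i ∈ Finset.range (Q.natDegree + 1), MvPolynomial.eval a.1 (Q.coeff i) * a.2 ^ i := by
    funext a
    simp only [ev, Polynomial.coe_eval₂RingHom]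
    rw [Polynomial.eval₂_eq_sum_range]
  rw [h]
  refine continuous_finsetSum _ fun i _ => ?_
  exact ((MvPolynomial.continuous_eval (Q.coeff i)).comp continuous_fst).mul
    (continuous_snd.pow i)

private theorem qa8_sign_of_tendsto (f : ℝ → ℝ) (c : ℝ) (hc : c ≠ 0)
    (hf : Tendsto f (𝓝[>] (0 : ℝ)) (𝓝 c)) :
    ∀ᶠ η in 𝓝[>] (0 : ℝ), SignType.sign (f η) = SignType.sign c := by
  rcases lt_or_gt_of_ne hc with h | h
  · filter_upwards [hf.eventually_lt_const h] with η hη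
    rw [sign_neg hη, sign_neg h]
  · filter_upwards [hf.eventually_const_lt h] with η hη
    rw [sign_pos hη, sign_pos h]

private theorem qa8_den_sh (θ : Fin 9 → ℝ) (η u0 u1 u2 : ℝ) (v : ℝ × ℝ) :
    den (θ + η • sh u0 u1 u2) v = den θ v := by
  have h6 : sh u0 u1 u2 6 = 0 := rfl
  have h7 : sh u0 u1 u2 7 = 0 := rfl
  have h8 : sh u0 u1 u2 8 = 0 := rfl
  simp only [den, Pi.add_apply, Pi.smul_apply, smul_eq_mul, h6, h7, h8, mul_zero, add_zero]

theorem sign_stable (F : MvPolynomial (Fin 4 ⊕ Fin 4) ℝ) (l : Fin 4 → Lab) :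
    ∃ g : MvPolynomial (Fin 9) ℝ, g ≠ 0 ∧ ∀ θ : Fin 9 → ℝ, MvPolynomial.eval θ g ≠ 0 →
      (∀ j, 0 < den θ (lpt (l j))) → ∀ u0 u1 u2 ρ : ℝ, 0 < ρ → ∀ᶠ η in 𝓝[>] (0 : ℝ),
        SignType.sign (MvPolynomial.eval (vals (Pb (θ + η • sh u0 u1 u2) (ρ * η)) l) F) =
          SignType.sign (MvPolynomial.eval (vals (Pb θ η) l) F) := by
  obtain ⟨d, Q, hQ⟩ := clear F l
  -- the sign of the value is the sign of `ev`
  have hsg : ∀ (θ : Fin 9 → ℝ) (η : ℝ), (∀ j, 0 < den θ (lpt (l j))) →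
      SignType.sign (MvPolynomial.eval (vals (Pb θ η) l) F) = SignType.sign (ev θ η Q) := by
    intro θ η hd
    have hD : 0 < (∏ j, den θ (lpt (l j))) ^ d :=
      pow_pos (Finset.prod_pos fun j _ => hd j) _
    rw [hQ θ η (fun j => (hd j).ne'), sign_mul, sign_pos hD, one_mul]
  have hd' : ∀ (θ : Fin 9 → ℝ) (η u0 u1 u2 : ℝ), (∀ j, 0 < den θ (lpt (l j))) →
      ∀ j, 0 < den (θ + η • sh u0 u1 u2) (lpt (l j)) := by
    intro θ η u0 u1 u2 hd j
    rw [qa8_den_sh]
    exact hd j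
  by_cases h0 : Q = 0
  · have hone : (1 : MvPolynomial (Fin 9) ℝ) ≠ 0 := one_ne_zero
    refine Exists.intro (1 : MvPolynomial (Fin 9) ℝ) (And.intro hone ?_)
    intro θ _ hd u0 u1 u2 ρ _
    refine Eventually.of_forall ?_
    intro η
    rw [hsg _ _ (hd' θ η u0 u1 u2 hd), hsg _ _ hd, h0,
      (ev (θ + η • sh u0 u1 u2) (ρ * η)).map_zero, (ev θ η).map_zero]
  · have hdvd : (Polynomial.X : Polynomial (MvPolynomial (Fin 9) ℝ)) ^ Q.natTrailingDegree ∣ Q := by
      rw [Polynomial.X_pow_dvd_iff]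
      intro d hd
      exact Polynomial.coeff_eq_zero_of_lt_natTrailingDegree hd
    obtain ⟨Q', hQ'⟩ := hdvd
    have hcoeff : Q'.coeff 0 = Q.coeff Q.natTrailingDegree := by
      have h2 := Polynomial.coeff_X_pow_mul Q' Q.natTrailingDegree 0
      rw [zero_add, ← hQ'] at h2
      exact h2.symm
    refine ⟨Q'.coeff 0, ?_, ?_⟩
    · rw [hcoeff]
      exact Polynomial.trailingCoeff_nonzero_iff_nonzero.2 h0
    · intro θ hθ hd u0 u1 u2 ρ hρ
      obtain ⟨u, hu⟩ : ∃ u : Fin 9 → ℝ, u = sh u0 u1 u2 := ⟨_, rfl⟩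
      obtain ⟨G, hG⟩ : ∃ G : (Fin 9 → ℝ) × ℝ → ℝ, G = fun a => ev a.1 a.2 Q' := ⟨_, rfl⟩
      have hval : ∀ (θ' : Fin 9 → ℝ) (η' : ℝ),
          ev θ' η' Q = η' ^ Q.natTrailingDegree * G (θ', η') := by
        intro θ' η'
        rw [hG]
        conv_lhs => rw [hQ']
        rw [map_mul, map_pow, qa8_ev_X]
      have hlim0 : G (θ, 0) = MvPolynomial.eval θ (Q'.coeff 0) := by
        rw [hG]
        simp only [ev, Polynomial.coe_eval₂RingHom]
        rw [Polynomial.eval₂_at_zero]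
      have hcont : Continuous G := by
        rw [hG]
        exact qa8_ev_continuous Q'
      rw [← hlim0] at hθ
      have p1 : Continuous fun η : ℝ => (θ + η • u, ρ * η) := by fun_prop
      have p2 : Continuous fun η : ℝ => (θ, η) := by fun_prop
      have t1 : Tendsto (fun η : ℝ => G (θ + η • u, ρ * η)) (𝓝[>] (0 : ℝ)) (𝓝 (G (θ, 0))) := by
        have h := (hcont.comp p1).tendsto 0
        simp only [Function.comp_def, zero_smul, add_zero, mul_zero] at h
        exact h.mono_left nhdsWithin_le_nhds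
      have t2 : Tendsto (fun η : ℝ => G (θ, η)) (𝓝[>] (0 : ℝ)) (𝓝 (G (θ, 0))) := by
        have h := (hcont.comp p2).tendsto 0
        simp only [Function.comp_def] at h
        exact h.mono_left nhdsWithin_le_nhds
      have s1 := qa8_sign_of_tendsto (fun η : ℝ => G (θ + η • u, ρ * η)) _ hθ t1
      have s2 := qa8_sign_of_tendsto (fun η : ℝ => G (θ, η)) _ hθ t2
      have s3 : ∀ᶠ η in 𝓝[>] (0 : ℝ), 0 < η := self_mem_nhdsWithin
      apply (s1.and (s2.and s3)).mono
      rintro η ⟨h1, h2, hη⟩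
      have e1 : SignType.sign ((ρ * η) ^ Q.natTrailingDegree) = 1 :=
        sign_pos (pow_pos (mul_pos hρ hη) _)
      have e2 : SignType.sign (η ^ Q.natTrailingDegree) = 1 := sign_pos (pow_pos hη _)
      rw [hsg _ _ (hd' θ η u0 u1 u2 hd), hsg _ _ hd, ← hu,
        hval (θ + η • u) (ρ * η), hval θ η, sign_mul, sign_mul, e1, e2, h1, h2]

end Pool.LibML82.Q
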