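import Pool.Agent.LibML82.Defs

/-!
# The hard family for queries about four obstacles

Three walls; every piece of a wall has one moving corner (both coordinates of the corner move):
upper left corner for wall 1 (near height `0`) and wall 3 (near height `2`), lower right corner for
wall 2 (near height `1`).
-/

namespace Pool.LibML82.Q

/-- Which moving corner does an obstacle have (`st`: none). -/
inductive Lab
  | st
  | x (i : ℕ)
  | y (m : ℕ)
  | z (k : ℕ)

/-- The moving corners. -/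
abbrev Par := Lab → ℝ × ℝ

/-- The thickness of the walls. -/
noncomputable def th (n : ℕ) : ℝ := 1 / (100 * n)

/-- The allowance for the heights of the moving corners. -/
noncomputable def sg (n : ℕ) : ℝ := 1 / (1000 * n)

/-- The moving corners are near their standard positions. -/
def Near (n : ℕ) (P : Par) : Prop :=
  (∀ i, i < n → |(P (.x i)).1 - 2 * i| ≤ 1 / 16 ∧ |(P (.x i)).2| ≤ sg n) ∧
  (∀ m, m < 2 * n - 1 → |(P (.y m)).1 - (2 * n + m)| ≤ 1 / 16 ∧ |(P (.y m)).2 - 1| ≤ sg n) ∧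
  (∀ k, k < n → |(P (.z k)).1 - (4 * n + 2 * k)| ≤ 1 / 16 ∧ |(P (.z k)).2 - 2| ≤ sg n)

/-- The line through the corners `X`, `Z` passes right of the corner `Y` (heights `X.2 < Y.2 < Z.2`). -/
def Pass3 (X Y Z : ℝ × ℝ) : Prop :=
  (Z.2 - X.2) * Y.1 ≤ (Z.2 - Y.2) * X.1 + (Y.2 - X.2) * Z.1

/-- A straight line passes the gaps `i`, `i + k`, `k` of the three walls. -/
def Pass (P : Par) (i k : ℕ) : Prop := Pass3 (P (.x i)) (P (.y (i + k))) (P (.z k))

/-- Left end of the `q`-th piece of wall 1. -/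
noncomputable def A1 (n : ℕ) (P : Par) (q : ℕ) : ℝ := if q = 0 then -10 * n else (P (.x (q - 1))).1
/-- Right end of the `q`-th piece of wall 1. -/
noncomputable def B1 (n : ℕ) (q : ℕ) : ℝ := if q = n then 10 * n else 2 * q - 1 / 4
/-- Top of the `q`-th piece of wall 1. -/
noncomputable def T1 (P : Par) (q : ℕ) : ℝ := if q = 0 then 0 else (P (.x (q - 1))).2
/-- Left end of the `q`-th piece of wall 2. -/
noncomputable def A2 (n : ℕ) (q : ℕ) : ℝ := if q = 0 then -30 * n else 2 * n + q - 3 / 4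
/-- Right end of the `q`-th piece of wall 2. -/
noncomputable def B2 (n : ℕ) (P : Par) (q : ℕ) : ℝ :=
  if q = 2 * n - 1 then 30 * n else (P (.y q)).1
/-- Bottom of the `q`-th piece of wall 2. -/
noncomputable def L2 (n : ℕ) (P : Par) (q : ℕ) : ℝ := if q = 2 * n - 1 then 1 else (P (.y q)).2
/-- Left end of the `q`-th piece of wall 3. -/
noncomputable def A3 (n : ℕ) (P : Par) (q : ℕ) : ℝ := if q = 0 then -20 * n else (P (.z (q - 1))).1
/-- Right end of the `q`-th piece of wall 3. -/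
noncomputable def B3 (n : ℕ) (q : ℕ) : ℝ := if q = n then 20 * n else 4 * n + 2 * q - 1 / 4
/-- Top of the `q`-th piece of wall 3. -/
noncomputable def T3 (n : ℕ) (P : Par) (q : ℕ) : ℝ := if q = 0 then 2 + sg n else (P (.z (q - 1))).2

/-- Names of the obstacles: wall 1, wall 2, wall 3, six blocks, `r` dummies far above. -/
abbrev Idx (n r : ℕ) := Fin (n + 1) ⊕ Fin (2 * n) ⊕ Fin (n + 1) ⊕ Fin 6 ⊕ Fin r

/-- The six blocks which close the two corridors. -/
noncomputable def block (n : ℕ) : Fin 6 → Rect :=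
  ![⟨-10 * n, 10 * n, -th n - 2, -th n - 1⟩,
    ⟨-10 * n - 2, -10 * n - 1, -th n - 4, 0⟩,
    ⟨10 * n + 1, 10 * n + 2, -th n - 4, 0⟩,
    ⟨-20 * n, 20 * n, 3 + sg n, 4 + sg n⟩,
    ⟨-20 * n - 2, -20 * n - 1, 3 / 2, 6 + sg n⟩,
    ⟨20 * n + 1, 20 * n + 2, 3 / 2, 6 + sg n⟩]

/-- The obstacles. -/
noncomputable def rect (n r : ℕ) (P : Par) : Idx n r → Rect
  | .inl q => ⟨A1 n P q, B1 n q, -th n, T1 P q⟩
  | .inr (.inl q) => ⟨A2 n q, B2 n P q, L2 n P q, 1 + th n⟩
  | .inr (.inr (.inl q)) => ⟨A3 n P q, B3 n q, 2 - th n, T3 n P q⟩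
  | .inr (.inr (.inr (.inl j))) => block n j
  | .inr (.inr (.inr (.inr j))) => ⟨0, 1, 100 + 2 * (j : ℕ), 101 + 2 * (j : ℕ)⟩

/-- The label of an obstacle. -/
def lab (n r : ℕ) : Idx n r → Lab
  | .inl q => if (q : ℕ) = 0 then .st else .x (q - 1)
  | .inr (.inl q) => if (q : ℕ) = 2 * n - 1 then .st else .y q
  | .inr (.inr (.inl q)) => if (q : ℕ) = 0 then .st else .z (q - 1)
  | .inr (.inr (.inr _)) => .st

/-- The instance with parameters `P`. -/
noncomputable def inst {n r N : ℕ} (e : Fin N ≃ Idx n r) (P : Par) : Inst N where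
  s := (-5 * n, -th n)
  t := (-5 * n, 2 + sg n)
  obs := fun i => rect n r P (e i)

/-- The slope (horizontal over vertical) of the line through `X` and `Z`. -/
noncomputable def slo (X Z : ℝ × ℝ) : ℝ := (Z.1 - X.1) / (Z.2 - X.2)

/-- The path with three links along the line through the corners `X` and `Z`. -/
noncomputable def path3 (n : ℕ) (X Z : ℝ × ℝ) : Fin 4 → ℝ × ℝ :=
  ![(-5 * n, -th n), (X.1 + slo X Z * (-th n - 1 / 2 - X.2), -th n - 1 / 2),
    (X.1 + slo X Z * (5 / 2 - X.2), 5 / 2), (-5 * n, 2 + sg n)]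

/-- The path with four links. -/
noncomputable def path4 (n : ℕ) : Fin 5 → ℝ × ℝ :=
  ![(-5 * n, -th n), (-1 / 10 - (2 * n + 1 / 5) * (th n + 1 / 2), -th n - 1 / 2),
    (3 * n + 1 / 5, 3 / 2), (5 * n - 2 / 5, 5 / 2), (-5 * n, 2 + sg n)]

/-- The obstacles `who` include those of the labels `x i0`, `y (i0 + k0)`, `z k0`. -/
def Cov {n r N : ℕ} (e : Fin N ≃ Idx n r) (a : Fin n × Fin n) (who : Fin 4 → Fin N) : Prop :=
  (∃ j, lab n r (e (who j)) = .x a.1) ∧ (∃ j, lab n r (e (who j)) = .y ((a.1 : ℕ) + a.2)) ∧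
    (∃ j, lab n r (e (who j)) = .z a.2)

/-- The lattice point of a label. -/
def lpt : Lab → ℝ × ℝ
  | .st => (0, 0)
  | .x i => (2 * i, 0)
  | .y m => (m, 1)
  | .z k => (2 * k, 2)

/-- The common denominator of the two coordinates of the image of the point `v`. -/
def den (θ : Fin 9 → ℝ) (v : ℝ × ℝ) : ℝ := θ 6 + θ 7 * v.1 + θ 8 * v.2

/-- The image of the point `v` under the projective map with matrix `θ`, with a perturbation `p` of
the numerator of the first coordinate. -/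
noncomputable def cor (θ : Fin 9 → ℝ) (p : ℝ) (v : ℝ × ℝ) : ℝ × ℝ :=
  ((θ 0 + θ 1 * v.1 + θ 2 * v.2 - p) / den θ v, (θ 3 + θ 4 * v.1 + θ 5 * v.2) / den θ v)

/-- The perturbation of the base point. -/
noncomputable def pb : Lab → ℝ
  | .st => 0
  | .x i => (i : ℝ) ^ 2
  | .y m => (m : ℝ) ^ 2 / 8 - 1
  | .z k => (k : ℝ) ^ 2

/-- The perturbation of the collapsed point of the pair `(i0, k0)`. -/
noncomputable def pc (i0 k0 : ℕ) : Lab → ℝ
  | .st => 0
  | .x i => ((i : ℝ) - i0) ^ 2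
  | .y m => ((m : ℝ) - i0 - k0) ^ 2 / 8
  | .z k => ((k : ℝ) - k0) ^ 2

/-- The corners with perturbations `η * p l`. -/
noncomputable def fam (θ : Fin 9 → ℝ) (η : ℝ) (p : Lab → ℝ) : Par
  | .st => (0, 0)
  | .x i => cor θ (η * p (.x i)) (lpt (.x i))
  | .y m => cor θ (η * p (.y m)) (lpt (.y m))
  | .z k => cor θ (η * p (.z k)) (lpt (.z k))

/-- The base point (no straight passage). -/
noncomputable def Pb (θ : Fin 9 → ℝ) (η : ℝ) : Par := fam θ η pb

/-- The collapsed point of the pair `(i0, k0)` (one straight passage). -/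
noncomputable def Pc (i0 k0 : ℕ) (θ : Fin 9 → ℝ) (η : ℝ) : Par := fam θ η (pc i0 k0)

/-- The standard matrix `(X, Y) ↦ (X + 2 n Y, Y)`. -/
def th0 (n : ℕ) : Fin 9 → ℝ := ![0, 1, 2 * n, 0, 0, 1, 1, 0, 0]

/-- The shift of the numerator of the first coordinate. -/
def sh (u0 u1 u2 : ℝ) : Fin 9 → ℝ := ![u0, u1, u2, 0, 0, 0, 0, 0, 0]

/-- The coordinates of the four labels. -/
def vals (P : Par) (l : Fin 4 → Lab) : Fin 4 ⊕ Fin 4 → ℝ :=
  Sum.elim (fun j => (P (l j)).1) (fun j => (P (l j)).2)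

/-- Twice the signed area of a triangle. -/
def orient (p q r : ℝ × ℝ) : ℝ := (q.1 - p.1) * (r.2 - p.2) - (q.2 - p.2) * (r.1 - p.1)

/-- No three of the four points are on a line. -/
def GenPos (p : Fin 4 → ℝ × ℝ) : Prop :=
  orient (p 0) (p 1) (p 2) ≠ 0 ∧ orient (p 0) (p 1) (p 3) ≠ 0 ∧ orient (p 0) (p 2) (p 3) ≠ 0 ∧
    orient (p 1) (p 2) (p 3) ≠ 0

/-- The condition on `(u, ρ)` for one label. -/
def Cond (i0 k0 : ℕ) (u0 u1 u2 ρ : ℝ) (l : Lab) : Prop :=
  l = .st ∨ u0 + u1 * (lpt l).1 + u2 * (lpt l).2 = ρ * pb l - pc i0 k0 l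

end Pool.LibML82.Q
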