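import Pool.Agent.LibML82.C1
import Pool.Agent.LibML82.QFam

/-!
# Row QC2: the tree with `n²` queries (upper bound)

Near copy of `C2.lean` (arity 4 instead of 3; the last two obstacles of a query are equal). The single
polynomial of the query of the pair `(i, k)`: with `X = (x0, y1)` of the obstacle `ix`, `Y = (x1, y0)` of `iy`,
`Z = (x0, y1)` of `iz` it is `(Z.2 - Y.2) * X.1 + (Y.2 - X.2) * Z.1 - (Z.2 - X.2) * Y.1`; `Pass P i k` is `0 ≤` its value.
`coord` of an obstacle is `![x0, x1, y0, y1]`. The leaf for a passing pair outputs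
`path3 n ((I.obs (ix e q)).x0, (I.obs (ix e q)).y1) ((I.obs (iz e q)).x0, (I.obs (iz e q)).y1)`.
-/

namespace Pool.LibML82.Q

private theorem QC2_lt (n : ℕ) (q : Fin n × Fin n) : (q.1 : ℕ) + q.2 < 2 * n := by
  have := q.1.2
  have := q.2.2
  omega

/-- Obstacle with label `x i`. -/
private def QC2_ix {n r N : ℕ} (e : Fin N ≃ Idx n r) (q : Fin n × Fin n) : Fin N :=
  e.symm (.inl q.1.succ)

/-- Obstacle with label `y (i + k)`. -/
private def QC2_iy {n r N : ℕ} (e : Fin N ≃ Idx n r) (q : Fin n × Fin n) : Fin N :=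
  e.symm (.inr (.inl ⟨(q.1 : ℕ) + q.2, QC2_lt n q⟩))

/-- Obstacle with label `z k`. -/
private def QC2_iz {n r N : ℕ} (e : Fin N ≃ Idx n r) (q : Fin n × Fin n) : Fin N :=
  e.symm (.inr (.inr (.inl q.2.succ)))

private noncomputable def QC2_pl : MvPolynomial (Fin 4 ⊕ Fin 4 × Fin 4) ℝ :=
  (MvPolynomial.X (Sum.inr (2, 3)) - MvPolynomial.X (Sum.inr (1, 2))) *
      MvPolynomial.X (Sum.inr (0, 0)) +
    (MvPolynomial.X (Sum.inr (1, 2)) - MvPolynomial.X (Sum.inr (0, 3))) *
      MvPolynomial.X (Sum.inr (2, 0)) -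
    (MvPolynomial.X (Sum.inr (2, 3)) - MvPolynomial.X (Sum.inr (0, 3))) *
      MvPolynomial.X (Sum.inr (1, 1))

/-- The query of the pair `q`. -/
private noncomputable def QC2_tq {n r N : ℕ} (e : Fin N ≃ Idx n r) (q : Fin n × Fin n) :
    Query 4 N where
  who := ![QC2_ix e q, QC2_iy e q, QC2_iz e q, QC2_iz e q]
  m := 1
  poly := fun _ => QC2_pl

private theorem QC2_obs_ix {n r N : ℕ} (e : Fin N ≃ Idx n r) (P : Par) (q : Fin n × Fin n) :
    ((inst e P).obs (QC2_ix e q)).x0 = (P (.x q.1)).1 ∧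
      ((inst e P).obs (QC2_ix e q)).y1 = (P (.x q.1)).2 := by
  constructor
  · simp [inst, QC2_ix, rect, A1]
  · simp [inst, QC2_ix, rect, T1]

private theorem QC2_obs_iz {n r N : ℕ} (e : Fin N ≃ Idx n r) (P : Par) (q : Fin n × Fin n) :
    ((inst e P).obs (QC2_iz e q)).x0 = (P (.z q.2)).1 ∧
      ((inst e P).obs (QC2_iz e q)).y1 = (P (.z q.2)).2 := by
  constructor
  · simp [inst, QC2_iz, rect, A3]
  · simp [inst, QC2_iz, rect, T3]

private theorem QC2_obs_iy {n r N : ℕ} (e : Fin N ≃ Idx n r) (P : Par) (q : Fin n × Fin n) :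
    ((inst e P).obs (QC2_iy e q)).x1 = (P (.y (q.1 + q.2))).1 ∧
      ((inst e P).obs (QC2_iy e q)).y0 = (P (.y (q.1 + q.2))).2 := by
  have h1 := q.1.2
  have h2 := q.2.2
  have h : ¬ ((q.1 : ℕ) + q.2 = 2 * n - 1) := by omega
  constructor
  · simp [inst, QC2_iy, rect, B2, h]
  · simp [inst, QC2_iy, rect, L2, h]

private noncomputable def QC2_val (X Y Z : ℝ × ℝ) : ℝ :=
  (Z.2 - Y.2) * X.1 + (Y.2 - X.2) * Z.1 - (Z.2 - X.2) * Y.1

private theorem QC2_ans {n r N : ℕ} (e : Fin N ≃ Idx n r) (P : Par) (q : Fin n × Fin n) :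
    (QC2_tq e q).ans (inst e P) (0 : Fin 1) =
      SignType.sign (QC2_val (P (.x q.1)) (P (.y (q.1 + q.2))) (P (.z q.2))) := by
  have h00 : (inst e P).coords ![QC2_ix e q, QC2_iy e q, QC2_iz e q, QC2_iz e q]
      (Sum.inr (0, 0)) = (P (.x q.1)).1 := by
    rw [← (QC2_obs_ix e P q).1]
    rfl
  have h03 : (inst e P).coords ![QC2_ix e q, QC2_iy e q, QC2_iz e q, QC2_iz e q]
      (Sum.inr (0, 3)) = (P (.x q.1)).2 := by
    rw [← (QC2_obs_ix e P q).2]
    rfl
  have h11 : (inst e P).coords ![QC2_ix e q, QC2_iy e q, QC2_iz e q, QC2_iz e q]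
      (Sum.inr (1, 1)) = (P (.y (q.1 + q.2))).1 := by
    rw [← (QC2_obs_iy e P q).1]
    rfl
  have h12 : (inst e P).coords ![QC2_ix e q, QC2_iy e q, QC2_iz e q, QC2_iz e q]
      (Sum.inr (1, 2)) = (P (.y (q.1 + q.2))).2 := by
    rw [← (QC2_obs_iy e P q).2]
    rfl
  have h20 : (inst e P).coords ![QC2_ix e q, QC2_iy e q, QC2_iz e q, QC2_iz e q]
      (Sum.inr (2, 0)) = (P (.z q.2)).1 := by
    rw [← (QC2_obs_iz e P q).1]
    rfl
  have h23 : (inst e P).coords ![QC2_ix e q, QC2_iy e q, QC2_iz e q, QC2_iz e q]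
      (Sum.inr (2, 3)) = (P (.z q.2)).2 := by
    rw [← (QC2_obs_iz e P q).2]
    rfl
  have h3 : MvPolynomial.eval ((inst e P).coords
      ![QC2_ix e q, QC2_iy e q, QC2_iz e q, QC2_iz e q]) QC2_pl =
        QC2_val (P (.x q.1)) (P (.y (q.1 + q.2))) (P (.z q.2)) := by
    unfold QC2_pl QC2_val
    simp only [map_sub, map_add, map_mul, MvPolynomial.eval_X]
    rw [h00, h03, h11, h12, h20, h23]
  exact congrArg SignType.sign h3

/-- The tree for a list of pairs. -/
private noncomputable def QC2_tr {n r N : ℕ} (e : Fin N ≃ Idx n r) :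
    List (Fin n × Fin n) → Tree 4 N
  | [] => .leaf 4 (fun _ => path4 n)
  | q :: L => .node (QC2_tq e q) (fun v => if v (0 : Fin 1) = -1 then QC2_tr e L else
      .leaf 3 (fun I => path3 n ((I.obs (QC2_ix e q)).x0, (I.obs (QC2_ix e q)).y1)
        ((I.obs (QC2_iz e q)).x0, (I.obs (QC2_iz e q)).y1)))

private theorem QC2_tr_cost {n r N : ℕ} (e : Fin N ≃ Idx n r) (I : Inst N)
    (L : List (Fin n × Fin n)) : (QC2_tr e L).cost I ≤ L.length := by
  induction L with
  | nil => simp [QC2_tr, Tree.cost]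
  | cons q L ih =>
    simp only [QC2_tr, Tree.cost, List.length_cons]
    split_ifs
    · omega
    · simp only [Tree.cost]
      omega

private theorem QC2_tr_correct {n r N : ℕ} (e : Fin N ≃ Idx n r)
    (h3 : ∀ P : Par, Near n P → ∀ i k, i < n → k < n → Pass P i k →
      (inst e P).IsMinPath 3 (path3 n (P (.x i)) (P (.z k))))
    (h4 : ∀ P : Par, Near n P → (∀ i k, i < n → k < n → ¬ Pass P i k) →
      (inst e P).IsMinPath 4 (path4 n)) (P : Par) (hP : Near n P)
    (L : List (Fin n × Fin n)) (hL : ∀ q : Fin n × Fin n, q ∉ L → ¬ Pass P q.1 q.2) :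
    (QC2_tr e L).Out (fun I k p => I.IsMinPath k p) (inst e P) := by
  induction L with
  | nil =>
    simp only [QC2_tr, Tree.Out]
    refine h4 P hP fun i k hi hk => ?_
    exact hL (⟨i, hi⟩, ⟨k, hk⟩) (by simp)
  | cons q L ih =>
    have hpass : Pass P q.1 q.2 → (inst e P).IsMinPath 3
        (path3 n (((inst e P).obs (QC2_ix e q)).x0, ((inst e P).obs (QC2_ix e q)).y1)
          (((inst e P).obs (QC2_iz e q)).x0, ((inst e P).obs (QC2_iz e q)).y1)) := by
      intro h
      rw [(QC2_obs_ix e P q).1, (QC2_obs_ix e P q).2, (QC2_obs_iz e P q).1,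
        (QC2_obs_iz e P q).2]
      exact h3 P hP q.1 q.2 q.1.2 q.2.2 h
    simp only [QC2_tr, Tree.Out]
    by_cases hneg : (QC2_tq e q).ans (inst e P) (0 : Fin 1) = -1
    · rw [if_pos hneg]
      refine ih ?_
      intro q' hq' hp
      by_cases hqq : q' = q
      · subst hqq
        rw [QC2_ans, sign_eq_neg_one_iff] at hneg
        unfold Pass Pass3 at hp
        unfold QC2_val at hneg
        linarith
      · exact hL q' (by
          intro hmem
          rcases List.mem_cons.1 hmem with h1 | h1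
          · exact hqq h1
          · exact hq' h1) hp
    · rw [if_neg hneg]
      simp only [Tree.Out]
      apply hpass
      rw [QC2_ans, sign_eq_neg_one_iff] at hneg
      unfold Pass Pass3
      unfold QC2_val at hneg
      linarith

theorem upper {n r N : ℕ} (e : Fin N ≃ Idx n r)
    (h3 : ∀ P : Par, Near n P → ∀ i k, i < n → k < n → Pass P i k →
      (inst e P).IsMinPath 3 (path3 n (P (.x i)) (P (.z k))))
    (h4 : ∀ P : Par, Near n P → (∀ i k, i < n → k < n → ¬ Pass P i k) →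
      (inst e P).IsMinPath 4 (path4 n)) :
    ∃ T : Tree 4 N, ∀ P : Par, Near n P →
      T.Out (fun I k p => I.IsMinPath k p) (inst e P) ∧ T.cost (inst e P) ≤ n ^ 2 := by
  refine ⟨QC2_tr e (Finset.univ : Finset (Fin n × Fin n)).toList, fun P hP => ⟨?_, ?_⟩⟩
  · refine QC2_tr_correct e h3 h4 P hP _ fun q hq => ?_
    exact absurd (Finset.mem_toList.2 (Finset.mem_univ q)) hq
  · refine (QC2_tr_cost e _ _).trans ?_
    rw [Finset.length_toList, Finset.card_univ, Fintype.card_prod, Fintype.card_fin, sq]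

end Pool.LibML82.Q
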