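import Pool.Agent.LibML82.G1
import Pool.Agent.LibML82.QFam

/-!
# Row QG1: what `s` and `t` see

Near copy of `sight_s`, `sight_t` in `G1.lean` (same proofs, `Pool.LibML82.corridor` is available).
`sight_s`: the piece `0` of wall 1 is `[-10 n, -1/4] × [-th n, 0]`, unchanged.
`sight_t`: use `corridor` with `h = -2 - sg n`, wall piece `rect n r P (.inr (.inr (.inl 0)))`
`= [-20 n, 4 n - 1/4] × [2 - th n, 2 + sg n]`, `wt = -2 + th n`, `ft = -3/2`, blocks `3, 4, 5` (they are shifted by
`sg n` with respect to the old family).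
-/

namespace Pool.LibML82.Q

private theorem QG1_th {n : ℕ} (hn : 1 ≤ n) : 0 < th n := by
  unfold th
  have : (0 : ℝ) < n := by exact_mod_cast hn
  positivity

private theorem QG1_sg {n : ℕ} (hn : 1 ≤ n) : 0 < sg n := by
  unfold sg
  have : (0 : ℝ) < n := by exact_mod_cast hn
  positivity

theorem sight_s {n r N : ℕ} (hn : 1 ≤ n) (e : Fin N ≃ Idx n r) (P : Par) (Q : ℝ × ℝ)
    (H : segment ℝ (inst e P).s Q ⊆ (inst e P).free) : Q.2 ≤ -th n ∧ |Q.1| ≤ 10 * n + 1 := by
  have hn' : (1 : ℝ) ≤ n := by exact_mod_cast hn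
  have hth := QG1_th hn
  have hn0 : ¬ 0 = n := by omega
  have key : ∀ (idx : Idx n r) (τ : ℝ), 0 ≤ τ → τ ≤ 1 →
      ((1 - τ) * (-5 * (n : ℝ)) + τ * Q.1, (1 - τ) * (-th n) + τ * Q.2) ∉
        (rect n r P idx).inner := by
    intro idx τ h0 h1 hmem
    have h2 : ((1 - τ) * (-5 * (n : ℝ)) + τ * Q.1, (1 - τ) * (-th n) + τ * Q.2) ∈
        segment ℝ (inst e P).s Q :=
      ⟨1 - τ, τ, by linarith, h0, by ring, by
        ext <;> simp [inst]⟩
    have h3 := H h2 (e.symm idx)
    apply h3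
    simpa [inst] using hmem
  refine Pool.LibML82.corridor (10 * n) (-th n) (-5 * n) Q.1 Q.2 (-10 * n) (-1 / 4) 0 0
    (by linarith) ?_ (by linarith) (by linarith) (by linarith) (by linarith) ?_ ?_ ?_ ?_
  · rw [abs_le]
    constructor <;> linarith
  · intro τ h0 h1 hh
    refine key (.inl 0) τ h0 h1 ?_
    simp only [rect, Rect.inner, Set.mem_ofPred_eq, A1, B1, T1]
    refine ⟨?_, ?_, hh.2.2.1, ?_⟩
    · simpa using hh.1
    · simp only [Fin.val_zero, hn0, if_false]
      push_cast
      linarith [hh.2.1]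
    · simpa using hh.2.2.2
  · intro τ h0 h1 hh
    refine key (.inr (.inr (.inr (.inl 0)))) τ h0 h1 ?_
    simp only [rect, Rect.inner, Set.mem_ofPred_eq, block]
    simp only [Matrix.cons_val_zero]
    exact ⟨by linarith [hh.1], by linarith [hh.2.1], by linarith [hh.2.2.1], by linarith [hh.2.2.2]⟩
  · intro τ h0 h1 hh
    refine key (.inr (.inr (.inr (.inl 1)))) τ h0 h1 ?_
    simp only [rect, Rect.inner, Set.mem_ofPred_eq, block]
    simp only [Matrix.cons_val_one, Matrix.cons_val_zero]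
    exact ⟨by linarith [hh.1], by linarith [hh.2.1], by linarith [hh.2.2.1], by linarith [hh.2.2.2]⟩
  · intro τ h0 h1 hh
    refine key (.inr (.inr (.inr (.inl 2)))) τ h0 h1 ?_
    simp only [rect, Rect.inner, Set.mem_ofPred_eq, block]
    simp only [Matrix.cons_val]
    exact ⟨by linarith [hh.1], by linarith [hh.2.1], by linarith [hh.2.2.1], by linarith [hh.2.2.2]⟩

theorem sight_t {n r N : ℕ} (hn : 1 ≤ n) (e : Fin N ≃ Idx n r) (P : Par) (Q : ℝ × ℝ)
    (H : segment ℝ Q (inst e P).t ⊆ (inst e P).free) :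
    2 + sg n ≤ Q.2 ∧ |Q.1| ≤ 20 * n + 1 := by
  have hn' : (1 : ℝ) ≤ n := by exact_mod_cast hn
  have hth := QG1_th hn
  have hsg := QG1_sg hn
  have hn0 : ¬ 0 = n := by omega
  have key : ∀ (idx : Idx n r) (τ : ℝ), 0 ≤ τ → τ ≤ 1 →
      ((1 - τ) * (-5 * (n : ℝ)) + τ * Q.1, (1 - τ) * (2 + sg n) + τ * Q.2) ∉
        (rect n r P idx).inner := by
    intro idx τ h0 h1 hmem
    have h2 : ((1 - τ) * (-5 * (n : ℝ)) + τ * Q.1, (1 - τ) * (2 + sg n) + τ * Q.2) ∈
        segment ℝ Q (inst e P).t :=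
      ⟨τ, 1 - τ, h0, by linarith, by ring, by
        ext <;> simp [inst] <;> ring⟩
    have h3 := H h2 (e.symm idx)
    apply h3
    simpa [inst] using hmem
  have h := Pool.LibML82.corridor (20 * n) (-2 - sg n) (-5 * n) Q.1 (-Q.2) (-20 * n)
    (4 * n - 1 / 4) (-2 + th n) (-3 / 2)
    (by linarith) (by
      rw [abs_le]
      constructor <;> linarith)
    (by linarith) (by linarith) (by linarith) (by linarith) (by
      intro τ h0 h1 hh
      refine key (.inr (.inr (.inl 0))) τ h0 h1 ?_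
      simp only [rect, Rect.inner, Set.mem_ofPred_eq, A3, B3, T3]
      refine ⟨?_, ?_, ?_, ?_⟩
      · simpa using hh.1
      · simp only [Fin.val_zero, hn0, if_false]
        push_cast
        linarith [hh.2.1]
      · linarith [hh.2.2.2]
      · simp only [Fin.val_zero, if_true]
        linarith [hh.2.2.1]) (by
      intro τ h0 h1 hh
      refine key (.inr (.inr (.inr (.inl 3)))) τ h0 h1 ?_
      simp only [rect, Rect.inner, Set.mem_ofPred_eq, block]
      simp only [Matrix.cons_val]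
      exact ⟨by linarith [hh.1], by linarith [hh.2.1], by linarith [hh.2.2.2],
        by linarith [hh.2.2.1]⟩) (by
      intro τ h0 h1 hh
      refine key (.inr (.inr (.inr (.inl 4)))) τ h0 h1 ?_
      simp only [rect, Rect.inner, Set.mem_ofPred_eq, block]
      simp only [Matrix.cons_val]
      exact ⟨by linarith [hh.1], by linarith [hh.2.1], by linarith [hh.2.2.2],
        by linarith [hh.2.2.1]⟩) (by
      intro τ h0 h1 hh
      refine key (.inr (.inr (.inr (.inl 5)))) τ h0 h1 ?_
      simp only [rect, Rect.inner, Set.mem_ofPred_eq, block]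
      simp only [Matrix.cons_val]
      exact ⟨by linarith [hh.1], by linarith [hh.2.1], by linarith [hh.2.2.2],
        by linarith [hh.2.2.1]⟩)
  exact ⟨by linarith [h.1], h.2⟩

end Pool.LibML82.Q
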