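import Pool.Agent.LibML82.G2
import Pool.Agent.LibML82.G3
import Pool.Agent.LibML82.QG1

/-!
# Row QG3: three links force a straight passage

Near copy of `pass_of_three`, `three_le` in `G3.lean` (`Pool.LibML82.pad` and `Pool.LibML82.crossing`
are available; `crossing` with `K = 0` is the statement for one interval). The middle link is the graph of
`x(y) = c + d y` over a height interval which contains `[-th n, 2 + sg n]` (`sight_s`, `sight_t`).
Changes: the pieces of wall 1 are solid for heights in `(-th n, T1 P q)`, and `T1 P q ≥ -sg n`; so use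
`crossing` on the strip `(-th n, -sg n)` to find the gap `i` (`sg n < th n`), then `crossing` for the
single piece `i + 1` on `(-th n, h)`, `h = (P (.x i)).2`: because it is on the left of this piece near
the lower end, `x(h) ≤ (P (.x i)).1`. Wall 2: strip `(1 + sg n, 1 + th n)` to find the gap `m`, then the single
piece `m` on `(h', 1 + th n)`, `h' = (P (.y m)).2`: `x(h') ≥ (P (.y m)).1`. Wall 3: strip
`(2 - th n, 2 - sg n)`, then the single piece `k + 1` on `(2 - th n, h'')`, `h'' = (P (.z k)).2 ≤ 2 + sg n`: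
`x(h'') ≤ (P (.z k)).1`. As in the old proof `m = i + k` (all slopes are at most `40 n`, so the height
errors `sg n` and `th n` change the first coordinates only a little; use for example
`x(y) + x(y') = x(y + t) + x(y' - t)` with suitable heights instead of slopes where this is easier: from
`x(1 + t) ≥ (P (.y m)).1` ... to `x(-t') `, `x(2 + t'')`). Finally with `h < h' < h''`:
`(h'' - h) y ≤ (h'' - h) x(h') = (h'' - h') x(h) + (h' - h) x(h'') ≤ (h'' - h') x + (h' - h) z`.
(A bound for the slope: in wall 1 and wall 3 the values are in `[2i - 1/4, 2i + 1/16]` and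
`[4n + 2k - 1/4, 4n + 2k + 1/16]` at heights which differ by at least `2 - th n`, so `0 ≤ d ≤ 4 n`.)
-/

namespace Pool.LibML82.Q

private lemma qg3_th_pos {n : ℕ} (hn : 1 ≤ n) : 0 < th n := by
  unfold th
  have : (1 : ℝ) ≤ n := by exact_mod_cast hn
  positivity

private lemma qg3_sg_pos {n : ℕ} (hn : 1 ≤ n) : 0 < sg n := by
  unfold sg
  have : (1 : ℝ) ≤ n := by exact_mod_cast hn
  positivity

private lemma qg3_th_eq {n : ℕ} (hn : 1 ≤ n) : th n = 10 * sg n := by
  unfold th sg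
  have : (1 : ℝ) ≤ n := by exact_mod_cast hn
  field_simp
  norm_num

private lemma qg3_sg_n {n : ℕ} (hn : 1 ≤ n) : sg n * n = 1 / 1000 := by
  unfold sg
  have : (1 : ℝ) ≤ n := by exact_mod_cast hn
  field_simp

private lemma qg3_sg_le {n : ℕ} (hn : 1 ≤ n) : sg n ≤ 1 / 1000 := by
  have h1 := qg3_sg_n hn
  have h2 := qg3_sg_pos hn
  have h3 : (1 : ℝ) ≤ n := by exact_mod_cast hn
  nlinarith

private lemma qg3_wall1 {n : ℕ} (hn : 1 ≤ n) (P : Par) (hP : Near n P) :
    ∀ q, q ≤ n → A1 n P q < B1 n q := by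
  intro q hq
  have hn' : (1 : ℝ) ≤ n := by exact_mod_cast hn
  unfold A1 B1
  by_cases h0 : q = 0
  · have hne : q ≠ n := by omega
    rw [if_pos h0, if_neg hne, h0]
    push_cast
    linarith
  · rw [if_neg h0]
    have h1 := (hP.1 (q - 1) (by omega)).1
    have h2 : ((q - 1 : ℕ) : ℝ) = (q : ℝ) - 1 := by
      rw [Nat.cast_sub (by omega : 1 ≤ q)]
      simp
    rw [h2] at h1
    have h3 := abs_le.1 h1
    by_cases hqn : q = n
    · rw [if_pos hqn]
      have h4 : (q : ℝ) = n := by rw [hqn]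
      linarith [h3.2]
    · rw [if_neg hqn]
      linarith [h3.2]

private lemma qg3_wall2 {n : ℕ} (hn : 1 ≤ n) (P : Par) (hP : Near n P) :
    ∀ q, q ≤ 2 * n - 1 → A2 n q < B2 n P q := by
  intro q hq
  have hn' : (1 : ℝ) ≤ n := by exact_mod_cast hn
  unfold A2 B2
  by_cases hqn : q = 2 * n - 1
  · have h0 : q ≠ 0 := by omega
    rw [if_neg h0, if_pos hqn]
    have h4 : (q : ℝ) = 2 * n - 1 := by
      rw [hqn, Nat.cast_sub (by omega : 1 ≤ 2 * n)]
      push_cast
      ring
    linarith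
  · rw [if_neg hqn]
    have h1 := (hP.2.1 q (by omega)).1
    have h3 := abs_le.1 h1
    have hq0 : (0 : ℝ) ≤ q := Nat.cast_nonneg q
    by_cases h0 : q = 0
    · rw [if_pos h0]
      linarith [h3.1]
    · rw [if_neg h0]
      linarith [h3.1]

private lemma qg3_wall3 {n : ℕ} (hn : 1 ≤ n) (P : Par) (hP : Near n P) :
    ∀ q, q ≤ n → A3 n P q < B3 n q := by
  intro q hq
  have hn' : (1 : ℝ) ≤ n := by exact_mod_cast hn
  unfold A3 B3
  by_cases h0 : q = 0
  · have hne : q ≠ n := by omega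
    rw [if_pos h0, if_neg hne, h0]
    push_cast
    linarith
  · rw [if_neg h0]
    have h1 := (hP.2.2 (q - 1) (by omega)).1
    have h2 : ((q - 1 : ℕ) : ℝ) = (q : ℝ) - 1 := by
      rw [Nat.cast_sub (by omega : 1 ≤ q)]
      simp
    rw [h2] at h1
    have h3 := abs_le.1 h1
    by_cases hqn : q = n
    · rw [if_pos hqn]
      have h4 : (q : ℝ) = n := by rw [hqn]
      linarith [h3.2]
    · rw [if_neg hqn]
      linarith [h3.2]

/-- one piece of a wall -/
private lemma qg3_one (α β c d y₁ y₂ : ℝ) (hy : y₁ < y₂) (hαβ : α < β)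
    (H : ∀ y, y₁ < y → y < y₂ → ¬ (α < c + d * y ∧ c + d * y < β)) :
    (∀ y, y₁ ≤ y → y ≤ y₂ → c + d * y ≤ α) ∨ (∀ y, y₁ ≤ y → y ≤ y₂ → β ≤ c + d * y) := by
  rcases crossing (fun _ => α) (fun _ => β) 0 c d y₁ y₂ hy (fun _ _ => hαβ)
    (fun _ _ => H) with h | h | ⟨q, hq, _⟩
  · exact Or.inl h
  · exact Or.inr h
  · omega

private lemma qg3_core {n : ℕ} (hn : 1 ≤ n) (P : Par) (hP : Near n P)
    (c d Px Py Qx Qy : ℝ) (hPy : Py ≤ -th n) (hPx : |Px| ≤ 10 * n + 1)
    (hQy : 2 + sg n ≤ Qy) (hQx : |Qx| ≤ 20 * n + 1)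
    (hcP : c + d * Py = Px) (hcQ : c + d * Qy = Qx)
    (H1 : ∀ q, q ≤ n → ∀ y, -th n < y → y < T1 P q →
      ¬ (A1 n P q < c + d * y ∧ c + d * y < B1 n q))
    (H2 : ∀ q, q ≤ 2 * n - 1 → ∀ y, L2 n P q < y → y < 1 + th n →
      ¬ (A2 n q < c + d * y ∧ c + d * y < B2 n P q))
    (H3 : ∀ q, q ≤ n → ∀ y, 2 - th n < y → y < T3 n P q →
      ¬ (A3 n P q < c + d * y ∧ c + d * y < B3 n q)) :
    ∃ i k, i < n ∧ k < n ∧ Pass P i k := by
  have hn' : (1 : ℝ) ≤ n := by exact_mod_cast hn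
  have hth := qg3_th_pos hn
  have hsg := qg3_sg_pos hn
  have hts := qg3_th_eq hn
  have hsn := qg3_sg_n hn
  have hsl := qg3_sg_le hn
  obtain ⟨hP1, hP2⟩ := abs_le.1 hPx
  obtain ⟨hQ1, hQ2⟩ := abs_le.1 hQx
  -- heights of the pieces
  have hT1 : ∀ q, q ≤ n → -sg n ≤ T1 P q := by
    intro q hq
    unfold T1
    by_cases h0 : q = 0
    · rw [if_pos h0]
      linarith
    · rw [if_neg h0]
      exact (abs_le.1 (hP.1 (q - 1) (by omega)).2).1
  have hL2 : ∀ q, q ≤ 2 * n - 1 → L2 n P q ≤ 1 + sg n := by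
    intro q hq
    unfold L2
    by_cases h0 : q = 2 * n - 1
    · rw [if_pos h0]
      linarith
    · rw [if_neg h0]
      have := (abs_le.1 (hP.2.1 q (by omega)).2).2
      linarith
  have hT3 : ∀ q, q ≤ n → 2 - sg n ≤ T3 n P q := by
    intro q hq
    unfold T3
    by_cases h0 : q = 0
    · rw [if_pos h0]
      linarith
    · rw [if_neg h0]
      have := (abs_le.1 (hP.2.2 (q - 1) (by omega)).2).1
      linarith
  -- bounds for x(1 + sg)
  have hx1u : c + d * (1 + sg n) ≤ 20 * n + 1 := by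
    rcases le_total 0 d with hd | hd
    · have : d * (1 + sg n) ≤ d * Qy := mul_le_mul_of_nonneg_left (by linarith) hd
      linarith
    · have : d * (1 + sg n) ≤ d * Py := mul_le_mul_of_nonpos_left (by linarith) hd
      linarith
  have hx1l : -(20 * n + 1) ≤ c + d * (1 + sg n) := by
    rcases le_total 0 d with hd | hd
    · have : d * Py ≤ d * (1 + sg n) := mul_le_mul_of_nonneg_left (by linarith) hd
      linarith
    · have : d * Qy ≤ d * (1 + sg n) := mul_le_mul_of_nonpos_left (by linarith) hd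
      linarith
  -- wall 2
  have w2 := crossing (A2 n) (B2 n P) (2 * n - 1) c d (1 + sg n) (1 + th n) (by linarith)
    (qg3_wall2 hn P hP) (fun q hq y h1 h2 => H2 q hq y (by linarith [hL2 q hq]) h2)
  have hw2 : ∃ m, m < 2 * n - 1 ∧ ∀ y, 1 + sg n ≤ y → y ≤ 1 + th n →
      B2 n P m ≤ c + d * y ∧ c + d * y ≤ A2 n (m + 1) := by
    rcases w2 with h | h | h
    · exfalso
      have := h (1 + sg n) le_rfl (by linarith)
      unfold A2 at this
      rw [if_pos rfl] at this
      linarith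
    · exfalso
      have := h (1 + sg n) le_rfl (by linarith)
      unfold B2 at this
      rw [if_pos rfl] at this
      linarith
    · exact h
  obtain ⟨m, hm, hm2⟩ := hw2
  obtain ⟨hmy, hmh⟩ := hP.2.1 m hm
  obtain ⟨hmy1, hmy2⟩ := abs_le.1 hmy
  obtain ⟨hmh1, hmh2⟩ := abs_le.1 hmh
  have hB2 : B2 n P m = (P (.y m)).1 := by
    unfold B2
    rw [if_neg (by omega)]
  have hA2 : A2 n (m + 1) = 2 * n + m + 1 / 4 := by
    unfold A2
    rw [if_neg (by omega)]
    push_cast
    ring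
  have hL2m : L2 n P m = (P (.y m)).2 := by
    unfold L2
    rw [if_neg (by omega)]
  have hym : (P (.y m)).1 ≤ c + d * (P (.y m)).2 := by
    have hAB := qg3_wall2 hn P hP m (by omega)
    rcases qg3_one (A2 n m) (B2 n P m) c d (P (.y m)).2 (1 + th n) (by linarith) hAB
      (fun y h1 h2 => H2 m (by omega) y (by rw [hL2m]; exact h1) h2) with h | h
    · exfalso
      have h1 := h (1 + sg n) (by linarith) (by linarith)
      have h2 := (hm2 (1 + sg n) le_rfl (by linarith)).1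
      linarith
    · have h1 := h (P (.y m)).2 le_rfl (by linarith)
      rw [hB2] at h1
      exact h1
  rw [hB2, hA2] at hm2
  have hm0 : (0 : ℝ) ≤ m := Nat.cast_nonneg m
  have hm1 : (m : ℝ) ≤ 2 * n - 2 := by
    have : m + 2 ≤ 2 * n := by omega
    have h' : ((m + 2 : ℕ) : ℝ) ≤ ((2 * n : ℕ) : ℝ) := by exact_mod_cast this
    push_cast at h'
    linarith
  obtain ⟨hx1a, hx1b⟩ := hm2 (1 + sg n) le_rfl (by linarith)
  obtain ⟨_, hx1c⟩ := hm2 (1 + th n) (by linarith) le_rfl
  -- bounds for x(3 sg)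
  have hx0u : c + d * (3 * sg n) ≤ 10 * n + 1 := by
    rcases le_total 0 d with hd | hd
    · have : d * (3 * sg n) ≤ d * (1 + sg n) := mul_le_mul_of_nonneg_left (by linarith) hd
      linarith
    · have : d * (3 * sg n) ≤ d * Py := mul_le_mul_of_nonpos_left (by linarith) hd
      linarith
  have hx0l : -(10 * n + 1) ≤ c + d * (3 * sg n) := by
    rcases le_total 0 d with hd | hd
    · have : d * Py ≤ d * (3 * sg n) := mul_le_mul_of_nonneg_left (by linarith) hd
      linarith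
    · have : d * (1 + sg n) ≤ d * (3 * sg n) := mul_le_mul_of_nonpos_left (by linarith) hd
      linarith
  have hrel : c + d * (3 * sg n) + (c + d * (2 - sg n)) = 2 * (c + d * (1 + sg n)) := by ring
  -- wall 3
  have w3 := crossing (A3 n P) (B3 n) n c d (2 - th n) (2 - sg n) (by linarith)
    (qg3_wall3 hn P hP) (fun q hq y h1 h2 => H3 q hq y h1 (by linarith [hT3 q hq]))
  have hw3 : ∃ k, k < n ∧ ∀ y, 2 - th n ≤ y → y ≤ 2 - sg n →
      B3 n k ≤ c + d * y ∧ c + d * y ≤ A3 n P (k + 1) := by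
    rcases w3 with h | h | h
    · exfalso
      have := h (2 - sg n) (by linarith) le_rfl
      unfold A3 at this
      rw [if_pos rfl] at this
      linarith
    · exfalso
      have := h (2 - sg n) (by linarith) le_rfl
      unfold B3 at this
      rw [if_pos rfl] at this
      linarith
    · exact h
  obtain ⟨k, hk, hk2⟩ := hw3
  obtain ⟨hkz, hkh⟩ := hP.2.2 k hk
  obtain ⟨hkz1, hkz2⟩ := abs_le.1 hkz
  obtain ⟨hkh1, hkh2⟩ := abs_le.1 hkh
  have hB3 : B3 n k = 4 * n + 2 * k - 1 / 4 := by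
    unfold B3
    rw [if_neg (by omega)]
  have hA3 : A3 n P (k + 1) = (P (.z k)).1 := by
    unfold A3
    rw [if_neg (by omega), Nat.add_sub_cancel]
  have hT3k : T3 n P (k + 1) = (P (.z k)).2 := by
    unfold T3
    rw [if_neg (by omega), Nat.add_sub_cancel]
  have hzk : c + d * (P (.z k)).2 ≤ (P (.z k)).1 := by
    have hAB := qg3_wall3 hn P hP (k + 1) (by omega)
    rcases qg3_one (A3 n P (k + 1)) (B3 n (k + 1)) c d (2 - th n) (P (.z k)).2 (by linarith) hAB
      (fun y h1 h2 => H3 (k + 1) (by omega) y h1 (by rw [hT3k]; exact h2)) with h | h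
    · have h1 := h (P (.z k)).2 (by linarith) le_rfl
      rw [hA3] at h1
      exact h1
    · exfalso
      have h1 := h (2 - th n) le_rfl (by linarith)
      have h2 := (hk2 (2 - th n) le_rfl (by linarith)).2
      linarith
  rw [hB3, hA3] at hk2
  have hk0 : (0 : ℝ) ≤ k := Nat.cast_nonneg k
  have hk1 : (k : ℝ) ≤ n - 1 := by
    have h' : ((k + 1 : ℕ) : ℝ) ≤ (n : ℝ) := by exact_mod_cast hk
    push_cast at h'
    linarith
  obtain ⟨hx2a, hx2b⟩ := hk2 (2 - sg n) (by linarith) le_rfl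
  obtain ⟨hx2c, hx2d⟩ := hk2 (2 - th n) le_rfl (by linarith)
  -- the slope
  have hdiff : d * (1 - 2 * sg n) = (c + d * (2 - sg n)) - (c + d * (1 + sg n)) := by ring
  have hd : 0 < d := by
    by_contra hcon
    push Not at hcon
    have h1 : d * (1 - 2 * sg n) ≤ 0 := mul_nonpos_of_nonpos_of_nonneg hcon (by linarith)
    linarith
  have hdn : d ≤ 5 * n := by
    by_contra hcon
    push Not at hcon
    have h1 : 5 * n * (1 - 2 * sg n) < d * (1 - 2 * sg n) :=
      mul_lt_mul_of_pos_right hcon (by linarith)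
    have h2 : 5 * (n : ℝ) * (1 - 2 * sg n) = 5 * n - 10 * (sg n * n) := by ring
    rw [h2, hsn] at h1
    linarith
  have hds : d * sg n ≤ 1 / 200 := by
    have h1 : d * sg n ≤ 5 * n * sg n := mul_le_mul_of_nonneg_right hdn hsg.le
    have h2 : 5 * (n : ℝ) * sg n = 5 * (sg n * n) := by ring
    rw [h2, hsn] at h1
    linarith
  have hds0 : 0 < d * sg n := mul_pos hd hsg
  have hrel2 : c + d * (-sg n) + (c + d * (2 - sg n)) = 2 * (c + d * (1 + sg n)) - 4 * (d * sg n) := by
    ring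
  -- wall 1
  have w1 := crossing (A1 n P) (B1 n) n c d (-th n) (-sg n) (by linarith) (qg3_wall1 hn P hP)
    (fun q hq y h1 h2 => H1 q hq y h1 (by linarith [hT1 q hq]))
  have hw1 : ∃ i, i < n ∧ ∀ y, -th n ≤ y → y ≤ -sg n →
      B1 n i ≤ c + d * y ∧ c + d * y ≤ A1 n P (i + 1) := by
    rcases w1 with h | h | h
    · exfalso
      have := h (-sg n) (by linarith) le_rfl
      unfold A1 at this
      rw [if_pos rfl] at this
      linarith
    · exfalso
      have := h (-sg n) (by linarith) le_rfl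
      unfold B1 at this
      rw [if_pos rfl] at this
      linarith
    · exact h
  obtain ⟨i, hi, hi2⟩ := hw1
  obtain ⟨hix, hih⟩ := hP.1 i hi
  obtain ⟨hix1, hix2⟩ := abs_le.1 hix
  obtain ⟨hih1, hih2⟩ := abs_le.1 hih
  have hB1 : B1 n i = 2 * i - 1 / 4 := by
    unfold B1
    rw [if_neg (by omega)]
  have hA1 : A1 n P (i + 1) = (P (.x i)).1 := by
    unfold A1
    rw [if_neg (by omega), Nat.add_sub_cancel]
  have hT1i : T1 P (i + 1) = (P (.x i)).2 := by
    unfold T1
    rw [if_neg (by omega), Nat.add_sub_cancel]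
  have hxi : c + d * (P (.x i)).2 ≤ (P (.x i)).1 := by
    have hAB := qg3_wall1 hn P hP (i + 1) (by omega)
    rcases qg3_one (A1 n P (i + 1)) (B1 n (i + 1)) c d (-th n) (P (.x i)).2 (by linarith) hAB
      (fun y h1 h2 => H1 (i + 1) (by omega) y h1 (by rw [hT1i]; exact h2)) with h | h
    · have h1 := h (P (.x i)).2 (by linarith) le_rfl
      rw [hA1] at h1
      exact h1
    · exfalso
      have h1 := h (-th n) le_rfl (by linarith)
      have h2 := (hi2 (-th n) le_rfl (by linarith)).2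
      linarith
  rw [hB1, hA1] at hi2
  have hi0 : (0 : ℝ) ≤ i := Nat.cast_nonneg i
  obtain ⟨hx0a, hx0b⟩ := hi2 (-sg n) (by linarith) le_rfl
  obtain ⟨hx0c, hx0d⟩ := hi2 (-th n) le_rfl (by linarith)
  -- comparison
  have hle : m ≤ i + k := by
    by_contra hcon
    have h1 : i + k + 1 ≤ m := by omega
    have h2 : ((i + k + 1 : ℕ) : ℝ) ≤ (m : ℝ) := by exact_mod_cast h1
    push_cast at h2
    linarith
  have hge : i + k ≤ m := by
    by_contra hcon
    have h1 : m + 1 ≤ i + k := by omega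
    have h2 : ((m + 1 : ℕ) : ℝ) ≤ ((i + k : ℕ) : ℝ) := by exact_mod_cast h1
    push_cast at h2
    have e1 : c + d * (2 - th n) + (c + d * (-th n)) =
        2 * (c + d * (1 + th n)) - 4 * (d * th n) := by
      ring
    have e2 : 0 ≤ d * th n := mul_nonneg hd.le hth.le
    linarith
  have hmik : m = i + k := le_antisymm hle hge
  refine ⟨i, k, hi, hk, ?_⟩
  unfold Pass Pass3
  rw [← hmik]
  have hXY : 0 < (P (.y m)).2 - (P (.x i)).2 := by linarith
  have hYZ : 0 < (P (.z k)).2 - (P (.y m)).2 := by linarith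
  have hXZ : 0 < (P (.z k)).2 - (P (.x i)).2 := by linarith
  calc ((P (.z k)).2 - (P (.x i)).2) * (P (.y m)).1
      ≤ ((P (.z k)).2 - (P (.x i)).2) * (c + d * (P (.y m)).2) :=
        mul_le_mul_of_nonneg_left hym hXZ.le
    _ = ((P (.z k)).2 - (P (.y m)).2) * (c + d * (P (.x i)).2) +
        ((P (.y m)).2 - (P (.x i)).2) * (c + d * (P (.z k)).2) := by ring
    _ ≤ ((P (.z k)).2 - (P (.y m)).2) * (P (.x i)).1 +
        ((P (.y m)).2 - (P (.x i)).2) * (P (.z k)).1 :=
        add_le_add (mul_le_mul_of_nonneg_left hxi hYZ.le) (mul_le_mul_of_nonneg_left hzk hXY.le)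

private lemma qg3_graph (P' Q' : ℝ × ℝ) (hPQ : P'.2 < Q'.2) (y : ℝ) (h1 : P'.2 ≤ y)
    (h2 : y ≤ Q'.2) :
    ((P'.1 - (Q'.1 - P'.1) / (Q'.2 - P'.2) * P'.2) + (Q'.1 - P'.1) / (Q'.2 - P'.2) * y, y) ∈
      segment ℝ P' Q' := by
  have h3 : 0 < Q'.2 - P'.2 := by linarith
  have h4 : Q'.2 - P'.2 ≠ 0 := ne_of_gt h3
  refine ⟨(Q'.2 - y) / (Q'.2 - P'.2), (y - P'.2) / (Q'.2 - P'.2), ?_, ?_, ?_, ?_⟩
  · exact div_nonneg (by linarith) h3.le
  · exact div_nonneg (by linarith) h3.le
  · rw [← add_div]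
    rw [div_eq_one_iff_eq h4]
    ring
  · refine Prod.ext ?_ ?_
    · simp only [Prod.fst_add, Prod.smul_fst, smul_eq_mul]
      field_simp
      ring
    · simp only [Prod.snd_add, Prod.smul_snd, smul_eq_mul]
      field_simp
      ring

theorem pass_of_three {n r N : ℕ} (hn : 1 ≤ n) (e : Fin N ≃ Idx n r) (P : Par) (hP : Near n P)
    (p : Fin 4 → ℝ × ℝ) (hp : (inst e P).IsPath 3 p) : ∃ i k, i < n ∧ k < n ∧ Pass P i k := by
  obtain ⟨h0, h1, h2⟩ := hp
  have hth := qg3_th_pos hn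
  have hsg := qg3_sg_pos hn
  have hts := qg3_th_eq hn
  have hsl := qg3_sg_le hn
  have s0 : segment ℝ (p 0) (p 1) ⊆ (inst e P).free := h2 0
  have s1 : segment ℝ (p 1) (p 2) ⊆ (inst e P).free := h2 1
  have s2 : segment ℝ (p 2) (p 3) ⊆ (inst e P).free := h2 2
  have h1' : p 3 = (inst e P).t := h1
  rw [h0] at s0
  rw [h1'] at s2
  obtain ⟨hPy, hPx⟩ := sight_s hn e P (p 1) s0
  obtain ⟨hQy, hQx⟩ := sight_t hn e P (p 2) s2
  have hPQ : (p 1).2 < (p 2).2 := by linarith
  have h4 : (p 2).2 - (p 1).2 ≠ 0 := by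
    have : 0 < (p 2).2 - (p 1).2 := by linarith
    exact ne_of_gt this
  have hfree : ∀ (j : Idx n r) (y : ℝ), (p 1).2 ≤ y → y ≤ (p 2).2 →
      ¬ ((rect n r P j).x0 < ((p 1).1 - ((p 2).1 - (p 1).1) / ((p 2).2 - (p 1).2) * (p 1).2) +
          ((p 2).1 - (p 1).1) / ((p 2).2 - (p 1).2) * y ∧
        ((p 1).1 - ((p 2).1 - (p 1).1) / ((p 2).2 - (p 1).2) * (p 1).2) +
          ((p 2).1 - (p 1).1) / ((p 2).2 - (p 1).2) * y < (rect n r P j).x1 ∧
        (rect n r P j).y0 < y ∧ y < (rect n r P j).y1) := by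
    intro j y hy1 hy2 hcon
    have hmem := s1 (qg3_graph (p 1) (p 2) hPQ y hy1 hy2)
    have := hmem (e.symm j)
    apply this
    have e1 : (inst e P).obs (e.symm j) = rect n r P j := by
      show rect n r P (e (e.symm j)) = rect n r P j
      rw [Equiv.apply_symm_apply]
    rw [e1]
    exact hcon
  refine qg3_core hn P hP
    ((p 1).1 - ((p 2).1 - (p 1).1) / ((p 2).2 - (p 1).2) * (p 1).2)
    (((p 2).1 - (p 1).1) / ((p 2).2 - (p 1).2))
    (p 1).1 (p 1).2 (p 2).1 (p 2).2 hPy hPx hQy hQx ?_ ?_ ?_ ?_ ?_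
  · ring
  · field_simp
    ring
  · intro q hq y hy1 hy2 hcon
    have hT : T1 P q ≤ sg n := by
      unfold T1
      by_cases hq0 : q = 0
      · rw [if_pos hq0]
        linarith
      · rw [if_neg hq0]
        exact (abs_le.1 (hP.1 (q - 1) (by omega)).2).2
    have h := hfree (Sum.inl ⟨q, Nat.lt_succ_of_le hq⟩) y (by linarith) (by linarith)
    exact h ⟨hcon.1, hcon.2, hy1, hy2⟩
  · intro q hq y hy1 hy2 hcon
    have hL : 1 - sg n ≤ L2 n P q := by
      unfold L2
      by_cases hq0 : q = 2 * n - 1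
      · rw [if_pos hq0]
        linarith
      · rw [if_neg hq0]
        have := (abs_le.1 (hP.2.1 q (by omega)).2).1
        linarith
    have h := hfree (Sum.inr (Sum.inl ⟨q, by omega⟩)) y (by linarith) (by linarith)
    exact h ⟨hcon.1, hcon.2, hy1, hy2⟩
  · intro q hq y hy1 hy2 hcon
    have hT : T3 n P q ≤ 2 + sg n := by
      unfold T3
      by_cases hq0 : q = 0
      · rw [if_pos hq0]
      · rw [if_neg hq0]
        have := (abs_le.1 (hP.2.2 (q - 1) (by omega)).2).2
        linarith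
    have h := hfree (Sum.inr (Sum.inr (Sum.inl ⟨q, Nat.lt_succ_of_le hq⟩))) y
      (by linarith) (by linarith)
    exact h ⟨hcon.1, hcon.2, hy1, hy2⟩

theorem three_le {n r N : ℕ} (hn : 1 ≤ n) (e : Fin N ≃ Idx n r) (P : Par)
    (ht : (inst e P).t ∈ (inst e P).free) (k : ℕ) (p : Fin (k + 1) → ℝ × ℝ)
    (hp : (inst e P).IsPath k p) : 3 ≤ k := by
  by_contra hcon
  have hk : k ≤ 2 := by omega
  obtain ⟨p', hp'⟩ := pad (inst e P) ht k 2 hk p hp
  obtain ⟨h0, h1, h2⟩ := hp'
  have hth := qg3_th_pos hn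
  have hsg := qg3_sg_pos hn
  have s0 : segment ℝ (p' 0) (p' 1) ⊆ (inst e P).free := h2 0
  have s1 : segment ℝ (p' 1) (p' 2) ⊆ (inst e P).free := h2 1
  have h1' : p' 2 = (inst e P).t := h1
  rw [h0] at s0
  rw [h1'] at s1
  obtain ⟨hPy, _⟩ := sight_s hn e P (p' 1) s0
  obtain ⟨hQy, _⟩ := sight_t hn e P (p' 1) s1
  linarith

end Pool.LibML82.Q
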