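import Pool.Agent.LibML82.QFam

/-!
# Row QG4: the instances are valid

Near copy of `G4.lean` (same structure). New: the pieces of wall 1 have heights `[-th n, T1 P q]` with
`|T1 P q| ≤ sg n < th n`, the pieces of wall 2 have heights `[L2 n P q, 1 + th n]` with `|L2 n P q - 1| ≤ sg n`,
the pieces of wall 3 have heights `[2 - th n, T3 n P q]` with `|T3 n P q - 2| ≤ sg n`
(`sg n = th n / 10 ≤ 1/1000`). `s = (-5n, -th n)` and `t = (-5n, 2 + sg n)`: `t` is on the upper side of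
the piece `0` of wall 3, and all pieces of wall 3 have top `≤ 2 + sg n`.
-/

namespace Pool.LibML82.Q

private theorem QG4_th {n : ℕ} (hn : 1 ≤ n) : 0 < th n ∧ th n ≤ 1 / 100 ∧ 0 < sg n ∧
    10 * sg n = th n := by
  have h1 : (1 : ℝ) ≤ n := by exact_mod_cast hn
  unfold th sg
  refine ⟨one_div_pos.2 (by linarith), one_div_le_one_div_of_le (by norm_num) (by linarith),
    one_div_pos.2 (by linarith), ?_⟩
  field_simp
  norm_num

private theorem QG4_A1z (n : ℕ) (P : Par) : A1 n P 0 = -10 * n := if_pos rfl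

private theorem QG4_A1s (n : ℕ) (P : Par) (i : ℕ) : A1 n P (i + 1) = (P (.x i)).1 :=
  if_neg (Nat.succ_ne_zero i)

private theorem QG4_B1l (n : ℕ) : B1 n n = 10 * n := if_pos rfl

private theorem QG4_B1s {n q : ℕ} (h : q < n) : B1 n q = 2 * q - 1 / 4 := if_neg h.ne

private theorem QG4_A2z (n : ℕ) : A2 n 0 = -30 * n := if_pos rfl

private theorem QG4_A2s (n i : ℕ) : A2 n (i + 1) = 2 * n + ((i + 1 : ℕ) : ℝ) - 3 / 4 :=
  if_neg (Nat.succ_ne_zero i)

private theorem QG4_B2l (n : ℕ) (P : Par) : B2 n P (2 * n - 1) = 30 * n := if_pos rfl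

private theorem QG4_B2s {n q : ℕ} (P : Par) (h : q < 2 * n - 1) : B2 n P q = (P (.y q)).1 := if_neg h.ne

private theorem QG4_A3z (n : ℕ) (P : Par) : A3 n P 0 = -20 * n := if_pos rfl

private theorem QG4_A3s (n : ℕ) (P : Par) (i : ℕ) : A3 n P (i + 1) = (P (.z i)).1 :=
  if_neg (Nat.succ_ne_zero i)

private theorem QG4_B3l (n : ℕ) : B3 n n = 20 * n := if_pos rfl

private theorem QG4_B3s {n q : ℕ} (h : q < n) : B3 n q = 4 * n + 2 * q - 1 / 4 := if_neg h.ne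

private theorem QG4_w1 {n : ℕ} (hn : 1 ≤ n) {P : Par} (hP : Near n P) {q : ℕ} (hq : q ≤ n) :
    -10 * n ≤ A1 n P q ∧ A1 n P q < B1 n q ∧ B1 n q ≤ 10 * n := by
  have h1 : (1 : ℝ) ≤ n := by exact_mod_cast hn
  have hqn : (q : ℝ) ≤ n := by exact_mod_cast hq
  have hA : -10 * (n : ℝ) ≤ A1 n P q ∧ A1 n P q < 2 * q - 1 / 4 := by
    cases q with
    | zero =>
      rw [QG4_A1z]
      refine ⟨le_rfl, ?_⟩
      push_cast
      linarith
    | succ i =>
      rw [QG4_A1s]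
      have h2 := abs_le.1 (hP.1 i hq).1
      have h3 : (0 : ℝ) ≤ i := Nat.cast_nonneg i
      push_cast
      constructor <;> linarith [h2.1, h2.2]
  rcases Nat.lt_or_eq_of_le hq with h2 | h2
  · rw [QG4_B1s h2]
    exact ⟨hA.1, hA.2, by linarith⟩
  · subst h2
    rw [QG4_B1l]
    exact ⟨hA.1, by linarith [hA.2], le_rfl⟩

private theorem QG4_w2 {n : ℕ} (hn : 1 ≤ n) {P : Par} (hP : Near n P) {q : ℕ} (hq : q < 2 * n) :
    A2 n q < B2 n P q := by
  have h1 : (1 : ℝ) ≤ n := by exact_mod_cast hn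
  have hqn : (q : ℝ) + 1 ≤ 2 * n := by exact_mod_cast hq
  have h0 : (0 : ℝ) ≤ q := Nat.cast_nonneg q
  have hA : A2 n q ≤ 2 * n + q - 3 / 4 := by
    cases q with
    | zero =>
      rw [QG4_A2z]
      push_cast
      linarith
    | succ i => rw [QG4_A2s]
  rcases Nat.lt_or_eq_of_le (Nat.le_sub_one_of_lt hq) with h2 | h2
  · rw [QG4_B2s P h2]
    have h3 := abs_le.1 (hP.2.1 q h2).1
    linarith [h3.1]
  · rw [h2, QG4_B2l, ← h2]
    linarith

private theorem QG4_w3 {n : ℕ} (hn : 1 ≤ n) {P : Par} (hP : Near n P) {q : ℕ} (hq : q ≤ n) :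
    -20 * n ≤ A3 n P q ∧ A3 n P q < B3 n q ∧ B3 n q ≤ 20 * n := by
  have h1 : (1 : ℝ) ≤ n := by exact_mod_cast hn
  have hqn : (q : ℝ) ≤ n := by exact_mod_cast hq
  have hA : -20 * (n : ℝ) ≤ A3 n P q ∧ A3 n P q < 4 * n + 2 * q - 1 / 4 := by
    cases q with
    | zero =>
      rw [QG4_A3z]
      refine ⟨le_rfl, ?_⟩
      push_cast
      linarith
    | succ i =>
      rw [QG4_A3s]
      have h2 := abs_le.1 (hP.2.2 i hq).1
      have h3 : (0 : ℝ) ≤ i := Nat.cast_nonneg i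
      push_cast
      constructor <;> linarith [h2.1, h2.2]
  rcases Nat.lt_or_eq_of_le hq with h2 | h2
  · rw [QG4_B3s h2]
    exact ⟨hA.1, hA.2, by linarith⟩
  · subst h2
    rw [QG4_B3l]
    exact ⟨hA.1, by linarith [hA.2], le_rfl⟩

private theorem QG4_g1 {n : ℕ} {P : Par} (hP : Near n P) {q q' : ℕ} (h : q < q') (hq : q' ≤ n) :
    B1 n q < A1 n P q' := by
  obtain ⟨i, rfl⟩ : ∃ i, q' = i + 1 := ⟨q' - 1, by omega⟩
  rw [QG4_A1s, QG4_B1s (by omega)]
  have h2 := abs_le.1 (hP.1 i hq).1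
  have h3 : (q : ℝ) ≤ i := by exact_mod_cast Nat.le_of_lt_succ h
  linarith [h2.1]

private theorem QG4_g2 {n : ℕ} {P : Par} (hP : Near n P) {q q' : ℕ} (h : q < q')
    (hq : q' < 2 * n) : B2 n P q < A2 n q' := by
  obtain ⟨i, rfl⟩ : ∃ i, q' = i + 1 := ⟨q' - 1, by omega⟩
  have h1 : q < 2 * n - 1 := by omega
  rw [QG4_A2s, QG4_B2s P h1]
  have h2 := abs_le.1 (hP.2.1 q h1).1
  have h3 : (q : ℝ) ≤ i := by exact_mod_cast Nat.le_of_lt_succ h
  push_cast
  linarith [h2.2]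

private theorem QG4_g3 {n : ℕ} {P : Par} (hP : Near n P) {q q' : ℕ} (h : q < q') (hq : q' ≤ n) :
    B3 n q < A3 n P q' := by
  obtain ⟨i, rfl⟩ : ∃ i, q' = i + 1 := ⟨q' - 1, by omega⟩
  rw [QG4_A3s, QG4_B3s (by omega)]
  have h2 := abs_le.1 (hP.2.2 i hq).1
  have h3 : (q : ℝ) ≤ i := by exact_mod_cast Nat.le_of_lt_succ h
  linarith [h2.1]

private theorem QG4_T1 {n : ℕ} (hn : 1 ≤ n) {P : Par} (hP : Near n P) {q : ℕ} (hq : q ≤ n) :
    -sg n ≤ T1 P q ∧ T1 P q ≤ sg n := by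
  have ht := QG4_th hn
  have ht3 := ht.2.2.1
  have ht4 := ht.2.2.2
  unfold T1
  split_ifs with h
  · constructor <;> linarith [ht.2.2.1]
  · exact abs_le.1 (hP.1 (q - 1) (by omega)).2

private theorem QG4_L2 {n : ℕ} (hn : 1 ≤ n) {P : Par} (hP : Near n P) {q : ℕ} (hq : q < 2 * n) :
    1 - sg n ≤ L2 n P q ∧ L2 n P q ≤ 1 + sg n := by
  have ht := QG4_th hn
  have ht3 := ht.2.2.1
  have ht4 := ht.2.2.2
  unfold L2
  split_ifs with h
  · constructor <;> linarith [ht.2.2.1]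
  · have h1 := abs_le.1 (hP.2.1 q (by omega)).2
    constructor <;> linarith [h1.1, h1.2]

private theorem QG4_T3 {n : ℕ} (hn : 1 ≤ n) {P : Par} (hP : Near n P) {q : ℕ} (hq : q ≤ n) :
    2 - sg n ≤ T3 n P q ∧ T3 n P q ≤ 2 + sg n := by
  have ht := QG4_th hn
  have ht3 := ht.2.2.1
  have ht4 := ht.2.2.2
  unfold T3
  split_ifs with h
  · constructor <;> linarith [ht.2.2.1]
  · have h1 := abs_le.1 (hP.2.2 (q - 1) (by omega)).2
    constructor <;> linarith [h1.1, h1.2]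

/-- separated rectangles -/
private def QG4_Sep (R R' : Rect) : Prop :=
  R.x1 < R'.x0 ∨ R'.x1 < R.x0 ∨ R.y1 < R'.y0 ∨ R'.y1 < R.y0

private theorem QG4_symm {R R' : Rect} (h : QG4_Sep R R') : QG4_Sep R' R := by
  unfold QG4_Sep at *
  tauto

private theorem QG4_disj {R R' : Rect} (h : QG4_Sep R R') : Disjoint R.closed R'.closed := by
  rw [Set.disjoint_left]
  rintro p ⟨a1, a2, a3, a4⟩ ⟨b1, b2, b3, b4⟩
  rcases h with h | h | h | h <;> linarith

private theorem QG4_blk (n : ℕ) (j : Fin 6) :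
    (j = 0 ∧ block n j = ⟨-10 * n, 10 * n, -th n - 2, -th n - 1⟩) ∨
    (j = 1 ∧ block n j = ⟨-10 * n - 2, -10 * n - 1, -th n - 4, 0⟩) ∨
    (j = 2 ∧ block n j = ⟨10 * n + 1, 10 * n + 2, -th n - 4, 0⟩) ∨
    (j = 3 ∧ block n j = ⟨-20 * n, 20 * n, 3 + sg n, 4 + sg n⟩) ∨
    (j = 4 ∧ block n j = ⟨-20 * n - 2, -20 * n - 1, 3 / 2, 6 + sg n⟩) ∨
    (j = 5 ∧ block n j = ⟨20 * n + 1, 20 * n + 2, 3 / 2, 6 + sg n⟩) := by
  fin_cases j
  · exact Or.inl ⟨rfl, rfl⟩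
  · exact Or.inr (Or.inl ⟨rfl, rfl⟩)
  · exact Or.inr (Or.inr (Or.inl ⟨rfl, rfl⟩))
  · exact Or.inr (Or.inr (Or.inr (Or.inl ⟨rfl, rfl⟩)))
  · exact Or.inr (Or.inr (Or.inr (Or.inr (Or.inl ⟨rfl, rfl⟩))))
  · exact Or.inr (Or.inr (Or.inr (Or.inr (Or.inr ⟨rfl, rfl⟩))))

/-- a wall of height between `a` and `b` and width at most `c`, and a block -/
private theorem QG4_wb {n : ℕ} (hn : 1 ≤ n) {A B T : ℝ} (hA : -10 * n ≤ A) (hB : B ≤ 10 * n)
    (hT : -sg n ≤ T ∧ T ≤ sg n) (j : Fin 6) : QG4_Sep ⟨A, B, -th n, T⟩ (block n j) := by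
  have h1 : (1 : ℝ) ≤ n := by exact_mod_cast hn
  have ht := QG4_th hn
  have ht3 := ht.2.2.1
  have ht4 := ht.2.2.2
  rcases QG4_blk n j with ⟨-, e⟩ | ⟨-, e⟩ | ⟨-, e⟩ | ⟨-, e⟩ | ⟨-, e⟩ | ⟨-, e⟩ <;> rw [e] <;>
    unfold QG4_Sep <;> dsimp only <;>
    first
      | exact Or.inl (by linarith)
      | exact Or.inr (Or.inl (by linarith))
      | exact Or.inr (Or.inr (Or.inl (by linarith)))
      | exact Or.inr (Or.inr (Or.inr (by linarith)))

private theorem QG4_wb2 {n : ℕ} (hn : 1 ≤ n) {A B L : ℝ} (hL : 1 - sg n ≤ L ∧ L ≤ 1 + sg n)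
    (j : Fin 6) : QG4_Sep ⟨A, B, L, 1 + th n⟩ (block n j) := by
  have h1 : (1 : ℝ) ≤ n := by exact_mod_cast hn
  have ht := QG4_th hn
  have ht3 := ht.2.2.1
  have ht4 := ht.2.2.2
  rcases QG4_blk n j with ⟨-, e⟩ | ⟨-, e⟩ | ⟨-, e⟩ | ⟨-, e⟩ | ⟨-, e⟩ | ⟨-, e⟩ <;> rw [e] <;>
    unfold QG4_Sep <;> dsimp only <;>
    first
      | exact Or.inl (by linarith)
      | exact Or.inr (Or.inl (by linarith))
      | exact Or.inr (Or.inr (Or.inl (by linarith)))
      | exact Or.inr (Or.inr (Or.inr (by linarith)))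

private theorem QG4_wb3 {n : ℕ} (hn : 1 ≤ n) {A B T : ℝ} (hA : -20 * n ≤ A) (hB : B ≤ 20 * n)
    (hT : 2 - sg n ≤ T ∧ T ≤ 2 + sg n) (j : Fin 6) : QG4_Sep ⟨A, B, 2 - th n, T⟩ (block n j) := by
  have h1 : (1 : ℝ) ≤ n := by exact_mod_cast hn
  have ht := QG4_th hn
  have ht3 := ht.2.2.1
  have ht4 := ht.2.2.2
  rcases QG4_blk n j with ⟨-, e⟩ | ⟨-, e⟩ | ⟨-, e⟩ | ⟨-, e⟩ | ⟨-, e⟩ | ⟨-, e⟩ <;> rw [e] <;>
    unfold QG4_Sep <;> dsimp only <;>
    first
      | exact Or.inl (by linarith)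
      | exact Or.inr (Or.inl (by linarith))
      | exact Or.inr (Or.inr (Or.inl (by linarith)))
      | exact Or.inr (Or.inr (Or.inr (by linarith)))

private theorem QG4_bb {n : ℕ} (hn : 1 ≤ n) {i j : Fin 6} (hij : i ≠ j) :
    QG4_Sep (block n i) (block n j) := by
  have h1 : (1 : ℝ) ≤ n := by exact_mod_cast hn
  have ht := QG4_th hn
  have ht3 := ht.2.2.1
  have ht4 := ht.2.2.2
  rcases QG4_blk n i with ⟨di, e⟩ | ⟨di, e⟩ | ⟨di, e⟩ | ⟨di, e⟩ | ⟨di, e⟩ | ⟨di, e⟩ <;>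
  rcases QG4_blk n j with ⟨dj, e'⟩ | ⟨dj, e'⟩ | ⟨dj, e'⟩ | ⟨dj, e'⟩ | ⟨dj, e'⟩ | ⟨dj, e'⟩ <;>
    rw [e, e'] <;> unfold QG4_Sep <;> dsimp only <;>
    first
      | exact absurd (di.trans dj.symm) hij
      | exact Or.inl (by linarith)
      | exact Or.inr (Or.inl (by linarith))
      | exact Or.inr (Or.inr (Or.inl (by linarith)))
      | exact Or.inr (Or.inr (Or.inr (by linarith)))

/-- the top of everything except the dummies -/
private theorem QG4_top {n : ℕ} (hn : 1 ≤ n) (j : Fin 6) : (block n j).y1 ≤ 7 ∧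
    (block n j).x0 < (block n j).x1 ∧ (block n j).y0 < (block n j).y1 := by
  have h1 : (1 : ℝ) ≤ n := by exact_mod_cast hn
  have ht := QG4_th hn
  have ht3 := ht.2.2.1
  have ht4 := ht.2.2.2
  rcases QG4_blk n j with ⟨-, e⟩ | ⟨-, e⟩ | ⟨-, e⟩ | ⟨-, e⟩ | ⟨-, e⟩ | ⟨-, e⟩ <;> rw [e] <;>
    dsimp only <;> refine ⟨?_, ?_, ?_⟩ <;> linarith

private theorem QG4_sep {n r : ℕ} (hn : 1 ≤ n) {P : Par} (hP : Near n P) {v v' : Idx n r}
    (hv : v ≠ v') : QG4_Sep (rect n r P v) (rect n r P v') := by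
  have h1 : (1 : ℝ) ≤ n := by exact_mod_cast hn
  have ht := QG4_th hn
  have ht3 := ht.2.2.1
  have ht4 := ht.2.2.2
  have hdum : ∀ (R : Rect) (j : Fin r), R.y1 ≤ 7 →
      QG4_Sep R ⟨0, 1, 100 + 2 * ((j : ℕ) : ℝ), 101 + 2 * ((j : ℕ) : ℝ)⟩ := by
    intro R j hR
    have h0 : (0 : ℝ) ≤ ((j : ℕ) : ℝ) := Nat.cast_nonneg _
    exact Or.inr (Or.inr (Or.inl (by dsimp only; linarith)))
  rcases v with q | q | q | j | j
  · have hq := QG4_w1 hn hP (Nat.le_of_lt_succ q.2)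
    have hT := QG4_T1 hn hP (Nat.le_of_lt_succ q.2)
    rcases v' with q' | q' | q' | j' | j'
    · have hne : (q : ℕ) ≠ q' := fun h => hv (by rw [Fin.ext h])
      rcases lt_or_gt_of_ne hne with h | h
      · exact Or.inl (QG4_g1 hP h (Nat.le_of_lt_succ q'.2))
      · exact Or.inr (Or.inl (QG4_g1 hP h (Nat.le_of_lt_succ q.2)))
    · have hT' := QG4_L2 hn hP q'.2
      exact Or.inr (Or.inr (Or.inl (by change T1 P q < L2 n P q'; linarith)))
    · exact Or.inr (Or.inr (Or.inl (by change T1 P q < 2 - th n; linarith)))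
    · exact QG4_wb hn hq.1 hq.2.2 hT j'
    · exact hdum _ j' (by change T1 P q ≤ 7; linarith)
  · have hT := QG4_L2 hn hP q.2
    rcases v' with q' | q' | q' | j' | j'
    · have hT' := QG4_T1 hn hP (Nat.le_of_lt_succ q'.2)
      exact Or.inr (Or.inr (Or.inr (by change T1 P q' < L2 n P q; linarith)))
    · have hne : (q : ℕ) ≠ q' := fun h => hv (by rw [Fin.ext h])
      rcases lt_or_gt_of_ne hne with h | h
      · exact Or.inl (QG4_g2 hP h q'.2)
      · exact Or.inr (Or.inl (QG4_g2 hP h q.2))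
    · exact Or.inr (Or.inr (Or.inl (by change 1 + th n < 2 - th n; linarith)))
    · exact QG4_wb2 hn hT j'
    · exact hdum _ j' (by change 1 + th n ≤ 7; linarith)
  · have hq := QG4_w3 hn hP (Nat.le_of_lt_succ q.2)
    have hT := QG4_T3 hn hP (Nat.le_of_lt_succ q.2)
    rcases v' with q' | q' | q' | j' | j'
    · have hT' := QG4_T1 hn hP (Nat.le_of_lt_succ q'.2)
      exact Or.inr (Or.inr (Or.inr (by change T1 P q' < 2 - th n; linarith)))
    · exact Or.inr (Or.inr (Or.inr (by change 1 + th n < 2 - th n; linarith)))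
    · have hne : (q : ℕ) ≠ q' := fun h => hv (by rw [Fin.ext h])
      rcases lt_or_gt_of_ne hne with h | h
      · exact Or.inl (QG4_g3 hP h (Nat.le_of_lt_succ q'.2))
      · exact Or.inr (Or.inl (QG4_g3 hP h (Nat.le_of_lt_succ q.2)))
    · exact QG4_wb3 hn hq.1 hq.2.2 hT j'
    · exact hdum _ j' (by change T3 n P q ≤ 7; linarith)
  · rcases v' with q' | q' | q' | j' | j'
    · have hq := QG4_w1 hn hP (Nat.le_of_lt_succ q'.2)
      have hT := QG4_T1 hn hP (Nat.le_of_lt_succ q'.2)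
      exact QG4_symm (QG4_wb hn hq.1 hq.2.2 hT j)
    · exact QG4_symm (QG4_wb2 hn (QG4_L2 hn hP q'.2) j)
    · have hq := QG4_w3 hn hP (Nat.le_of_lt_succ q'.2)
      have hT := QG4_T3 hn hP (Nat.le_of_lt_succ q'.2)
      exact QG4_symm (QG4_wb3 hn hq.1 hq.2.2 hT j)
    · exact QG4_bb hn (fun h => hv (by rw [h]))
    · exact hdum _ j' (QG4_top hn j).1
  · rcases v' with q' | q' | q' | j' | j'
    · have hT := QG4_T1 hn hP (Nat.le_of_lt_succ q'.2)
      exact QG4_symm (hdum _ j (by change T1 P q' ≤ 7; linarith))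
    · exact QG4_symm (hdum _ j (by change 1 + th n ≤ 7; linarith))
    · have hT := QG4_T3 hn hP (Nat.le_of_lt_succ q'.2)
      exact QG4_symm (hdum _ j (by change T3 n P q' ≤ 7; linarith))
    · exact QG4_symm (hdum _ j (QG4_top hn j').1)
    · have hne : (j : ℕ) ≠ j' := fun h => hv (by rw [Fin.ext h])
      rcases lt_or_gt_of_ne hne with h | h
      · have h2 : ((j : ℕ) : ℝ) + 1 ≤ ((j' : ℕ) : ℝ) := by exact_mod_cast h
        exact Or.inr (Or.inr (Or.inl (by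
          change 101 + 2 * ((j : ℕ) : ℝ) < 100 + 2 * ((j' : ℕ) : ℝ)
          linarith)))
      · have h2 : ((j' : ℕ) : ℝ) + 1 ≤ ((j : ℕ) : ℝ) := by exact_mod_cast h
        exact Or.inr (Or.inr (Or.inr (by
          change 101 + 2 * ((j' : ℕ) : ℝ) < 100 + 2 * ((j : ℕ) : ℝ)
          linarith)))

theorem valid {n r N : ℕ} (hn : 1 ≤ n) (e : Fin N ≃ Idx n r) (P : Par) (hP : Near n P) :
    (inst e P).Valid := by
  have h1 : (1 : ℝ) ≤ n := by exact_mod_cast hn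
  have ht := QG4_th hn
  have ht3 := ht.2.2.1
  have ht4 := ht.2.2.2
  refine ⟨fun i => ?_, fun i j hij => ?_, fun i => ?_, fun i => ?_⟩
  · change (rect n r P (e i)).x0 < (rect n r P (e i)).x1 ∧
      (rect n r P (e i)).y0 < (rect n r P (e i)).y1
    generalize e i = v
    rcases v with q | q | q | j | j
    · have hT := QG4_T1 hn hP (Nat.le_of_lt_succ q.2)
      exact ⟨(QG4_w1 hn hP (Nat.le_of_lt_succ q.2)).2.1, by change -th n < T1 P q; linarith⟩
    · have hT := QG4_L2 hn hP q.2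
      exact ⟨QG4_w2 hn hP q.2, by change L2 n P q < 1 + th n; linarith⟩
    · have hT := QG4_T3 hn hP (Nat.le_of_lt_succ q.2)
      exact ⟨(QG4_w3 hn hP (Nat.le_of_lt_succ q.2)).2.1, by change 2 - th n < T3 n P q; linarith⟩
    · exact (QG4_top hn j).2
    · exact ⟨by change (0 : ℝ) < 1; norm_num,
        by change 100 + 2 * ((j : ℕ) : ℝ) < 101 + 2 * ((j : ℕ) : ℝ); linarith⟩
  · exact QG4_disj (QG4_sep hn hP (e.injective.ne hij))
  · change (-5 * (n : ℝ), -th n) ∉ (rect n r P (e i)).inner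
    generalize e i = v
    rintro ⟨b1, b2, b3, b4⟩
    rcases v with q | q | q | j | j
    · change -th n < -th n at b3
      exact lt_irrefl _ b3
    · have hT := QG4_L2 hn hP q.2
      change L2 n P q < -th n at b3
      linarith
    · change 2 - th n < -th n at b3
      linarith
    · change (block n j).x0 < -5 * (n : ℝ) at b1
      change -5 * (n : ℝ) < (block n j).x1 at b2
      change (block n j).y0 < -th n at b3
      change -th n < (block n j).y1 at b4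
      rcases QG4_blk n j with ⟨-, e⟩ | ⟨-, e⟩ | ⟨-, e⟩ | ⟨-, e⟩ | ⟨-, e⟩ | ⟨-, e⟩ <;>
        rw [e] at b1 b2 b3 b4 <;> dsimp only at b1 b2 b3 b4 <;> linarith
    · change 100 + 2 * ((j : ℕ) : ℝ) < -th n at b3
      have h0 : (0 : ℝ) ≤ ((j : ℕ) : ℝ) := Nat.cast_nonneg _
      linarith
  · change (-5 * (n : ℝ), 2 + sg n) ∉ (rect n r P (e i)).inner
    generalize e i = v
    rintro ⟨b1, b2, b3, b4⟩
    rcases v with q | q | q | j | j
    · have hT := QG4_T1 hn hP (Nat.le_of_lt_succ q.2)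
      change 2 + sg n < T1 P q at b4
      linarith
    · change 2 + sg n < 1 + th n at b4
      linarith
    · have hT := QG4_T3 hn hP (Nat.le_of_lt_succ q.2)
      change 2 + sg n < T3 n P q at b4
      linarith
    · change (block n j).x0 < -5 * (n : ℝ) at b1
      change -5 * (n : ℝ) < (block n j).x1 at b2
      change (block n j).y0 < 2 + sg n at b3
      change 2 + sg n < (block n j).y1 at b4
      rcases QG4_blk n j with ⟨-, e⟩ | ⟨-, e⟩ | ⟨-, e⟩ | ⟨-, e⟩ | ⟨-, e⟩ | ⟨-, e⟩ <;>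
        rw [e] at b1 b2 b3 b4 <;> dsimp only at b1 b2 b3 b4 <;> linarith
    · change 100 + 2 * ((j : ℕ) : ℝ) < 2 + sg n at b3
      have h0 : (0 : ℝ) ≤ ((j : ℕ) : ℝ) := Nat.cast_nonneg _
      linarith

end Pool.LibML82.Q
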