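import Pool.Agent.LibML82.QFam

/-!
# Row QG5: the paths with three and with four links

Near copy of `G5.lean`. `path3`: with `X = P (.x i)`, `Z = P (.z k)`, `D = slo X Z` (`n ≤ D ≤ 3 n`, because
`Z.1 - X.1` is between `2n + 1.8` and `6n - 1.8` and `Z.2 - X.2` is within `2 sg n` of `2`), the middle link is
on the line `x(y) = X.1 + D (y - X.2)`; `x(Z.2) = Z.1`. First link: heights in `[-th n - 1/2, -th n]`; last link:
heights in `[2 + sg n, 5/2]`: no obstacle has interior points there with `|x| ≤ 10 n`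
(all pieces of wall 3 have top `≤ 2 + sg n`). Middle link: for a point `(x, y)` of the line,
* `-th n < y < sg n`: `2 i - 1/4 ≤ x ≤ 2 i + 1`, and if `y < X.2` then `x ≤ X.1`: so it is in no piece of wall 1
  (pieces `q ≤ i` are left of `2i - 1/4`, the piece `i + 1` is `x ≥ X.1`, `y ≤ X.2`, the pieces `q > i + 1`
  are right of `2 i + 2 - 1/16`);
* `1 - sg n < y < 1 + th n`: `2n + i + k - 3/4 ≤ x ≤ 2n + i + k + 1/4`, and if `y > (P (.y (i+k))).2` then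
  `x ≥ (P (.y (i+k))).1` (from `Pass`: the line is right of the corner at its height, and `D > 0`): no piece
  of wall 2 (pieces `q > i + k` are right of `2n + i + k + 1/4`, pieces `q < i + k` are left of
  `2n + i + k - 1 + 1/16`, the piece `i + k` is `x ≤ (P (.y (i+k))).1`, `y ≥ (P (.y (i+k))).2`);
* `2 - th n < y < 2 + sg n`: `4n + 2k - 1/4 ≤ x ≤ 4n + 2k + 1`, and if `y < Z.2` then `x ≤ Z.1`: no piece of
  wall 3. (`n * th n = 1/100`, `n * sg n = 1/1000`.)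
`path4`: the four links of the old `path4`; second link `x(y) = -1/10 + (2n + 1/5) y`, `y ∈ [-th n - 1/2, 3/2]`,
passes gap `0` of wall 1 (`x ≤ -1/10 + small < -1/16 ≤ (P (.x 0)).1`) and gap `0` of wall 2
(`x(1 - sg n) ≥ 2n + 1/10 - small ≥ 2n + 1/16`); third link `x(y) = 11/10 + (2n - 3/5) y`, `y ∈ [3/2, 5/2]`,
passes gap `0` of wall 3 (`x(2 + sg n) ≤ 4n - 1/10 + small ≤ 4n - 1/16`, `x(2 - th n) ≥ 4n - 1/10 - 2/100 ≥ 4n - 1/4`).
-/

namespace Pool.LibML82.Q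

private theorem QG5_th {n : ℕ} (hn : 1 ≤ n) :
    (1 : ℝ) ≤ n ∧ 0 < th n ∧ th n ≤ 1 / 100 ∧ (n : ℝ) * th n = 1 / 100 ∧
      0 < sg n ∧ sg n ≤ 1 / 1000 ∧ (n : ℝ) * sg n = 1 / 1000 := by
  have h : (1 : ℝ) ≤ n := by exact_mod_cast hn
  have h0 : (0 : ℝ) < n := by linarith
  unfold th sg
  refine ⟨h, by positivity, ?_, by field_simp, by positivity, ?_, by field_simp⟩
  · rw [div_le_div_iff₀ (by positivity) (by norm_num)]
    linarith
  · rw [div_le_div_iff₀ (by positivity) (by norm_num)]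
    linarith

private theorem QG5_T1 {n : ℕ} (hn : 1 ≤ n) (P : Par) (hP : Near n P) (q : ℕ) (hq : q < n + 1) :
    T1 P q ≤ sg n := by
  obtain ⟨n1, t0, t1, t2, s0, s1, s2⟩ := QG5_th hn
  rw [T1]
  split_ifs with h
  · exact s0.le
  · exact (abs_le.1 (hP.1 (q - 1) (by omega)).2).2

private theorem QG5_L2 {n : ℕ} (hn : 1 ≤ n) (P : Par) (hP : Near n P) (q : ℕ) (hq : q < 2 * n) :
    1 - sg n ≤ L2 n P q := by
  obtain ⟨n1, t0, t1, t2, s0, s1, s2⟩ := QG5_th hn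
  rw [L2]
  split_ifs with h
  · linarith
  · have := (abs_le.1 (hP.2.1 q (by omega)).2).1
    linarith

private theorem QG5_T3 {n : ℕ} (P : Par) (hP : Near n P) (q : ℕ) (hq : q < n + 1) :
    T3 n P q ≤ 2 + sg n := by
  rw [T3]
  split_ifs with h
  · exact le_refl _
  · have := (abs_le.1 (hP.2.2 (q - 1) (by omega)).2).2
    linarith

private theorem QG5_low {n r : ℕ} (hn : 1 ≤ n) (P : Par) (hP : Near n P) (p : ℝ × ℝ)
    (h1 : -th n - 1 / 2 ≤ p.2)
    (h2 : p.2 ≤ -th n) (h3 : -10 * (n : ℝ) ≤ p.1) (h4 : p.1 ≤ 10 * (n : ℝ)) (v : Idx n r) :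
    p ∉ (rect n r P v).inner := by
  obtain ⟨n1, t0, t1, t2, s0, s1, s2⟩ := QG5_th hn
  rintro ⟨a, b, c, d⟩
  rcases v with q | q | q | j | j
  · have : -th n < p.2 := c
    linarith
  · have h5 : L2 n P q < p.2 := c
    have h6 := QG5_L2 hn P hP q q.2
    linarith
  · have : 2 - th n < p.2 := c
    linarith
  · fin_cases j
    · have : p.2 < -th n - 1 := d
      linarith
    · have : p.1 < -10 * (n : ℝ) - 1 := b
      linarith
    · have : 10 * (n : ℝ) + 1 < p.1 := a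
      linarith
    · have : 3 + sg n < p.2 := c
      linarith
    · have : (3 / 2 : ℝ) < p.2 := c
      linarith
    · have : (3 / 2 : ℝ) < p.2 := c
      linarith
  · have : 100 + 2 * ((j : ℕ) : ℝ) < p.2 := c
    have : (0 : ℝ) ≤ ((j : ℕ) : ℝ) := Nat.cast_nonneg _
    linarith

private theorem QG5_high {n r : ℕ} (hn : 1 ≤ n) (P : Par) (hP : Near n P) (p : ℝ × ℝ)
    (h1 : 2 + sg n ≤ p.2)
    (h2 : p.2 ≤ 5 / 2) (h3 : -10 * (n : ℝ) ≤ p.1) (h4 : p.1 ≤ 10 * (n : ℝ)) (v : Idx n r) :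
    p ∉ (rect n r P v).inner := by
  obtain ⟨n1, t0, t1, t2, s0, s1, s2⟩ := QG5_th hn
  rintro ⟨a, b, c, d⟩
  rcases v with q | q | q | j | j
  · have h5 : p.2 < T1 P q := d
    have h6 := QG5_T1 hn P hP q q.2
    linarith
  · have : p.2 < 1 + th n := d
    linarith
  · have h5 : p.2 < T3 n P q := d
    have h6 := QG5_T3 P hP q q.2
    linarith
  · fin_cases j
    · have : p.2 < -th n - 1 := d
      linarith
    · have : p.2 < 0 := d
      linarith
    · have : p.2 < 0 := d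
      linarith
    · have : 3 + sg n < p.2 := c
      linarith
    · have : p.1 < -20 * (n : ℝ) - 1 := b
      linarith
    · have : 20 * (n : ℝ) + 1 < p.1 := a
      linarith
  · have : 100 + 2 * ((j : ℕ) : ℝ) < p.2 := c
    have : (0 : ℝ) ≤ ((j : ℕ) : ℝ) := Nat.cast_nonneg _
    linarith

private theorem QG5_mid {n r : ℕ} (hn : 1 ≤ n) (P : Par) (hP : Near n P) (p : ℝ × ℝ)
    (h1 : -th n - 1 / 2 ≤ p.2) (h2 : p.2 ≤ 5 / 2) (h3 : -10 * (n : ℝ) ≤ p.1)
    (h4 : p.1 ≤ 10 * (n : ℝ))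
    (w1 : -th n < p.2 → p.2 < sg n → ∃ q : ℕ, q < n ∧ 2 * (q : ℝ) - 1 / 4 ≤ p.1 ∧
      p.1 ≤ 2 * (q : ℝ) + 1 ∧ (p.2 < (P (.x q)).2 → p.1 ≤ (P (.x q)).1))
    (w2 : 1 - sg n < p.2 → p.2 < 1 + th n → ∃ q : ℕ, q < 2 * n - 1 ∧
      2 * (n : ℝ) + q - 3 / 4 ≤ p.1 ∧ p.1 ≤ 2 * (n : ℝ) + q + 1 / 4 ∧
      ((P (.y q)).2 < p.2 → (P (.y q)).1 ≤ p.1))
    (w3 : 2 - th n < p.2 → p.2 < 2 + sg n → ∃ q : ℕ, q < n ∧
      4 * (n : ℝ) + 2 * q - 1 / 4 ≤ p.1 ∧ p.1 ≤ 4 * (n : ℝ) + 2 * q + 1 ∧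
      (p.2 < (P (.z q)).2 → p.1 ≤ (P (.z q)).1)) (v : Idx n r) :
    p ∉ (rect n r P v).inner := by
  obtain ⟨n1, t0, t1, t2, s0, s1, s2⟩ := QG5_th hn
  obtain ⟨N1, N2, N3⟩ := id hP
  rintro ⟨a, b, c, d⟩
  rcases v with q' | q' | q' | j | j
  · have c' : -th n < p.2 := c
    have d' : p.2 < T1 P q' := d
    have a' : A1 n P q' < p.1 := a
    have b' : p.1 < B1 n q' := b
    obtain ⟨q, hq, hl, hr, hx⟩ := w1 c' (lt_of_lt_of_le d' (QG5_T1 hn P hP q' q'.2))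
    rcases Nat.lt_or_ge q (q' : ℕ) with hlt | hge
    · have hq0 : (q' : ℕ) ≠ 0 := by omega
      rw [A1, if_neg hq0] at a'
      rw [T1, if_neg hq0] at d'
      rcases Nat.lt_or_ge q ((q' : ℕ) - 1) with hlt' | hge'
      · have e2 := abs_le.1 (N1 ((q' : ℕ) - 1) (by have := q'.2; omega)).1
        have e3 : ((q : ℕ) : ℝ) + 1 ≤ (((q' : ℕ) - 1 : ℕ) : ℝ) := by exact_mod_cast hlt'
        linarith [e2.1]
      · have : (q' : ℕ) - 1 = q := by omega
        rw [this] at a' d'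
        have := hx d'
        linarith
    · have hqn : (q' : ℕ) ≠ n := by omega
      rw [B1, if_neg hqn] at b'
      have e3 : ((q' : ℕ) : ℝ) ≤ (q : ℝ) := by exact_mod_cast hge
      linarith
  · have c' : L2 n P q' < p.2 := c
    have d' : p.2 < 1 + th n := d
    have a' : A2 n q' < p.1 := a
    have b' : p.1 < B2 n P q' := b
    obtain ⟨q, hq, hl, hr, hx⟩ := w2 (lt_of_le_of_lt (QG5_L2 hn P hP q' q'.2) c') d'
    rcases Nat.lt_or_ge q (q' : ℕ) with hlt | hge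
    · have hq0 : (q' : ℕ) ≠ 0 := by omega
      rw [A2, if_neg hq0] at a'
      have e3 : (q : ℝ) + 1 ≤ ((q' : ℕ) : ℝ) := by exact_mod_cast hlt
      linarith
    · have hqn : (q' : ℕ) ≠ 2 * n - 1 := by omega
      rw [B2, if_neg hqn] at b'
      rw [L2, if_neg hqn] at c'
      rcases Nat.lt_or_ge (q' : ℕ) q with hlt' | hge'
      · have e2 := abs_le.1 (N2 (q' : ℕ) (by omega)).1
        have e3 : ((q' : ℕ) : ℝ) + 1 ≤ (q : ℝ) := by exact_mod_cast hlt'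
        linarith [e2.2]
      · have : (q' : ℕ) = q := by omega
        rw [this] at b' c'
        have := hx c'
        linarith
  · have c' : 2 - th n < p.2 := c
    have d' : p.2 < T3 n P q' := d
    have a' : A3 n P q' < p.1 := a
    have b' : p.1 < B3 n q' := b
    obtain ⟨q, hq, hl, hr, hx⟩ := w3 c' (lt_of_lt_of_le d' (QG5_T3 P hP q' q'.2))
    rcases Nat.lt_or_ge q (q' : ℕ) with hlt | hge
    · have hq0 : (q' : ℕ) ≠ 0 := by omega
      rw [A3, if_neg hq0] at a'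
      rw [T3, if_neg hq0] at d'
      rcases Nat.lt_or_ge q ((q' : ℕ) - 1) with hlt' | hge'
      · have e2 := abs_le.1 (N3 ((q' : ℕ) - 1) (by have := q'.2; omega)).1
        have e3 : ((q : ℕ) : ℝ) + 1 ≤ (((q' : ℕ) - 1 : ℕ) : ℝ) := by exact_mod_cast hlt'
        linarith [e2.1]
      · have : (q' : ℕ) - 1 = q := by omega
        rw [this] at a' d'
        have := hx d'
        linarith
    · have hqn : (q' : ℕ) ≠ n := by omega
      rw [B3, if_neg hqn] at b'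
      have e3 : ((q' : ℕ) : ℝ) ≤ (q : ℝ) := by exact_mod_cast hge
      linarith
  · fin_cases j
    · have : p.2 < -th n - 1 := d
      linarith
    · have : p.1 < -10 * (n : ℝ) - 1 := b
      linarith
    · have : 10 * (n : ℝ) + 1 < p.1 := a
      linarith
    · have : 3 + sg n < p.2 := c
      linarith
    · have : p.1 < -20 * (n : ℝ) - 1 := b
      linarith
    · have : 20 * (n : ℝ) + 1 < p.1 := a
      linarith
  · have : 100 + 2 * ((j : ℕ) : ℝ) < p.2 := c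
    have : (0 : ℝ) ≤ ((j : ℕ) : ℝ) := Nat.cast_nonneg _
    linarith

private theorem QG5_seg {n r N : ℕ} (e : Fin N ≃ Idx n r) (P : Par) (a b : ℝ × ℝ)
    (H : ∀ u v : ℝ, 0 ≤ u → 0 ≤ v → u + v = 1 → ∀ w : Idx n r,
      (u * a.1 + v * b.1, u * a.2 + v * b.2) ∉ (rect n r P w).inner) :
    segment ℝ a b ⊆ (inst e P).free := by
  rintro p ⟨u, v, hu, hv, huv, rfl⟩
  intro i
  exact H u v hu hv huv (e i)

private theorem QG5_cvl {u v x y c : ℝ} (hu : 0 ≤ u) (hv : 0 ≤ v) (huv : u + v = 1) (hx : c ≤ x)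
    (hy : c ≤ y) : c ≤ u * x + v * y := by
  calc c = u * c + v * c := by rw [← add_mul, huv, one_mul]
    _ ≤ u * x + v * y :=
      add_le_add (mul_le_mul_of_nonneg_left hx hu) (mul_le_mul_of_nonneg_left hy hv)

private theorem QG5_cvr {u v x y c : ℝ} (hu : 0 ≤ u) (hv : 0 ≤ v) (huv : u + v = 1) (hx : x ≤ c)
    (hy : y ≤ c) : u * x + v * y ≤ c := by
  calc u * x + v * y ≤ u * c + v * c :=
      add_le_add (mul_le_mul_of_nonneg_left hx hu) (mul_le_mul_of_nonneg_left hy hv)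
    _ = c := by rw [← add_mul, huv, one_mul]

private theorem QG5_seg_low {n r N : ℕ} (hn : 1 ≤ n) (e : Fin N ≃ Idx n r) (P : Par)
    (hP : Near n P) (a b : ℝ × ℝ)
    (a1 : -th n - 1 / 2 ≤ a.2) (a2 : a.2 ≤ -th n) (a3 : -10 * (n : ℝ) ≤ a.1)
    (a4 : a.1 ≤ 10 * (n : ℝ)) (b1 : -th n - 1 / 2 ≤ b.2) (b2 : b.2 ≤ -th n)
    (b3 : -10 * (n : ℝ) ≤ b.1) (b4 : b.1 ≤ 10 * (n : ℝ)) :
    segment ℝ a b ⊆ (inst e P).free := by
  refine QG5_seg e P a b fun u v hu hv huv w => QG5_low hn P hP _ ?_ ?_ ?_ ?_ w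
  · show -th n - 1 / 2 ≤ u * a.2 + v * b.2
    exact QG5_cvl hu hv huv a1 b1
  · show u * a.2 + v * b.2 ≤ -th n
    exact QG5_cvr hu hv huv a2 b2
  · show -10 * (n : ℝ) ≤ u * a.1 + v * b.1
    exact QG5_cvl hu hv huv a3 b3
  · show u * a.1 + v * b.1 ≤ 10 * (n : ℝ)
    exact QG5_cvr hu hv huv a4 b4

private theorem QG5_seg_high {n r N : ℕ} (hn : 1 ≤ n) (e : Fin N ≃ Idx n r) (P : Par)
    (hP : Near n P) (a b : ℝ × ℝ) (a1 : 2 + sg n ≤ a.2) (a2 : a.2 ≤ 5 / 2)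
    (a3 : -10 * (n : ℝ) ≤ a.1)
    (a4 : a.1 ≤ 10 * (n : ℝ)) (b1 : 2 + sg n ≤ b.2) (b2 : b.2 ≤ 5 / 2)
    (b3 : -10 * (n : ℝ) ≤ b.1) (b4 : b.1 ≤ 10 * (n : ℝ)) :
    segment ℝ a b ⊆ (inst e P).free := by
  refine QG5_seg e P a b fun u v hu hv huv w => QG5_high hn P hP _ ?_ ?_ ?_ ?_ w
  · show 2 + sg n ≤ u * a.2 + v * b.2
    exact QG5_cvl hu hv huv a1 b1
  · show u * a.2 + v * b.2 ≤ 5 / 2
    exact QG5_cvr hu hv huv a2 b2
  · show -10 * (n : ℝ) ≤ u * a.1 + v * b.1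
    exact QG5_cvl hu hv huv a3 b3
  · show u * a.1 + v * b.1 ≤ 10 * (n : ℝ)
    exact QG5_cvr hu hv huv a4 b4

/-- a piece of the line `x(y) = c + d y` -/
private theorem QG5_line {n r N : ℕ} (hn : 1 ≤ n) (e : Fin N ≃ Idx n r) (P : Par) (hP : Near n P)
    (c d y0 y1 : ℝ) (hy : y0 ≤ y1) (h0 : -th n - 1 / 2 ≤ y0) (h1 : y1 ≤ 5 / 2)
    (H : ∀ y, y0 ≤ y → y ≤ y1 → -10 * (n : ℝ) ≤ c + d * y ∧ c + d * y ≤ 10 * (n : ℝ) ∧
      (-th n < y → y < sg n → ∃ q : ℕ, q < n ∧ 2 * (q : ℝ) - 1 / 4 ≤ c + d * y ∧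
        c + d * y ≤ 2 * (q : ℝ) + 1 ∧ (y < (P (.x q)).2 → c + d * y ≤ (P (.x q)).1)) ∧
      (1 - sg n < y → y < 1 + th n → ∃ q : ℕ, q < 2 * n - 1 ∧
        2 * (n : ℝ) + q - 3 / 4 ≤ c + d * y ∧ c + d * y ≤ 2 * (n : ℝ) + q + 1 / 4 ∧
        ((P (.y q)).2 < y → (P (.y q)).1 ≤ c + d * y)) ∧
      (2 - th n < y → y < 2 + sg n → ∃ q : ℕ, q < n ∧
        4 * (n : ℝ) + 2 * q - 1 / 4 ≤ c + d * y ∧ c + d * y ≤ 4 * (n : ℝ) + 2 * q + 1 ∧
        (y < (P (.z q)).2 → c + d * y ≤ (P (.z q)).1))) :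
    segment ℝ (c + d * y0, y0) (c + d * y1, y1) ⊆ (inst e P).free := by
  refine QG5_seg e P _ _ fun u v hu hv huv w => ?_
  have hu' : u = 1 - v := by linarith
  have e1 : u * (c + d * y0, y0).1 + v * (c + d * y1, y1).1 = c + d * (u * y0 + v * y1) := by
    show u * (c + d * y0) + v * (c + d * y1) = c + d * (u * y0 + v * y1)
    rw [hu']
    ring
  have e2 : u * (c + d * y0, y0).2 + v * (c + d * y1, y1).2 = u * y0 + v * y1 := rfl
  rw [e1, e2]
  have b0 : y0 ≤ u * y0 + v * y1 := by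
    rw [hu']
    nlinarith [mul_nonneg hv (sub_nonneg.2 hy)]
  have b1 : u * y0 + v * y1 ≤ y1 := by
    have : v = 1 - u := by linarith
    rw [this]
    nlinarith [mul_nonneg hu (sub_nonneg.2 hy)]
  obtain ⟨H1, H2, H3, H4, H5⟩ := H _ b0 b1
  exact QG5_mid hn P hP _ (h0.trans b0) (b1.trans h1) H1 H2 H3 H4 H5 w

theorem path3_ok {n r N : ℕ} (hn : 1 ≤ n) (e : Fin N ≃ Idx n r) (P : Par) (hP : Near n P)
    (i k : ℕ) (hi : i < n) (hk : k < n) (h : Pass P i k) :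
    (inst e P).IsPath 3 (path3 n (P (.x i)) (P (.z k))) := by
  obtain ⟨n1, t0, t1, t2, s0, s1, s2⟩ := QG5_th hn
  have hi1 : (i : ℝ) + 1 ≤ n := by exact_mod_cast hi
  have hk1 : (k : ℝ) + 1 ≤ n := by exact_mod_cast hk
  have hi0 : (0 : ℝ) ≤ i := Nat.cast_nonneg _
  have hk0 : (0 : ℝ) ≤ k := Nat.cast_nonneg _
  have ex := abs_le.1 (hP.1 i hi).1
  have ez := abs_le.1 (hP.2.2 k hk).1
  have ex2 := abs_le.1 (hP.1 i hi).2
  have ez2 := abs_le.1 (hP.2.2 k hk).2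
  obtain ⟨X, hX⟩ : ∃ X, X = P (.x i) := ⟨_, rfl⟩
  obtain ⟨Z, hZ⟩ : ∃ Z, Z = P (.z k) := ⟨_, rfl⟩
  rw [← hX] at ex ex2
  rw [← hZ] at ez ez2
  rw [← hX, ← hZ]
  obtain ⟨D, hD⟩ : ∃ D : ℝ, D = slo X Z := ⟨_, rfl⟩
  have hH : 0 < Z.2 - X.2 := by linarith [ez2.1, ex2.2]
  have hDH : D * (Z.2 - X.2) = Z.1 - X.1 := by
    rw [hD, slo, div_mul_cancel₀ _ hH.ne']
  have D1 : (n : ℝ) ≤ D := by
    rw [hD, slo, le_div_iff₀ hH]
    have h1 : (n : ℝ) * (Z.2 - X.2) ≤ n * (2 + 2 * sg n) :=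
      mul_le_mul_of_nonneg_left (by linarith [ez2.2, ex2.1]) (by linarith)
    nlinarith [ex.2, ez.1]
  have D2 : D ≤ 3 * n := by
    rw [hD, slo, div_le_iff₀ hH]
    have h1 : 3 * (n : ℝ) * (2 - 2 * sg n) ≤ 3 * n * (Z.2 - X.2) :=
      mul_le_mul_of_nonneg_left (by linarith [ez2.1, ex2.2]) (by linarith)
    nlinarith [ex.1, ez.2]
  have D0 : 0 ≤ D := by linarith
  have D3 : D * th n ≤ 3 / 100 := by nlinarith [mul_le_mul_of_nonneg_right D2 t0.le]
  have D4 : 0 ≤ D * th n := mul_nonneg D0 t0.le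
  have D5 : D * sg n ≤ 3 / 1000 := by nlinarith [mul_le_mul_of_nonneg_right D2 s0.le]
  have D6 : 0 ≤ D * sg n := mul_nonneg D0 s0.le
  have D7 : D * X.2 ≤ 3 / 1000 :=
    (mul_le_mul_of_nonneg_left ex2.2 D0).trans D5
  have D8 : -(3 / 1000) ≤ D * X.2 := by
    have h1 := mul_le_mul_of_nonneg_left ex2.1 D0
    linarith
  have D9 : D * (Z.2 - 2) ≤ 3 / 1000 :=
    (mul_le_mul_of_nonneg_left ez2.2 D0).trans D5
  have D10 : -(3 / 1000) ≤ D * (Z.2 - 2) := by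
    have h1 := mul_le_mul_of_nonneg_left ez2.1 D0
    linarith
  obtain ⟨c, hc⟩ : ∃ c : ℝ, c = X.1 - D * X.2 := ⟨_, rfl⟩
  have hcX : ∀ y : ℝ, c + D * y = X.1 + D * (y - X.2) := by
    intro y
    rw [hc]
    ring
  have hcZ : ∀ y : ℝ, c + D * y = Z.1 + D * (y - Z.2) := by
    intro y
    rw [hc]
    linarith [hDH]
  have hc2 : 2 * (c + D) = X.1 + Z.1 - D * X.2 - D * (Z.2 - 2) := by
    rw [hc]
    linarith [hDH]
  refine ⟨rfl, rfl, fun j => ?_⟩
  have hp0 : path3 n X Z 0 = (-5 * (n : ℝ), -th n) := rfl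
  have hp1 : path3 n X Z 1 = (c + D * (-th n - 1 / 2), -th n - 1 / 2) := by
    rw [hcX, hD]
    rfl
  have hp2 : path3 n X Z 2 = (c + D * (5 / 2), 5 / 2) := by
    rw [hcX, hD]
    rfl
  have hp3 : path3 n X Z 3 = (-5 * (n : ℝ), 2 + sg n) := rfl
  fin_cases j
  · show segment ℝ (path3 n X Z 0) (path3 n X Z 1) ⊆ _
    rw [hp0, hp1]
    apply QG5_seg_low hn e P hP
    · show -th n - 1 / 2 ≤ -th n
      linarith
    · show -th n ≤ -th n
      exact le_refl _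
    · show -10 * (n : ℝ) ≤ -5 * (n : ℝ)
      linarith
    · show -5 * (n : ℝ) ≤ 10 * (n : ℝ)
      linarith
    · show -th n - 1 / 2 ≤ -th n - 1 / 2
      exact le_refl _
    · show -th n - 1 / 2 ≤ -th n
      linarith
    · show -10 * (n : ℝ) ≤ c + D * (-th n - 1 / 2)
      linarith [ex.1]
    · show c + D * (-th n - 1 / 2) ≤ 10 * (n : ℝ)
      linarith [ex.2]
  · show segment ℝ (path3 n X Z 1) (path3 n X Z 2) ⊆ _
    rw [hp1, hp2]
    refine QG5_line hn e P hP c D (-th n - 1 / 2) (5 / 2) (by linarith) (le_refl _)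
      (le_refl _) fun y hy0 hy1 => ⟨?_, ?_, ?_, ?_, ?_⟩
    · have : D * (-th n - 1 / 2) ≤ D * y := mul_le_mul_of_nonneg_left hy0 D0
      linarith [ex.1]
    · have : D * y ≤ D * (5 / 2) := mul_le_mul_of_nonneg_left hy1 D0
      linarith [ex.2]
    · intro ha hb
      have h1 : D * (-th n) ≤ D * y := mul_le_mul_of_nonneg_left ha.le D0
      have h2 : D * y ≤ D * sg n := mul_le_mul_of_nonneg_left hb.le D0
      refine ⟨i, hi, by linarith [ex.1], by linarith [ex.2], fun hy => ?_⟩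
      rw [← hX] at hy ⊢
      rw [hcX]
      have h3 : D * (y - X.2) ≤ 0 := mul_nonpos_of_nonneg_of_nonpos D0 (by linarith)
      linarith
    · intro ha hb
      have h1 : D * (1 - sg n) ≤ D * y := mul_le_mul_of_nonneg_left ha.le D0
      have h2 : D * y ≤ D * (1 + th n) := mul_le_mul_of_nonneg_left hb.le D0
      refine ⟨i + k, by omega, ?_, ?_, ?_⟩
      · push_cast
        linarith [ex.1, ez.1]
      · push_cast
        linarith [ex.2, ez.2]
      · intro hy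
        have h3 : (Z.2 - X.2) * (P (.y (i + k))).1 ≤ (Z.2 - (P (.y (i + k))).2) * X.1 +
            ((P (.y (i + k))).2 - X.2) * Z.1 := by
          rw [hX, hZ]
          exact h
        have h4 : (Z.2 - (P (.y (i + k))).2) * X.1 + ((P (.y (i + k))).2 - X.2) * Z.1 =
            (Z.2 - X.2) * (c + D * (P (.y (i + k))).2) := by
          have h5 : Z.1 = X.1 + D * (Z.2 - X.2) := by linarith
          rw [h5, hc]
          ring
        rw [h4] at h3
        have h5 := le_of_mul_le_mul_left h3 hH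
        have h6 : D * (P (.y (i + k))).2 ≤ D * y := mul_le_mul_of_nonneg_left hy.le D0
        linarith
    · intro ha hb
      have h1 : D * (2 - th n) ≤ D * y := mul_le_mul_of_nonneg_left ha.le D0
      have h2 : D * y ≤ D * (2 + sg n) := mul_le_mul_of_nonneg_left hb.le D0
      have h3 := hcZ y
      have h4 : D * (y - Z.2) = D * y - D * 2 - D * (Z.2 - 2) := by ring
      refine ⟨k, hk, by linarith [ez.1], by linarith [ez.2], fun hy => ?_⟩
      rw [← hZ] at hy ⊢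
      have h5 : D * (y - Z.2) ≤ 0 := mul_nonpos_of_nonneg_of_nonpos D0 (by linarith)
      linarith
  · show segment ℝ (path3 n X Z 2) (path3 n X Z 3) ⊆ _
    rw [hp2, hp3]
    apply QG5_seg_high hn e P hP
    · show 2 + sg n ≤ 5 / 2
      linarith
    · show (5 / 2 : ℝ) ≤ 5 / 2
      exact le_refl _
    · show -10 * (n : ℝ) ≤ c + D * (5 / 2)
      linarith [ex.1]
    · show c + D * (5 / 2) ≤ 10 * (n : ℝ)
      linarith [ex.2]
    · show 2 + sg n ≤ 2 + sg n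
      exact le_refl _
    · show 2 + sg n ≤ 5 / 2
      linarith
    · show -10 * (n : ℝ) ≤ -5 * (n : ℝ)
      linarith
    · show -5 * (n : ℝ) ≤ 10 * (n : ℝ)
      linarith

theorem path4_ok {n r N : ℕ} (hn : 1 ≤ n) (e : Fin N ≃ Idx n r) (P : Par) (hP : Near n P) :
    (inst e P).IsPath 4 (path4 n) := by
  obtain ⟨n1, t0, t1, t2, s0, s1, s2⟩ := QG5_th hn
  have ex := abs_le.1 (hP.1 0 (by omega)).1
  have ey := abs_le.1 (hP.2.1 0 (by omega)).1
  have ez := abs_le.1 (hP.2.2 0 (by omega)).1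
  rw [Nat.cast_zero] at ex ey ez
  refine ⟨rfl, rfl, fun j => ?_⟩
  have hp0 : path4 n 0 = (-5 * (n : ℝ), -th n) := rfl
  have hp1 : path4 n 1 =
      (-1 / 10 + (2 * (n : ℝ) + 1 / 5) * (-th n - 1 / 2), -th n - 1 / 2) := by
    show (-1 / 10 - (2 * (n : ℝ) + 1 / 5) * (th n + 1 / 2), -th n - 1 / 2) = _
    congr 1
    ring
  have hp2 : path4 n 2 = (-1 / 10 + (2 * (n : ℝ) + 1 / 5) * (3 / 2), 3 / 2) := by
    show (3 * (n : ℝ) + 1 / 5, (3 / 2 : ℝ)) = _
    congr 1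
    ring
  have hp2' : path4 n 2 = ((11 / 10) + (2 * (n : ℝ) - 3 / 5) * (3 / 2), 3 / 2) := by
    show (3 * (n : ℝ) + 1 / 5, (3 / 2 : ℝ)) = _
    congr 1
    ring
  have hp3 : path4 n 3 = ((11 / 10) + (2 * (n : ℝ) - 3 / 5) * (5 / 2), 5 / 2) := by
    show (5 * (n : ℝ) - 2 / 5, (5 / 2 : ℝ)) = _
    congr 1
    ring
  have hp4 : path4 n 4 = (-5 * (n : ℝ), 2 + sg n) := rfl
  fin_cases j
  · show segment ℝ (path4 n 0) (path4 n 1) ⊆ _
    rw [hp0, hp1]
    apply QG5_seg_low hn e P hP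
    · show -th n - 1 / 2 ≤ -th n
      linarith
    · show -th n ≤ -th n
      exact le_refl _
    · show -10 * (n : ℝ) ≤ -5 * (n : ℝ)
      linarith
    · show -5 * (n : ℝ) ≤ 10 * (n : ℝ)
      linarith
    · show -th n - 1 / 2 ≤ -th n - 1 / 2
      exact le_refl _
    · show -th n - 1 / 2 ≤ -th n
      linarith
    · show -10 * (n : ℝ) ≤ -1 / 10 + (2 * (n : ℝ) + 1 / 5) * (-th n - 1 / 2)
      nlinarith
    · show -1 / 10 + (2 * (n : ℝ) + 1 / 5) * (-th n - 1 / 2) ≤ 10 * (n : ℝ)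
      nlinarith
  · show segment ℝ (path4 n 1) (path4 n 2) ⊆ _
    rw [hp1, hp2]
    have hd : 0 ≤ 2 * (n : ℝ) + 1 / 5 := by linarith
    refine QG5_line hn e P hP (-1 / 10) (2 * (n : ℝ) + 1 / 5) (-th n - 1 / 2) (3 / 2) (by linarith)
      (le_refl _) (by norm_num) fun y hy0 hy1 => ⟨?_, ?_, ?_, ?_, ?_⟩
    · have := mul_le_mul_of_nonneg_left hy0 hd
      nlinarith
    · have := mul_le_mul_of_nonneg_left hy1 hd
      nlinarith
    · intro ha hb
      have h1 := mul_le_mul_of_nonneg_left ha.le hd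
      have h2 := mul_le_mul_of_nonneg_left hb.le hd
      have h3 : (2 * (n : ℝ) + 1 / 5) * sg n ≤ 3 / 1000 := by nlinarith
      have h4 : (2 * (n : ℝ) + 1 / 5) * th n ≤ 3 / 100 := by nlinarith
      refine ⟨0, by omega, ?_, ?_, fun _ => ?_⟩
      · rw [Nat.cast_zero]
        linarith
      · rw [Nat.cast_zero]
        linarith
      · linarith [ex.1]
    · intro ha hb
      have h1 := mul_le_mul_of_nonneg_left ha.le hd
      have h2 := mul_le_mul_of_nonneg_left hb.le hd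
      have h3 : (2 * (n : ℝ) + 1 / 5) * sg n ≤ 3 / 1000 := by nlinarith
      have h4 : (2 * (n : ℝ) + 1 / 5) * th n ≤ 3 / 100 := by nlinarith
      refine ⟨0, by omega, ?_, ?_, fun _ => ?_⟩
      · rw [Nat.cast_zero]
        linarith
      · rw [Nat.cast_zero]
        linarith
      · linarith [ey.2]
    · intro ha hb
      exfalso
      linarith
  · show segment ℝ (path4 n 2) (path4 n 3) ⊆ _
    rw [hp2', hp3]
    have hd : 0 ≤ 2 * (n : ℝ) - 3 / 5 := by linarith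
    refine QG5_line hn e P hP (11 / 10) (2 * (n : ℝ) - 3 / 5) (3 / 2) (5 / 2)
      (by norm_num) (by linarith) (le_refl _) fun y hy0 hy1 => ⟨?_, ?_, ?_, ?_, ?_⟩
    · have := mul_le_mul_of_nonneg_left hy0 hd
      nlinarith
    · have := mul_le_mul_of_nonneg_left hy1 hd
      nlinarith
    · intro ha hb
      exfalso
      linarith
    · intro ha hb
      exfalso
      linarith
    · intro ha hb
      have h1 := mul_le_mul_of_nonneg_left ha.le hd
      have h2 := mul_le_mul_of_nonneg_left hb.le hd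
      have h3 : (2 * (n : ℝ) - 3 / 5) * sg n ≤ 3 / 1000 := by nlinarith
      have h4 : (2 * (n : ℝ) - 3 / 5) * th n ≤ 3 / 100 := by nlinarith
      refine ⟨0, by omega, ?_, ?_, fun _ => ?_⟩
      · rw [Nat.cast_zero]
        linarith
      · rw [Nat.cast_zero]
        linarith
      · linarith [ez.1]
  · show segment ℝ (path4 n 3) (path4 n 4) ⊆ _
    have hp3' : path4 n 3 = (5 * (n : ℝ) - 2 / 5, 5 / 2) := rfl
    rw [hp3', hp4]
    apply QG5_seg_high hn e P hP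
    · show 2 + sg n ≤ 5 / 2
      linarith
    · show (5 / 2 : ℝ) ≤ 5 / 2
      exact le_refl _
    · show -10 * (n : ℝ) ≤ 5 * (n : ℝ) - 2 / 5
      linarith
    · show 5 * (n : ℝ) - 2 / 5 ≤ 10 * (n : ℝ)
      linarith
    · show 2 + sg n ≤ 2 + sg n
      exact le_refl _
    · show 2 + sg n ≤ 5 / 2
      linarith
    · show -10 * (n : ℝ) ≤ -5 * (n : ℝ)
      linarith
    · show -5 * (n : ℝ) ≤ 10 * (n : ℝ)
      linarith

end Pool.LibML82.Q
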