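import Pool.Agent.LibML82.G3
import Pool.Agent.LibML82.QA1
import Pool.Agent.LibML82.QA2
import Pool.Agent.LibML82.QA5
import Pool.Agent.LibML82.QA6
import Pool.Agent.LibML82.QA7
import Pool.Agent.LibML82.QA8
import Pool.Agent.LibML82.QG3
import Pool.Agent.LibML82.QG4
import Pool.Agent.LibML82.QG5
import Pool.Agent.LibML82.QC2

/-!
# Exactly `n²` queries, even if a query looks at four obstacles
-/

open Filter Topology

namespace Pool.LibML82.Q

variable {n r N : ℕ}

theorem ev_zero (θ : Fin 9 → ℝ) (Q : Polynomial (MvPolynomial (Fin 9) ℝ)) :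
    ev θ 0 Q = MvPolynomial.eval θ (Q.coeff 0) := by
  simp only [ev, Polynomial.coe_eval₂RingHom]
  rw [Polynomial.eval₂_at_zero]

theorem fam_eq_of_ne (θ : Fin 9 → ℝ) (η : ℝ) (p : Lab → ℝ) (l : Lab) (h : l ≠ .st) :
    fam θ η p l = cor θ (η * p l) (lpt l) := by
  cases l with
  | st => exact absurd rfl h
  | x i => rfl
  | y m => rfl
  | z k => rfl

theorem fam_zero (θ : Fin 9 → ℝ) (p p' : Lab → ℝ) : fam θ 0 p = fam θ 0 p' := by
  funext l
  cases l with
  | st => rfl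
  | x i => simp only [fam, zero_mul]
  | y m => simp only [fam, zero_mul]
  | z k => simp only [fam, zero_mul]

/-- `Cond` is the matching condition. -/
theorem of_cond (i0 k0 : ℕ) (u0 u1 u2 ρ : ℝ) (l : Lab) (h : Cond i0 k0 u0 u1 u2 ρ l)
    (θ : Fin 9 → ℝ) (η : ℝ) :
    Pc i0 k0 θ η l = Pb (θ + η • sh u0 u1 u2) (ρ * η) l := by
  rcases h with h | h
  · rw [h]
    rfl
  · by_cases hst : l = .st
    · rw [hst]
      rfl
    · unfold Pc Pb
      rw [fam_eq_of_ne _ _ _ _ hst, fam_eq_of_ne _ _ _ _ hst]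
      have e0 : (θ + η • sh u0 u1 u2) 0 = θ 0 + η * u0 := rfl
      have e1 : (θ + η • sh u0 u1 u2) 1 = θ 1 + η * u1 := rfl
      have e2 : (θ + η • sh u0 u1 u2) 2 = θ 2 + η * u2 := rfl
      have e3 : (θ + η • sh u0 u1 u2) 3 = θ 3 := by
        show θ 3 + η * 0 = θ 3
        ring
      have e4 : (θ + η • sh u0 u1 u2) 4 = θ 4 := by
        show θ 4 + η * 0 = θ 4
        ring
      have e5 : (θ + η • sh u0 u1 u2) 5 = θ 5 := by
        show θ 5 + η * 0 = θ 5
        ring
      have e6 : (θ + η • sh u0 u1 u2) 6 = θ 6 := by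
        show θ 6 + η * 0 = θ 6
        ring
      have e7 : (θ + η • sh u0 u1 u2) 7 = θ 7 := by
        show θ 7 + η * 0 = θ 7
        ring
      have e8 : (θ + η • sh u0 u1 u2) 8 = θ 8 := by
        show θ 8 + η * 0 = θ 8
        ring
      unfold cor den
      rw [e0, e1, e2, e3, e4, e5, e6, e7, e8]
      congr 2
      linear_combination η * (-h)

theorem continuous_fam_eval (F : MvPolynomial (Fin 4 ⊕ Fin 4) ℝ) (l : Fin 4 → Lab) (p : Lab → ℝ)
    (θ : Fin 9 → ℝ) : Continuous fun η : ℝ => MvPolynomial.eval (vals (fam θ η p) l) F := by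
  have h1 : Continuous fun η : ℝ => vals (fam θ η p) l := by
    refine continuous_pi fun a => ?_
    have h2 : ∀ lb : Lab, Continuous fun η : ℝ => fam θ η p lb := by
      intro lb
      cases lb with
      | st => exact continuous_const
      | x i => simp only [fam, cor]; fun_prop
      | y m => simp only [fam, cor]; fun_prop
      | z k => simp only [fam, cor]; fun_prop
    rcases a with j | j
    · exact continuous_fst.comp (h2 (l j))
    · exact continuous_snd.comp (h2 (l j))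
  exact (MvPolynomial.continuous_eval F).comp h1

theorem sign_of_tendsto (f : ℝ → ℝ) (c : ℝ) (hc : c ≠ 0)
    (hf : Tendsto f (𝓝[>] (0 : ℝ)) (𝓝 c)) :
    ∀ᶠ η in 𝓝[>] (0 : ℝ), SignType.sign (f η) = SignType.sign c := by
  rcases lt_or_gt_of_ne hc with h | h
  · filter_upwards [hf.eventually_lt_const h] with η hη
    rw [sign_neg hη, sign_neg h]
  · filter_upwards [hf.eventually_const_lt h] with η hη
    rw [sign_pos hη, sign_pos h]

/-- Labels in general position. -/
theorem sign_generic (F : MvPolynomial (Fin 4 ⊕ Fin 4) ℝ) (l : Fin 4 → Lab)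
    (hst : ∀ j, l j ≠ .st) (hl : GenPos (fun j => lpt (l j))) :
    ∃ g : MvPolynomial (Fin 9) ℝ, g ≠ 0 ∧ ∀ θ : Fin 9 → ℝ, MvPolynomial.eval θ g ≠ 0 →
      (∀ j, 0 < den θ (lpt (l j))) → ∀ i0 k0 : ℕ, ∀ᶠ η in 𝓝[>] (0 : ℝ),
        SignType.sign (MvPolynomial.eval (vals (Pc i0 k0 θ η) l) F) =
          SignType.sign (MvPolynomial.eval (vals (Pb θ η) l) F) := by
  by_cases hF : F = 0
  · refine ⟨1, one_ne_zero, fun θ _ _ i0 k0 => Eventually.of_forall fun η => ?_⟩
    rw [hF, (MvPolynomial.eval (vals (Pc i0 k0 θ η) l)).map_zero,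
      (MvPolynomial.eval (vals (Pb θ η) l)).map_zero]
  · obtain ⟨d, Q, hQ⟩ := clear F l
    have hval : ∀ θ : Fin 9 → ℝ, vals (Pb θ 0) l =
        Sum.elim (fun j => (cor θ 0 (lpt (l j))).1) (fun j => (cor θ 0 (lpt (l j))).2) := by
      intro θ
      unfold vals Pb
      congr 1
      · funext j
        rw [fam_eq_of_ne _ _ _ _ (hst j), zero_mul]
      · funext j
        rw [fam_eq_of_ne _ _ _ _ (hst j), zero_mul]
    refine ⟨Q.coeff 0, ?_, ?_⟩
    · intro h0
      obtain ⟨θ, h1, h2⟩ := exists_ne F hF (fun j => lpt (l j)) hl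
      have h3 := hQ θ 0 h1
      rw [ev_zero, h0, map_zero, hval] at h3
      have h4 : (∏ j, den θ (lpt (l j))) ^ d ≠ 0 :=
        pow_ne_zero _ (Finset.prod_ne_zero_iff.2 fun j _ => h1 j)
      exact (mul_ne_zero h4 h2) h3.symm
    · intro θ hθ hden i0 k0
      have h3 := hQ θ 0 (fun j => (hden j).ne')
      rw [ev_zero] at h3
      have hne : MvPolynomial.eval (vals (Pb θ 0) l) F ≠ 0 := by
        intro h0
        rw [h0, mul_zero] at h3
        exact hθ h3
      have t1 : Tendsto (fun η : ℝ => MvPolynomial.eval (vals (Pc i0 k0 θ η) l) F)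
          (𝓝[>] (0 : ℝ)) (𝓝 (MvPolynomial.eval (vals (Pb θ 0) l) F)) := by
        have h := (continuous_fam_eval F l (pc i0 k0) θ).tendsto 0
        have e : fam θ 0 (pc i0 k0) = Pb θ 0 := fam_zero θ _ _
        rw [e] at h
        exact h.mono_left nhdsWithin_le_nhds
      have t2 : Tendsto (fun η : ℝ => MvPolynomial.eval (vals (Pb θ η) l) F)
          (𝓝[>] (0 : ℝ)) (𝓝 (MvPolynomial.eval (vals (Pb θ 0) l) F)) :=
        ((continuous_fam_eval F l pb θ).tendsto 0).mono_left nhdsWithin_le_nhds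
      filter_upwards [sign_of_tendsto _ _ hne t1, sign_of_tendsto _ _ hne t2] with η h4 h5
      rw [h4, h5]

/-- One polynomial of a query. -/
theorem one_test (e : Fin N ≃ Idx n r) (who : Fin 4 → Fin N)
    (p : MvPolynomial (Fin 4 ⊕ Fin 4 × Fin 4) ℝ) :
    ∃ g : MvPolynomial (Fin 9) ℝ, g ≠ 0 ∧ ∀ θ : Fin 9 → ℝ, MvPolynomial.eval θ g ≠ 0 →
      (∀ j, 0 < den θ (lpt (lab n r (e (who j))))) → ∀ a : Fin n × Fin n, ¬ Cov e a who →
        ∀ᶠ η in 𝓝[>] (0 : ℝ),
          SignType.sign (MvPolynomial.eval ((inst e (Pc a.1 a.2 θ η)).coords who) p) =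
            SignType.sign (MvPolynomial.eval ((inst e (Pb θ η)).coords who) p) := by
  obtain ⟨F, hF⟩ := test_val e who p
  obtain ⟨g1, h1, h2⟩ := sign_stable F (fun j => lab n r (e (who j)))
  by_cases hgen : (∀ j, lab n r (e (who j)) ≠ .st) ∧
      GenPos (fun j => lpt (lab n r (e (who j))))
  · obtain ⟨g2, h3, h4⟩ := sign_generic F (fun j => lab n r (e (who j))) hgen.1 hgen.2
    refine ⟨g1 * g2, mul_ne_zero h1 h3, fun θ hθ hden a hcov => ?_⟩
    rw [map_mul] at hθ
    filter_upwards [h4 θ (right_ne_zero_of_mul hθ) hden a.1 a.2] with η hη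
    rw [hF, hF, hη]
  · refine ⟨g1, h1, fun θ hθ hden a hcov => ?_⟩
    rcases classify a.1 a.2 (fun j => lab n r (e (who j))) hcov with ⟨u0, u1, u2, ρ, hρ, hc⟩ | hg
    · filter_upwards [h2 θ hθ hden u0 u1 u2 ρ hρ] with η hη
      rw [hF, hF, ← hη]
      have hv : vals (Pc a.1 a.2 θ η) (fun j => lab n r (e (who j))) =
          vals (Pb (θ + η • sh u0 u1 u2) (ρ * η)) (fun j => lab n r (e (who j))) := by
        unfold vals
        congr 1
        · funext j
          rw [of_cond _ _ _ _ _ _ _ (hc j)]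
        · funext j
          rw [of_cond _ _ _ _ _ _ _ (hc j)]
      rw [hv]
    · exact absurd hg hgen

/-- The labels which occur. -/
theorem lab_den (θ : Fin 9 → ℝ) (hx : ∀ i, i < n → 0 < den θ (lpt (.x i)))
    (hy : ∀ m, m < 2 * n - 1 → 0 < den θ (lpt (.y m)))
    (hz : ∀ k, k < n → 0 < den θ (lpt (.z k))) (h0 : 0 < den θ (lpt .st)) (v : Idx n r) :
    0 < den θ (lpt (lab n r v)) := by
  rcases v with q | q | q | j | j
  · simp only [lab]
    split_ifs with h
    · exact h0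
    · exact hx _ (by have := q.2; omega)
  · simp only [lab]
    split_ifs with h
    · exact h0
    · exact hy _ (by have := q.2; omega)
  · simp only [lab]
    split_ifs with h
    · exact h0
    · exact hz _ (by have := q.2; omega)
  · exact h0
  · exact h0

theorem generic9 (S : Finset (MvPolynomial (Fin 9) ℝ)) (hS : ∀ g ∈ S, g ≠ 0) (θ₀ : Fin 9 → ℝ)
    (ε : ℝ) (hε : 0 < ε) :
    ∃ θ : Fin 9 → ℝ, (∀ j, |θ j - θ₀ j| < ε) ∧ ∀ g ∈ S, MvPolynomial.eval θ g ≠ 0 := by
  classical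
  have hprod : (∏ g ∈ S, g) ≠ 0 := Finset.prod_ne_zero_iff.2 hS
  by_contra hcon
  apply hprod
  refine MvPolynomial.funext_set (fun j => Set.Ioo (θ₀ j - ε) (θ₀ j + ε))
    (fun j => Set.Ioo_infinite (by linarith)) ?_
  intro θ hθ
  rw [map_zero]
  by_contra hne
  apply hcon
  refine ⟨θ, fun j => ?_, fun g hg h0 => hne ?_⟩
  · have h := hθ j (Set.mem_univ j)
    rw [abs_lt]
    exact ⟨by linarith [h.1], by linarith [h.2]⟩
  · rw [map_prod]
    exact Finset.prod_eq_zero hg h0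

/-- All queries of a finite list. -/
theorem choose_query (hn : 1 ≤ n) (e : Fin N ≃ Idx n r) (L : List (Query 4 N)) :
    ∃ (θ : Fin 9 → ℝ) (η : ℝ), 0 < η ∧ Near n (Pb θ η) ∧
      (∀ a : Fin n × Fin n, Near n (Pc a.1 a.2 θ η)) ∧
      (∀ v : Idx n r, 0 < den θ (lpt (lab n r v))) ∧
      ∀ Q ∈ L, ∀ a : Fin n × Fin n, ¬ Cov e a Q.who →
        Q.ans (inst e (Pc a.1 a.2 θ η)) = Q.ans (inst e (Pb θ η)) := by
  classical
  choose g hg0 hg using fun (Q : Query 4 N) (b : Fin Q.m) => one_test e Q.who (Q.poly b)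
  obtain ⟨ε, δ, hε, hδ, hnear⟩ := near_family n hn
  obtain ⟨S, hS⟩ : ∃ S : Finset (MvPolynomial (Fin 9) ℝ),
      S = L.toFinset.biUnion (fun Q => Finset.univ.image (g Q)) := ⟨_, rfl⟩
  obtain ⟨θ, hθ, hθg⟩ := generic9 S
    (by
      intro p hp
      rw [hS, Finset.mem_biUnion] at hp
      obtain ⟨Q, -, hp⟩ := hp
      rw [Finset.mem_image] at hp
      obtain ⟨b, -, rfl⟩ := hp
      exact hg0 Q b) (th0 n) ε hε
  have hgQ : ∀ Q ∈ L, ∀ b, MvPolynomial.eval θ (g Q b) ≠ 0 := by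
    intro Q hQ b
    apply hθg
    rw [hS, Finset.mem_biUnion]
    exact ⟨Q, List.mem_toFinset.2 hQ, Finset.mem_image.2 ⟨b, Finset.mem_univ _, rfl⟩⟩
  have hden : ∀ v : Idx n r, 0 < den θ (lpt (lab n r v)) := by
    obtain ⟨-, -, h1, h2, h3, h4⟩ := hnear θ hθ 0 le_rfl hδ
    exact lab_den θ h1 h2 h3 h4
  have key : ∀ᶠ η in 𝓝[>] (0 : ℝ), ∀ Q ∈ L.toFinset, ∀ b ∈ (Finset.univ : Finset (Fin Q.m)),
      ∀ a ∈ (Finset.univ : Finset (Fin n × Fin n)), ¬ Cov e a Q.who →
        SignType.sign (MvPolynomial.eval ((inst e (Pc a.1 a.2 θ η)).coords Q.who) (Q.poly b)) =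
          SignType.sign (MvPolynomial.eval ((inst e (Pb θ η)).coords Q.who) (Q.poly b)) := by
    rw [Filter.eventually_all_finset]
    intro Q hQ
    rw [Filter.eventually_all_finset]
    intro b _
    rw [Filter.eventually_all_finset]
    intro a _
    by_cases hc : Cov e a Q.who
    · exact Eventually.of_forall fun η h => absurd hc h
    · filter_upwards [hg Q b θ (hgQ Q (List.mem_toFinset.1 hQ) b) (fun j => hden _) a hc]
        with η hη _
      exact hη
  have hpos : ∀ᶠ η in 𝓝[>] (0 : ℝ), 0 < η ∧ η < δ := by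
    filter_upwards [Ioo_mem_nhdsGT hδ] with η hη using hη
  obtain ⟨η, h1, h2, h3⟩ := (key.and hpos).exists
  obtain ⟨hb, hc, -, -, -, -⟩ := hnear θ hθ η h2.le h3
  refine ⟨θ, η, h2, hb, fun a => hc _ _ a.1.2 a.2.2, hden, ?_⟩
  intro Q hQ a hcov
  funext b
  exact h1 Q (List.mem_toFinset.2 hQ) b (Finset.mem_univ _) a (Finset.mem_univ _) hcov

theorem min3 (hn : 1 ≤ n) (e : Fin N ≃ Idx n r) (P : Par) (hP : Near n P)
    (i k : ℕ) (hi : i < n) (hk : k < n) (h : Pass P i k) :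
    (inst e P).IsMinPath 3 (path3 n (P (.x i)) (P (.z k))) :=
  ⟨path3_ok hn e P hP i k hi hk h, fun k' p' h' =>
    three_le hn e P (valid hn e P hP).t_free k' p' h'⟩

theorem min4 (hn : 1 ≤ n) (e : Fin N ≃ Idx n r) (P : Par) (hP : Near n P)
    (h : ∀ i k, i < n → k < n → ¬ Pass P i k) :
    (inst e P).IsMinPath 4 (path4 n) := by
  refine ⟨path4_ok hn e P hP, fun k' p' h' => ?_⟩
  by_contra hlt
  obtain ⟨p'', hp''⟩ := pad (inst e P) (valid hn e P hP).t_free k' 3 (by omega) p' h'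
  obtain ⟨i, k, hi, hk, hpass⟩ := pass_of_three hn e P hP p'' hp''
  exact h i k hi hk hpass

theorem cov_unique (e : Fin N ≃ Idx n r) (who : Fin 4 → Fin N) (a a' : Fin n × Fin n)
    (h : Cov e a who) (h' : Cov e a' who) : a = a' := by
  by_contra hne
  obtain ⟨⟨jx, hx⟩, ⟨jy, hy⟩, ⟨jz, hz⟩⟩ := h
  obtain ⟨⟨jx', hx'⟩, ⟨jy', hy'⟩, ⟨jz', hz'⟩⟩ := h'
  have key : ∀ (l : Fin 4 → Lab) (jx jy jz jx' jy' jz' : Fin 4) (i k i' k' : ℕ),
      l jx = .x i → l jy = .y (i + k) → l jz = .z k →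
      l jx' = .x i' → l jy' = .y (i' + k') → l jz' = .z k' → i = i' ∧ k = k' := by
    intro l jx jy jz jx' jy' jz' i k i' k' hx hy hz hx' hy' hz'
    have nxy : jx ≠ jy := by rintro rfl; rw [hx] at hy; exact Lab.noConfusion hy
    have nxz : jx ≠ jz := by rintro rfl; rw [hx] at hz; exact Lab.noConfusion hz
    have nyz : jy ≠ jz := by rintro rfl; rw [hy] at hz; exact Lab.noConfusion hz
    have nxy' : jx' ≠ jy' := by rintro rfl; rw [hx'] at hy'; exact Lab.noConfusion hy'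
    have nxz' : jx' ≠ jz' := by rintro rfl; rw [hx'] at hz'; exact Lab.noConfusion hz'
    have nyz' : jy' ≠ jz' := by rintro rfl; rw [hy'] at hz'; exact Lab.noConfusion hz'
    have mxy : jx ≠ jy' := by rintro rfl; rw [hx] at hy'; exact Lab.noConfusion hy'
    have mxz : jx ≠ jz' := by rintro rfl; rw [hx] at hz'; exact Lab.noConfusion hz'
    have myx : jy ≠ jx' := by rintro rfl; rw [hy] at hx'; exact Lab.noConfusion hx'
    have myz : jy ≠ jz' := by rintro rfl; rw [hy] at hz'; exact Lab.noConfusion hz'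
    have mzx : jz ≠ jx' := by rintro rfl; rw [hz] at hx'; exact Lab.noConfusion hx'
    have mzy : jz ≠ jy' := by rintro rfl; rw [hz] at hy'; exact Lab.noConfusion hy'
    have two : (jx = jx' ∧ jy = jy') ∨ (jx = jx' ∧ jz = jz') ∨ (jy = jy' ∧ jz = jz') := by
      by_contra hcon
      rw [Fin.ext_iff] at *
      have h1 := jx.2; have h2 := jy.2; have h3 := jz.2
      have h4 := jx'.2; have h5 := jy'.2; have h6 := jz'.2
      simp only [Fin.ext_iff, ne_eq] at *
      omega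
    rcases two with ⟨e1, e2⟩ | ⟨e1, e2⟩ | ⟨e1, e2⟩
    · subst e1 e2
      have a1 := Lab.x.inj (hx.symm.trans hx')
      have a2 := Lab.y.inj (hy.symm.trans hy')
      omega
    · subst e1 e2
      exact ⟨Lab.x.inj (hx.symm.trans hx'), Lab.z.inj (hz.symm.trans hz')⟩
    · subst e1 e2
      have a1 := Lab.z.inj (hz.symm.trans hz')
      have a2 := Lab.y.inj (hy.symm.trans hy')
      omega
  obtain ⟨h1, h2⟩ := key (fun j => lab n r (e (who j))) jx jy jz jx' jy' jz' a.1 a.2 a'.1 a'.2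
    hx hy hz hx' hy' hz'
  exact hne (Prod.ext (Fin.ext h1) (Fin.ext h2))

/-- A finite set of labels for all obstacles. -/
theorem exists_equivQ (n N : ℕ) (h : 4 * n + 8 ≤ N) : ∃ r, Nonempty (Fin N ≃ Idx n r) := by
  refine ⟨N - (4 * n + 8), ⟨(Fintype.equivFinOfCardEq ?_).symm⟩⟩
  simp only [Fintype.card_sum, Fintype.card_fin]
  omega

open Classical in
/-- **Exact lower bound for queries about four obstacles.** -/
theorem partQ (n N : ℕ) (hn : 1 ≤ n) (hN : 4 * n + 8 ≤ N) :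
    ∃ H : Set (Inst N),
      (∀ I ∈ H, I.Valid ∧ ((∃ p, I.IsMinPath 3 p) ∨ ∃ p, I.IsMinPath 4 p)) ∧
      (∃ T : Tree 4 N, ∀ I ∈ H, T.Out (fun I k p => I.IsMinPath k p) I ∧ T.cost I ≤ n ^ 2) ∧
      ∀ (c : ℝ), c < 4 / 3 → ∀ (Ω : Type) [Fintype Ω] (w : Ω → ℝ) (T : Ω → Tree 4 N) (δ : ℝ),
        (∀ ω, 0 ≤ w ω) → ∑ ω, w ω = 1 →
        (∀ I ∈ H, 1 - δ ≤ ∑ ω, if (T ω).Out (Inst.IsApprox c) I then w ω else 0) →
        ∃ I ∈ H, (1 - 2 * δ) * (n : ℝ) ^ 2 ≤ ∑ ω, w ω * ((T ω).cost I : ℝ) := by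
  obtain ⟨r, ⟨e⟩⟩ := exists_equivQ n N hN
  refine ⟨{I | ∃ P, Near n P ∧ I = inst e P}, ?_, ?_, ?_⟩
  · rintro I ⟨P, hP, rfl⟩
    refine ⟨valid hn e P hP, ?_⟩
    by_cases h : ∃ i k, i < n ∧ k < n ∧ Pass P i k
    · obtain ⟨i, k, hi, hk, hpass⟩ := h
      exact Or.inl ⟨_, min3 hn e P hP i k hi hk hpass⟩
    · exact Or.inr ⟨_, min4 hn e P hP fun i k hi hk hpass => h ⟨i, k, hi, hk, hpass⟩⟩
  · obtain ⟨T, hT⟩ := upper e (fun P hP i k hi hk h => min3 hn e P hP i k hi hk h)
      (fun P hP h => min4 hn e P hP h)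
    exact ⟨T, fun I ⟨P, hP, hI⟩ => by rw [hI]; exact hT P hP⟩
  · intro c hc Ω _ w T δ hw0 hw1 hcor
    have h := adversary {I | ∃ P, Near n P ∧ I = inst e P} (Inst.IsApprox c)
      (fun a : Fin n × Fin n => Cov e a) (fun who a b h1 h2 => cov_unique e who a b h1 h2)
      (fun L => by
        obtain ⟨θ, η, hη, hb, hcn, hden, hans⟩ := choose_query hn e L
        have dx : ∀ i, i < n → 0 < den θ (lpt (.x i)) := by
          intro i hi
          have h := hden (.inl ⟨i + 1, by omega⟩)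
          simpa [lab] using h
        have dy : ∀ m, m < 2 * n - 1 → 0 < den θ (lpt (.y m)) := by
          intro m hm
          have h := hden (.inr (.inl ⟨m, by omega⟩))
          have hne : m ≠ 2 * n - 1 := by omega
          simpa [lab, hne] using h
        have dz : ∀ k, k < n → 0 < den θ (lpt (.z k)) := by
          intro k hk
          have h := hden (.inr (.inr (.inl ⟨k + 1, by omega⟩)))
          simpa [lab] using h
        refine ⟨inst e (Pb θ η), ⟨_, hb, rfl⟩, fun a => inst e (Pc a.1 a.2 θ η),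
          fun a => ⟨_, hcn a, rfl⟩, hans, ?_⟩
        intro a k p p' hp hp'
        have hno : ∀ i k, i < n → k < n → ¬ Pass (Pb θ η) i k := by
          intro i k hi hk
          refine base_no_pass θ η hη i k (dx i hi) (dy _ (by omega)) (dz k hk) ?_
          have h1 := abs_le.1 (hb.1 i hi).2
          have h2 := abs_le.1 (hb.2.1 (i + k) (by omega)).2
          have h3 : sg n ≤ 1 / 1000 := by
            unfold sg
            have hn' : (1 : ℝ) ≤ n := by exact_mod_cast hn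
            exact one_div_le_one_div_of_le (by norm_num) (by linarith)
          linarith [h1.2, h2.1]
        have h4 : 4 ≤ k := (min4 hn e _ hb hno).2 k p hp.1
        have h3 := hp'.2 3 _ (path3_ok hn e _ (hcn a) a.1 a.2 a.1.2 a.2.2
          (coll_pass θ η a.1 a.2 (dx _ a.1.2).ne'
            (dy _ (by have := a.1.2; have := a.2.2; omega)).ne' (dz _ a.2.2).ne'))
        have h4' : (4 : ℝ) ≤ k := by exact_mod_cast h4
        push_cast at h3
        linarith)
      Ω w T δ hw0 hw1 hcor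
    obtain ⟨I, hI, hcost⟩ := h
    refine ⟨I, hI, ?_⟩
    have hcard : (Fintype.card (Fin n × Fin n) : ℝ) = (n : ℝ) ^ 2 := by
      rw [Fintype.card_prod, Fintype.card_fin]
      push_cast
      ring
    rw [hcard] at hcost
    exact hcost

end Pool.LibML82.Q
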