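import Pool.Agent.LibML82.RFam

/-!
# Row RA0: a query sees only four corners and `τ`

Near copy of `BA0.lean`. `poly_val`: every coordinate of `rect r n d C τ v` is a constant, or the first or second
coordinate of `val C (lab r n d v)`, or the second coordinate of it plus `τ` (bottom of a piece of wall L).
`lab_lt`: labels of obstacles are `(j, g)` with `j < r`, `1 ≤ g ≤ G r n`.
`cov_unique`: among four positions two triples `{a, b, c}`, `{a', b', c'}` of different positions have two positions in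
common; their labels are different and on both lines, with different `j` (since `g` is a function of `j`);
this determines the line (as in `BA0.lean`).
-/

namespace Pool.LibML82.R

open Pool.LibML82.B (G pos th W D ep side)

private theorem RA0_coord {r n d : ℕ} (v : Idx r n d) (c : Fin 4) :
    (∃ κ : ℝ, ∀ (C : Par) (τ : ℝ), (rect r n d C τ v).coord c = κ) ∨
    (∀ (C : Par) (τ : ℝ), (rect r n d C τ v).coord c = (val C (lab r n d v)).1) ∨
    (∀ (C : Par) (τ : ℝ), (rect r n d C τ v).coord c = (val C (lab r n d v)).2) ∨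
    (∀ (C : Par) (τ : ℝ), (rect r n d C τ v).coord c = (val C (lab r n d v)).2 + τ) := by
  rcases v with ⟨j, q⟩ | ⟨j, q⟩ | ⟨j, s⟩ | i
  · by_cases hq : (q : ℕ) = 0
    · left
      refine ⟨(⟨-W r n j - 1, BR r n j q, (j : ℕ) - th r n, (j : ℕ)⟩ : Rect).coord c,
        fun C τ => ?_⟩
      simp [rect, AR, TR, hq]
    · fin_cases c
      · right; left
        intro C τ
        simp [rect, AR, hq, Rect.coord, lab, val]
      · left; exact ⟨_, fun C τ => rfl⟩
      · left; exact ⟨_, fun C τ => rfl⟩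
      · right; right; left
        intro C τ
        simp [rect, TR, hq, Rect.coord, lab, val]
  · fin_cases c
    · left; exact ⟨_, fun C τ => rfl⟩
    · by_cases hq : (q : ℕ) = G r n
      · left
        refine ⟨W r n j + 1, fun C τ => ?_⟩
        simp [rect, BL, hq, Rect.coord]
      · right; left
        intro C τ
        simp [rect, BL, hq, Rect.coord, lab, val]
    · by_cases hq : (q : ℕ) = G r n
      · left
        refine ⟨(j : ℕ) + th r n / 2, fun C τ => ?_⟩
        simp [rect, LL, hq, Rect.coord]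
      · right; right; right
        intro C τ
        simp [rect, LL, hq, Rect.coord, lab, val]
    · left; exact ⟨_, fun C τ => rfl⟩
  · left
    exact ⟨(side r n j s).coord c, fun C τ => rfl⟩
  · left
    exact ⟨(⟨0, 1, r + 100 + 2 * (i : ℕ), r + 101 + 2 * (i : ℕ)⟩ : Rect).coord c,
      fun C τ => rfl⟩

private noncomputable def RA0_ev (θ : Fin 4 ⊕ Fin 4 → ℝ) (τ : ℝ) :
    Polynomial (MvPolynomial (Fin 4 ⊕ Fin 4) ℝ) →+* ℝ :=
  Polynomial.eval₂RingHom (MvPolynomial.eval θ) τ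

private theorem RA0_ev_eq (θ : Fin 4 ⊕ Fin 4 → ℝ) (τ : ℝ)
    (F : Polynomial (MvPolynomial (Fin 4 ⊕ Fin 4) ℝ)) :
    RA0_ev θ τ F = (F.map (MvPolynomial.eval θ)).eval τ := by
  rw [Polynomial.eval_map]
  rfl

private theorem RA0_ev_C (θ : Fin 4 ⊕ Fin 4 → ℝ) (τ : ℝ) (p : MvPolynomial (Fin 4 ⊕ Fin 4) ℝ) :
    RA0_ev θ τ (Polynomial.C p) = MvPolynomial.eval θ p := by
  simp [RA0_ev]

private theorem RA0_ev_X (θ : Fin 4 ⊕ Fin 4 → ℝ) (τ : ℝ) : RA0_ev θ τ Polynomial.X = τ := by
  simp [RA0_ev]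

private theorem RA0_sub {N' : Type} (y : N' → ℝ)
    (φ : N' → Polynomial (MvPolynomial (Fin 4 ⊕ Fin 4) ℝ)) (θ : Fin 4 ⊕ Fin 4 → ℝ) (τ : ℝ)
    (h : ∀ a, y a = RA0_ev θ τ (φ a)) (p : MvPolynomial N' ℝ) :
    MvPolynomial.eval y p = RA0_ev θ τ (MvPolynomial.eval₂Hom
      (RingHom.comp (Polynomial.C :
          MvPolynomial (Fin 4 ⊕ Fin 4) ℝ →+* Polynomial (MvPolynomial (Fin 4 ⊕ Fin 4) ℝ))
        (MvPolynomial.C : ℝ →+* MvPolynomial (Fin 4 ⊕ Fin 4) ℝ)) φ p) := by
  induction p using MvPolynomial.induction_on with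
  | C a =>
    rw [MvPolynomial.eval_C, MvPolynomial.eval₂Hom_C, RingHom.comp_apply, RA0_ev_C,
      MvPolynomial.eval_C]
  | add p q hp hq => rw [map_add, map_add, map_add, hp, hq]
  | mul_X p j hp =>
    rw [map_mul, map_mul, map_mul, hp, MvPolynomial.eval_X, MvPolynomial.eval₂Hom_X', h j]

theorem poly_val {r n d N : ℕ} (e : Fin N ≃ Idx r n d) (who : Fin 4 → Fin N)
    (p : MvPolynomial (Fin 4 ⊕ Fin 4 × Fin 4) ℝ) :
    ∃ F : Polynomial (MvPolynomial (Fin 4 ⊕ Fin 4) ℝ), ∀ (C : Par) (τ : ℝ),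
      MvPolynomial.eval ((inst e C τ).coords who) p =
        (F.map (MvPolynomial.eval (vals C (fun i => lab r n d (e (who i)))))).eval τ := by
  have hφ : ∀ a : Fin 4 ⊕ Fin 4 × Fin 4, ∃ F : Polynomial (MvPolynomial (Fin 4 ⊕ Fin 4) ℝ),
      ∀ (C : Par) (τ : ℝ), (inst e C τ).coords who a =
        RA0_ev (vals C (fun i => lab r n d (e (who i)))) τ F := by
    rintro (a | ⟨j, c⟩)
    · refine ⟨Polynomial.C (MvPolynomial.C ((![0, (r : ℝ), 0, -1] : Fin 4 → ℝ) a)),
        fun C τ => ?_⟩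
      rw [RA0_ev_C, MvPolynomial.eval_C]
      rfl
    · rcases RA0_coord (e (who j)) c with ⟨κ, hκ⟩ | h | h | h
      · refine ⟨Polynomial.C (MvPolynomial.C κ), fun C τ => ?_⟩
        rw [RA0_ev_C, MvPolynomial.eval_C]
        exact hκ C τ
      · refine ⟨Polynomial.C (MvPolynomial.X (Sum.inl j)), fun C τ => ?_⟩
        rw [RA0_ev_C, MvPolynomial.eval_X]
        exact h C τ
      · refine ⟨Polynomial.C (MvPolynomial.X (Sum.inr j)), fun C τ => ?_⟩
        rw [RA0_ev_C, MvPolynomial.eval_X]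
        exact h C τ
      · refine ⟨Polynomial.C (MvPolynomial.X (Sum.inr j)) + Polynomial.X, fun C τ => ?_⟩
        rw [map_add, RA0_ev_C, RA0_ev_X, MvPolynomial.eval_X]
        exact h C τ
  choose φ hφ using hφ
  refine ⟨MvPolynomial.eval₂Hom
      (RingHom.comp (Polynomial.C :
          MvPolynomial (Fin 4 ⊕ Fin 4) ℝ →+* Polynomial (MvPolynomial (Fin 4 ⊕ Fin 4) ℝ))
        (MvPolynomial.C : ℝ →+* MvPolynomial (Fin 4 ⊕ Fin 4) ℝ)) φ p, fun C τ => ?_⟩
  rw [← RA0_ev_eq]
  exact RA0_sub _ φ _ _ (fun a => hφ a C τ) p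

theorem lab_lt {r n d : ℕ} (v : Idx r n d) (j g : ℕ) (h : lab r n d v = some (j, g)) :
    j < r ∧ 1 ≤ g ∧ g ≤ G r n := by
  rcases v with ⟨j', q⟩ | ⟨j', q⟩ | ⟨j', s⟩ | i
  · simp only [lab] at h
    split_ifs at h with hq
    simp only [Option.some.injEq, Prod.mk.injEq] at h
    obtain ⟨rfl, rfl⟩ := h
    have := q.isLt
    exact ⟨j'.isLt, Nat.one_le_iff_ne_zero.mpr hq, by omega⟩
  · simp only [lab] at h
    split_ifs at h with hq
    simp only [Option.some.injEq, Prod.mk.injEq] at h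
    obtain ⟨rfl, rfl⟩ := h
    have := q.isLt
    exact ⟨j'.isLt, by omega, by omega⟩
  · simp [lab] at h
  · simp [lab] at h

private theorem RA0_two {l : Fin 4 → Option (ℕ × ℕ)} {u v u' v' : ℕ} (h : CovL u v l)
    (h' : CovL u' v' l) : ∃ x y : Fin 4, l x ≠ l y ∧ On u v (l x) ∧ On u v (l y) ∧
      On u' v' (l x) ∧ On u' v' (l y) := by
  obtain ⟨a, b, c, hab, hac, hbc, ha, hb, hc⟩ := h
  obtain ⟨a', b', c', hab', hac', hbc', ha', hb', hc'⟩ := h'
  have nab : a ≠ b := fun h => hab (by rw [h])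
  have nac : a ≠ c := fun h => hac (by rw [h])
  have nbc : b ≠ c := fun h => hbc (by rw [h])
  have nab' : a' ≠ b' := fun h => hab' (by rw [h])
  have nac' : a' ≠ c' := fun h => hac' (by rw [h])
  have nbc' : b' ≠ c' := fun h => hbc' (by rw [h])
  have c1 : ({a, b, c} : Finset (Fin 4)).card = 3 := Finset.card_eq_three.mpr ⟨a, b, c, nab, nac, nbc, rfl⟩
  have c2 : ({a', b', c'} : Finset (Fin 4)).card = 3 :=
    Finset.card_eq_three.mpr ⟨a', b', c', nab', nac', nbc', rfl⟩
  have c3 := Finset.card_union_add_card_inter ({a, b, c} : Finset (Fin 4)) {a', b', c'}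
  have c4 : (({a, b, c} : Finset (Fin 4)) ∪ {a', b', c'}).card ≤ 4 := by
    have := Finset.card_le_univ (({a, b, c} : Finset (Fin 4)) ∪ {a', b', c'})
    simpa using this
  have c5 : 1 < (({a, b, c} : Finset (Fin 4)) ∩ {a', b', c'}).card := by omega
  obtain ⟨x, hx, y, hy, hxy⟩ := Finset.one_lt_card.mp c5
  rw [Finset.mem_inter] at hx hy
  have o1 : ∀ z ∈ ({a, b, c} : Finset (Fin 4)), On u v (l z) := by
    intro z hz
    simp only [Finset.mem_insert, Finset.mem_singleton] at hz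
    rcases hz with rfl | rfl | rfl <;> assumption
  have o2 : ∀ z ∈ ({a', b', c'} : Finset (Fin 4)), On u' v' (l z) := by
    intro z hz
    simp only [Finset.mem_insert, Finset.mem_singleton] at hz
    rcases hz with rfl | rfl | rfl <;> assumption
  refine ⟨x, y, ?_, o1 x hx.1, o1 y hy.1, o2 x hx.2, o2 y hy.2⟩
  have h1 := hx.1
  have h2 := hy.1
  simp only [Finset.mem_insert, Finset.mem_singleton] at h1 h2
  rcases h1 with rfl | rfl | rfl <;> rcases h2 with rfl | rfl | rfl
  · exact absurd rfl hxy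
  · exact hab
  · exact hac
  · exact hab.symm
  · exact absurd rfl hxy
  · exact hbc
  · exact hac.symm
  · exact hbc.symm
  · exact absurd rfl hxy

theorem cov_unique {r n d N : ℕ} (e : Fin N ≃ Idx r n d) (who : Fin 4 → Fin N)
    (u v u' v' : ℕ) (h : Cov e u v who) (h' : Cov e u' v' who) : u = u' ∧ v = v' := by
  obtain ⟨x, y, hxy, h1, h2, h3, h4⟩ := RA0_two h h'
  obtain ⟨j0, hj0⟩ := h1
  obtain ⟨j1, hj1⟩ := h2
  obtain ⟨k0, hk0⟩ := h3
  obtain ⟨k1, hk1⟩ := h4
  have e0 := hj0.symm.trans hk0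
  have e1 := hj1.symm.trans hk1
  simp only [Option.some.injEq, Prod.mk.injEq] at e0 e1
  obtain ⟨rfl, e0⟩ := e0
  obtain ⟨rfl, e1⟩ := e1
  have hne : j0 ≠ j1 := by
    rintro rfl
    exact hxy (hj0.trans hj1.symm)
  have z0 : (u : ℤ) + v * j0 = u' + v' * j0 := by
    have : u + v * j0 = u' + v' * j0 := by omega
    exact_mod_cast this
  have z1 : (u : ℤ) + v * j1 = u' + v' * j1 := by
    have : u + v * j1 = u' + v' * j1 := by omega
    exact_mod_cast this
  have hz : ((v : ℤ) - v') * ((j0 : ℤ) - j1) = 0 := by linear_combination z0 - z1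
  have hv : (v : ℤ) = v' := by
    rcases mul_eq_zero.mp hz with h | h
    · linarith
    · exfalso
      apply hne
      have : (j0 : ℤ) = j1 := by linarith
      exact_mod_cast this
  have hv' : v = v' := by exact_mod_cast hv
  refine ⟨?_, hv'⟩
  rw [hv] at z0
  have : (u : ℤ) = u' := by linarith
  exact_mod_cast this

end Pool.LibML82.R
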