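import Pool.Agent.LibML82.RFam

/-!
# Row RA1: four labels, at most two of them (different) on the collapsed line

Either the collapsed values are base values at a shifted parameter (`Cond` for all four labels), or the
four lattice points are in general position. `K = 2 G r`, `kp j = 1 / (K + j)`. For a label `(j, g)` put
`Δ = g - (1 + u₀ + v₀ j)` (an integer, `|Δ| < G` because both numbers are in `[1, G]`) and
`F_ρ(j, g) = ρ kp j g² - kp j Δ²`; `Cond` says `u0 + u1 g + u2 j = F_ρ(j, g)`.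
Facts. (i) On a ring (`j` fixed) `F_1` is the affine function `kp j (2 g ℓ - ℓ²)` of `g`, `ℓ = 1 + u₀ + v₀ j`.
(ii) On a line `g = A + B j`: `kp j (A + B j)² = B² (K + j) + 2 B (A - B K) + (A - B K)² kp j`, and
`Δ = A' + B' j` with `A' = A - 1 - u₀`, `B' = B - v₀`. So with `ρ = (A' - B' K)² / (A - B K)²` the function `F_ρ` is
affine in `j` on the line.
(iii) If two labels `(j₁, g₁)`, `(j₂, g₂)`, `j₁ ≠ j₂` are on the line then `A - B K ≠ 0`: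
`(A - B K)(j₂ - j₁) = g₁ (j₂ - j₁) - (g₂ - g₁)(K + j₁)`; if `g₁ = g₂` it is `g₁ (j₂ - j₁) ≠ 0`, else
`|(g₂ - g₁)(K + j₁)| ≥ K = 2 G r > G r > |g₁ (j₂ - j₁)|`. The same for `A' - B' K` with `Δ₁, Δ₂`, unless `Δ₁ = Δ₂ = 0`.
(iv) If the values of a function are given at one, two, or three non-collinear points of the plane, there is an
affine function `u0 + u1 g + u2 j` with these values.
Cases. If some label is `none` or some `orient` of three of the four lattice points is `0`, there is a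
position `x` such that the other three positions `a, b, c` either contain a `none`, or have collinear
lattice points.
* `a, b, c` contain a `none`, or two of them are equal: then at most three different labels are left.
  Unless they are three different collinear labels, `ρ = 1` and (iv). If they are collinear: on one ring
  (i), `ρ = 1`; else on a line as in (ii), not the collapsed line (`hl`), so some `Δ ≠ 0`, and `ρ > 0`.
* `a, b, c` different and on one ring: `ρ = 1`, and `u0, u1, u2` are determined on the ring (`u1`, `u0 + u2 j`); the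
  label of `x` is on this ring, or the one free number is used for it.
* `a, b, c` different and on a line `g = A + B j` (then they are on different rings), not the collapsed
  line by `hl`: `ρ` as in (ii), `ρ > 0`; if the label of `x` is on the line: `u1 = 0`; else `u0 = F0 - u1 A`,
  `u2 = F1 - u1 B` with `u1` free to solve the condition of `x`.
-/

namespace Pool.LibML82.R

open Pool.LibML82.B (G pos th W D ep side)
open Pool.LibML82.Q (cor den orient GenPos sh)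

private theorem RA1_none (r n u₀ v₀ : ℕ) (u0 u1 u2 ρ : ℝ) : Cond r n u₀ v₀ u0 u1 u2 ρ none := by
  intro j g h
  exact absurd h (by simp)

private theorem RA1_some (r n u₀ v₀ : ℕ) (u0 u1 u2 ρ : ℝ) (j g : ℕ)
    (h : u0 + u1 * g + u2 * j =
      ρ * (kp r n j * (g : ℝ) ^ 2) - kp r n j * ((g : ℝ) - (1 + u₀ + v₀ * j)) ^ 2) :
    Cond r n u₀ v₀ u0 u1 u2 ρ (some (j, g)) := by
  intro j' g' h'
  obtain ⟨rfl, rfl⟩ : j = j' ∧ g = g' := by simpa using h'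
  exact h

/-- the integers of fact (iii) -/
private theorem RA1_nz (G r j1 j2 : ℕ) (hG : 1 ≤ G) (h1 : j1 < r) (h2 : j2 < r) (hj : j1 ≠ j2)
    (a1 a2 : ℤ) (ha : |a1| ≤ G) (h : ¬ (a1 = 0 ∧ a2 = 0)) :
    (a1 : ℝ) * ((j2 : ℝ) - j1) - ((a2 : ℝ) - a1) * (2 * (G : ℝ) * r + j1) ≠ 0 := by
  intro hz
  have hz' : a1 * ((j2 : ℤ) - j1) = (a2 - a1) * (2 * (G : ℤ) * r + j1) := by
    have : (a1 : ℝ) * ((j2 : ℝ) - j1) = ((a2 : ℝ) - a1) * (2 * (G : ℝ) * r + j1) := by linarith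
    exact_mod_cast this
  have hjz : (j2 : ℤ) - j1 ≠ 0 := by omega
  by_cases e : a2 = a1
  · rw [e, sub_self, zero_mul] at hz'
    rcases mul_eq_zero.1 hz' with h3 | h3
    · exact h ⟨h3, e.trans h3⟩
    · exact hjz h3
  · have hd : 1 ≤ |a2 - a1| := Int.one_le_abs (sub_ne_zero.2 e)
    have hKp : (0 : ℤ) ≤ 2 * (G : ℤ) * r + j1 := by positivity
    have e1 : |a1| * |(j2 : ℤ) - j1| = |a2 - a1| * (2 * (G : ℤ) * r + j1) := by
      rw [← abs_mul, hz', abs_mul, abs_of_nonneg hKp]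
    have e2 : |(j2 : ℤ) - j1| < r := by
      rw [abs_lt]
      omega
    have e3 : |a1| * |(j2 : ℤ) - j1| ≤ G * |(j2 : ℤ) - j1| :=
      mul_le_mul_of_nonneg_right ha (abs_nonneg _)
    have hG' : (1 : ℤ) ≤ G := by exact_mod_cast hG
    have e4 : (G : ℤ) * |(j2 : ℤ) - j1| < G * r := by
      apply mul_lt_mul_of_pos_left e2
      omega
    have e5 : 2 * (G : ℤ) * r + j1 ≤ |a2 - a1| * (2 * (G : ℤ) * r + j1) := by
      nlinarith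
    have e6 : (0 : ℤ) ≤ G * r := by positivity
    have e7 : (0 : ℤ) ≤ j1 := by positivity
    linarith [e1, e3, e4, e5, e6, e7]

/-- the affine function on a line -/
private theorem RA1_line (K m P P' B B' ρ j : ℝ) (hm : m * (K + j) = 1)
    (hρ : ρ * P ^ 2 = P' ^ 2) :
    ρ * (m * (P + B * (K + j)) ^ 2) - m * (P' + B' * (K + j)) ^ 2 =
      (ρ * (2 * P * B + B ^ 2 * K) - (2 * P' * B' + B' ^ 2 * K)) + (ρ * B ^ 2 - B' ^ 2) * j := by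
  linear_combination m * hρ + (ρ * (2 * P * B + B ^ 2 * (K + j)) -
    (2 * P' * B' + B' ^ 2 * (K + j))) * hm

/-- two labels -/
private theorem RA1_two (r n u₀ v₀ : ℕ) (p q : Option (ℕ × ℕ)) :
    ∃ u0 u1 u2 : ℝ, Cond r n u₀ v₀ u0 u1 u2 1 p ∧ Cond r n u₀ v₀ u0 u1 u2 1 q := by
  have hone : ∀ q : Option (ℕ × ℕ), ∃ u0 : ℝ, Cond r n u₀ v₀ u0 0 0 1 q := by
    intro q
    rcases q with _ | ⟨j, g⟩
    · exact ⟨0, RA1_none _ _ _ _ _ _ _ _⟩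
    · refine ⟨1 * (kp r n j * (g : ℝ) ^ 2) - kp r n j * ((g : ℝ) - (1 + u₀ + v₀ * j)) ^ 2,
        RA1_some _ _ _ _ _ _ _ _ _ _ (by ring)⟩
  rcases p with _ | ⟨j, g⟩
  · obtain ⟨u0, h⟩ := hone q
    exact ⟨u0, 0, 0, RA1_none _ _ _ _ _ _ _ _, h⟩
  rcases q with _ | ⟨j', g'⟩
  · obtain ⟨u0, h⟩ := hone (some (j, g))
    exact ⟨u0, 0, 0, h, RA1_none _ _ _ _ _ _ _ _⟩
  set X : ℝ := 1 * (kp r n j * (g : ℝ) ^ 2) - kp r n j * ((g : ℝ) - (1 + u₀ + v₀ * j)) ^ 2 with hX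
  set Y : ℝ := 1 * (kp r n j' * (g' : ℝ) ^ 2) -
    kp r n j' * ((g' : ℝ) - (1 + u₀ + v₀ * j')) ^ 2 with hY
  by_cases hj : j = j'
  · by_cases hg : g = g'
    · obtain ⟨u0, h⟩ := hone (some (j, g))
      refine ⟨u0, 0, 0, h, ?_⟩
      rw [← hj, ← hg]
      exact h
    · have hne : (g' : ℝ) - g ≠ 0 := sub_ne_zero.2 (by exact_mod_cast (Ne.symm hg))
      have hu : (Y - X) / ((g' : ℝ) - g) * ((g' : ℝ) - g) = Y - X := div_mul_cancel₀ _ hne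
      set t : ℝ := (Y - X) / ((g' : ℝ) - g) with ht
      refine ⟨X - t * g, t, 0, RA1_some _ _ _ _ _ _ _ _ _ _ ?_, RA1_some _ _ _ _ _ _ _ _ _ _ ?_⟩
      · rw [← hX]; ring
      · rw [← hY]; linear_combination hu
  · have hne : (j' : ℝ) - j ≠ 0 := sub_ne_zero.2 (by exact_mod_cast (Ne.symm hj))
    have hu : (Y - X) / ((j' : ℝ) - j) * ((j' : ℝ) - j) = Y - X := div_mul_cancel₀ _ hne
    set t : ℝ := (Y - X) / ((j' : ℝ) - j) with ht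
    refine ⟨X - t * j, 0, t, RA1_some _ _ _ _ _ _ _ _ _ _ ?_, RA1_some _ _ _ _ _ _ _ _ _ _ ?_⟩
    · rw [← hX]; ring
    · rw [← hY]; linear_combination hu

/-- all labels of one ring and one more label -/
private theorem RA1_ring (r n u₀ v₀ j : ℕ) (x : Option (ℕ × ℕ)) :
    ∃ u0 u1 u2 : ℝ, (∀ g, Cond r n u₀ v₀ u0 u1 u2 1 (some (j, g))) ∧
      Cond r n u₀ v₀ u0 u1 u2 1 x := by
  have hall : ∀ u2 : ℝ, ∀ g, Cond r n u₀ v₀ (-(kp r n j * (1 + u₀ + v₀ * j) ^ 2) - u2 * j)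
      (2 * kp r n j * (1 + u₀ + v₀ * j)) u2 1 (some (j, g)) := by
    intro u2 g
    exact RA1_some _ _ _ _ _ _ _ _ _ _ (by ring)
  rcases x with _ | ⟨j', g'⟩
  · exact ⟨_, _, 0, hall 0, RA1_none _ _ _ _ _ _ _ _⟩
  by_cases hj : j' = j
  · subst hj
    exact ⟨_, _, 0, hall 0, hall 0 g'⟩
  · have hne : (j' : ℝ) - j ≠ 0 := sub_ne_zero.2 (by exact_mod_cast hj)
    obtain ⟨u2, hu⟩ : ∃ u2 : ℝ, u2 * ((j' : ℝ) - j) =
        (1 * (kp r n j' * (g' : ℝ) ^ 2) - kp r n j' * ((g' : ℝ) - (1 + u₀ + v₀ * j')) ^ 2) -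
          (-(kp r n j * (1 + u₀ + v₀ * j) ^ 2) + 2 * kp r n j * (1 + u₀ + v₀ * j) * g') :=
      ⟨_, div_mul_cancel₀ _ hne⟩
    exact ⟨_, _, u2, hall u2, RA1_some _ _ _ _ _ _ _ _ _ _ (by linear_combination hu)⟩

/-- three labels on different rings of a line which is not the collapsed one, and one more label -/
private theorem RA1_sloped (r n : ℕ) (hr : 1 ≤ r) (hn : 1 ≤ n) (u₀ v₀ : ℕ) (hu : u₀ < n)
    (hv : v₀ < n) (ja jb jc ga gb gc : ℕ) (ha : ja < r) (hb : jb < r) (hc : jc < r)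
    (ga1 : 1 ≤ ga) (gaG : ga ≤ G r n) (hab : ja ≠ jb) (hac : ja ≠ jc)
    (hor : ((gb : ℝ) - ga) * ((jc : ℝ) - ja) - ((jb : ℝ) - ja) * ((gc : ℝ) - ga) = 0)
    (hne : ¬ (ga = 1 + u₀ + v₀ * ja ∧ gb = 1 + u₀ + v₀ * jb ∧ gc = 1 + u₀ + v₀ * jc))
    (x : Option (ℕ × ℕ)) :
    ∃ u0 u1 u2 ρ : ℝ, 0 < ρ ∧ Cond r n u₀ v₀ u0 u1 u2 ρ (some (ja, ga)) ∧
      Cond r n u₀ v₀ u0 u1 u2 ρ (some (jb, gb)) ∧ Cond r n u₀ v₀ u0 u1 u2 ρ (some (jc, gc)) ∧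
      Cond r n u₀ v₀ u0 u1 u2 ρ x := by
  have hba : (jb : ℝ) - ja ≠ 0 := sub_ne_zero.2 (by exact_mod_cast (Ne.symm hab))
  have hca : (jc : ℝ) - ja ≠ 0 := sub_ne_zero.2 (by exact_mod_cast (Ne.symm hac))
  have hG : 1 ≤ G r n := le_trans ga1 gaG
  set K : ℝ := 2 * (G r n : ℝ) * r with hK
  obtain ⟨B, hB⟩ : ∃ B : ℝ, B * ((jb : ℝ) - ja) = (gb : ℝ) - ga := ⟨_, div_mul_cancel₀ _ hba⟩
  set P : ℝ := ga - B * (K + ja) with hP
  set B' : ℝ := B - v₀ with hB'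
  set P' : ℝ := ((ga : ℝ) - (1 + u₀ + v₀ * ja)) - B' * (K + ja) with hP'
  have fa : (ga : ℝ) = P + B * (K + ja) := by rw [hP]; ring
  have fb : (gb : ℝ) = P + B * (K + jb) := by rw [hP]; linear_combination -hB
  have fc : (gc : ℝ) = P + B * (K + jc) := by
    apply mul_left_cancel₀ hba
    rw [hP]
    linear_combination -hor - ((jc : ℝ) - ja) * hB
  have fd : ∀ j g : ℝ, g = P + B * (K + j) → g - (1 + u₀ + v₀ * j) = P' + B' * (K + j) := by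
    intro j g h
    rw [h, hP', hB', hP]
    ring
  -- the integers
  have hP0 : P ≠ 0 := by
    have h := RA1_nz (G r n) r ja jb hG ha hb hab (ga : ℤ) (gb : ℤ)
      (by rw [abs_of_nonneg (by positivity)]; exact_mod_cast gaG) (by
        rintro ⟨h, -⟩
        have : ga = 0 := by exact_mod_cast h
        omega)
    intro hP00
    apply h
    have e : (gb : ℝ) - ga = B * ((jb : ℝ) - ja) := hB.symm
    push_cast
    rw [e]
    have e2 : (ga : ℝ) = B * (K + ja) := by rw [fa, hP00]; ring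
    rw [e2, hK]
    ring
  have hΔ : |((ga : ℤ) - (1 + u₀ + v₀ * ja))| ≤ (G r n : ℤ) := by
    have h1 : v₀ * ja ≤ (n - 1) * (r - 1) := Nat.mul_le_mul (by omega) (by omega)
    have h2 : 1 + u₀ + v₀ * ja ≤ G r n := by
      have h3 : (n - 1) * (r - 1) + n ≤ n * r := by
        obtain ⟨n', rfl⟩ : ∃ n', n = n' + 1 := ⟨n - 1, by omega⟩
        obtain ⟨r', rfl⟩ : ∃ r', r = r' + 1 := ⟨r - 1, by omega⟩
        simp only [Nat.add_sub_cancel]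
        nlinarith
      unfold G
      omega
    rw [abs_le]
    have h4 : ((1 + u₀ + v₀ * ja : ℕ) : ℤ) ≤ (G r n : ℤ) := by exact_mod_cast h2
    push_cast at h4
    have h5 : (0 : ℤ) ≤ (v₀ : ℤ) * ja := by positivity
    constructor
    · omega
    · omega
  have hP'0 : P' ≠ 0 := by
    intro hP00
    have hnot : ¬ (((ga : ℤ) - (1 + u₀ + v₀ * ja)) = 0 ∧ ((gb : ℤ) - (1 + u₀ + v₀ * jb)) = 0) := by
      rintro ⟨h1, h2⟩
      apply hne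
      have h1' : ga = 1 + u₀ + v₀ * ja := by
        have : (ga : ℤ) = ((1 + u₀ + v₀ * ja : ℕ) : ℤ) := by push_cast; linarith
        exact_mod_cast this
      have h2' : gb = 1 + u₀ + v₀ * jb := by
        have : (gb : ℤ) = ((1 + u₀ + v₀ * jb : ℕ) : ℤ) := by push_cast; linarith
        exact_mod_cast this
      refine ⟨h1', h2', ?_⟩
      have r1 : (ga : ℝ) = 1 + u₀ + v₀ * ja := by rw [h1']; push_cast; ring
      have r2 : (gb : ℝ) = 1 + u₀ + v₀ * jb := by rw [h2']; push_cast; ring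
      have r3 : (gc : ℝ) = 1 + u₀ + v₀ * jc := by
        apply mul_left_cancel₀ hba
        rw [r1, r2] at hor
        linear_combination -hor
      have : (gc : ℝ) = ((1 + u₀ + v₀ * jc : ℕ) : ℝ) := by push_cast; linarith
      exact_mod_cast this
    have h := RA1_nz (G r n) r ja jb hG ha hb hab _ _ hΔ hnot
    apply h
    have ea := fd ja ga fa
    have eb := fd jb gb fb
    push_cast
    rw [ea, eb, hP00, ← hK]
    ring
  have hρ0 : 0 < P' ^ 2 / P ^ 2 := by positivity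
  have hρ : P' ^ 2 / P ^ 2 * P ^ 2 = P' ^ 2 := div_mul_cancel₀ _ (by positivity)
  set ρ : ℝ := P' ^ 2 / P ^ 2 with hρd
  have hKpos : 0 < K := by
    have : (1 : ℝ) ≤ G r n := by exact_mod_cast hG
    have : (1 : ℝ) ≤ r := by exact_mod_cast hr
    rw [hK]
    positivity
  have hkp : ∀ j : ℕ, kp r n j * (K + j) = 1 := by
    intro j
    unfold kp
    rw [← hK]
    have : K + j ≠ 0 := by positivity
    exact one_div_mul_cancel this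
  have hF : ∀ j g : ℕ, (g : ℝ) = P + B * (K + j) →
      ρ * (kp r n j * (g : ℝ) ^ 2) - kp r n j * ((g : ℝ) - (1 + u₀ + v₀ * j)) ^ 2 =
      (ρ * (2 * P * B + B ^ 2 * K) - (2 * P' * B' + B' ^ 2 * K)) + (ρ * B ^ 2 - B' ^ 2) * j := by
    intro j g h
    rw [fd j g h, h]
    exact RA1_line K _ P P' B B' ρ j (hkp j) hρ
  set F0 : ℝ := ρ * (2 * P * B + B ^ 2 * K) - (2 * P' * B' + B' ^ 2 * K) with hF0
  set F1 : ℝ := ρ * B ^ 2 - B' ^ 2 with hF1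
  -- all labels of the line, one free number
  have hall : ∀ u1 : ℝ, ∀ j g : ℕ, (g : ℝ) = P + B * (K + j) →
      Cond r n u₀ v₀ (F0 - u1 * (P + B * K)) u1 (F1 - u1 * B) ρ (some (j, g)) := by
    intro u1 j g h
    refine RA1_some _ _ _ _ _ _ _ _ _ _ ?_
    rw [hF j g h, h]
    ring
  have fin : ∀ u1 : ℝ, Cond r n u₀ v₀ (F0 - u1 * (P + B * K)) u1 (F1 - u1 * B) ρ x →
      ∃ u0 u1 u2 ρ : ℝ, 0 < ρ ∧ Cond r n u₀ v₀ u0 u1 u2 ρ (some (ja, ga)) ∧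
      Cond r n u₀ v₀ u0 u1 u2 ρ (some (jb, gb)) ∧ Cond r n u₀ v₀ u0 u1 u2 ρ (some (jc, gc)) ∧
      Cond r n u₀ v₀ u0 u1 u2 ρ x := fun u1 hx =>
    ⟨_, u1, _, ρ, hρ0, hall u1 ja ga fa, hall u1 jb gb fb, hall u1 jc gc fc, hx⟩
  rcases x with _ | ⟨j, g⟩
  · exact fin 0 (RA1_none _ _ _ _ _ _ _ _)
  by_cases hx : (g : ℝ) = P + B * (K + j)
  · exact fin 0 (hall 0 j g hx)
  · have hne' : (g : ℝ) - (P + B * (K + j)) ≠ 0 := sub_ne_zero.2 hx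
    obtain ⟨u1, hu1⟩ : ∃ u1 : ℝ, u1 * ((g : ℝ) - (P + B * (K + j))) =
        (ρ * (kp r n j * (g : ℝ) ^ 2) - kp r n j * ((g : ℝ) - (1 + u₀ + v₀ * j)) ^ 2) -
          (F0 + F1 * j) := ⟨_, div_mul_cancel₀ _ hne'⟩
    exact fin u1 (RA1_some _ _ _ _ _ _ _ _ _ _ (by linear_combination hu1))

/-- Three different labels, collinear, and one more label. -/
private theorem RA1_col (r n : ℕ) (hr : 1 ≤ r) (hn : 1 ≤ n) (u₀ v₀ : ℕ) (hu : u₀ < n)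
    (hv : v₀ < n) (ja jb jc ga gb gc : ℕ) (ha : ja < r) (hb : jb < r) (hc : jc < r)
    (ga1 : 1 ≤ ga) (gaG : ga ≤ G r n)
    (nab : ¬ (ja = jb ∧ ga = gb)) (nac : ¬ (ja = jc ∧ ga = gc)) (_nbc : ¬ (jb = jc ∧ gb = gc))
    (hor : ((gb : ℝ) - ga) * ((jc : ℝ) - ja) - ((jb : ℝ) - ja) * ((gc : ℝ) - ga) = 0)
    (hne : ¬ (ga = 1 + u₀ + v₀ * ja ∧ gb = 1 + u₀ + v₀ * jb ∧ gc = 1 + u₀ + v₀ * jc))
    (x : Option (ℕ × ℕ)) :
    ∃ u0 u1 u2 ρ : ℝ, 0 < ρ ∧ Cond r n u₀ v₀ u0 u1 u2 ρ (some (ja, ga)) ∧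
      Cond r n u₀ v₀ u0 u1 u2 ρ (some (jb, gb)) ∧ Cond r n u₀ v₀ u0 u1 u2 ρ (some (jc, gc)) ∧
      Cond r n u₀ v₀ u0 u1 u2 ρ x := by
  by_cases hab : ja = jb
  · have hgab : ga ≠ gb := fun h => nab ⟨hab, h⟩
    have h1 : (gb : ℝ) - ga ≠ 0 := sub_ne_zero.2 (by exact_mod_cast (Ne.symm hgab))
    have h2 : (jc : ℝ) - ja = 0 := by
      rw [← hab, sub_self, zero_mul, sub_zero] at hor
      exact (mul_eq_zero.1 hor).resolve_left h1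
    have hac : jc = ja := by
      have : (jc : ℝ) = ja := by linarith
      exact_mod_cast this
    subst hab
    subst hac
    obtain ⟨u0, u1, u2, hall, hx⟩ := RA1_ring r n u₀ v₀ jc x
    exact ⟨u0, u1, u2, 1, one_pos, hall _, hall _, hall _, hx⟩
  · have hac : ja ≠ jc := by
      intro h
      have hgac : ga ≠ gc := fun h' => nac ⟨h, h'⟩
      have h1 : (gc : ℝ) - ga ≠ 0 := sub_ne_zero.2 (by exact_mod_cast (Ne.symm hgac))
      rw [← h, sub_self, mul_zero, zero_sub, neg_eq_zero] at hor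
      have h2 := (mul_eq_zero.1 hor).resolve_right h1
      apply hab
      have : (ja : ℝ) = jb := by linarith
      exact_mod_cast this
    exact RA1_sloped r n hr hn u₀ v₀ hu hv ja jb jc ga gb gc ha hb hc ga1 gaG hab hac hor hne x

/-- three labels not in the covered case -/
private def RA1_NC3 (u₀ v₀ : ℕ) (a b c : Option (ℕ × ℕ)) : Prop :=
  ¬ (a ≠ b ∧ a ≠ c ∧ b ≠ c ∧ On u₀ v₀ a ∧ On u₀ v₀ b ∧ On u₀ v₀ c)

private def RA1_In (r n : ℕ) (a : Option (ℕ × ℕ)) : Prop :=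
  ∀ j g, a = some (j, g) → j < r ∧ 1 ≤ g ∧ g ≤ G r n

private theorem RA1_NC3_ne (u₀ v₀ ja jb jc ga gb gc : ℕ)
    (nab : ¬ (ja = jb ∧ ga = gb)) (nac : ¬ (ja = jc ∧ ga = gc)) (nbc : ¬ (jb = jc ∧ gb = gc))
    (h : RA1_NC3 u₀ v₀ (some (ja, ga)) (some (jb, gb)) (some (jc, gc))) :
    ¬ (ga = 1 + u₀ + v₀ * ja ∧ gb = 1 + u₀ + v₀ * jb ∧ gc = 1 + u₀ + v₀ * jc) := by
  rintro ⟨rfl, rfl, rfl⟩
  apply h
  refine ⟨?_, ?_, ?_, ⟨_, rfl⟩, ⟨_, rfl⟩, ⟨_, rfl⟩⟩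
  · intro e
    apply nab
    simpa using e
  · intro e
    apply nac
    simpa using e
  · intro e
    apply nbc
    simpa using e

/-- three labels -/
private theorem RA1_three (r n : ℕ) (hr : 1 ≤ r) (hn : 1 ≤ n) (u₀ v₀ : ℕ) (hu : u₀ < n)
    (hv : v₀ < n) (a b c : Option (ℕ × ℕ)) (ha : RA1_In r n a) (hb : RA1_In r n b)
    (hc : RA1_In r n c) (h : RA1_NC3 u₀ v₀ a b c) :
    ∃ u0 u1 u2 ρ : ℝ, 0 < ρ ∧ Cond r n u₀ v₀ u0 u1 u2 ρ a ∧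
      Cond r n u₀ v₀ u0 u1 u2 ρ b ∧ Cond r n u₀ v₀ u0 u1 u2 ρ c := by
  rcases a with _ | ⟨ja, ga⟩
  · obtain ⟨u0, u1, u2, h1, h2⟩ := RA1_two r n u₀ v₀ b c
    exact ⟨u0, u1, u2, 1, one_pos, RA1_none _ _ _ _ _ _ _ _, h1, h2⟩
  rcases b with _ | ⟨jb, gb⟩
  · obtain ⟨u0, u1, u2, h1, h2⟩ := RA1_two r n u₀ v₀ (some (ja, ga)) c
    exact ⟨u0, u1, u2, 1, one_pos, h1, RA1_none _ _ _ _ _ _ _ _, h2⟩
  rcases c with _ | ⟨jc, gc⟩
  · obtain ⟨u0, u1, u2, h1, h2⟩ := RA1_two r n u₀ v₀ (some (ja, ga)) (some (jb, gb))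
    exact ⟨u0, u1, u2, 1, one_pos, h1, h2, RA1_none _ _ _ _ _ _ _ _⟩
  by_cases nab : ja = jb ∧ ga = gb
  · obtain ⟨rfl, rfl⟩ := nab
    obtain ⟨u0, u1, u2, h1, h2⟩ := RA1_two r n u₀ v₀ (some (ja, ga)) (some (jc, gc))
    exact ⟨u0, u1, u2, 1, one_pos, h1, h1, h2⟩
  by_cases nac : ja = jc ∧ ga = gc
  · obtain ⟨rfl, rfl⟩ := nac
    obtain ⟨u0, u1, u2, h1, h2⟩ := RA1_two r n u₀ v₀ (some (ja, ga)) (some (jb, gb))
    exact ⟨u0, u1, u2, 1, one_pos, h1, h2, h1⟩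
  by_cases nbc : jb = jc ∧ gb = gc
  · obtain ⟨rfl, rfl⟩ := nbc
    obtain ⟨u0, u1, u2, h1, h2⟩ := RA1_two r n u₀ v₀ (some (ja, ga)) (some (jb, gb))
    exact ⟨u0, u1, u2, 1, one_pos, h1, h2, h2⟩
  obtain ⟨a1, a2, a3⟩ := ha ja ga rfl
  obtain ⟨b1, b2, b3⟩ := hb jb gb rfl
  obtain ⟨c1, c2, c3⟩ := hc jc gc rfl
  by_cases hor : ((gb : ℝ) - ga) * ((jc : ℝ) - ja) - ((jb : ℝ) - ja) * ((gc : ℝ) - ga) = 0
  · obtain ⟨u0, u1, u2, ρ, hρ, h1, h2, h3, -⟩ := RA1_col r n hr hn u₀ v₀ hu hv ja jb jc ga gb gc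
      a1 b1 c1 a2 a3 nab nac nbc hor (RA1_NC3_ne u₀ v₀ ja jb jc ga gb gc nab nac nbc h) none
    exact ⟨u0, u1, u2, ρ, hρ, h1, h2, h3⟩
  · set R0 : ℝ := 1 * (kp r n ja * (ga : ℝ) ^ 2) -
      kp r n ja * ((ga : ℝ) - (1 + u₀ + v₀ * ja)) ^ 2 with hR0
    set R1 : ℝ := 1 * (kp r n jb * (gb : ℝ) ^ 2) -
      kp r n jb * ((gb : ℝ) - (1 + u₀ + v₀ * jb)) ^ 2 with hR1
    set R2 : ℝ := 1 * (kp r n jc * (gc : ℝ) ^ 2) -
      kp r n jc * ((gc : ℝ) - (1 + u₀ + v₀ * jc)) ^ 2 with hR2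
    obtain ⟨Δ, hΔd⟩ : ∃ Δ : ℝ, Δ =
      ((gb : ℝ) - ga) * ((jc : ℝ) - ja) - ((jb : ℝ) - ja) * ((gc : ℝ) - ga) := ⟨_, rfl⟩
    rw [← hΔd] at hor
    obtain ⟨u1, h1⟩ : ∃ u1 : ℝ, u1 * Δ =
      (R1 - R0) * ((jc : ℝ) - ja) - (R2 - R0) * ((jb : ℝ) - ja) := ⟨_, div_mul_cancel₀ _ hor⟩
    obtain ⟨u2, h2⟩ : ∃ u2 : ℝ, u2 * Δ =
      ((gb : ℝ) - ga) * (R2 - R0) - ((gc : ℝ) - ga) * (R1 - R0) := ⟨_, div_mul_cancel₀ _ hor⟩
    refine ⟨R0 - u1 * ga - u2 * ja, u1, u2, 1, one_pos, RA1_some _ _ _ _ _ _ _ _ _ _ ?_,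
      RA1_some _ _ _ _ _ _ _ _ _ _ ?_, RA1_some _ _ _ _ _ _ _ _ _ _ ?_⟩
    · rw [← hR0]; ring
    · rw [← hR1]
      apply mul_left_cancel₀ hor
      linear_combination ((gb : ℝ) - ga) * h1 + ((jb : ℝ) - ja) * h2 + (R0 - R1) * hΔd
    · rw [← hR2]
      apply mul_left_cancel₀ hor
      linear_combination ((gc : ℝ) - ga) * h1 + ((jc : ℝ) - ja) * h2 + (R0 - R2) * hΔd

/-- the main case -/
private theorem RA1_core (r n : ℕ) (hr : 1 ≤ r) (hn : 1 ≤ n) (u₀ v₀ : ℕ) (hu : u₀ < n)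
    (hv : v₀ < n) (a b c x : Option (ℕ × ℕ)) (ha : RA1_In r n a) (hb : RA1_In r n b)
    (hc : RA1_In r n c) (hx : RA1_In r n x) (habc : RA1_NC3 u₀ v₀ a b c)
    (habx : RA1_NC3 u₀ v₀ a b x) (hacx : RA1_NC3 u₀ v₀ a c x) (hbcx : RA1_NC3 u₀ v₀ b c x)
    (h : a = none ∨ b = none ∨ c = none ∨ orient (lp a) (lp b) (lp c) = 0) :
    ∃ u0 u1 u2 ρ : ℝ, 0 < ρ ∧ Cond r n u₀ v₀ u0 u1 u2 ρ a ∧
      Cond r n u₀ v₀ u0 u1 u2 ρ b ∧ Cond r n u₀ v₀ u0 u1 u2 ρ c ∧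
      Cond r n u₀ v₀ u0 u1 u2 ρ x := by
  rcases a with _ | ⟨ja, ga⟩
  · obtain ⟨u0, u1, u2, ρ, hρ, h1, h2, h3⟩ := RA1_three r n hr hn u₀ v₀ hu hv b c x hb hc hx hbcx
    exact ⟨u0, u1, u2, ρ, hρ, RA1_none _ _ _ _ _ _ _ _, h1, h2, h3⟩
  rcases b with _ | ⟨jb, gb⟩
  · obtain ⟨u0, u1, u2, ρ, hρ, h1, h2, h3⟩ := RA1_three r n hr hn u₀ v₀ hu hv _ c x ha hc hx hacx
    exact ⟨u0, u1, u2, ρ, hρ, h1, RA1_none _ _ _ _ _ _ _ _, h2, h3⟩
  rcases c with _ | ⟨jc, gc⟩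
  · obtain ⟨u0, u1, u2, ρ, hρ, h1, h2, h3⟩ := RA1_three r n hr hn u₀ v₀ hu hv _ _ x ha hb hx habx
    exact ⟨u0, u1, u2, ρ, hρ, h1, h2, RA1_none _ _ _ _ _ _ _ _, h3⟩
  by_cases nab : ja = jb ∧ ga = gb
  · obtain ⟨rfl, rfl⟩ := nab
    obtain ⟨u0, u1, u2, ρ, hρ, h1, h2, h3⟩ := RA1_three r n hr hn u₀ v₀ hu hv _ _ x ha hc hx hacx
    exact ⟨u0, u1, u2, ρ, hρ, h1, h1, h2, h3⟩
  by_cases nac : ja = jc ∧ ga = gc
  · obtain ⟨rfl, rfl⟩ := nac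
    obtain ⟨u0, u1, u2, ρ, hρ, h1, h2, h3⟩ := RA1_three r n hr hn u₀ v₀ hu hv _ _ x ha hb hx habx
    exact ⟨u0, u1, u2, ρ, hρ, h1, h2, h1, h3⟩
  by_cases nbc : jb = jc ∧ gb = gc
  · obtain ⟨rfl, rfl⟩ := nbc
    obtain ⟨u0, u1, u2, ρ, hρ, h1, h2, h3⟩ := RA1_three r n hr hn u₀ v₀ hu hv _ _ x ha hb hx habx
    exact ⟨u0, u1, u2, ρ, hρ, h1, h2, h2, h3⟩
  have hor : ((gb : ℝ) - ga) * ((jc : ℝ) - ja) - ((jb : ℝ) - ja) * ((gc : ℝ) - ga) = 0 := by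
    rcases h with h | h | h | h
    · exact absurd h (by simp)
    · exact absurd h (by simp)
    · exact absurd h (by simp)
    · simpa only [orient, lp] using h
  obtain ⟨a1, a2, a3⟩ := ha ja ga rfl
  obtain ⟨b1, b2, b3⟩ := hb jb gb rfl
  obtain ⟨c1, c2, c3⟩ := hc jc gc rfl
  exact RA1_col r n hr hn u₀ v₀ hu hv ja jb jc ga gb gc
      a1 b1 c1 a2 a3 nab nac nbc hor (RA1_NC3_ne u₀ v₀ ja jb jc ga gb gc nab nac nbc habc) x

private theorem RA1_fin4 (p : Fin 4 → Prop) (h0 : p 0) (h1 : p 1) (h2 : p 2) (h3 : p 3) :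
    ∀ i, p i := by
  intro i
  fin_cases i
  · exact h0
  · exact h1
  · exact h2
  · exact h3

theorem classify (r n : ℕ) (hr : 1 ≤ r) (hn : 1 ≤ n) (u₀ v₀ : ℕ) (hu : u₀ < n) (hv : v₀ < n)
    (l : Fin 4 → Option (ℕ × ℕ))
    (hrange : ∀ a j g, l a = some (j, g) → j < r ∧ 1 ≤ g ∧ g ≤ G r n)
    (hl : ¬ CovL u₀ v₀ l) :
    (∃ u0 u1 u2 ρ : ℝ, 0 < ρ ∧ ∀ a, Cond r n u₀ v₀ u0 u1 u2 ρ (l a)) ∨
      ((∀ a, l a ≠ none) ∧ GenPos (fun a => lp (l a))) := by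
  have hin : ∀ a, RA1_In r n (l a) := fun a j g h => hrange a j g h
  have hnc : ∀ a b c, RA1_NC3 u₀ v₀ (l a) (l b) (l c) := by
    intro a b c h
    apply hl
    exact ⟨a, b, c, h⟩
  have key := fun a b c x => RA1_core r n hr hn u₀ v₀ hu hv (l a) (l b) (l c) (l x) (hin a) (hin b)
    (hin c) (hin x) (hnc a b c) (hnc a b x) (hnc a c x) (hnc b c x)
  by_cases h012 : l 0 = none ∨ l 1 = none ∨ l 2 = none ∨ orient (lp (l 0)) (lp (l 1)) (lp (l 2)) = 0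
  · left
    obtain ⟨u0, u1, u2, ρ, hρ, h0, h1, h2, h3⟩ := key 0 1 2 3 h012
    exact ⟨u0, u1, u2, ρ, hρ, RA1_fin4 _ h0 h1 h2 h3⟩
  by_cases h013 : l 0 = none ∨ l 1 = none ∨ l 3 = none ∨ orient (lp (l 0)) (lp (l 1)) (lp (l 3)) = 0
  · left
    obtain ⟨u0, u1, u2, ρ, hρ, h0, h1, h3, h2⟩ := key 0 1 3 2 h013
    exact ⟨u0, u1, u2, ρ, hρ, RA1_fin4 _ h0 h1 h2 h3⟩
  by_cases h023 : l 0 = none ∨ l 2 = none ∨ l 3 = none ∨ orient (lp (l 0)) (lp (l 2)) (lp (l 3)) = 0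
  · left
    obtain ⟨u0, u1, u2, ρ, hρ, h0, h2, h3, h1⟩ := key 0 2 3 1 h023
    exact ⟨u0, u1, u2, ρ, hρ, RA1_fin4 _ h0 h1 h2 h3⟩
  by_cases h123 : l 1 = none ∨ l 2 = none ∨ l 3 = none ∨ orient (lp (l 1)) (lp (l 2)) (lp (l 3)) = 0
  · left
    obtain ⟨u0, u1, u2, ρ, hρ, h1, h2, h3, h0⟩ := key 1 2 3 0 h123
    exact ⟨u0, u1, u2, ρ, hρ, RA1_fin4 _ h0 h1 h2 h3⟩
  right
  push Not at h012 h013 h023 h123
  exact ⟨RA1_fin4 _ h012.1 h012.2.1 h012.2.2.1 h013.2.2.1,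
    h012.2.2.2, h013.2.2.2, h023.2.2.2, h123.2.2.2⟩

end Pool.LibML82.R
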