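import Pool.Agent.LibML82.BFam
import Pool.Agent.LibML82.QFam

/-!
# The ring family with corners that move in both coordinates

As in `BFam.lean`, but the corner of the gap `(j, g)` is a point `C j g` near `(pos j g, j + sl g)`: the piece of
wall R on the right of the gap has its upper left corner at `C j g`, the piece of wall L on the left of the gap
has its lower right corner at `C j g + (0, τ)`. The standard heights increase along a ring, so pieces of wall R
are below the pieces of wall L with overlapping first coordinates.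
-/

namespace Pool.LibML82.R

open Pool.LibML82.B (G pos th W D ep side In TopPt SidePt)
open Pool.LibML82.Q (cor den orient GenPos sh)

/-- The moving corners. -/
abbrev Par := ℕ → ℕ → ℝ × ℝ

/-- The slope of the standard heights along a ring (`sl r n * G r n = th r n / 10`). -/
noncomputable def sl (r n : ℕ) : ℝ := th r n / (10 * (G r n : ℝ))

/-- The moving corners are near their standard positions. -/
def Near (r n : ℕ) (C : Par) : Prop :=
  ∀ j g, j < r → 1 ≤ g → g ≤ G r n →
    |(C j g).1 - pos r n j g| ≤ 1 / 16 ∧ |(C j g).2 - (j + sl r n * g)| ≤ sl r n / 4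

/-- No straight line passes the double walls of three consecutive rings. -/
def Blocked (r n : ℕ) (τ : ℝ) (C : Par) : Prop :=
  ∀ j g₁ g₂ g₃, j + 2 < r → 1 ≤ g₁ → g₁ ≤ G r n → 1 ≤ g₂ → g₂ ≤ G r n → 1 ≤ g₃ → g₃ ≤ G r n →
    20 * (G r n : ℝ) * τ < |orient (C j g₁) (C (j + 1) g₂) (C (j + 2) g₃)|

/-- Left end of the `q`-th piece of wall R of ring `j`. -/
noncomputable def AR (r n : ℕ) (C : Par) (j q : ℕ) : ℝ :=
  if q = 0 then -W r n j - 1 else (C j q).1
/-- Right end of the `q`-th piece of wall R of ring `j`. -/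
noncomputable def BR (r n j q : ℕ) : ℝ :=
  if q = G r n then W r n j + 1 else pos r n j (q + 1) - 1 / 4
/-- Top of the `q`-th piece of wall R of ring `j`. -/
noncomputable def TR (C : Par) (j q : ℕ) : ℝ := if q = 0 then (j : ℝ) else (C j q).2
/-- Left end of the `q`-th piece of wall L of ring `j`. -/
noncomputable def AL (r n j q : ℕ) : ℝ :=
  if q = 0 then -W r n j - 1 else pos r n j q + 1 / 4
/-- Right end of the `q`-th piece of wall L of ring `j`. -/
noncomputable def BL (r n : ℕ) (C : Par) (j q : ℕ) : ℝ :=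
  if q = G r n then W r n j + 1 else (C j (q + 1)).1
/-- Bottom of the `q`-th piece of wall L of ring `j`. -/
noncomputable def LL (r n : ℕ) (C : Par) (τ : ℝ) (j q : ℕ) : ℝ :=
  if q = G r n then j + th r n / 2 else (C j (q + 1)).2 + τ

/-- Names of the obstacles: walls R, walls L, sides, `d` dummies far above. -/
abbrev Idx (r n d : ℕ) :=
  (Fin r × Fin (G r n + 1)) ⊕ (Fin r × Fin (G r n + 1)) ⊕ (Fin r × Fin 3) ⊕ Fin d

/-- The obstacles. -/
noncomputable def rect (r n d : ℕ) (C : Par) (τ : ℝ) : Idx r n d → Rect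
  | .inl a => ⟨AR r n C a.1 a.2, BR r n a.1 a.2, (a.1 : ℕ) - th r n, TR C a.1 a.2⟩
  | .inr (.inl a) => ⟨AL r n a.1 a.2, BL r n C a.1 a.2, LL r n C τ a.1 a.2, (a.1 : ℕ) + th r n⟩
  | .inr (.inr (.inl a)) => side r n a.1 a.2
  | .inr (.inr (.inr i)) => ⟨0, 1, r + 100 + 2 * (i : ℕ), r + 101 + 2 * (i : ℕ)⟩

/-- The label of an obstacle: the gap `(j, g)` on whose corner `C j g` it depends. -/
def lab (r n d : ℕ) : Idx r n d → Option (ℕ × ℕ)
  | .inl a => if (a.2 : ℕ) = 0 then none else some (a.1, a.2)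
  | .inr (.inl a) => if (a.2 : ℕ) = G r n then none else some (a.1, a.2 + 1)
  | .inr (.inr _) => none

/-- The moving corner with a given label. -/
def val (C : Par) : Option (ℕ × ℕ) → ℝ × ℝ
  | none => (0, 0)
  | some a => C a.1 a.2

/-- The coordinates of the corners of four labels. -/
def vals (C : Par) (l : Fin 4 → Option (ℕ × ℕ)) : Fin 4 ⊕ Fin 4 → ℝ :=
  Sum.elim (fun i => (val C (l i)).1) (fun i => (val C (l i)).2)

/-- The instance with parameters `C` and `τ`. -/
noncomputable def inst {r n d N : ℕ} (e : Fin N ≃ Idx r n d) (C : Par) (τ : ℝ) : Inst N where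
  s := (0, r)
  t := (0, -1)
  obs := fun i => rect r n d C τ (e i)

/-- The path with three links along the line `x = α + β y`. -/
noncomputable def path3 (r : ℕ) (α β : ℝ) : Fin 4 → ℝ × ℝ :=
  ![(0, r), (α + β * r, r), (α - β, -1), (0, -1)]

/-- All consecutive triples of corners of the line `g = 1 + u + v j` are collinear. -/
def Line (r : ℕ) (C : Par) (u v : ℕ) : Prop :=
  ∀ j, j + 2 < r →
    orient (C j (1 + u + v * j)) (C (j + 1) (1 + u + v * (j + 1)))
      (C (j + 2) (1 + u + v * (j + 2))) = 0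

/-- The weights: on every straight line `g = A + B j` the function `kp j * g ^ 2` is an affine function
of `j` plus a constant multiple of `kp j`. -/
noncomputable def kp (r n j : ℕ) : ℝ := 1 / (2 * (G r n : ℝ) * r + j)

/-- The base point. -/
noncomputable def Cb (r n : ℕ) (θ : Fin 9 → ℝ) (η : ℝ) : Par := fun j g =>
  cor θ (η * (kp r n j * (g : ℝ) ^ 2)) ((g : ℝ), (j : ℝ))

/-- The collapsed point of the line `g = 1 + u₀ + v₀ j`. -/
noncomputable def Cc (r n u₀ v₀ : ℕ) (θ : Fin 9 → ℝ) (η : ℝ) : Par := fun j g =>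
  cor θ (η * (kp r n j * ((g : ℝ) - (1 + u₀ + v₀ * j)) ^ 2)) ((g : ℝ), (j : ℝ))

/-- The standard matrix `(g, j) ↦ (g + 2 G j, sl g + j)`. -/
noncomputable def th0 (r n : ℕ) : Fin 9 → ℝ := ![0, 1, 2 * (G r n : ℝ), 0, sl r n, 1, 1, 0, 0]

/-- The label is on the line `g = 1 + u₀ + v₀ j`. -/
def On (u₀ v₀ : ℕ) (o : Option (ℕ × ℕ)) : Prop := ∃ j, o = some (j, 1 + u₀ + v₀ * j)

/-- At least three different labels are on the line `g = 1 + u₀ + v₀ j`. -/
def CovL (u₀ v₀ : ℕ) (l : Fin 4 → Option (ℕ × ℕ)) : Prop :=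
  ∃ a b c : Fin 4, l a ≠ l b ∧ l a ≠ l c ∧ l b ≠ l c ∧ On u₀ v₀ (l a) ∧ On u₀ v₀ (l b) ∧
    On u₀ v₀ (l c)

/-- The same for the labels of four obstacles. -/
def Cov {r n d N : ℕ} (e : Fin N ≃ Idx r n d) (u₀ v₀ : ℕ) (who : Fin 4 → Fin N) : Prop :=
  CovL u₀ v₀ (fun i => lab r n d (e (who i)))

/-- The lattice point of a label. -/
def lp : Option (ℕ × ℕ) → ℝ × ℝ
  | none => (0, 0)
  | some a => ((a.2 : ℝ), (a.1 : ℝ))

/-- The condition on `(u, ρ)` for one label. -/
def Cond (r n u₀ v₀ : ℕ) (u0 u1 u2 ρ : ℝ) (o : Option (ℕ × ℕ)) : Prop :=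
  ∀ j g, o = some (j, g) → u0 + u1 * g + u2 * j =
    ρ * (kp r n j * (g : ℝ) ^ 2) - kp r n j * ((g : ℝ) - (1 + u₀ + v₀ * j)) ^ 2

end Pool.LibML82.R
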