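import Pool.Agent.LibML82.QA3
import Pool.Agent.LibML82.RFam

/-!
# Row RA2: clearing the denominators, and the sign is decided by the lowest coefficient

Near copies of `clear` in `QA3.lean` and of `sign_stable` in `QA8.lean` (proved), with labels `Option (ℕ × ℕ)`
(`none` has the corner `(0, 0)`) and the base point `Cb`. `Pool.LibML82.Q.ev` is evaluation at `(θ, η)`.
-/

open Filter Topology

namespace Pool.LibML82.R

open Pool.LibML82.B (G pos th W D ep side)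
open Pool.LibML82.Q (cor den orient GenPos sh ev)

private theorem ra2_ev_C (θ : Fin 9 → ℝ) (η : ℝ) (p : MvPolynomial (Fin 9) ℝ) :
    ev θ η (Polynomial.C p) = MvPolynomial.eval θ p := by
  simp [ev]

private theorem ra2_ev_X (θ : Fin 9 → ℝ) (η : ℝ) : ev θ η Polynomial.X = η := by
  simp [ev]

/-- The polynomial `a + b v.1 + c v.2` of three coordinates of `θ`. -/
private noncomputable def ra2_lin (a b c : Fin 9) (v : ℝ × ℝ) : MvPolynomial (Fin 9) ℝ :=
  MvPolynomial.X a + MvPolynomial.X b * MvPolynomial.C v.1 + MvPolynomial.X c * MvPolynomial.C v.2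

private theorem ra2_eval_lin (a b c : Fin 9) (v : ℝ × ℝ) (θ : Fin 9 → ℝ) :
    MvPolynomial.eval θ (ra2_lin a b c v) = θ a + θ b * v.1 + θ c * v.2 := by
  simp [ra2_lin]

/-- The numerator of the first coordinate. -/
private noncomputable def ra2_n1 (r n : ℕ) : Option (ℕ × ℕ) → Polynomial (MvPolynomial (Fin 9) ℝ)
  | none => 0
  | some a => Polynomial.C (ra2_lin 0 1 2 (lp (some a))) -
      Polynomial.X * Polynomial.C (MvPolynomial.C (kp r n a.1 * (a.2 : ℝ) ^ 2))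

/-- The numerator of the second coordinate. -/
private noncomputable def ra2_n2 : Option (ℕ × ℕ) → Polynomial (MvPolynomial (Fin 9) ℝ)
  | none => 0
  | some a => Polynomial.C (ra2_lin 3 4 5 (lp (some a)))

private theorem ra2_ev_n1 (r n : ℕ) (θ : Fin 9 → ℝ) (η : ℝ) (l : Option (ℕ × ℕ))
    (h : den θ (lp l) ≠ 0) :
    ev θ η (ra2_n1 r n l) = den θ (lp l) * (val (Cb r n θ η) l).1 := by
  cases l with
  | none => simp [ra2_n1, val]
  | some a =>
    have h' : den θ ((a.2 : ℝ), (a.1 : ℝ)) ≠ 0 := h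
    simp only [ra2_n1, map_sub, map_mul, ra2_ev_C, ra2_ev_X, ra2_eval_lin, MvPolynomial.eval_C, val,
      Cb, cor, lp]
    rw [mul_div_cancel₀ _ h']

private theorem ra2_ev_n2 (r n : ℕ) (θ : Fin 9 → ℝ) (η : ℝ) (l : Option (ℕ × ℕ))
    (h : den θ (lp l) ≠ 0) :
    ev θ η (ra2_n2 l) = den θ (lp l) * (val (Cb r n θ η) l).2 := by
  cases l with
  | none => simp [ra2_n2, val]
  | some a =>
    have h' : den θ ((a.2 : ℝ), (a.1 : ℝ)) ≠ 0 := h
    simp only [ra2_n2, ra2_ev_C, ra2_eval_lin, val, Cb, cor, lp]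
    rw [mul_div_cancel₀ _ h']

/-- The denominator of a label as a polynomial. -/
private noncomputable def ra2_dn (l : Option (ℕ × ℕ)) : Polynomial (MvPolynomial (Fin 9) ℝ) :=
  Polynomial.C (ra2_lin 6 7 8 (lp l))

private theorem ra2_ev_dn (θ : Fin 9 → ℝ) (η : ℝ) (l : Option (ℕ × ℕ)) :
    ev θ η (ra2_dn l) = den θ (lp l) := by
  rw [ra2_dn, ra2_ev_C, ra2_eval_lin, den]

private theorem ra2_exists_var (r n : ℕ) (l : Fin 4 → Option (ℕ × ℕ)) (v : Fin 4 ⊕ Fin 4) :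
    ∃ Q : Polynomial (MvPolynomial (Fin 9) ℝ), ∀ (θ : Fin 9 → ℝ) (η : ℝ),
      (∀ j, den θ (lp (l j)) ≠ 0) →
        ev θ η Q = (∏ j, den θ (lp (l j))) * vals (Cb r n θ η) l v := by
  rcases v with j | j
  · refine ⟨ra2_n1 r n (l j) * ∏ k ∈ Finset.univ.erase j, ra2_dn (l k), fun θ η h => ?_⟩
    rw [map_mul, map_prod, ra2_ev_n1 r n θ η (l j) (h j),
      ← Finset.mul_prod_erase Finset.univ _ (Finset.mem_univ j)]
    simp only [ra2_ev_dn, vals, Sum.elim_inl]
    ring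
  · refine ⟨ra2_n2 (l j) * ∏ k ∈ Finset.univ.erase j, ra2_dn (l k), fun θ η h => ?_⟩
    rw [map_mul, map_prod, ra2_ev_n2 r n θ η (l j) (h j),
      ← Finset.mul_prod_erase Finset.univ _ (Finset.mem_univ j)]
    simp only [ra2_ev_dn, vals, Sum.elim_inr]
    ring

private theorem ra2_ev_continuous (Q : Polynomial (MvPolynomial (Fin 9) ℝ)) :
    Continuous (fun a : (Fin 9 → ℝ) × ℝ => ev a.1 a.2 Q) := by
  have h : (fun a : (Fin 9 → ℝ) × ℝ => ev a.1 a.2 Q) = fun a =>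
      ∑ i ∈ Finset.range (Q.natDegree + 1), MvPolynomial.eval a.1 (Q.coeff i) * a.2 ^ i := by
    funext a
    simp only [ev, Polynomial.coe_eval₂RingHom]
    rw [Polynomial.eval₂_eq_sum_range]
  rw [h]
  refine continuous_finsetSum _ fun i _ => ?_
  exact ((MvPolynomial.continuous_eval (Q.coeff i)).comp continuous_fst).mul
    (continuous_snd.pow i)

private theorem ra2_sign_of_tendsto (f : ℝ → ℝ) (c : ℝ) (hc : c ≠ 0)
    (hf : Tendsto f (𝓝[>] (0 : ℝ)) (𝓝 c)) :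
    ∀ᶠ η in 𝓝[>] (0 : ℝ), SignType.sign (f η) = SignType.sign c := by
  rcases lt_or_gt_of_ne hc with h | h
  · filter_upwards [hf.eventually_lt_const h] with η hη
    rw [sign_neg hη, sign_neg h]
  · filter_upwards [hf.eventually_const_lt h] with η hη
    rw [sign_pos hη, sign_pos h]

private theorem ra2_den_sh (θ : Fin 9 → ℝ) (η u0 u1 u2 : ℝ) (v : ℝ × ℝ) :
    den (θ + η • sh u0 u1 u2) v = den θ v := by
  have h6 : sh u0 u1 u2 6 = 0 := rfl
  have h7 : sh u0 u1 u2 7 = 0 := rfl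
  have h8 : sh u0 u1 u2 8 = 0 := rfl
  simp only [den, Pi.add_apply, Pi.smul_apply, smul_eq_mul, h6, h7, h8, mul_zero, add_zero]

theorem clear (r n : ℕ) (F : MvPolynomial (Fin 4 ⊕ Fin 4) ℝ) (l : Fin 4 → Option (ℕ × ℕ)) :
    ∃ (d : ℕ) (Q : Polynomial (MvPolynomial (Fin 9) ℝ)), ∀ (θ : Fin 9 → ℝ) (η : ℝ),
      (∀ a, den θ (lp (l a)) ≠ 0) →
        ev θ η Q = (∏ a, den θ (lp (l a))) ^ d * MvPolynomial.eval (vals (Cb r n θ η) l) F := by
  induction F using MvPolynomial.induction_on with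
  | C a =>
    refine ⟨0, Polynomial.C (MvPolynomial.C a), fun θ η _ => ?_⟩
    rw [ra2_ev_C, MvPolynomial.eval_C, MvPolynomial.eval_C, pow_zero, one_mul]
  | add p q hp hq =>
    obtain ⟨dp, Qs, hp⟩ := hp
    obtain ⟨dq, Qt, hq⟩ := hq
    refine ⟨dp + dq, (∏ j, ra2_dn (l j)) ^ dq * Qs + (∏ j, ra2_dn (l j)) ^ dp * Qt,
      fun θ η h => ?_⟩
    rw [map_add, map_mul, map_mul, map_pow, map_pow, map_prod, hp θ η h, hq θ η h, map_add]
    simp only [ra2_ev_dn]
    ring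
  | mul_X p v hp =>
    obtain ⟨dp, Qs, hp⟩ := hp
    obtain ⟨Qv, hv⟩ := ra2_exists_var r n l v
    refine ⟨dp + 1, Qs * Qv, fun θ η h => ?_⟩
    rw [map_mul, hp θ η h, hv θ η h, map_mul, MvPolynomial.eval_X]
    ring

theorem sign_stable (r n : ℕ) (F : MvPolynomial (Fin 4 ⊕ Fin 4) ℝ)
    (l : Fin 4 → Option (ℕ × ℕ)) :
    ∃ g : MvPolynomial (Fin 9) ℝ, g ≠ 0 ∧ ∀ θ : Fin 9 → ℝ, MvPolynomial.eval θ g ≠ 0 →
      (∀ a, 0 < den θ (lp (l a))) → ∀ u0 u1 u2 ρ : ℝ, 0 < ρ → ∀ᶠ η in 𝓝[>] (0 : ℝ),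
        SignType.sign
          (MvPolynomial.eval (vals (Cb r n (θ + η • sh u0 u1 u2) (ρ * η)) l) F) =
          SignType.sign (MvPolynomial.eval (vals (Cb r n θ η) l) F) := by
  obtain ⟨d, Q, hQ⟩ := clear r n F l
  -- the sign of the value is the sign of `ev`
  have hsg : ∀ (θ : Fin 9 → ℝ) (η : ℝ), (∀ j, 0 < den θ (lp (l j))) →
      SignType.sign (MvPolynomial.eval (vals (Cb r n θ η) l) F) = SignType.sign (ev θ η Q) := by
    intro θ η hd
    have hD : 0 < (∏ j, den θ (lp (l j))) ^ d :=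
      pow_pos (Finset.prod_pos fun j _ => hd j) _
    rw [hQ θ η (fun j => (hd j).ne'), sign_mul, sign_pos hD, one_mul]
  have hd' : ∀ (θ : Fin 9 → ℝ) (η u0 u1 u2 : ℝ), (∀ j, 0 < den θ (lp (l j))) →
      ∀ j, 0 < den (θ + η • sh u0 u1 u2) (lp (l j)) := by
    intro θ η u0 u1 u2 hd j
    rw [ra2_den_sh]
    exact hd j
  by_cases h0 : Q = 0
  · have hone : (1 : MvPolynomial (Fin 9) ℝ) ≠ 0 := one_ne_zero
    refine Exists.intro (1 : MvPolynomial (Fin 9) ℝ) (And.intro hone ?_)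
    intro θ _ hd u0 u1 u2 ρ _
    refine Eventually.of_forall ?_
    intro η
    rw [hsg _ _ (hd' θ η u0 u1 u2 hd), hsg _ _ hd, h0,
      (ev (θ + η • sh u0 u1 u2) (ρ * η)).map_zero, (ev θ η).map_zero]
  · have hdvd : (Polynomial.X : Polynomial (MvPolynomial (Fin 9) ℝ)) ^ Q.natTrailingDegree ∣ Q := by
      rw [Polynomial.X_pow_dvd_iff]
      intro d hd
      exact Polynomial.coeff_eq_zero_of_lt_natTrailingDegree hd
    obtain ⟨Q', hQ'⟩ := hdvd
    have hcoeff : Q'.coeff 0 = Q.coeff Q.natTrailingDegree := by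
      have h2 := Polynomial.coeff_X_pow_mul Q' Q.natTrailingDegree 0
      rw [zero_add, ← hQ'] at h2
      exact h2.symm
    refine ⟨Q'.coeff 0, ?_, ?_⟩
    · rw [hcoeff]
      exact Polynomial.trailingCoeff_nonzero_iff_nonzero.2 h0
    · intro θ hθ hd u0 u1 u2 ρ hρ
      obtain ⟨u, hu⟩ : ∃ u : Fin 9 → ℝ, u = sh u0 u1 u2 := ⟨_, rfl⟩
      obtain ⟨G, hG⟩ : ∃ G : (Fin 9 → ℝ) × ℝ → ℝ, G = fun a => ev a.1 a.2 Q' := ⟨_, rfl⟩
      have hval : ∀ (θ' : Fin 9 → ℝ) (η' : ℝ),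
          ev θ' η' Q = η' ^ Q.natTrailingDegree * G (θ', η') := by
        intro θ' η'
        rw [hG]
        conv_lhs => rw [hQ']
        rw [map_mul, map_pow, ra2_ev_X]
      have hlim0 : G (θ, 0) = MvPolynomial.eval θ (Q'.coeff 0) := by
        rw [hG]
        simp only [ev, Polynomial.coe_eval₂RingHom]
        rw [Polynomial.eval₂_at_zero]
      have hcont : Continuous G := by
        rw [hG]
        exact ra2_ev_continuous Q'
      rw [← hlim0] at hθ
      have p1 : Continuous fun η : ℝ => (θ + η • u, ρ * η) := by fun_prop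
      have p2 : Continuous fun η : ℝ => (θ, η) := by fun_prop
      have t1 : Tendsto (fun η : ℝ => G (θ + η • u, ρ * η)) (𝓝[>] (0 : ℝ)) (𝓝 (G (θ, 0))) := by
        have h := (hcont.comp p1).tendsto 0
        simp only [Function.comp_def, zero_smul, add_zero, mul_zero] at h
        exact h.mono_left nhdsWithin_le_nhds
      have t2 : Tendsto (fun η : ℝ => G (θ, η)) (𝓝[>] (0 : ℝ)) (𝓝 (G (θ, 0))) := by
        have h := (hcont.comp p2).tendsto 0
        simp only [Function.comp_def] at h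
        exact h.mono_left nhdsWithin_le_nhds
      have s1 := ra2_sign_of_tendsto (fun η : ℝ => G (θ + η • u, ρ * η)) _ hθ t1
      have s2 := ra2_sign_of_tendsto (fun η : ℝ => G (θ, η)) _ hθ t2
      have s3 : ∀ᶠ η in 𝓝[>] (0 : ℝ), 0 < η := self_mem_nhdsWithin
      apply (s1.and (s2.and s3)).mono
      rintro η ⟨h1, h2, hη⟩
      have e1 : SignType.sign ((ρ * η) ^ Q.natTrailingDegree) = 1 :=
        sign_pos (pow_pos (mul_pos hρ hη) _)
      have e2 : SignType.sign (η ^ Q.natTrailingDegree) = 1 := sign_pos (pow_pos hη _)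
      rw [hsg _ _ (hd' θ η u0 u1 u2 hd), hsg _ _ hd, ← hu,
        hval (θ + η • u) (ρ * η), hval θ η, sign_mul, sign_mul, e1, e2, h1, h2]

end Pool.LibML82.R
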