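import Pool.Agent.LibML82.RFam

/-!
# Row RA3: the two families are near the standard positions

For `θ` near `th0 r n = (0, 1, 2G, 0, sl, 1, 1, 0, 0)` and small `η ≥ 0`. By continuity: there are finitely many
labels, lines and triples; the coordinates of `cor θ (η * p) (g, j)` are continuous in `(θ, η)` at `(th0 r n, 0)`,
where the value is exactly `(g + 2 G j, sl g + j) = (pos j g, j + sl g)` (the denominator is `1` there); `1/16 > 0`,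
`sl r n / 4 > 0`. For the last statement: at `(th0 r n, 0)` the value of `orient` is
`(1 - 2 G sl) (2 g₂ - g₁ - g₃)` with `2 G sl = th/5 < 1` and `2 g₂ - g₁ - g₃` a nonzero integer. Intersect
finitely many neighbourhoods (`Filter.eventually_all_finset`, compare `QA5.lean` in the tar), or explicit bounds.
-/

namespace Pool.LibML82.R

open Pool.LibML82.B (G pos th W D ep side)
open Pool.LibML82.Q (cor den orient GenPos sh)

private theorem RA3_c (r n : ℕ) : th0 r n 0 = 0 ∧ th0 r n 1 = 1 ∧ th0 r n 2 = 2 * (G r n : ℝ) ∧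
    th0 r n 3 = 0 ∧ th0 r n 4 = sl r n ∧ th0 r n 5 = 1 ∧ th0 r n 6 = 1 ∧ th0 r n 7 = 0 ∧
    th0 r n 8 = 0 := ⟨rfl, rfl, rfl, rfl, rfl, rfl, rfl, rfl, rfl⟩

private theorem RA3_dcont (v : ℝ × ℝ) : Continuous fun x : (Fin 9 → ℝ) × ℝ => den x.1 v := by
  have hc : ∀ j : Fin 9, Continuous fun x : (Fin 9 → ℝ) × ℝ => x.1 j := fun j =>
    (continuous_apply j).comp continuous_fst
  exact ((hc 6).add ((hc 7).mul continuous_const)).add ((hc 8).mul continuous_const)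

private theorem RA3_den1 (r n : ℕ) (v : ℝ × ℝ) : den (th0 r n) v = 1 := by
  obtain ⟨t0, t1, t2, t3, t4, t5, t6, t7, t8⟩ := RA3_c r n
  unfold den
  rw [t6, t7, t8]
  ring

private theorem RA3_val (r n : ℕ) (p : ℝ) (v : ℝ × ℝ) :
    cor (th0 r n) (0 * p) v = (v.1 + 2 * (G r n : ℝ) * v.2, sl r n * v.1 + v.2) := by
  obtain ⟨t0, t1, t2, t3, t4, t5, t6, t7, t8⟩ := RA3_c r n
  unfold cor
  rw [RA3_den1, t0, t1, t2, t3, t4, t5]
  ext <;> simp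

private theorem RA3_cont (r n : ℕ) (p : ℝ) (v : ℝ × ℝ) :
    ContinuousAt (fun x : (Fin 9 → ℝ) × ℝ => cor x.1 (x.2 * p) v) (th0 r n, (0 : ℝ)) := by
  have hc : ∀ j : Fin 9, Continuous fun x : (Fin 9 → ℝ) × ℝ => x.1 j := fun j =>
    (continuous_apply j).comp continuous_fst
  have hd := RA3_dcont v
  have hne : den ((th0 r n, (0 : ℝ)) : (Fin 9 → ℝ) × ℝ).1 v ≠ 0 := by
    change den (th0 r n) v ≠ 0
    rw [RA3_den1]
    exact one_ne_zero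
  unfold cor
  refine ContinuousAt.prodMk ?_ ?_
  · refine ContinuousAt.div (Continuous.continuousAt ?_) hd.continuousAt hne
    exact ((((hc 0).add ((hc 1).mul continuous_const)).add ((hc 2).mul continuous_const))).sub
      (continuous_snd.mul continuous_const)
  · refine ContinuousAt.div (Continuous.continuousAt ?_) hd.continuousAt hne
    exact (((hc 3).add ((hc 4).mul continuous_const)).add ((hc 5).mul continuous_const))

open Filter Topology in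
private theorem RA3_den (r n : ℕ) (v : ℝ × ℝ) :
    ∀ᶠ x : (Fin 9 → ℝ) × ℝ in nhds (th0 r n, (0 : ℝ)), 0 < den x.1 v := by
  refine (RA3_dcont v).continuousAt.eventually (lt_mem_nhds ?_)
  change 0 < den (th0 r n) v
  rw [RA3_den1]
  exact one_pos

open Filter Topology in
private theorem RA3_cor (r n : ℕ) (p : ℝ) (v : ℝ × ℝ) (e : ℝ) (he : 0 < e) :
    ∀ᶠ x : (Fin 9 → ℝ) × ℝ in nhds (th0 r n, (0 : ℝ)),
      |(cor x.1 (x.2 * p) v).1 - (v.1 + 2 * (G r n : ℝ) * v.2)| ≤ e ∧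
        |(cor x.1 (x.2 * p) v).2 - (sl r n * v.1 + v.2)| ≤ e := by
  have h3 := Metric.tendsto_nhds.1 (RA3_cont r n p v) e he
  refine h3.mono fun x hx => ?_
  have hx' : dist (cor x.1 (x.2 * p) v) (cor (th0 r n) (0 * p) v) < e := hx
  rw [RA3_val, Prod.dist_eq, max_lt_iff, Real.dist_eq, Real.dist_eq] at hx'
  exact ⟨hx'.1.le, hx'.2.le⟩

open Filter Topology in
private theorem RA3_all (r n N : ℕ) {Q : ℕ → (Fin 9 → ℝ) × ℝ → Prop}
    (h : ∀ i, i < N → ∀ᶠ x in nhds (th0 r n, (0 : ℝ)), Q i x) :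
    ∀ᶠ x in nhds (th0 r n, (0 : ℝ)), ∀ i, i < N → Q i x := by
  have h1 : ∀ᶠ x in nhds (th0 r n, (0 : ℝ)), ∀ i ∈ Finset.range N, Q i x :=
    (Filter.eventually_all_finset _).2 fun i hi => h i (Finset.mem_range.1 hi)
  exact h1.mono fun x hx i hi => hx i (Finset.mem_range.2 hi)

private theorem RA3_G (r n : ℕ) (hr : 1 ≤ r) (hn : 1 ≤ n) : (0 : ℝ) < G r n := by
  have : 0 < G r n := Nat.mul_pos hn hr
  exact_mod_cast this

private theorem RA3_sl (r n : ℕ) (hr : 1 ≤ r) (hn : 1 ≤ n) : 0 < sl r n := by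
  have := RA3_G r n hr hn
  unfold sl th
  positivity

open Filter Topology in
private theorem RA3_near (r n : ℕ) (hr : 1 ≤ r) (hn : 1 ≤ n) (p : ℕ → ℕ → ℝ) :
    ∀ᶠ x : (Fin 9 → ℝ) × ℝ in nhds (th0 r n, (0 : ℝ)),
      Near r n (fun j g => cor x.1 (x.2 * p j g) ((g : ℝ), (j : ℝ))) := by
  have hs := RA3_sl r n hr hn
  have hm : 0 < min (1 / 16) (sl r n / 4) := lt_min (by norm_num) (by positivity)
  have a := RA3_all r n r fun j _ => RA3_all r n (G r n + 1) fun g _ =>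
    RA3_cor r n (p j g) ((g : ℝ), (j : ℝ)) _ hm
  refine a.mono fun x hx j g hj _ hg => ?_
  obtain ⟨h1, h2⟩ := hx j hj g (Nat.lt_succ_of_le hg)
  refine ⟨?_, ?_⟩
  · have e1 : pos r n j g = (g : ℝ) + 2 * (G r n : ℝ) * (j : ℝ) := by
      unfold pos
      ring
    rw [e1]
    exact h1.trans (min_le_left _ _)
  · have e2 : (j : ℝ) + sl r n * g = sl r n * (g : ℝ) + (j : ℝ) := by ring
    rw [e2]
    exact h2.trans (min_le_right _ _)

open Filter Topology in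
private theorem RA3_or (r n : ℕ) (hr : 1 ≤ r) (hn : 1 ≤ n) (p : ℕ → ℕ → ℝ) (j g₁ g₂ g₃ : ℕ)
    (hg : g₁ + g₃ ≠ 2 * g₂) :
    ∀ᶠ x : (Fin 9 → ℝ) × ℝ in nhds (th0 r n, (0 : ℝ)),
      orient (cor x.1 (x.2 * p j g₁) ((g₁ : ℝ), (j : ℝ)))
        (cor x.1 (x.2 * p (j + 1) g₂) ((g₂ : ℝ), ((j + 1 : ℕ) : ℝ)))
        (cor x.1 (x.2 * p (j + 2) g₃) ((g₃ : ℝ), ((j + 2 : ℕ) : ℝ))) ≠ 0 := by
  have hG := RA3_G r n hr hn
  have ho : Continuous fun t : (ℝ × ℝ) × (ℝ × ℝ) × (ℝ × ℝ) => orient t.1 t.2.1 t.2.2 := by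
    unfold orient
    fun_prop
  have hC := (RA3_cont r n (p j g₁) ((g₁ : ℝ), (j : ℝ))).prodMk
    ((RA3_cont r n (p (j + 1) g₂) ((g₂ : ℝ), ((j + 1 : ℕ) : ℝ))).prodMk
      (RA3_cont r n (p (j + 2) g₃) ((g₃ : ℝ), ((j + 2 : ℕ) : ℝ))))
  have hC2 := ho.continuousAt.comp hC
  refine hC2.eventually_ne ?_
  change orient (cor (th0 r n) (0 * p j g₁) ((g₁ : ℝ), (j : ℝ)))
        (cor (th0 r n) (0 * p (j + 1) g₂) ((g₂ : ℝ), ((j + 1 : ℕ) : ℝ)))
        (cor (th0 r n) (0 * p (j + 2) g₃) ((g₃ : ℝ), ((j + 2 : ℕ) : ℝ))) ≠ 0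
  rw [RA3_val, RA3_val, RA3_val]
  have e : orient ((g₁ : ℝ) + 2 * (G r n : ℝ) * (j : ℝ), sl r n * (g₁ : ℝ) + (j : ℝ))
      ((g₂ : ℝ) + 2 * (G r n : ℝ) * ((j + 1 : ℕ) : ℝ), sl r n * (g₂ : ℝ) + ((j + 1 : ℕ) : ℝ))
      ((g₃ : ℝ) + 2 * (G r n : ℝ) * ((j + 2 : ℕ) : ℝ), sl r n * (g₃ : ℝ) + ((j + 2 : ℕ) : ℝ)) =
      (2 * (g₂ : ℝ) - g₁ - g₃) * (1 - 2 * (G r n : ℝ) * sl r n) := by
    unfold orient
    push_cast
    ring
  rw [e]
  refine mul_ne_zero ?_ ?_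
  · intro h
    apply hg
    have : (g₁ : ℝ) + g₃ = 2 * g₂ := by linarith
    exact_mod_cast this
  · have h1 : 2 * (G r n : ℝ) * sl r n = th r n / 5 := by
      unfold sl
      field_simp
      ring
    have h2 : th r n < 1 := by
      unfold th
      rw [div_lt_one (by positivity)]
      have : (1 : ℝ) ≤ G r n := by
        have : 1 ≤ G r n := Nat.mul_pos hn hr
        exact_mod_cast this
      linarith
    rw [h1]
    intro h
    linarith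

theorem near_family (r n : ℕ) (hr : 1 ≤ r) (hn : 1 ≤ n) : ∃ ε δ : ℝ, 0 < ε ∧ 0 < δ ∧
    ∀ θ : Fin 9 → ℝ, (∀ a, |θ a - th0 r n a| < ε) → ∀ η : ℝ, 0 ≤ η → η < δ →
      Near r n (Cb r n θ η) ∧
      (∀ u₀ v₀ : ℕ, u₀ < n → v₀ < n → Near r n (Cc r n u₀ v₀ θ η)) ∧
      (∀ j g : ℕ, j < r → g ≤ G r n → 0 < den θ ((g : ℝ), (j : ℝ))) ∧
      (∀ j g₁ g₂ g₃ : ℕ, j + 2 < r → g₁ ≤ G r n → g₂ ≤ G r n → g₃ ≤ G r n → g₁ + g₃ ≠ 2 * g₂ →
        orient (Cb r n θ η j g₁) (Cb r n θ η (j + 1) g₂) (Cb r n θ η (j + 2) g₃) ≠ 0) := by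
  have h1 : ∀ᶠ x : (Fin 9 → ℝ) × ℝ in nhds (th0 r n, (0 : ℝ)),
      Near r n (Cb r n x.1 x.2) ∧
      (∀ u₀, u₀ < n → ∀ v₀, v₀ < n → Near r n (Cc r n u₀ v₀ x.1 x.2)) ∧
      (∀ j, j < r → ∀ g, g < G r n + 1 → 0 < den x.1 ((g : ℝ), (j : ℝ))) ∧
      (∀ j, j < r → ∀ g₁, g₁ < G r n + 1 → ∀ g₂, g₂ < G r n + 1 → ∀ g₃, g₃ < G r n + 1 →
        g₁ + g₃ ≠ 2 * g₂ →
        orient (Cb r n x.1 x.2 j g₁) (Cb r n x.1 x.2 (j + 1) g₂) (Cb r n x.1 x.2 (j + 2) g₃) ≠ 0) := by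
    have a := RA3_near r n hr hn fun j g => kp r n j * (g : ℝ) ^ 2
    have b := RA3_all r n n (Q := fun u₀ x => ∀ v₀, v₀ < n → Near r n (Cc r n u₀ v₀ x.1 x.2))
      fun u₀ _ => RA3_all r n n fun v₀ _ =>
        RA3_near r n hr hn fun j g => kp r n j * ((g : ℝ) - (1 + u₀ + v₀ * j)) ^ 2
    have c := RA3_all r n r fun j _ => RA3_all r n (G r n + 1) fun g _ =>
      RA3_den r n ((g : ℝ), (j : ℝ))
    have d := RA3_all r n r fun j _ => RA3_all r n (G r n + 1) fun g₁ _ =>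
      RA3_all r n (G r n + 1) fun g₂ _ => RA3_all r n (G r n + 1) (Q := fun g₃ x =>
        g₁ + g₃ ≠ 2 * g₂ →
        orient (Cb r n x.1 x.2 j g₁) (Cb r n x.1 x.2 (j + 1) g₂) (Cb r n x.1 x.2 (j + 2) g₃) ≠ 0)
        fun g₃ _ => by
          by_cases hg : g₁ + g₃ ≠ 2 * g₂
          · exact (RA3_or r n hr hn (fun j g => kp r n j * (g : ℝ) ^ 2) j g₁ g₂ g₃ hg).mono
              fun x hx _ => hx
          · exact Filter.Eventually.of_forall fun x h => absurd h hg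
    filter_upwards [a, b, c, d] with x a b c d
    exact ⟨a, b, c, d⟩
  obtain ⟨ε, hε, h2⟩ := Metric.eventually_nhds_iff.1 h1
  refine ⟨ε, ε, hε, hε, fun θ hθ η h0 hη => ?_⟩
  have h3 := h2 (y := (θ, η)) (by
    rw [Prod.dist_eq]
    refine max_lt ((dist_pi_lt_iff hε).2 fun j => ?_) ?_
    · rw [Real.dist_eq]
      exact hθ j
    · rw [Real.dist_eq, sub_zero, abs_of_nonneg h0]
      exact hη)
  exact ⟨h3.1, fun u₀ v₀ hu hv => h3.2.1 u₀ hu v₀ hv,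
    fun j g hj hg => h3.2.2.1 j hj g (Nat.lt_succ_of_le hg),
    fun j g₁ g₂ g₃ hj h1 h2 h3' hne => h3.2.2.2 j (by omega) g₁ (Nat.lt_succ_of_le h1) g₂
      (Nat.lt_succ_of_le h2) g₃ (Nat.lt_succ_of_le h3') hne⟩

end Pool.LibML82.R
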