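import Pool.Agent.LibML82.RFam

/-!
# Row RA5: three consecutive corners over collinear lattice points

Let `a, b, c` be the numerators of the first and second coordinate and the denominator, at the lattice points
`(g₁, j)`, `(g₂, j+1)`, `(g₃, j+2)` with `g₁ + g₃ = 2 g₂`: `b₁ - 2 b₂ + b₃ = 0`, `c₁ - 2 c₂ + c₃ = 0`,
`a₁ - 2 a₂ + a₃ = -η Dd` with `Dd = kp j P₁² - 2 kp (j+1) P₂² + kp (j+2) P₃²` (`P = g` for the base point, `P = 0` for the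
collapsed point on its own line). `orient` of the three corners times `c₁ c₂ c₃` is the determinant of the
three vectors `(a, b, c)`, which is `± η Dd (b₁ c₂ - b₂ c₁)`.
`coll_line`: `Dd = 0` (only `c₁, c₂, c₃ ≠ 0` is used).
`orient_base`: with `K = 2 G r`, `g₂ = g₁ + B`, `g₃ = g₁ + 2 B` (`B` an integer), `A = g₁ - B j`:
`Dd = 2 (A - B K)² / ((K + j)(K + j + 1)(K + j + 2))` and `A - B K = g₁ - B (K + j) ≠ 0`, because `1 ≤ g₁ ≤ G < K + j`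
(`G = G r n ≤ G r`). `b₁ / c₁ < b₂ / c₂` by `hlt`, so `b₁ c₂ - b₂ c₁ ≠ 0`.
-/

namespace Pool.LibML82.R

open Pool.LibML82.B (G pos th W D ep side)
open Pool.LibML82.Q (cor den orient GenPos sh)

private lemma RA5_key (a₁ b₁ c₁ a₂ b₂ c₂ a₃ b₃ c₃ : ℝ) (h1 : c₁ ≠ 0) (h2 : c₂ ≠ 0)
    (h3 : c₃ ≠ 0) (hb : b₃ = 2 * b₂ - b₁) (hc : c₃ = 2 * c₂ - c₁) :
    orient (a₁ / c₁, b₁ / c₁) (a₂ / c₂, b₂ / c₂) (a₃ / c₃, b₃ / c₃) =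
      (b₁ * c₂ - b₂ * c₁) * (a₁ - 2 * a₂ + a₃) / (c₁ * c₂ * c₃) := by
  unfold orient
  subst hb
  field_simp
  rw [hc]
  ring

private lemma RA5_cor (θ : Fin 9 → ℝ) (p₁ p₂ p₃ g₁ g₂ g₃ j₁ j₂ j₃ : ℝ)
    (h1 : den θ (g₁, j₁) ≠ 0) (h2 : den θ (g₂, j₂) ≠ 0) (h3 : den θ (g₃, j₃) ≠ 0)
    (hg : g₃ = 2 * g₂ - g₁) (hj : j₃ = 2 * j₂ - j₁) :
    orient (cor θ p₁ (g₁, j₁)) (cor θ p₂ (g₂, j₂)) (cor θ p₃ (g₃, j₃)) =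
      ((θ 3 + θ 4 * g₁ + θ 5 * j₁) * den θ (g₂, j₂) -
        (θ 3 + θ 4 * g₂ + θ 5 * j₂) * den θ (g₁, j₁)) * (-(p₁ - 2 * p₂ + p₃)) /
        (den θ (g₁, j₁) * den θ (g₂, j₂) * den θ (g₃, j₃)) := by
  have h := RA5_key (θ 0 + θ 1 * g₁ + θ 2 * j₁ - p₁) (θ 3 + θ 4 * g₁ + θ 5 * j₁)
    (den θ (g₁, j₁)) (θ 0 + θ 1 * g₂ + θ 2 * j₂ - p₂) (θ 3 + θ 4 * g₂ + θ 5 * j₂)
    (den θ (g₂, j₂)) (θ 0 + θ 1 * g₃ + θ 2 * j₃ - p₃) (θ 3 + θ 4 * g₃ + θ 5 * j₃)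
    (den θ (g₃, j₃)) h1 h2 h3 (by rw [hg, hj]; ring) (by simp only [den]; rw [hg, hj]; ring)
  have e : (θ 0 + θ 1 * g₁ + θ 2 * j₁ - p₁) - 2 * (θ 0 + θ 1 * g₂ + θ 2 * j₂ - p₂) +
      (θ 0 + θ 1 * g₃ + θ 2 * j₃ - p₃) = -(p₁ - 2 * p₂ + p₃) := by
    rw [hg, hj]
    ring
  rw [e] at h
  exact h

private lemma RA5_dd (X B E : ℝ) (h0 : X ≠ 0) (h1 : X + 1 ≠ 0) (h2 : X + 2 ≠ 0) :
    1 / X * (B * X + E) ^ 2 - 2 * (1 / (X + 1) * (B * (X + 1) + E) ^ 2) +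
      1 / (X + 2) * (B * (X + 2) + E) ^ 2 = 2 * E ^ 2 / (X * (X + 1) * (X + 2)) := by
  field_simp
  ring

private lemma RA5_ne (X : ℝ) (g₁ g₂ : ℕ) (h1 : 1 ≤ g₁) (hX : (g₁ : ℝ) < X) :
    (g₁ : ℝ) - ((g₂ : ℝ) - g₁) * X ≠ 0 := by
  have h1' : (1 : ℝ) ≤ (g₁ : ℝ) := by exact_mod_cast h1
  rcases lt_trichotomy g₁ g₂ with h | h | h
  · have h' : (g₁ : ℝ) + 1 ≤ (g₂ : ℝ) := by exact_mod_cast h
    have : X ≤ ((g₂ : ℝ) - g₁) * X := by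
      apply le_mul_of_one_le_left <;> linarith
    intro h0
    linarith
  · subst h
    intro h0
    simp only [sub_self, zero_mul, sub_zero] at h0
    linarith
  · have h' : (g₂ : ℝ) + 1 ≤ (g₁ : ℝ) := by exact_mod_cast h
    have : 0 ≤ ((g₁ : ℝ) - g₂) * X := by
      apply mul_nonneg <;> linarith
    intro h0
    nlinarith

theorem orient_base (r n : ℕ) (hr : 1 ≤ r) (hn : 1 ≤ n) (θ : Fin 9 → ℝ) (η : ℝ) (hη : 0 < η)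
    (j g₁ g₂ g₃ : ℕ) (h1 : 1 ≤ g₁) (hG1 : g₁ ≤ G r n) (hg : g₁ + g₃ = 2 * g₂)
    (d1 : 0 < den θ ((g₁ : ℝ), (j : ℝ))) (d2 : 0 < den θ ((g₂ : ℝ), ((j + 1 : ℕ) : ℝ)))
    (d3 : 0 < den θ ((g₃ : ℝ), ((j + 2 : ℕ) : ℝ)))
    (hlt : (Cb r n θ η j g₁).2 < (Cb r n θ η (j + 1) g₂).2) :
    orient (Cb r n θ η j g₁) (Cb r n θ η (j + 1) g₂) (Cb r n θ η (j + 2) g₃) ≠ 0 := by
  have hg' : (g₃ : ℝ) = 2 * (g₂ : ℝ) - g₁ := by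
    have : ((g₁ + g₃ : ℕ) : ℝ) = ((2 * g₂ : ℕ) : ℝ) := by rw [hg]
    push_cast at this
    linarith
  have hj' : (((j + 2 : ℕ) : ℝ)) = 2 * ((j + 1 : ℕ) : ℝ) - (j : ℝ) := by
    push_cast
    ring
  have hκ : 0 < (θ 3 + θ 4 * (g₂ : ℝ) + θ 5 * ((j + 1 : ℕ) : ℝ)) * den θ ((g₁ : ℝ), (j : ℝ)) -
      (θ 3 + θ 4 * (g₁ : ℝ) + θ 5 * (j : ℝ)) * den θ ((g₂ : ℝ), ((j + 1 : ℕ) : ℝ)) := by
    have h3 : (θ 3 + θ 4 * (g₁ : ℝ) + θ 5 * (j : ℝ)) / den θ ((g₁ : ℝ), (j : ℝ)) <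
        (θ 3 + θ 4 * (g₂ : ℝ) + θ 5 * ((j + 1 : ℕ) : ℝ)) /
          den θ ((g₂ : ℝ), ((j + 1 : ℕ) : ℝ)) := hlt
    rw [div_lt_div_iff₀ d1 d2] at h3
    linarith
  have hGp : 1 ≤ G r n := by
    unfold G
    exact Nat.mul_pos hn hr
  have hX1 : (g₁ : ℝ) < 2 * (G r n : ℝ) * r + j := by
    have e1 : (g₁ : ℝ) ≤ (G r n : ℝ) := by exact_mod_cast hG1
    have e2 : (1 : ℝ) ≤ (G r n : ℝ) := by exact_mod_cast hGp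
    have e3 : (1 : ℝ) ≤ (r : ℝ) := by exact_mod_cast hr
    have e4 : (0 : ℝ) ≤ (j : ℝ) := Nat.cast_nonneg _
    nlinarith
  have hg1 : (0 : ℝ) ≤ (g₁ : ℝ) := Nat.cast_nonneg _
  have hX0 : 0 < 2 * (G r n : ℝ) * r + j := lt_of_le_of_lt hg1 hX1
  have hE := RA5_ne _ g₁ g₂ h1 hX1
  have hD := RA5_dd (2 * (G r n : ℝ) * r + j) ((g₂ : ℝ) - g₁)
    ((g₁ : ℝ) - ((g₂ : ℝ) - g₁) * (2 * (G r n : ℝ) * r + j)) hX0.ne' (by linarith) (by linarith)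
  have hDp : 0 < kp r n j * (g₁ : ℝ) ^ 2 - 2 * (kp r n (j + 1) * (g₂ : ℝ) ^ 2) +
      kp r n (j + 2) * (g₃ : ℝ) ^ 2 := by
    have e : kp r n j * (g₁ : ℝ) ^ 2 - 2 * (kp r n (j + 1) * (g₂ : ℝ) ^ 2) +
      kp r n (j + 2) * (g₃ : ℝ) ^ 2 =
      2 * ((g₁ : ℝ) - ((g₂ : ℝ) - g₁) * (2 * (G r n : ℝ) * r + j)) ^ 2 /
        ((2 * (G r n : ℝ) * r + j) * (2 * (G r n : ℝ) * r + j + 1) *
          (2 * (G r n : ℝ) * r + j + 2)) := by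
      rw [← hD, hg']
      unfold kp
      push_cast
      have e1 : ((g₂ : ℝ) - g₁) * (2 * (G r n : ℝ) * r + j) +
        ((g₁ : ℝ) - ((g₂ : ℝ) - g₁) * (2 * (G r n : ℝ) * r + j)) = g₁ := by ring
      have e2 : ((g₂ : ℝ) - g₁) * (2 * (G r n : ℝ) * r + j + 1) +
        ((g₁ : ℝ) - ((g₂ : ℝ) - g₁) * (2 * (G r n : ℝ) * r + j)) = g₂ := by ring
      have e3 : ((g₂ : ℝ) - g₁) * (2 * (G r n : ℝ) * r + j + 2) +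
        ((g₁ : ℝ) - ((g₂ : ℝ) - g₁) * (2 * (G r n : ℝ) * r + j)) = 2 * g₂ - g₁ := by ring
      rw [e1, e2, e3, ← add_assoc (2 * (G r n : ℝ) * r) (j : ℝ) 1,
        ← add_assoc (2 * (G r n : ℝ) * r) (j : ℝ) 2]
    rw [e]
    have := sq_pos_of_ne_zero hE
    positivity
  have key := RA5_cor θ (η * (kp r n j * (g₁ : ℝ) ^ 2)) (η * (kp r n (j + 1) * (g₂ : ℝ) ^ 2))
    (η * (kp r n (j + 2) * (g₃ : ℝ) ^ 2)) g₁ g₂ g₃ j ((j + 1 : ℕ) : ℝ) ((j + 2 : ℕ) : ℝ)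
    d1.ne' d2.ne' d3.ne' hg' hj'
  have e4 : orient (Cb r n θ η j g₁) (Cb r n θ η (j + 1) g₂) (Cb r n θ η (j + 2) g₃) =
      orient (cor θ (η * (kp r n j * (g₁ : ℝ) ^ 2)) ((g₁ : ℝ), (j : ℝ)))
        (cor θ (η * (kp r n (j + 1) * (g₂ : ℝ) ^ 2)) ((g₂ : ℝ), ((j + 1 : ℕ) : ℝ)))
        (cor θ (η * (kp r n (j + 2) * (g₃ : ℝ) ^ 2)) ((g₃ : ℝ), ((j + 2 : ℕ) : ℝ))) := rfl
  rw [e4, key]
  refine div_ne_zero (mul_ne_zero ?_ ?_) (mul_pos (mul_pos d1 d2) d3).ne'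
  · intro h
    linarith
  · have e5 : -(η * (kp r n j * (g₁ : ℝ) ^ 2) - 2 * (η * (kp r n (j + 1) * (g₂ : ℝ) ^ 2)) +
        η * (kp r n (j + 2) * (g₃ : ℝ) ^ 2)) =
        -(η * (kp r n j * (g₁ : ℝ) ^ 2 - 2 * (kp r n (j + 1) * (g₂ : ℝ) ^ 2) +
      kp r n (j + 2) * (g₃ : ℝ) ^ 2)) := by ring
    rw [e5]
    exact neg_ne_zero.2 (mul_pos hη hDp).ne'

theorem coll_line (r n u₀ v₀ : ℕ) (θ : Fin 9 → ℝ) (η : ℝ)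
    (hden : ∀ j, j < r → den θ (((1 + u₀ + v₀ * j : ℕ) : ℝ), (j : ℝ)) ≠ 0) :
    Line r (Cc r n u₀ v₀ θ η) u₀ v₀ := by
  intro j hj
  have key := RA5_cor θ
    (η * (kp r n j * (((1 + u₀ + v₀ * j : ℕ) : ℝ) - (1 + u₀ + v₀ * j)) ^ 2))
    (η * (kp r n (j + 1) * (((1 + u₀ + v₀ * (j + 1) : ℕ) : ℝ) -
      (1 + u₀ + v₀ * ((j + 1 : ℕ) : ℝ))) ^ 2))
    (η * (kp r n (j + 2) * (((1 + u₀ + v₀ * (j + 2) : ℕ) : ℝ) -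
      (1 + u₀ + v₀ * ((j + 2 : ℕ) : ℝ))) ^ 2))
    ((1 + u₀ + v₀ * j : ℕ) : ℝ) ((1 + u₀ + v₀ * (j + 1) : ℕ) : ℝ)
    ((1 + u₀ + v₀ * (j + 2) : ℕ) : ℝ) j ((j + 1 : ℕ) : ℝ) ((j + 2 : ℕ) : ℝ)
    (hden j (by omega)) (hden (j + 1) (by omega)) (hden (j + 2) hj)
    (by push_cast; ring) (by push_cast; ring)
  have e4 : orient (Cc r n u₀ v₀ θ η j (1 + u₀ + v₀ * j))
      (Cc r n u₀ v₀ θ η (j + 1) (1 + u₀ + v₀ * (j + 1)))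
      (Cc r n u₀ v₀ θ η (j + 2) (1 + u₀ + v₀ * (j + 2))) = _ := key
  rw [e4]
  have z1 : (((1 + u₀ + v₀ * j : ℕ) : ℝ) - (1 + u₀ + v₀ * j)) = 0 := by push_cast; ring
  have z2 : (((1 + u₀ + v₀ * (j + 1) : ℕ) : ℝ) - (1 + u₀ + v₀ * ((j + 1 : ℕ) : ℝ))) = 0 := by
    push_cast; ring
  have z3 : (((1 + u₀ + v₀ * (j + 2) : ℕ) : ℝ) - (1 + u₀ + v₀ * ((j + 2 : ℕ) : ℝ))) = 0 := by
    push_cast; ring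
  rw [z1, z2, z3]
  ring

end Pool.LibML82.R
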