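import Pool.Agent.LibML82.RFam

/-!
# Row RA6: the choice of `τ`

`blocked_of`: finitely many triples, all with nonzero `orient` (compare the end of `blocked_base` in `BA3.lean`).
`sign_tau`: near copy of `sign_tau` in `BA3.lean` (with its private lemmas `BA3_sign1`, `BA3_sign2`), the only change
is the index type `Fin 4 ⊕ Fin 4` in place of `Fin 3`.
-/

open Filter Topology

namespace Pool.LibML82.R

open Pool.LibML82.B (G pos th W D ep side)
open Pool.LibML82.Q (cor den orient GenPos sh)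

private theorem ra6_sign1 (p : Polynomial ℝ) (h : p.coeff 0 ≠ 0) :
    ∀ᶠ τ in 𝓝[>] (0 : ℝ), SignType.sign (p.eval τ) = SignType.sign (p.coeff 0) := by
  have hc : Tendsto (fun τ : ℝ => p.eval τ) (𝓝[>] (0 : ℝ)) (𝓝 (p.coeff 0)) := by
    have h1 : Tendsto (fun τ : ℝ => p.eval τ) (𝓝 0) (𝓝 (p.eval 0)) := p.continuous.tendsto 0
    rw [← Polynomial.coeff_zero_eq_eval_zero] at h1
    exact h1.mono_left nhdsWithin_le_nhds
  rcases lt_or_gt_of_ne h with h0 | h0
  · filter_upwards [hc.eventually_lt_const h0] with τ hτ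
    rw [sign_neg hτ, sign_neg h0]
  · filter_upwards [hc.eventually_const_lt h0] with τ hτ
    rw [sign_pos hτ, sign_pos h0]

private theorem ra6_sign2 (n : ℕ) : ∀ p q : Polynomial ℝ, (∀ m, n ≤ m → p.coeff m = 0) →
    (∀ m, n ≤ m → q.coeff m = 0) →
    (∀ m, SignType.sign (p.coeff m) = SignType.sign (q.coeff m)) →
    ∀ᶠ τ in 𝓝[>] (0 : ℝ), SignType.sign (p.eval τ) = SignType.sign (q.eval τ) := by
  induction n with
  | zero =>
    intro p q hp hq _
    have hp0 : p = 0 := Polynomial.ext (fun m => by rw [hp m (Nat.zero_le m), Polynomial.coeff_zero])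
    have hq0 : q = 0 := Polynomial.ext (fun m => by rw [hq m (Nat.zero_le m), Polynomial.coeff_zero])
    rw [hp0, hq0]
    exact Eventually.of_forall (fun τ => rfl)
  | succ n ih =>
    intro p q hp hq h
    by_cases ha : p.coeff 0 = 0
    · have hb : q.coeff 0 = 0 := by
        have h0 := h 0
        rw [ha, sign_zero] at h0
        exact sign_eq_zero_iff.mp h0.symm
      have h1 := ih p.divX q.divX
        (fun m hm => by rw [Polynomial.coeff_divX]; exact hp (m + 1) (by omega))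
        (fun m hm => by rw [Polynomial.coeff_divX]; exact hq (m + 1) (by omega))
        (fun m => by rw [Polynomial.coeff_divX, Polynomial.coeff_divX]; exact h (m + 1))
      have ep : ∀ τ : ℝ, p.eval τ = p.divX.eval τ * τ := by
        intro τ
        conv_lhs => rw [← Polynomial.divX_mul_X_add p]
        rw [Polynomial.eval_add, Polynomial.eval_mul, Polynomial.eval_X, Polynomial.eval_C, ha,
          add_zero]
      have eq : ∀ τ : ℝ, q.eval τ = q.divX.eval τ * τ := by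
        intro τ
        conv_lhs => rw [← Polynomial.divX_mul_X_add q]
        rw [Polynomial.eval_add, Polynomial.eval_mul, Polynomial.eval_X, Polynomial.eval_C, hb,
          add_zero]
      filter_upwards [h1, self_mem_nhdsWithin] with τ hτ hτ0
      rw [ep, eq, sign_mul, sign_mul, hτ]
    · have hb : q.coeff 0 ≠ 0 := by
        intro hb
        have h0 := h 0
        rw [hb, sign_zero] at h0
        exact ha (sign_eq_zero_iff.mp h0)
      filter_upwards [ra6_sign1 p ha, ra6_sign1 q hb] with τ h1 h2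
      rw [h1, h2, h 0]

theorem blocked_of (r n : ℕ) (C : Par)
    (h : ∀ j g₁ g₂ g₃, j + 2 < r → 1 ≤ g₁ → g₁ ≤ G r n → 1 ≤ g₂ → g₂ ≤ G r n → 1 ≤ g₃ →
      g₃ ≤ G r n → orient (C j g₁) (C (j + 1) g₂) (C (j + 2) g₃) ≠ 0) :
    ∀ᶠ τ in 𝓝[>] (0 : ℝ), Blocked r n τ C := by
  have hev : ∀ c : ℝ, c ≠ 0 → ∀ᶠ τ in 𝓝[>] (0 : ℝ), 20 * (G r n : ℝ) * τ < |c| := by
    intro c hc
    have h3 : Tendsto (fun τ : ℝ => 20 * (G r n : ℝ) * τ) (𝓝[>] (0 : ℝ)) (𝓝 0) := by
      have h4 : Tendsto (fun τ : ℝ => 20 * (G r n : ℝ) * τ) (𝓝 0) (𝓝 (20 * (G r n : ℝ) * 0)) :=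
        (continuous_const.mul continuous_id).tendsto 0
      rw [mul_zero] at h4
      exact h4.mono_left nhdsWithin_le_nhds
    exact h3.eventually_lt_const (abs_pos.mpr hc)
  have hall : ∀ᶠ τ in 𝓝[>] (0 : ℝ), ∀ x ∈ (Finset.range r) ×ˢ ((Finset.range (G r n + 1)) ×ˢ
      ((Finset.range (G r n + 1)) ×ˢ (Finset.range (G r n + 1)))),
      x.1 + 2 < r → 1 ≤ x.2.1 → 1 ≤ x.2.2.1 → 1 ≤ x.2.2.2 →
      20 * (G r n : ℝ) * τ <
        |orient (C x.1 x.2.1) (C (x.1 + 1) x.2.2.1) (C (x.1 + 2) x.2.2.2)| := by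
    rw [Filter.eventually_all_finset]
    rintro ⟨j, g₁, g₂, g₃⟩ hx
    simp only [Finset.mem_product, Finset.mem_range] at hx
    obtain ⟨x1, x2, x3, x4⟩ := hx
    by_cases hc : j + 2 < r ∧ 1 ≤ g₁ ∧ 1 ≤ g₂ ∧ 1 ≤ g₃
    · filter_upwards [hev _ (h j g₁ g₂ g₃ hc.1 hc.2.1 (by omega) hc.2.2.1 (by omega) hc.2.2.2
        (by omega))] with τ hτ _ _ _ _
      exact hτ
    · exact Eventually.of_forall (fun τ y1 y2 y3 y4 => absurd ⟨y1, y2, y3, y4⟩ hc)
  filter_upwards [hall] with τ hτ j g₁ g₂ g₃ hj a1 b1 a2 b2 a3 b3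
  exact hτ (j, g₁, g₂, g₃) (by
    simp only [Finset.mem_product, Finset.mem_range]
    omega) hj a1 a2 a3

theorem sign_tau (F : Polynomial (MvPolynomial (Fin 4 ⊕ Fin 4) ℝ)) (v v' : Fin 4 ⊕ Fin 4 → ℝ)
    (h : ∀ m, SignType.sign (MvPolynomial.eval v (F.coeff m)) =
      SignType.sign (MvPolynomial.eval v' (F.coeff m))) :
    ∀ᶠ τ in 𝓝[>] (0 : ℝ), SignType.sign ((F.map (MvPolynomial.eval v)).eval τ) =
      SignType.sign ((F.map (MvPolynomial.eval v')).eval τ) := by
  have hp : ∀ (w : Fin 4 ⊕ Fin 4 → ℝ) (m : ℕ), F.natDegree + 1 ≤ m →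
      (F.map (MvPolynomial.eval w)).coeff m = 0 := by
    intro w m hm
    rw [Polynomial.coeff_map, Polynomial.coeff_eq_zero_of_natDegree_lt (by omega), map_zero]
  refine ra6_sign2 (F.natDegree + 1) _ _ (hp v) (hp v') (fun m => ?_)
  rw [Polynomial.coeff_map, Polynomial.coeff_map]
  exact h m

end Pool.LibML82.R
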