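import Pool.Agent.LibML82.BG1
import Pool.Agent.LibML82.RFam

/-!
# Row RG1: a segment in a thin channel is nearly horizontal

Near copy of the second half of `BG1.lean` (`side_height`, `side_near`; `Pool.LibML82.B.channel` is available; the
private lemmas of `BG1.lean` must be copied). Only the pieces `0` and `G` of wall R, the sides and the lower
side are used; the tops of these two pieces are `TR C j 0 = j` and `TR C j (G r n) ≥ j` (because
`(C j (G r n)).2 ≥ j + sl r n * G r n - sl r n / 4 ≥ j`), so both contain the heights between `j - th` and `j`.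
-/

namespace Pool.LibML82.R

open Pool.LibML82.B (G pos th W D ep side In TopPt SidePt)

private theorem RG1_free {r n d N : ℕ} (e : Fin N ≃ Idx r n d) (C : Par) (τ : ℝ)
    (b : ℝ × ℝ) (h : b ∈ (inst e C τ).free) (a : Idx r n d) :
    b ∉ (rect r n d C τ a).inner := by
  have h1 := h (e.symm a)
  have h2 : (inst e C τ).obs (e.symm a) = rect r n d C τ a := by
    simp [inst]
  rwa [h2] at h1

private theorem RG1_G {r n : ℕ} (hr : 1 ≤ r) (hn : 1 ≤ n) : 1 ≤ G r n := by
  unfold G
  exact Nat.one_le_iff_ne_zero.mpr (Nat.mul_ne_zero (by omega) (by omega))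

private theorem RG1_th {r n : ℕ} (hr : 1 ≤ r) (hn : 1 ≤ n) : 0 < th r n ∧ th r n ≤ 1 / 100 := by
  have hG : (1 : ℝ) ≤ (G r n : ℝ) := by exact_mod_cast RG1_G hr hn
  unfold th
  refine ⟨by positivity, ?_⟩
  apply one_div_le_one_div_of_le (by norm_num)
  linarith

private theorem RG1_W (r n j : ℕ) : 10 ≤ W r n j := by
  unfold W
  have : (0 : ℝ) ≤ 2 * (G r n : ℝ) * r + 2 * (G r n : ℝ) + 3 * j := by positivity
  linarith

private theorem RG1_Wle (r n j : ℕ) (hj : j < r) : W r n j ≤ W r n r := by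
  unfold W
  have : (j : ℝ) < r := by exact_mod_cast hj
  linarith

private theorem RG1_ep (r n : ℕ) : 0 < ep r n ∧ ep r n ≤ 1 / 16 := by
  have := RG1_W r n r
  unfold ep
  refine ⟨by positivity, ?_⟩
  apply one_div_le_one_div_of_le (by norm_num)
  linarith

private theorem RG1_wall {r n d N : ℕ} (hr : 1 ≤ r) (hn : 1 ≤ n) (e : Fin N ≃ Idx r n d)
    (C : Par) (τ : ℝ) (hC : Near r n C) (j : ℕ) (hj : j < r) (xl : ℝ)
    (hxl : xl = -W r n j - 1 ∨ xl = W r n j) (x y : ℝ) (h1 : xl < x) (h2 : x < xl + 1)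
    (h3 : j - th r n < y) (h4 : y < j) : (x, y) ∉ (inst e C τ).free := by
  intro hfree
  have hG := RG1_G hr hn
  have hW := RG1_W r n j
  have hGr : (1 : ℝ) ≤ (G r n : ℝ) := by exact_mod_cast hG
  have hjr : (j : ℝ) < r := by exact_mod_cast hj
  have hj0 : (0 : ℝ) ≤ j := by positivity
  rcases hxl with hxl | hxl
  · have h5 := RG1_free e C τ (x, y) hfree (Sum.inl (⟨j, hj⟩, ⟨0, Nat.succ_pos _⟩))
    apply h5
    have hB : BR r n j 0 = pos r n j (0 + 1) - 1 / 4 := by
      unfold BR; rw [if_neg (by omega)]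
    have hA : AR r n C j 0 = -W r n j - 1 := by
      unfold AR; rw [if_pos rfl]
    have hT : TR C j 0 = (j : ℝ) := by
      unfold TR; rw [if_pos rfl]
    have hpos : 1 ≤ pos r n j (0 + 1) := by
      unfold pos
      push_cast
      have : (0 : ℝ) ≤ 2 * (G r n : ℝ) * j := by positivity
      linarith
    refine ⟨?_, ?_, ?_, ?_⟩
    · show AR r n C j 0 < x
      rw [hA]; linarith
    · show x < BR r n j 0
      rw [hB]; linarith
    · exact h3
    · show y < TR C j 0
      rw [hT]; exact h4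
  · have h5 := RG1_free e C τ (x, y) hfree (Sum.inl (⟨j, hj⟩, ⟨G r n, Nat.lt_succ_self _⟩))
    apply h5
    have hB : BR r n j (G r n) = W r n j + 1 := by
      unfold BR; rw [if_pos rfl]
    have hA : AR r n C j (G r n) = (C j (G r n)).1 := by
      unfold AR; rw [if_neg (by omega)]
    have hT : TR C j (G r n) = (C j (G r n)).2 := by
      unfold TR; rw [if_neg (by omega)]
    have hCG := abs_le.mp (hC j (G r n) hj hG le_rfl).1
    have hCG2 := abs_le.mp (hC j (G r n) hj hG le_rfl).2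
    have hsl : 0 < sl r n := by
      unfold sl
      have := (RG1_th hr hn).1
      positivity
    have hslG : sl r n ≤ sl r n * (G r n : ℝ) := by
      have := mul_le_mul_of_nonneg_left hGr hsl.le
      linarith
    have hposG : pos r n j (G r n) = 2 * (G r n : ℝ) * j + G r n := rfl
    have hprod : 2 * (G r n : ℝ) * j ≤ 2 * (G r n : ℝ) * r := by
      apply mul_le_mul_of_nonneg_left hjr.le (by positivity)
    have hWdef : W r n j = 2 * (G r n : ℝ) * r + 2 * (G r n : ℝ) + 10 + 3 * j := rfl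
    refine ⟨?_, ?_, ?_, ?_⟩
    · show AR r n C j (G r n) < x
      rw [hA]; linarith [hCG.2]
    · show x < BR r n j (G r n)
      rw [hB]; linarith
    · exact h3
    · show y < TR C j (G r n)
      rw [hT]; linarith [hCG2.1]

private theorem RG1_side {r n d N : ℕ} (e : Fin N ≃ Idx r n d)
    (C : Par) (τ : ℝ) (j : ℕ) (hj : j < r) (xl : ℝ)
    (hxl : xl = -W r n j - 1 ∨ xl = W r n j) (x y : ℝ) (h1 : xl < x) (h2 : x < xl + 1)
    (h3 : -D j < y) (h4 : y < j - th r n - ep r n) : (x, y) ∉ (inst e C τ).free := by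
  intro hfree
  rcases hxl with hxl | hxl
  · have h5 := RG1_free e C τ (x, y) hfree (Sum.inr (Sum.inr (Sum.inl (⟨j, hj⟩, 0))))
    apply h5
    refine ⟨?_, ?_, ?_, ?_⟩
    · show -W r n j - 1 < x
      linarith
    · show x < -W r n j
      linarith
    · show -D j < y
      exact h3
    · show y < j - th r n - ep r n
      exact h4
  · have h5 := RG1_free e C τ (x, y) hfree (Sum.inr (Sum.inr (Sum.inl (⟨j, hj⟩, 1))))
    apply h5
    refine ⟨?_, ?_, ?_, ?_⟩
    · show W r n j < x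
      linarith
    · show x < W r n j + 1
      linarith
    · show -D j < y
      exact h3
    · show y < j - th r n - ep r n
      exact h4

private theorem RG1_bot {r n d N : ℕ} (e : Fin N ≃ Idx r n d)
    (C : Par) (τ : ℝ) (j : ℕ) (hj : j < r) (xl : ℝ)
    (hxl : xl = -W r n j - 1 ∨ xl = W r n j) (x y : ℝ) (h1 : xl < x) (h2 : x < xl + 1)
    (h3 : -D j - 1 - ep r n < y) (h4 : y < -D j - ep r n) : (x, y) ∉ (inst e C τ).free := by
  intro hfree
  have hW := RG1_W r n j
  have h5 := RG1_free e C τ (x, y) hfree (Sum.inr (Sum.inr (Sum.inl (⟨j, hj⟩, 2))))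
  apply h5
  refine ⟨?_, ?_, ?_, ?_⟩
  · show -W r n j - 1 < x
    rcases hxl with hxl | hxl <;> linarith
  · show x < W r n j + 1
    rcases hxl with hxl | hxl <;> linarith
  · show -D j - 1 - ep r n < y
    exact h3
  · show y < -D j - ep r n
    exact h4

private theorem RG1_xl {r n j : ℕ} {b : ℝ × ℝ} (hb : SidePt r n j b) :
    ∃ xl : ℝ, (xl = -W r n j - 1 ∨ xl = W r n j) ∧ b.1 = xl + 1 / 2 := by
  have hW := RG1_W r n j
  rcases abs_choice b.1 with h | h
  · exact ⟨W r n j, Or.inr rfl, by rw [← h]; exact hb.1⟩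
  · refine ⟨-W r n j - 1, Or.inl rfl, ?_⟩
    have h1 := hb.1
    rw [h] at h1
    linarith

theorem side_height {r n d N : ℕ} (hr : 1 ≤ r) (hn : 1 ≤ n) (e : Fin N ≃ Idx r n d)
    (C : Par) (τ : ℝ) (hC : Near r n C) (j : ℕ) (hj : j < r) (b : ℝ × ℝ)
    (hb : SidePt r n j b) (hfree : b ∈ (inst e C τ).free) :
    (j - th r n - ep r n ≤ b.2 ∧ b.2 ≤ j - th r n) ∨ (-D j - ep r n ≤ b.2 ∧ b.2 ≤ -D j) := by
  obtain ⟨xl, hxl, hb1⟩ := RG1_xl hb
  have hth := RG1_th hr hn
  have hep := RG1_ep r n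
  have hbb : b = (b.1, b.2) := rfl
  have h1 : b.2 ≤ j - th r n := by
    by_contra hcon
    rw [not_le] at hcon
    refine RG1_wall hr hn e C τ hC j hj xl hxl b.1 b.2 (by linarith) (by linarith) hcon ?_ hfree
    linarith [hb.2.2]
  have h2 : -D j - ep r n ≤ b.2 := by
    by_contra hcon
    rw [not_le] at hcon
    refine RG1_bot e C τ j hj xl hxl b.1 b.2 (by linarith) (by linarith) ?_ hcon hfree
    linarith [hb.2.1]
  by_cases h3 : b.2 ≤ -D j
  · exact Or.inr ⟨h2, h3⟩
  · rw [not_le] at h3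
    refine Or.inl ⟨?_, h1⟩
    by_contra hcon
    rw [not_le] at hcon
    exact RG1_side e C τ j hj xl hxl b.1 b.2 (by linarith) (by linarith) h3 hcon hfree

theorem side_near {r n d N : ℕ} (hr : 1 ≤ r) (hn : 1 ≤ n) (e : Fin N ≃ Idx r n d)
    (C : Par) (τ : ℝ) (hC : Near r n C) (j : ℕ) (hj : j < r) (p q b z : ℝ × ℝ)
    (hfree : segment ℝ p q ⊆ (inst e C τ).free) (hb : SidePt r n j b)
    (hbm : b ∈ segment ℝ p q) (hz : z ∈ segment ℝ p q) (hz1 : |z.1| ≤ W r n r) :
    |z.2 - b.2| ≤ 1 / 4 := by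
  obtain ⟨xl, hxl, hb1⟩ := RG1_xl hb
  have hth := RG1_th hr hn
  have hep := RG1_ep r n
  have hWr := RG1_W r n r
  have hWj := RG1_Wle r n j hj
  have hj0 : (0 : ℝ) ≤ j := by positivity
  have hD : D j = 2 + 3 * (j : ℝ) := rfl
  have hep4 : 4 * ep r n * (W r n r + 1) = 1 / 4 := by
    unfold ep
    have : W r n r + 1 ≠ 0 := by linarith
    field_simp
    norm_num
  have key : ∀ lo : ℝ, lo ≤ b.2 → b.2 ≤ lo + ep r n →
      ((xl < z.1 ∧ z.1 < xl + 1 ∧ lo ≤ z.2 ∧ z.2 ≤ lo + ep r n) ∨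
        |z.2 - b.2| ≤ 2 * ep r n * |z.1 - b.1|) → |z.2 - b.2| ≤ 1 / 4 := by
    intro lo h1 h2 h3
    rcases h3 with ⟨-, -, h4, h5⟩ | h3
    · rw [abs_le]; constructor <;> linarith
    · have h6 : |z.1 - b.1| ≤ 2 * (W r n r + 1) := by
        have h7 : |z.1 - b.1| ≤ |z.1| + |b.1| := abs_sub _ _
        have h8 := hb.1
        linarith
      have h9 : 2 * ep r n * |z.1 - b.1| ≤ 2 * ep r n * (2 * (W r n r + 1)) :=
        mul_le_mul_of_nonneg_left h6 (by linarith)
      have h10 : 2 * ep r n * (2 * (W r n r + 1)) = 4 * ep r n * (W r n r + 1) := by ring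
      rw [h10, hep4] at h9
      linarith
  rcases side_height hr hn e C τ hC j hj b hb (hfree hbm) with ⟨h1, h2⟩ | ⟨h1, h2⟩
  · apply key (j - th r n - ep r n) h1 (by linarith)
    refine B.channel (inst e C τ).free p q b z xl (j - th r n - ep r n) (ep r n) (th r n) hth.1 hep.1
      hfree hbm hz hb1 h1 (by linarith) ?_ ?_
    · intro x y hx1 hx2 hy1 hy2
      exact RG1_wall hr hn e C τ hC j hj xl hxl x y hx1 hx2 (by linarith) (by linarith)
    · intro x y hx1 hx2 hy1 hy2
      exact RG1_side e C τ j hj xl hxl x y hx1 hx2 (by rw [hD]; linarith) (by linarith)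
  · apply key (-D j - ep r n) h1 (by linarith)
    refine B.channel (inst e C τ).free p q b z xl (-D j - ep r n) (ep r n) (th r n) hth.1 hep.1
      hfree hbm hz hb1 h1 (by linarith) ?_ ?_
    · intro x y hx1 hx2 hy1 hy2
      exact RG1_side e C τ j hj xl hxl x y hx1 hx2 (by linarith) (by rw [hD] at hy2; linarith)
    · intro x y hx1 hx2 hy1 hy2
      exact RG1_bot e C τ j hj xl hxl x y hx1 hx2 (by linarith) (by linarith)

end Pool.LibML82.R
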