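import Pool.Agent.LibML82.G2
import Pool.Agent.LibML82.RFam

/-!
# Row RG2: a segment through the upper sides of five consecutive rings

Near copy of `BG2.lean` (`crossing` of `G2.lean` is available, also with `K = 0` for a single piece).
Let `b k` be the point of the free segment with `TopPt r n (j + k)`, `k = 0, …, 4`. The segment is part of a line
`x = c + d y` and contains all its points with `j - th/2 ≤ y ≤ j + 4 - th/2`. For `k = 1, 2, 3`, `i = j + k`:
* wall R: all pieces are solid for heights in `(i - th, i)` (`TR C i q ≥ i`): by `crossing` (`A = AR`, `B = BR`,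
  heights `(i - th, i)`) there is `g` with `pos i g - 1/4 ≤ c + d y ≤ (C i g).1` on `[i - th, i]` (excluded: left of
  `-W - 1`, right of `W + 1`). Comparing `k = 1` and `k = 3`: `0 ≤ d ≤ 4 G`. Then `crossing` for the single piece `g`
  of wall R (solid for heights in `(i - th, (C i g).2)`): `c + d y ≤ (C i g).1` up to the height `(C i g).2`.
* wall L: all pieces are solid for heights in `(i + th/2, i + th)` (`LL ≤ i + th/2`: `sl * G = th/10`, `τ ≤ th/4`):
  gap `g'`: `(C i g').1 ≤ c + d y ≤ pos i g' + 1/4` there, and then for the single piece `g' - 1` of wall L, solid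
  for heights in `((C i g').2 + τ, i + th)`: `(C i g').1 ≤ c + d y` from the height `(C i g').2 + τ` on. `g' = g`, because
  `c + d y` changes by at most `4 G * 2 th = 2/25` on `[i - th, i + th]` and `(C i g).1` is within `1/16` of `pos i g`.
So with `P k = C (j + k) (g k)`:
from wall R `c + d (P k).2 ≤ (P k).1`, from wall L
`(P k).1 ≤ c + d ((P k).2 + τ)`. So `(P k).1 = c + d (P k).2 + ε k` with `0 ≤ ε k ≤ 4 G τ`. Then
`orient (P 1) (P 2) (P 3) = ε 1 (y2 - y3) + ε 2 (y3 - y1) + ε 3 (y1 - y2)` (up to sign), `|y2 - y3|, |y1 - y2| ≤ 1 + th`,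
`|y3 - y1| ≤ 2 + th`: at most `20 G τ`, against `Blocked` (at `j + 1`; `j + 3 < r`).
-/

namespace Pool.LibML82.R

open Pool.LibML82.B (G pos th W D ep side In TopPt SidePt)

private theorem RG2_G {r n : ℕ} (hr : 1 ≤ r) (hn : 1 ≤ n) : 1 ≤ G r n := by
  unfold G
  exact Nat.one_le_iff_ne_zero.2 (Nat.mul_ne_zero (by omega) (by omega))

private theorem RG2_th {r n : ℕ} (hG : 1 ≤ G r n) :
    0 < th r n ∧ th r n ≤ 1 / 100 ∧ (G r n : ℝ) * th r n = 1 / 100 := by
  have h1 : (1 : ℝ) ≤ (G r n : ℝ) := by exact_mod_cast hG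
  have h2 : (0 : ℝ) < (G r n : ℝ) := by linarith
  unfold th
  refine ⟨by positivity, ?_, ?_⟩
  · rw [div_le_div_iff₀ (by positivity) (by norm_num)]
    linarith
  · field_simp

private theorem RG2_pos {r n i : ℕ} (hi : i < r) {g : ℕ} (hg : g ≤ G r n) :
    0 ≤ pos r n i g ∧ pos r n i g + 1 < W r n i := by
  have h1 : (0 : ℝ) ≤ (G r n : ℝ) := Nat.cast_nonneg _
  have h2 : (i : ℝ) + 1 ≤ (r : ℝ) := by exact_mod_cast hi
  have h3 : (g : ℝ) ≤ (G r n : ℝ) := by exact_mod_cast hg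
  have h4 : (0 : ℝ) ≤ (g : ℝ) := Nat.cast_nonneg _
  have h5 : (0 : ℝ) ≤ (i : ℝ) := Nat.cast_nonneg _
  have h6 : (G r n : ℝ) * i ≤ (G r n : ℝ) * r := mul_le_mul_of_nonneg_left (by linarith) h1
  have h7 : 0 ≤ (G r n : ℝ) * i := mul_nonneg h1 h5
  unfold pos W
  constructor
  · nlinarith
  · nlinarith

private theorem RG2_sl {r n : ℕ} (hG : 1 ≤ G r n) :
    0 < sl r n ∧ sl r n * (G r n : ℝ) = th r n / 10 ∧ sl r n ≤ th r n / 10 := by
  obtain ⟨ht0, -, -⟩ := RG2_th hG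
  have h1 : (1 : ℝ) ≤ (G r n : ℝ) := by exact_mod_cast hG
  have h2 : (0 : ℝ) < (G r n : ℝ) := by linarith
  have h3 : 0 < sl r n := by unfold sl; positivity
  have h4 : sl r n * (G r n : ℝ) = th r n / 10 := by
    unfold sl
    field_simp
  refine ⟨h3, h4, ?_⟩
  nlinarith

/-- the height of a corner -/
private theorem RG2_hgt {r n : ℕ} (hG : 1 ≤ G r n) {C : Par} (hC : Near r n C) {i : ℕ} (hi : i < r) {g : ℕ}
    (hg1 : 1 ≤ g) (hg : g ≤ G r n) : (i : ℝ) ≤ (C i g).2 ∧ (C i g).2 ≤ (i : ℝ) + th r n / 8 := by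
  obtain ⟨hs0, hs1, hs2⟩ := RG2_sl hG
  have h1 := abs_le.1 (hC i g hi hg1 hg).2
  have h2 : (1 : ℝ) ≤ (g : ℝ) := by exact_mod_cast hg1
  have h3 : (g : ℝ) ≤ (G r n : ℝ) := by exact_mod_cast hg
  have h4 : sl r n * 1 ≤ sl r n * g := mul_le_mul_of_nonneg_left h2 hs0.le
  have h5 : sl r n * g ≤ sl r n * (G r n : ℝ) := mul_le_mul_of_nonneg_left h3 hs0.le
  constructor
  · linarith
  · linarith

/-- one piece -/
private theorem RG2_one (A B c d y₁ y₂ : ℝ) (hy : y₁ < y₂) (hAB : A < B)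
    (H : ∀ y, y₁ < y → y < y₂ → ¬ (A < c + d * y ∧ c + d * y < B)) :
    (∀ y, y₁ ≤ y → y ≤ y₂ → c + d * y ≤ A) ∨ (∀ y, y₁ ≤ y → y ≤ y₂ → B ≤ c + d * y) := by
  rcases crossing (fun _ => A) (fun _ => B) 0 c d y₁ y₂ hy (fun _ _ => hAB) (fun _ _ => H) with
    h | h | ⟨q, hq, -⟩
  · exact Or.inl h
  · exact Or.inr h
  · exact absurd hq (by omega)

private theorem RG2_R {r n : ℕ} (hG : 1 ≤ G r n) (C : Par) (hC : Near r n C) (i : ℕ) (hi : i < r)
    (c d : ℝ)
    (hR : ∀ q, q ≤ G r n → ∀ y, (i : ℝ) - th r n < y → y < TR C i q →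
      ¬ (AR r n C i q < c + d * y ∧ c + d * y < BR r n i q))
    (y0 : ℝ) (hy0 : (i : ℝ) - th r n ≤ y0) (hy0' : y0 ≤ (i : ℝ)) (hb : |c + d * y0| ≤ W r n i + 1 / 2) :
    ∃ g, 1 ≤ g ∧ g ≤ G r n ∧ (∀ y, (i : ℝ) - th r n ≤ y → y ≤ (i : ℝ) →
      pos r n i g - 1 / 4 ≤ c + d * y ∧ c + d * y ≤ (C i g).1) ∧ c + d * (C i g).2 ≤ (C i g).1 := by
  obtain ⟨ht0, ht1, ht2⟩ := RG2_th hG
  obtain ⟨hb1, hb2⟩ := abs_le.1 hb
  have hps : ∀ q, pos r n i (q + 1) = pos r n i q + 1 := by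
    intro q
    unfold pos
    push_cast
    ring
  have hAB : ∀ q, q ≤ G r n → AR r n C i q < BR r n i q := by
    intro q hq
    unfold AR BR
    by_cases h0 : q = 0
    · have h1 : q ≠ G r n := by omega
      rw [if_pos h0, if_neg h1]
      have h2 := RG2_pos (n := n) hi (g := q + 1) (by omega)
      linarith
    · rw [if_neg h0]
      have h2 := RG2_pos hi hq
      have h3 := abs_le.1 (hC i q hi (by omega) hq).1
      by_cases h1 : q = G r n
      · rw [if_pos h1]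
        linarith
      · rw [if_neg h1, hps]
        linarith
  have hTR : ∀ q, q ≤ G r n → (i : ℝ) ≤ TR C i q := by
    intro q hq
    unfold TR
    by_cases h0 : q = 0
    · rw [if_pos h0]
    · rw [if_neg h0]
      exact (RG2_hgt hG hC hi (by omega) hq).1
  rcases crossing (AR r n C i) (BR r n i) (G r n) c d ((i : ℝ) - th r n) (i : ℝ) (by linarith) hAB
    (fun q hq y h1 h2 => hR q hq y h1 (lt_of_lt_of_le h2 (hTR q hq))) with
    h | h | ⟨q, hq, h⟩
  · exfalso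
    have h1 := h y0 hy0 hy0'
    unfold AR at h1
    rw [if_pos rfl] at h1
    linarith
  · exfalso
    have h1 := h y0 hy0 hy0'
    unfold BR at h1
    rw [if_pos rfl] at h1
    linarith
  · have hg1 : 1 ≤ q + 1 := by omega
    have hg2 : q + 1 ≤ G r n := by omega
    have hgap : ∀ y, (i : ℝ) - th r n ≤ y → y ≤ (i : ℝ) →
        pos r n i (q + 1) - 1 / 4 ≤ c + d * y ∧ c + d * y ≤ (C i (q + 1)).1 := by
      intro y h1 h2
      obtain ⟨h3, h4⟩ := h y h1 h2
      unfold BR at h3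
      unfold AR at h4
      rw [if_neg (by omega)] at h3 h4
      exact ⟨h3, h4⟩
    refine ⟨q + 1, hg1, hg2, hgap, ?_⟩
    have hhg := RG2_hgt hG hC hi hg1 hg2
    have eA : AR r n C i (q + 1) = (C i (q + 1)).1 := by
      unfold AR
      rw [if_neg (by omega)]
    have eT : TR C i (q + 1) = (C i (q + 1)).2 := by
      unfold TR
      rw [if_neg (by omega)]
    rcases RG2_one (AR r n C i (q + 1)) (BR r n i (q + 1)) c d ((i : ℝ) - th r n) (C i (q + 1)).2
      (by linarith [hhg.1]) (hAB _ hg2) (fun y h1 h2 => hR (q + 1) hg2 y h1 (by rw [eT]; exact h2)) with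
      h' | h'
    · have h1 := h' (C i (q + 1)).2 (by linarith [hhg.1]) le_rfl
      rw [eA] at h1
      exact h1
    · exfalso
      have h1 := h' ((i : ℝ) - th r n) le_rfl (by linarith [hhg.1])
      have h2 := (hgap ((i : ℝ) - th r n) le_rfl (by linarith)).2
      have h3 := hAB _ hg2
      rw [eA] at h3
      linarith

private theorem RG2_Lw {r n : ℕ} (hG : 1 ≤ G r n) (C : Par) (τ : ℝ) (hτ : 0 < τ) (hτ1 : τ ≤ th r n / 4)
    (hC : Near r n C) (i : ℕ) (hi : i < r) (c d : ℝ) (hd0 : 0 ≤ d) (hd : d ≤ 4 * (G r n : ℝ))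
    (hL : ∀ q, q ≤ G r n → ∀ y, LL r n C τ i q < y → y < (i : ℝ) + th r n →
      ¬ (AL r n i q < c + d * y ∧ c + d * y < BL r n C i q))
    (g : ℕ) (hg1 : 1 ≤ g) (hg : g ≤ G r n)
    (hlow : pos r n i g - 1 / 4 ≤ c + d * ((i : ℝ) - th r n)) (hup : c + d * (i : ℝ) ≤ (C i g).1) :
    (C i g).1 ≤ c + d * ((C i g).2 + τ) := by
  obtain ⟨ht0, ht1, ht2⟩ := RG2_th hG
  have hG1 : (1 : ℝ) ≤ (G r n : ℝ) := by exact_mod_cast hG
  have hps : ∀ q, pos r n i (q + 1) = pos r n i q + 1 := by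
    intro q
    unfold pos
    push_cast
    ring
  have hdth : d * th r n ≤ 1 / 25 := by
    have h1 : d * th r n ≤ 4 * (G r n : ℝ) * th r n := mul_le_mul_of_nonneg_right hd ht0.le
    have h2 : 4 * (G r n : ℝ) * th r n = 4 * ((G r n : ℝ) * th r n) := by ring
    rw [h2, ht2] at h1
    linarith
  have hdth0 : 0 ≤ d * th r n := mul_nonneg hd0 ht0.le
  have hpg := RG2_pos hi hg
  have hXg := abs_le.1 (hC i g hi hg1 hg).1
  have hAB : ∀ q, q ≤ G r n → AL r n i q < BL r n C i q := by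
    intro q hq
    unfold AL BL
    by_cases h0 : q = 0
    · have h1 : q ≠ G r n := by omega
      rw [if_pos h0, if_neg h1]
      have h2 := RG2_pos (n := n) hi (g := q + 1) (by omega)
      have h3 := abs_le.1 (hC i (q + 1) hi (by omega) (by omega)).1
      linarith
    · rw [if_neg h0]
      have h2 := RG2_pos hi hq
      by_cases h1 : q = G r n
      · rw [if_pos h1]
        linarith
      · rw [if_neg h1]
        have h3 := abs_le.1 (hC i (q + 1) hi (by omega) (by omega)).1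
        rw [hps] at h3
        linarith
  have hLL : ∀ q, q ≤ G r n → LL r n C τ i q ≤ (i : ℝ) + th r n / 2 := by
    intro q hq
    unfold LL
    by_cases h1 : q = G r n
    · rw [if_pos h1]
    · rw [if_neg h1]
      have h2 := (RG2_hgt hG hC hi (g := q + 1) (by omega) (by omega)).2
      linarith
  have e1 : c + d * ((i : ℝ) + th r n / 2) = c + d * (i : ℝ) + d * th r n / 2 := by ring
  have e2 : c + d * ((i : ℝ) - th r n) = c + d * (i : ℝ) - d * th r n := by ring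
  rcases crossing (AL r n i) (BL r n C i) (G r n) c d ((i : ℝ) + th r n / 2) ((i : ℝ) + th r n)
    (by linarith) hAB (fun q hq y h1 h2 => hL q hq y (lt_of_le_of_lt (hLL q hq) h1) h2)
    with h | h | ⟨q, hq, h⟩
  · exfalso
    have h1 := h ((i : ℝ) + th r n / 2) le_rfl (by linarith)
    unfold AL at h1
    rw [if_pos rfl] at h1
    linarith
  · exfalso
    have h1 := h ((i : ℝ) + th r n / 2) le_rfl (by linarith)
    unfold BL at h1
    rw [if_pos rfl] at h1
    linarith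
  · obtain ⟨h3, -⟩ := h ((i : ℝ) + th r n / 2) le_rfl (by linarith)
    obtain ⟨h3', h4⟩ := h ((i : ℝ) + th r n) (by linarith) le_rfl
    have eB : BL r n C i q = (C i (q + 1)).1 := by
      unfold BL
      rw [if_neg (by omega)]
    have eL : LL r n C τ i q = (C i (q + 1)).2 + τ := by
      unfold LL
      rw [if_neg (by omega)]
    rw [eB] at h3 h3'
    unfold AL at h4
    rw [if_neg (by omega)] at h4
    have h5 := abs_le.1 (hC i (q + 1) hi (by omega) (by omega)).1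
    have e3 : c + d * ((i : ℝ) + th r n) = c + d * (i : ℝ) + d * th r n := by ring
    have hpp : pos r n i (q + 1) - pos r n i g = ((q + 1 : ℕ) : ℝ) - (g : ℝ) := by
      unfold pos
      ring
    have h6 : ((q + 1 : ℕ) : ℝ) < (g : ℝ) + 1 := by linarith
    have h7 : (g : ℝ) < ((q + 1 : ℕ) : ℝ) + 1 := by linarith
    have h8 : q + 1 < g + 1 := by exact_mod_cast h6
    have h9 : g < q + 1 + 1 := by exact_mod_cast h7
    have h10 : q + 1 = g := by omega
    have hhg := RG2_hgt hG hC hi (g := q + 1) (by omega) (by omega)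
    rw [← h10]
    rcases RG2_one (AL r n i q) (BL r n C i q) c d ((C i (q + 1)).2 + τ) ((i : ℝ) + th r n)
      (by linarith [hhg.2]) (hAB q (by omega)) (fun y h1 h2 => hL q (by omega) y (by rw [eL]; exact h1) h2) with
      h' | h'
    · exfalso
      have h1 := h' ((i : ℝ) + th r n) (by linarith [hhg.2]) le_rfl
      have h2 := hAB q (by omega)
      rw [eB] at h2
      linarith
    · have h1 := h' ((C i (q + 1)).2 + τ) le_rfl (by linarith [hhg.2])
      rw [eB] at h1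
      exact h1

private theorem RG2_free {r n d N : ℕ} (e : Fin N ≃ Idx r n d) (C : Par) (τ : ℝ) {P : ℝ × ℝ}
    (h : P ∈ (inst e C τ).free) (a : Idx r n d) : P ∉ (rect r n d C τ a).inner := by
  have h1 := h (e.symm a)
  change P ∉ (rect r n d C τ (e (e.symm a))).inner at h1
  rwa [Equiv.apply_symm_apply] at h1

/-- three points near a line -/
private theorem RG2_orient (c d K τ : ℝ) (p q r : ℝ × ℝ) (hd0 : 0 ≤ d) (hd : d ≤ 4 * K) (hτ : 0 < τ)
    (p1 : c + d * p.2 ≤ p.1) (p2 : p.1 ≤ c + d * (p.2 + τ)) (q1 : c + d * q.2 ≤ q.1)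
    (q2 : q.1 ≤ c + d * (q.2 + τ)) (r1 : c + d * r.2 ≤ r.1) (r2 : r.1 ≤ c + d * (r.2 + τ))
    (y1 : 0 ≤ q.2 - p.2) (y1' : q.2 - p.2 ≤ 2) (y2 : 0 ≤ r.2 - p.2) (y2' : r.2 - p.2 ≤ 3) :
    |Pool.LibML82.Q.orient p q r| ≤ 20 * K * τ := by
  obtain ⟨a, ha⟩ : ∃ a, a = p.1 - (c + d * p.2) := ⟨_, rfl⟩
  obtain ⟨b, hb⟩ : ∃ b, b = q.1 - (c + d * q.2) := ⟨_, rfl⟩
  obtain ⟨e, he⟩ : ∃ e, e = r.1 - (c + d * r.2) := ⟨_, rfl⟩
  have hT : d * τ ≤ 4 * K * τ := mul_le_mul_of_nonneg_right hd hτ.le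
  have a0 : 0 ≤ a := by rw [ha]; linarith
  have b0 : 0 ≤ b := by rw [hb]; linarith
  have e0 : 0 ≤ e := by rw [he]; linarith
  have a1 : a ≤ 4 * K * τ := by rw [ha]; linarith
  have b1 : b ≤ 4 * K * τ := by rw [hb]; linarith
  have e1 : e ≤ 4 * K * τ := by rw [he]; linarith
  obtain ⟨M, hM⟩ : ∃ M, M = 4 * K * τ := ⟨_, rfl⟩
  rw [← hM] at a1 b1 e1
  have hM0 : 0 ≤ M := a0.trans a1
  have key : Pool.LibML82.Q.orient p q r = (b - a) * (r.2 - p.2) - (q.2 - p.2) * (e - a) := by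
    unfold Pool.LibML82.Q.orient
    rw [ha, hb, he]
    ring
  have h1 : |(b - a) * (r.2 - p.2)| ≤ M * 3 := by
    rw [abs_mul]
    exact mul_le_mul (abs_le.2 ⟨by linarith, by linarith⟩) (abs_le.2 ⟨by linarith, by linarith⟩)
      (abs_nonneg _) hM0
  have h2 : |(q.2 - p.2) * (e - a)| ≤ 2 * M := by
    rw [abs_mul]
    exact mul_le_mul (abs_le.2 ⟨by linarith, by linarith⟩) (abs_le.2 ⟨by linarith, by linarith⟩)
      (abs_nonneg _) (by norm_num)
  have h3 := abs_sub ((b - a) * (r.2 - p.2)) ((q.2 - p.2) * (e - a))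
  rw [key]
  have h4 : 20 * K * τ = 5 * M := by rw [hM]; ring
  rw [h4]
  linarith

/-- the segment is part of a line -/
private theorem RG2_line (p q b0 b4 : ℝ × ℝ) (h0 : b0 ∈ segment ℝ p q) (h4 : b4 ∈ segment ℝ p q)
    (h : b0.2 < b4.2) : ∃ c d : ℝ, (∀ z ∈ segment ℝ p q, z.1 = c + d * z.2) ∧
      ∀ y, b0.2 ≤ y → y ≤ b4.2 → (c + d * y, y) ∈ segment ℝ p q := by
  obtain ⟨a0, s0, ha0, hs0, has0, rfl⟩ := h0
  obtain ⟨a4, s4, ha4, hs4, has4, rfl⟩ := h4
  have e0 : a0 = 1 - s0 := by linarith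
  have e4 : a4 = 1 - s4 := by linarith
  subst e0 e4
  simp only [Prod.snd_add, Prod.smul_snd, smul_eq_mul] at h ⊢
  have h1 : 0 < (s4 - s0) * (q.2 - p.2) := by nlinarith
  have hq : q.2 - p.2 ≠ 0 := by
    intro h2
    rw [h2, mul_zero] at h1
    exact lt_irrefl _ h1
  obtain ⟨d, hd⟩ : ∃ d : ℝ, d = (q.1 - p.1) / (q.2 - p.2) := ⟨_, rfl⟩
  have hd' : q.1 - p.1 = d * (q.2 - p.2) := by
    rw [hd, div_mul_cancel₀ _ hq]
  have hline : ∀ z ∈ segment ℝ p q, z.1 = (p.1 - d * p.2) + d * z.2 := by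
    rintro z ⟨a, s, ha, hs, has, rfl⟩
    have e : a = 1 - s := by linarith
    subst e
    simp only [Prod.fst_add, Prod.smul_fst, Prod.snd_add, Prod.smul_snd, smul_eq_mul]
    linear_combination s * hd'
  refine ⟨p.1 - d * p.2, d, hline, ?_⟩
  intro y hy1 hy2
  have hc : Convex ℝ (segment ℝ p q) := convex_segment p q
  have hm0 : ((1 - s0) • p + s0 • q) ∈ segment ℝ p q := ⟨1 - s0, s0, ha0, hs0, by ring, rfl⟩
  have hm4 : ((1 - s4) • p + s4 • q) ∈ segment ℝ p q := ⟨1 - s4, s4, ha4, hs4, by ring, rfl⟩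
  obtain ⟨Y0, hY0⟩ : ∃ Y0 : ℝ, Y0 = (1 - s0) * p.2 + s0 * q.2 := ⟨_, rfl⟩
  obtain ⟨Y4, hY4⟩ : ∃ Y4 : ℝ, Y4 = (1 - s4) * p.2 + s4 * q.2 := ⟨_, rfl⟩
  rw [← hY0, ← hY4] at h
  rw [← hY0] at hy1
  rw [← hY4] at hy2
  have hpos : 0 < Y4 - Y0 := by linarith
  obtain ⟨t, ht⟩ : ∃ t : ℝ, t = (y - Y0) / (Y4 - Y0) := ⟨_, rfl⟩
  have ht0 : 0 ≤ t := by
    rw [ht]
    exact div_nonneg (by linarith) hpos.le
  have ht1 : t ≤ 1 := by
    rw [ht, div_le_one hpos]
    linarith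
  have hty : t * (Y4 - Y0) = y - Y0 := by
    rw [ht, div_mul_cancel₀ _ hpos.ne']
  have hmem := hc hm0 hm4 (show 0 ≤ 1 - t by linarith) ht0 (by ring)
  have hl := hline _ hmem
  have hy : ((1 - t) • ((1 - s0) • p + s0 • q) + t • ((1 - s4) • p + s4 • q)).2 = y := by
    simp only [Prod.snd_add, Prod.smul_snd, smul_eq_mul]
    rw [← hY0, ← hY4]
    linarith
  rw [hy] at hl
  have : ((p.1 - d * p.2) + d * y, y) = (1 - t) • ((1 - s0) • p + s0 • q) + t • ((1 - s4) • p + s4 • q) :=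
    Prod.ext hl.symm hy.symm
  rw [this]
  exact hmem

theorem top_five {r n d N : ℕ} (hr : 1 ≤ r) (hn : 1 ≤ n) (e : Fin N ≃ Idx r n d)
    (C : Par) (τ : ℝ) (hτ : 0 < τ) (hτ1 : τ ≤ th r n / 4) (hC : Near r n C)
    (hB : Blocked r n τ C) (j : ℕ) (hj : j + 4 < r) (p q : ℝ × ℝ)
    (hfree : segment ℝ p q ⊆ (inst e C τ).free) (b : ℕ → ℝ × ℝ)
    (hb : ∀ k, k ≤ 4 → b k ∈ segment ℝ p q ∧ TopPt r n (j + k) (b k)) : False := by
  have hG := RG2_G hr hn
  obtain ⟨ht0, ht1, ht2⟩ := RG2_th hG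
  have hG1 : (1 : ℝ) ≤ (G r n : ℝ) := by exact_mod_cast hG
  obtain ⟨hb0, hb0'⟩ := hb 0 (by omega)
  obtain ⟨hb4, hb4'⟩ := hb 4 le_rfl
  have hy0 : (b 0).2 = (j : ℝ) - th r n / 2 := by
    have := hb0'.2
    push_cast at this
    linarith
  have hy4 : (b 4).2 = (j : ℝ) + 4 - th r n / 2 := by
    have := hb4'.2
    push_cast at this
    linarith
  obtain ⟨c, dd, hline, hseg⟩ := RG2_line p q (b 0) (b 4) hb0 hb4 (by rw [hy0, hy4]; linarith)
  rw [hy0, hy4] at hseg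
  have hfr : ∀ y, (j : ℝ) - th r n / 2 ≤ y → y ≤ (j : ℝ) + 4 - th r n / 2 → ∀ a : Idx r n d,
      (c + dd * y, y) ∉ (rect r n d C τ a).inner := fun y h1 h2 a =>
    RG2_free e C τ (hfree (hseg y h1 h2)) a
  -- wall R
  have hRk : ∀ k, 1 ≤ k → k ≤ 3 → ∃ g, 1 ≤ g ∧ g ≤ G r n ∧ (∀ y, ((j + k : ℕ) : ℝ) - th r n ≤ y →
      y ≤ ((j + k : ℕ) : ℝ) → pos r n (j + k) g - 1 / 4 ≤ c + dd * y ∧ c + dd * y ≤ (C (j + k) g).1) ∧
      c + dd * (C (j + k) g).2 ≤ (C (j + k) g).1 := by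
    intro k hk1 hk3
    obtain ⟨hbk, hbk'⟩ := hb k (by omega)
    have h1 := hline _ hbk
    have hk1' : (1 : ℝ) ≤ (k : ℝ) := by exact_mod_cast hk1
    have hk3' : (k : ℝ) ≤ 3 := by exact_mod_cast hk3
    have hbk2 : (b k).2 = ((j + k : ℕ) : ℝ) - th r n / 2 := by
      have := hbk'.2
      push_cast at this ⊢
      linarith
    refine RG2_R hG C hC (j + k) (by omega) c dd ?_ (((j + k : ℕ) : ℝ) - th r n / 2) (by linarith) (by linarith) ?_
    · intro q' hq' y hy1 hy2 ⟨h2, h3⟩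
      have hT : TR C (j + k) q' ≤ ((j + k : ℕ) : ℝ) + th r n / 8 := by
        unfold TR
        by_cases h0 : q' = 0
        · rw [if_pos h0]
          linarith
        · rw [if_neg h0]
          exact (RG2_hgt hG hC (by omega) (by omega) hq').2
      have hy2' : y < (j : ℝ) + k + th r n / 8 := by
        push_cast at hT
        linarith
      have hy1' : (j : ℝ) + k - th r n < y := by
        push_cast at hy1
        exact hy1
      refine hfr y (by linarith) (by linarith) (Sum.inl (⟨j + k, by omega⟩, ⟨q', by omega⟩)) ?_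
      refine ⟨h2, h3, ?_, ?_⟩
      · change ((j + k : ℕ) : ℝ) - th r n < y
        exact hy1
      · change y < TR C (j + k) q'
        exact hy2
    · rw [← hbk2, ← h1]
      exact hbk'.1
  choose! g hg1 hg2 hgR hgR2 using hRk
  -- the slope
  have hdd : 0 ≤ dd ∧ dd ≤ 4 * (G r n : ℝ) := by
    obtain ⟨h1, h2⟩ := hgR 1 le_rfl (by norm_num) ((j + 1 : ℕ) : ℝ) (by linarith) le_rfl
    obtain ⟨h3, h4⟩ := hgR 3 (by norm_num) le_rfl ((j + 3 : ℕ) : ℝ) (by linarith) le_rfl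
    have h5 := abs_le.1 (hC (j + 1) (g 1) (by omega) (hg1 1 le_rfl (by norm_num)) (hg2 1 le_rfl (by norm_num))).1
    have h6 := abs_le.1 (hC (j + 3) (g 3) (by omega) (hg1 3 (by norm_num) le_rfl) (hg2 3 (by norm_num) le_rfl)).1
    have g1a : (1 : ℝ) ≤ (g 1 : ℝ) := by exact_mod_cast hg1 1 le_rfl (by norm_num)
    have g1b : (g 1 : ℝ) ≤ (G r n : ℝ) := by exact_mod_cast hg2 1 le_rfl (by norm_num)
    have g3a : (1 : ℝ) ≤ (g 3 : ℝ) := by exact_mod_cast hg1 3 (by norm_num) le_rfl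
    have g3b : (g 3 : ℝ) ≤ (G r n : ℝ) := by exact_mod_cast hg2 3 (by norm_num) le_rfl
    unfold pos at h1 h3 h5 h6
    push_cast at h1 h2 h3 h4 h5 h6
    constructor
    · nlinarith
    · nlinarith
  obtain ⟨hd0, hd4⟩ := hdd
  have hD : ∀ k, 1 ≤ k → k ≤ 3 → (C (j + k) (g k)).1 ≤ c + dd * ((C (j + k) (g k)).2 + τ) := by
    intro k hk1 hk3
    have hk1' : (1 : ℝ) ≤ (k : ℝ) := by exact_mod_cast hk1
    have hk3' : (k : ℝ) ≤ 3 := by exact_mod_cast hk3
    refine RG2_Lw hG C τ hτ hτ1 hC (j + k) (by omega) c dd hd0 hd4 ?_ (g k) (hg1 k hk1 hk3) (hg2 k hk1 hk3)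
      (hgR k hk1 hk3 _ le_rfl (by linarith)).1 (hgR k hk1 hk3 _ (by linarith) le_rfl).2
    intro q' hq' y hy1 hy2 ⟨h2, h3⟩
    have hLlow : ((j + k : ℕ) : ℝ) ≤ LL r n C τ (j + k) q' := by
      unfold LL
      by_cases h0 : q' = G r n
      · rw [if_pos h0]
        linarith
      · rw [if_neg h0]
        have := (RG2_hgt hG hC (i := j + k) (g := q' + 1) (by omega) (by omega) (by omega)).1
        linarith
    have hy1' : (j : ℝ) + k ≤ y := by
      push_cast at hLlow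
      linarith
    have hy2' : y < (j : ℝ) + k + th r n := by
      push_cast at hy2
      exact hy2
    refine hfr y (by linarith) (by linarith) (Sum.inr (Sum.inl (⟨j + k, by omega⟩, ⟨q', by omega⟩))) ?_
    refine ⟨h2, h3, ?_, ?_⟩
    · change LL r n C τ (j + k) q' < y
      exact hy1
    · change y < ((j + k : ℕ) : ℝ) + th r n
      exact hy2
  have hbl := hB (j + 1) (g 1) (g 2) (g 3) (by omega) (hg1 1 le_rfl (by norm_num)) (hg2 1 le_rfl (by norm_num))
    (hg1 2 (by norm_num) (by norm_num)) (hg2 2 (by norm_num) (by norm_num)) (hg1 3 (by norm_num) le_rfl)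
    (hg2 3 (by norm_num) le_rfl)
  rw [show j + 1 + 1 = j + 2 from rfl, show j + 1 + 2 = j + 3 from rfl] at hbl
  have t1 := RG2_hgt hG hC (i := j + 1) (by omega) (hg1 1 le_rfl (by norm_num)) (hg2 1 le_rfl (by norm_num))
  have t2 := RG2_hgt hG hC (i := j + 2) (by omega) (hg1 2 (by norm_num) (by norm_num))
    (hg2 2 (by norm_num) (by norm_num))
  have t3 := RG2_hgt hG hC (i := j + 3) (by omega) (hg1 3 (by norm_num) le_rfl) (hg2 3 (by norm_num) le_rfl)
  push_cast at t1 t2 t3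
  refine absurd hbl (not_lt.2 (RG2_orient c dd (G r n : ℝ) τ _ _ _ hd0 hd4 hτ
    (hgR2 1 le_rfl (by norm_num)) (hD 1 le_rfl (by norm_num))
    (hgR2 2 (by norm_num) (by norm_num)) (hD 2 (by norm_num) (by norm_num))
    (hgR2 3 (by norm_num) le_rfl) (hD 3 (by norm_num) le_rfl) ?_ ?_ ?_ ?_))
  · linarith [t1.2, t2.1]
  · linarith [t1.1, t2.2]
  · linarith [t1.2, t3.1]
  · linarith [t1.1, t3.2]

end Pool.LibML82.R
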