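import Pool.Agent.LibML82.RFam

/-!
# Row RG6: the path with three links

Near copy of `BG6.lean`. `x(y) = α + β y` passes through all corners `C j g`, `g = 1 + u₀ + v₀ j`, `j < r`.
`0 < β ≤ 4 G` so `β th ≤ 1/25`; for `-1 ≤ y ≤ r`: `|x(y)| < W r n 0`
(`α ≤ n + 1/4`, `β ≤ 2 G + (n - 1) + 1/4`, `α - β ≥ -3 G - 1`). First link: height `r`, above all walls and below
the dummies. Last link: height `-1`. Middle link, a point `(x, y)` of the line, `y` between `j - th` and `j + th`,
`P = C j g`: `x = P.1 + β (y - P.2)`, `|P.1 - pos j g| ≤ 1/16`, `j ≤ P.2 ≤ j + th/5`, `β |y - P.2| ≤ 1/20`. So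
`pos j g - 1/4 ≤ x ≤ pos j g + 1/4`, `x ≤ P.1` if `y ≤ P.2`, `x ≥ P.1` if `y ≥ P.2`. Wall R pieces `q < g` are left of
`pos j g - 1/4`, the piece `g` is `x ≥ P.1`, `y ≤ P.2`, the pieces `q > g` are right of `pos j g + 15/16`; wall L
pieces `q < g - 1` are left of `pos j g - 15/16`, the piece `g - 1` is `x ≤ P.1`, `y ≥ P.2 + τ`, the pieces `q ≥ g` are
right of `pos j g + 1/4`. Sides need `|x| > W j`, the lower sides `y < -2`.
(`sl r n * G = th/10`, `sl * g ≤ th/10`, `TR C j 0 = j`, `LL r n C τ j G = j + th/2`.)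
-/

namespace Pool.LibML82.R

open Pool.LibML82.B (G pos th W D ep side In TopPt SidePt)

private lemma basicG {r n : ℕ} (hr : 1 ≤ r) (hn : 1 ≤ n) :
    (1 : ℝ) ≤ G r n ∧ (n : ℝ) ≤ G r n ∧ (G r n : ℝ) = n * r := by
  have h1 : (1 : ℝ) ≤ r := by exact_mod_cast hr
  have h2 : (1 : ℝ) ≤ n := by exact_mod_cast hn
  have h3 : (G r n : ℝ) = n * r := by unfold G; push_cast; ring
  refine ⟨?_, ?_, h3⟩
  · rw [h3]; nlinarith
  · rw [h3]; nlinarith

private lemma basicTh {r n : ℕ} (hr : 1 ≤ r) (hn : 1 ≤ n) :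
    0 < th r n ∧ th r n ≤ 1 / 100 ∧ th r n * (G r n : ℝ) = 1 / 100 := by
  obtain ⟨h1, -, -⟩ := basicG hr hn
  have h0 : (0 : ℝ) < 100 * (G r n : ℝ) := by linarith
  refine ⟨?_, ?_, ?_⟩
  · unfold th; positivity
  · unfold th
    rw [div_le_div_iff₀ h0 (by norm_num)]
    linarith
  · unfold th
    field_simp

private lemma W_mono {r n : ℕ} (j : ℕ) : W r n 0 ≤ W r n j := by
  unfold W
  have : (0 : ℝ) ≤ j := Nat.cast_nonneg j
  push_cast
  linarith

private lemma ep_pos {r n : ℕ} : 0 < ep r n := by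
  unfold ep W
  positivity

/-- A point of height `-1 ≤ y ≤ r` with `|x| < W 0` is in no side, no dummy. -/
private lemma side_no {r n : ℕ} (p : ℝ × ℝ) (h1 : -1 ≤ p.2) (h2 : |p.1| < W r n 0)
    (j : ℕ) (k : Fin 3) : p ∉ (side r n j k).inner := by
  have hW := W_mono (r := r) (n := n) j
  obtain ⟨h3, h4⟩ := abs_lt.mp h2
  have he := ep_pos (r := r) (n := n)
  have hD : (2 : ℝ) ≤ D j := by
    unfold D
    have : (0 : ℝ) ≤ j := Nat.cast_nonneg j
    linarith
  fin_cases k
  · rintro ⟨-, h, -⟩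
    simp [side] at h
    linarith
  · rintro ⟨h, -⟩
    simp [side] at h
    linarith
  · rintro ⟨-, -, -, h⟩
    simp [side] at h
    linarith

private lemma basicSl {r n : ℕ} (hr : 1 ≤ r) (hn : 1 ≤ n) :
    0 < sl r n ∧ sl r n * (G r n : ℝ) = th r n / 10 ∧ sl r n ≤ th r n / 10 := by
  obtain ⟨h1, -, -⟩ := basicG hr hn
  obtain ⟨h2, -, -⟩ := basicTh hr hn
  have h0 : (0 : ℝ) < 10 * (G r n : ℝ) := by linarith
  have h3 : sl r n * (G r n : ℝ) = th r n / 10 := by
    unfold sl
    field_simp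
  have h4 : 0 < sl r n := by unfold sl; positivity
  refine ⟨h4, h3, ?_⟩
  rw [← h3]
  nlinarith

/-- The heights of the corners. -/
private lemma hgt {r n : ℕ} (hr : 1 ≤ r) (hn : 1 ≤ n) {C : Par} (hC : Near r n C) (j g : ℕ)
    (hj : j < r) (h1 : 1 ≤ g) (h2 : g ≤ G r n) :
    (j : ℝ) < (C j g).2 ∧ (C j g).2 ≤ j + th r n / 5 := by
  obtain ⟨s0, s1, s2⟩ := basicSl hr hn
  obtain ⟨-, h⟩ := hC j g hj h1 h2
  obtain ⟨a1, a2⟩ := abs_le.mp h
  have g1 : (1 : ℝ) ≤ g := by exact_mod_cast h1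
  have g2 : (g : ℝ) ≤ G r n := by exact_mod_cast h2
  have m1 : sl r n * 1 ≤ sl r n * g := mul_le_mul_of_nonneg_left g1 s0.le
  have m2 : sl r n * g ≤ sl r n * (G r n : ℝ) := mul_le_mul_of_nonneg_left g2 s0.le
  constructor
  · linarith
  · linarith

/-- The middle part. -/
private lemma mid_no {r n d : ℕ} (hr : 1 ≤ r) (hn : 1 ≤ n)
    (C : Par) (τ : ℝ) (hτ : 0 < τ) (hC : Near r n C)
    (u₀ v₀ : ℕ) (hu : u₀ < n) (hv : v₀ < n) (α β : ℝ)
    (hβ0 : 0 < β) (hβ4 : β ≤ 4 * (G r n : ℝ))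
    (hline : ∀ j, j < r → (C j (1 + u₀ + v₀ * j)).1 = α + β * (C j (1 + u₀ + v₀ * j)).2) (y : ℝ)
    (hy1 : -1 ≤ y) (hy2 : y ≤ r) (hx : |α + β * y| < W r n 0) (v : Idx r n d) :
    (α + β * y, y) ∉ (rect r n d C τ v).inner := by
  obtain ⟨hG1, hGn, hG⟩ := basicG hr hn
  obtain ⟨ht0, ht1, ht2⟩ := basicTh hr hn
  have hβt : β * (6 / 5 * th r n) ≤ 1 / 20 := by
    have := mul_le_mul_of_nonneg_right hβ4 ht0.le
    nlinarith
  -- the gap
  have gap : ∀ j : ℕ, j < r → 1 ≤ 1 + u₀ + v₀ * j ∧ 1 + u₀ + v₀ * j ≤ G r n := by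
    intro j hj
    refine ⟨by omega, ?_⟩
    have e1 : v₀ * j ≤ (n - 1) * (r - 1) := Nat.mul_le_mul (by omega) (by omega)
    obtain ⟨n', rfl⟩ : ∃ n', n = n' + 1 := ⟨n - 1, by omega⟩
    obtain ⟨r', rfl⟩ : ∃ r', r = r' + 1 := ⟨r - 1, by omega⟩
    unfold G
    simp only [Nat.add_sub_cancel] at e1
    nlinarith
  rcases v with a | a | a | i
  · -- wall R
    obtain ⟨j, q⟩ := a
    obtain ⟨j, hj⟩ := j
    obtain ⟨q, hq⟩ := q
    obtain ⟨hg1, hgG⟩ := gap j hj
    set g := 1 + u₀ + v₀ * j with hg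
    rintro ⟨h1, h2, h3, h4⟩
    simp only [rect] at h1 h2 h3 h4
    have hl := hline j hj
    rw [← hg] at hl
    have hxe : α + β * y = (C j g).1 + β * (y - (C j g).2) := by rw [hl]; ring
    obtain ⟨p1, p2⟩ := hgt hr hn hC j g hj hg1 hgG
    have hyT : y < j + th r n / 5 := by
      unfold TR at h4
      split_ifs at h4 with hq0
      · linarith
      · have := (hgt hr hn hC j q hj (by omega) (by omega)).2
        linarith
    have b1 : β * (y - (C j g).2) ≤ 1 / 20 := by
      have : β * (y - (C j g).2) ≤ β * (6 / 5 * th r n) :=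
        mul_le_mul_of_nonneg_left (by linarith) hβ0.le
      linarith
    have b2 : -(1 / 20) ≤ β * (y - (C j g).2) := by
      have : β * (-(6 / 5 * th r n)) ≤ β * (y - (C j g).2) :=
        mul_le_mul_of_nonneg_left (by linarith) hβ0.le
      linarith
    have n1 := abs_le.mp (hC j g hj hg1 hgG).1
    rcases lt_trichotomy q g with hqg | hqg | hqg
    · have hqG : q ≠ G r n := by omega
      rw [BR, if_neg hqG] at h2
      have hp : pos r n j (q + 1) ≤ pos r n j g := by
        unfold pos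
        have : ((q + 1 : ℕ) : ℝ) ≤ g := by exact_mod_cast hqg
        linarith
      linarith [n1.1, n1.2]
    · have hq0 : q ≠ 0 := by omega
      rw [AR, if_neg hq0, hqg] at h1
      rw [TR, if_neg hq0, hqg] at h4
      have : β * (y - (C j g).2) < 0 := mul_neg_of_pos_of_neg hβ0 (by linarith)
      linarith
    · have hq0 : q ≠ 0 := by omega
      rw [AR, if_neg hq0] at h1
      have n2 := abs_le.mp (hC j q hj (by omega) (by omega)).1
      have hp : pos r n j g + 1 ≤ pos r n j q := by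
        unfold pos
        have : ((g + 1 : ℕ) : ℝ) ≤ q := by exact_mod_cast hqg
        push_cast at this
        linarith
      linarith [n1.1, n1.2, n2.1, n2.2]
  · -- wall L
    obtain ⟨j, q⟩ := a
    obtain ⟨j, hj⟩ := j
    obtain ⟨q, hq⟩ := q
    obtain ⟨hg1, hgG⟩ := gap j hj
    set g := 1 + u₀ + v₀ * j with hg
    rintro ⟨h1, h2, h3, h4⟩
    simp only [rect] at h1 h2 h3 h4
    have hl := hline j hj
    rw [← hg] at hl
    have hxe : α + β * y = (C j g).1 + β * (y - (C j g).2) := by rw [hl]; ring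
    obtain ⟨p1, p2⟩ := hgt hr hn hC j g hj hg1 hgG
    have hyT : (j : ℝ) < y := by
      unfold LL at h3
      split_ifs at h3 with hqG
      · linarith
      · have := (hgt hr hn hC j (q + 1) hj (by omega) (by omega)).1
        linarith
    have b1 : β * (y - (C j g).2) ≤ 1 / 20 := by
      have : β * (y - (C j g).2) ≤ β * (6 / 5 * th r n) :=
        mul_le_mul_of_nonneg_left (by linarith) hβ0.le
      linarith
    have b2 : -(1 / 20) ≤ β * (y - (C j g).2) := by
      have : β * (-(6 / 5 * th r n)) ≤ β * (y - (C j g).2) :=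
        mul_le_mul_of_nonneg_left (by linarith) hβ0.le
      linarith
    have n1 := abs_le.mp (hC j g hj hg1 hgG).1
    rcases lt_or_ge q g with hqg | hqg
    · have hqG : q ≠ G r n := by omega
      rw [BL, if_neg hqG] at h2
      rw [LL, if_neg hqG] at h3
      rcases Nat.eq_or_lt_of_le hqg with h | h
      · have h' : q + 1 = g := h
        rw [h'] at h2 h3
        have : 0 < β * (y - (C j g).2) := mul_pos hβ0 (by linarith)
        linarith
      · have n2 := abs_le.mp (hC j (q + 1) hj (by omega) (by omega)).1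
        have hp : pos r n j (q + 1) + 1 ≤ pos r n j g := by
          unfold pos
          have : ((q + 1 + 1 : ℕ) : ℝ) ≤ g := by exact_mod_cast h
          push_cast at this ⊢
          linarith
        linarith [n1.1, n1.2, n2.1, n2.2]
    · have hq0 : q ≠ 0 := by omega
      rw [AL, if_neg hq0] at h1
      have hp : pos r n j g ≤ pos r n j q := by
        unfold pos
        have : (g : ℝ) ≤ q := by exact_mod_cast hqg
        linarith
      linarith [n1.1, n1.2]
  · exact side_no _ hy1 hx a.1 a.2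
  · rintro ⟨-, -, h, -⟩
    simp only [rect] at h
    have : (0 : ℝ) ≤ (i : ℕ) := Nat.cast_nonneg _
    linarith

/-- The last link. -/
private lemma last_no {r n d : ℕ} (hr : 1 ≤ r) (hn : 1 ≤ n)
    (C : Par) (τ : ℝ) (hτ : 0 < τ) (hC : Near r n C) (x : ℝ) (hx : |x| < W r n 0) (v : Idx r n d) :
    (x, (-1 : ℝ)) ∉ (rect r n d C τ v).inner := by
  obtain ⟨ht0, ht1, -⟩ := basicTh hr hn
  rcases v with a | a | a | i
  · rintro ⟨-, -, h3, -⟩
    simp only [rect] at h3
    have : (0 : ℝ) ≤ (a.1 : ℕ) := Nat.cast_nonneg _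
    linarith
  · obtain ⟨j, q⟩ := a
    obtain ⟨j, hj⟩ := j
    obtain ⟨q, hq⟩ := q
    rintro ⟨-, -, h3, -⟩
    simp only [rect] at h3
    have hj0 : (0 : ℝ) ≤ j := Nat.cast_nonneg _
    unfold LL at h3
    split_ifs at h3 with hqG
    · linarith
    · have := (hgt hr hn hC j (q + 1) hj (by omega) (by omega)).1
      linarith
  · exact side_no _ le_rfl hx a.1 a.2
  · rintro ⟨-, -, h, -⟩
    simp only [rect] at h
    have : (0 : ℝ) ≤ (i : ℕ) := Nat.cast_nonneg _
    have : (0 : ℝ) ≤ r := Nat.cast_nonneg _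
    linarith

/-- The first link. -/
private lemma first_no {r n d : ℕ} (hr : 1 ≤ r) (hn : 1 ≤ n)
    (C : Par) (τ : ℝ) (hC : Near r n C) (x : ℝ) (v : Idx r n d) :
    (x, (r : ℝ)) ∉ (rect r n d C τ v).inner := by
  obtain ⟨ht0, ht1, -⟩ := basicTh hr hn
  have key : ∀ a : Fin r, ((a : ℕ) : ℝ) + 1 ≤ r := by
    intro a
    have := a.2
    exact_mod_cast this
  have he := ep_pos (r := r) (n := n)
  rcases v with a | a | a | i
  · obtain ⟨j, q⟩ := a
    obtain ⟨q, hq⟩ := q
    rintro ⟨-, -, -, h4⟩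
    simp only [rect] at h4
    have hk := key j
    unfold TR at h4
    split_ifs at h4 with hq0
    · linarith
    · have := (hgt hr hn hC j q j.2 (by omega) (by omega)).2
      linarith
  · rintro ⟨-, -, -, h4⟩
    simp only [rect] at h4
    linarith [key a.1]
  · obtain ⟨j, k⟩ := a
    rintro ⟨-, -, -, h4⟩
    simp only [rect] at h4
    have hk := key j
    have hD : (2 : ℝ) ≤ D j := by
      unfold D
      have : (0 : ℝ) ≤ (j : ℕ) := Nat.cast_nonneg _
      linarith
    have hr0 : (0 : ℝ) ≤ r := Nat.cast_nonneg _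
    fin_cases k
    · simp [side] at h4
      linarith
    · simp [side] at h4
      linarith
    · simp [side] at h4
      linarith
  · rintro ⟨-, -, h, -⟩
    simp only [rect] at h
    have : (0 : ℝ) ≤ (i : ℕ) := Nat.cast_nonneg _
    linarith

theorem path3_ok {r n d N : ℕ} (hr : 1 ≤ r) (hn : 1 ≤ n) (e : Fin N ≃ Idx r n d)
    (C : Par) (τ : ℝ) (hτ : 0 < τ) (hτ1 : τ ≤ th r n / 4) (hC : Near r n C)
    (u₀ v₀ : ℕ) (hu : u₀ < n) (hv : v₀ < n) (α β : ℝ) (hα : |α - (1 + u₀)| ≤ 1 / 4)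
    (hβ : |β - (2 * (G r n : ℝ) + v₀)| ≤ 1 / 4)
    (hline : ∀ j, j < r → (C j (1 + u₀ + v₀ * j)).1 = α + β * (C j (1 + u₀ + v₀ * j)).2) :
    (inst e C τ).IsPath 3 (path3 r α β) := by
  obtain ⟨hG1, hGn, hG⟩ := basicG hr hn
  have hr1 : (1 : ℝ) ≤ r := by exact_mod_cast hr
  have hn1 : (1 : ℝ) ≤ n := by exact_mod_cast hn
  have hu1 : (u₀ : ℝ) + 1 ≤ n := by exact_mod_cast hu
  have hv1 : (v₀ : ℝ) + 1 ≤ n := by exact_mod_cast hv
  have hu0 : (0 : ℝ) ≤ u₀ := Nat.cast_nonneg _
  have hv0 : (0 : ℝ) ≤ v₀ := Nat.cast_nonneg _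
  obtain ⟨a1, a2⟩ := abs_le.mp hα
  obtain ⟨b1, b2⟩ := abs_le.mp hβ
  have hβ0 : 0 < β := by linarith
  have hβ4 : β ≤ 4 * (G r n : ℝ) := by linarith
  have hW0 : W r n 0 = 2 * (G r n : ℝ) * r + 2 * (G r n : ℝ) + 10 := by
    unfold W; push_cast; ring
  have hGr : (G r n : ℝ) ≤ (G r n : ℝ) * r := by nlinarith
  have hβr : β * r ≤ 2 * (G r n : ℝ) * r + (G r n : ℝ) := by
    have h1 : β ≤ 2 * (G r n : ℝ) + n - 1 + 1 / 4 := by linarith
    have h2 : β * r ≤ (2 * (G r n : ℝ) + n - 1 + 1 / 4) * r :=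
      mul_le_mul_of_nonneg_right h1 (by linarith)
    nlinarith
  have hup : α + β * r < W r n 0 := by
    rw [hW0]
    linarith
  have hlo : -W r n 0 < α - β := by
    rw [hW0]
    linarith
  have hlo' : α - β < W r n 0 := by
    rw [hW0]
    nlinarith
  have habs : |α - β| < W r n 0 := abs_lt.mpr ⟨hlo, hlo'⟩
  have hWpos : 0 < W r n 0 := lt_of_le_of_lt (abs_nonneg _) habs
  refine ⟨?_, ?_, ?_⟩
  · simp [path3, inst]
  · simp [path3, inst, Fin.last]
  · intro j p hp i
    show p ∉ (rect r n d C τ (e i)).inner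
    fin_cases j
    · obtain ⟨a, b, ha, hb, hab, rfl⟩ := hp
      have e1 : a • path3 r α β (Fin.castSucc (0 : Fin 3)) + b • path3 r α β (Fin.succ (0 : Fin 3))
          = (b * (α + β * r), (r : ℝ)) := by
        simp only [path3]
        ext
        · simp
        · simp
          rw [← add_mul, hab, one_mul]
      have e2 := first_no hr hn C τ hC (b * (α + β * r)) (e i)
      rw [← e1] at e2
      exact e2
    · obtain ⟨a, b, ha, hb, hab, rfl⟩ := hp
      have e1 : a • path3 r α β (Fin.castSucc (1 : Fin 3)) + b • path3 r α β (Fin.succ (1 : Fin 3))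
          = (α + β * (a * r - b), a * r - b) := by
        simp only [path3]
        ext
        · simp
          linear_combination α * hab
        · simp
          ring
      have hy1 : -1 ≤ a * (r : ℝ) - b := by nlinarith
      have hy2 : a * (r : ℝ) - b ≤ r := by nlinarith
      have hx : |α + β * (a * r - b)| < W r n 0 := by
        rw [abs_lt]
        constructor
        · have := mul_le_mul_of_nonneg_left hy1 hβ0.le
          linarith
        · have := mul_le_mul_of_nonneg_left hy2 hβ0.le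
          linarith
      have e2 := mid_no (d := d) hr hn C τ hτ hC u₀ v₀ hu hv α β hβ0 hβ4 hline _ hy1 hy2 hx (e i)
      rw [← e1] at e2
      exact e2
    · obtain ⟨a, b, ha, hb, hab, rfl⟩ := hp
      have e1 : a • path3 r α β (Fin.castSucc (2 : Fin 3)) + b • path3 r α β (Fin.succ (2 : Fin 3))
          = (a * (α - β), (-1 : ℝ)) := by
        simp only [path3]
        ext
        · simp
        · simp
          linarith
      have hx : |a * (α - β)| < W r n 0 := by
        rw [abs_mul, abs_of_nonneg ha]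
        have : a ≤ 1 := by linarith
        calc a * |α - β| ≤ 1 * |α - β| := mul_le_mul_of_nonneg_right this (abs_nonneg _)
          _ < W r n 0 := by rw [one_mul]; exact habs
      have e2 := last_no (d := d) hr hn C τ hτ hC (a * (α - β)) hx (e i)
      rw [← e1] at e2
      exact e2

end Pool.LibML82.R
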