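import Pool.Agent.LibML82.RFam

/-!
# Row RG7: a path with `2 r + 1` links exists in every instance of the family

Near copy of `BG7.lean` with `(C j 1).1` in place of `X j 1`. Vertical links: the line `x = (C j 1).1`, heights
`j - 1/2 ≤ y ≤ j + 1/2`, touches wall R piece `1` (left end `(C j 1).1`) and wall L piece `0` (right end
`(C j 1).1`); wall R piece `0` has right end `pos j 1 - 1/4`, wall R pieces `q ≥ 2` have left end `(C j q).1 > (C j 1).1`,
wall L pieces `q ≥ 1` have left end `≥ pos j 1 + 1/4`: the heights of the pieces play no role. Horizontal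
links at the heights `j - 1/2`: all pieces of walls of ring `j` have heights between `j - th` and `j + th`
(`TR C j q ≤ j + th`, `LL r n C τ j q ≥ j` from `Near`, `τ > 0`; `sl r n * G r n = th/10`).
-/

namespace Pool.LibML82.R

open Pool.LibML82.B (G pos th W D ep side In TopPt SidePt)

/-- `k` links from `p` to `q`. -/
private def RG7_Reach {N : ℕ} (I : Inst N) (k : ℕ) (p q : ℝ × ℝ) : Prop :=
  ∃ f : Fin (k + 1) → ℝ × ℝ, f 0 = p ∧ f (Fin.last k) = q ∧
    ∀ j : Fin k, segment ℝ (f j.castSucc) (f j.succ) ⊆ I.free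

private theorem RG7_reach_zero {N : ℕ} (I : Inst N) (p : ℝ × ℝ) : RG7_Reach I 0 p p :=
  ⟨fun _ => p, rfl, rfl, fun j => j.elim0⟩

private theorem RG7_reach_step {N : ℕ} (I : Inst N) (k : ℕ) (p q q' : ℝ × ℝ) (h : RG7_Reach I k p q)
    (hs : segment ℝ q q' ⊆ I.free) : RG7_Reach I (k + 1) p q' := by
  obtain ⟨f, h0, h1, h2⟩ := h
  refine ⟨Fin.snoc (α := fun _ => ℝ × ℝ) f q', ?_, ?_, ?_⟩
  · have : (0 : Fin (k + 1 + 1)) = Fin.castSucc (0 : Fin (k + 1)) := rfl
    rw [this, Fin.snoc_castSucc]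
    exact h0
  · rw [Fin.snoc_last]
  · intro j
    rcases Fin.eq_castSucc_or_eq_last j with ⟨j', rfl⟩ | rfl
    · have e1 : (Fin.castSucc j').succ = Fin.castSucc j'.succ := rfl
      rw [e1, Fin.snoc_castSucc, Fin.snoc_castSucc]
      exact h2 j'
    · have e1 : (Fin.last k).succ = Fin.last (k + 1) := rfl
      rw [e1, Fin.snoc_castSucc, Fin.snoc_last, h1]
      exact hs

private theorem RG7_seg_bounds (p q z : ℝ × ℝ) (hz : z ∈ segment ℝ p q) :
    ∃ a b : ℝ, 0 ≤ a ∧ 0 ≤ b ∧ a + b = 1 ∧ z.1 = a * p.1 + b * q.1 ∧ z.2 = a * p.2 + b * q.2 := by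
  obtain ⟨a, b, ha, hb, hab, rfl⟩ := hz
  exact ⟨a, b, ha, hb, hab, by simp, by simp⟩

private theorem RG7_G_pos {r n : ℕ} (hr : 1 ≤ r) (hn : 1 ≤ n) : 1 ≤ G r n := Nat.mul_pos hn hr

private theorem RG7_th_pos {r n : ℕ} (hr : 1 ≤ r) (hn : 1 ≤ n) : 0 < th r n ∧ th r n ≤ 1 / 100 := by
  have hG : (1 : ℝ) ≤ (G r n : ℝ) := by exact_mod_cast RG7_G_pos hr hn
  unfold th
  constructor
  · positivity
  · apply one_div_le_one_div_of_le (by norm_num)
    linarith

private theorem RG7_W_mono (r n j : ℕ) : W r n 0 ≤ W r n j := by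
  unfold W
  have : (0 : ℝ) ≤ (j : ℝ) := Nat.cast_nonneg j
  push_cast
  linarith

private theorem RG7_sl {r n : ℕ} (hr : 1 ≤ r) (hn : 1 ≤ n) :
    0 < sl r n ∧ sl r n * (G r n : ℝ) = th r n / 10 := by
  have hG : (1 : ℝ) ≤ (G r n : ℝ) := by exact_mod_cast RG7_G_pos hr hn
  obtain ⟨h1, h2⟩ := RG7_th_pos hr hn
  have hG0 : (0 : ℝ) < (G r n : ℝ) := by linarith
  unfold sl
  refine ⟨by positivity, ?_⟩
  field_simp

private theorem RG7_TR {r n : ℕ} (hr : 1 ≤ r) (hn : 1 ≤ n) (C : Par) (hC : Near r n C) (j : ℕ)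
    (hj : j < r) (q : ℕ) (hq : q ≤ G r n) : TR C j q ≤ j + th r n := by
  obtain ⟨h1, h2⟩ := RG7_th_pos hr hn
  obtain ⟨h3, h4⟩ := RG7_sl hr hn
  unfold TR
  split_ifs with h
  · linarith
  · have h5 := (abs_le.1 (hC j q hj (by omega) hq).2).2
    have h6 : sl r n * (q : ℝ) ≤ sl r n * (G r n : ℝ) :=
      mul_le_mul_of_nonneg_left (by exact_mod_cast hq) h3.le
    have h7 : sl r n * 1 ≤ sl r n * (G r n : ℝ) :=
      mul_le_mul_of_nonneg_left (by exact_mod_cast RG7_G_pos hr hn) h3.le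
    linarith

private theorem RG7_LL {r n : ℕ} (hr : 1 ≤ r) (hn : 1 ≤ n) (C : Par) (τ : ℝ) (hτ : 0 < τ)
    (hC : Near r n C) (j : ℕ)
    (hj : j < r) (q : ℕ) (hq : q ≤ G r n) : (j : ℝ) - th r n ≤ LL r n C τ j q := by
  obtain ⟨h1, h2⟩ := RG7_th_pos hr hn
  obtain ⟨h3, h4⟩ := RG7_sl hr hn
  unfold LL
  split_ifs with h
  · linarith
  · have h5 := (abs_le.1 (hC j (q + 1) hj (by omega) (by omega)).2).1
    have h6 : (0 : ℝ) ≤ sl r n * (q : ℝ) := mul_nonneg h3.le (Nat.cast_nonneg _)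
    push_cast at h5
    linarith

/-- Points which are free. -/
private theorem RG7_free_pt {r n d N : ℕ} (e : Fin N ≃ Idx r n d)
    (hr : 1 ≤ r) (hn : 1 ≤ n) (C : Par) (τ : ℝ) (hτ : 0 < τ) (hC : Near r n C) (z : ℝ × ℝ)
    (h1 : |z.1| < W r n 0) (h2 : -2 < z.2) (h3 : z.2 ≤ r)
    (hep : 0 < ep r n)
    (hR : ∀ j, j < r → (j : ℝ) - th r n < z.2 → z.2 < j + th r n → ∀ q, q ≤ G r n →
      ¬ (AR r n C j q < z.1 ∧ z.1 < BR r n j q))
    (hL : ∀ j, j < r → (j : ℝ) - th r n < z.2 → z.2 < j + th r n → ∀ q, q ≤ G r n →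
      ¬ (AL r n j q < z.1 ∧ z.1 < BL r n C j q)) :
    z ∈ (inst e C τ).free := by
  intro i hi
  simp only [inst] at hi
  rw [abs_lt] at h1
  rcases hv : e i with a | a | a | a
  · rw [hv] at hi
    simp only [rect, Rect.inner, Set.mem_setOf_eq] at hi
    exact hR a.1 a.1.2 hi.2.2.1 (lt_of_lt_of_le hi.2.2.2
      (RG7_TR hr hn C hC a.1 a.1.2 a.2 (Nat.lt_succ_iff.1 a.2.2)))
      a.2 (Nat.lt_succ_iff.1 a.2.2) ⟨hi.1, hi.2.1⟩
  · rw [hv] at hi
    simp only [rect, Rect.inner, Set.mem_setOf_eq] at hi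
    exact hL a.1 a.1.2 (lt_of_le_of_lt
      (RG7_LL hr hn C τ hτ hC a.1 a.1.2 a.2 (Nat.lt_succ_iff.1 a.2.2)) hi.2.2.1) hi.2.2.2
      a.2 (Nat.lt_succ_iff.1 a.2.2) ⟨hi.1, hi.2.1⟩
  · rw [hv] at hi
    obtain ⟨j, m⟩ := a
    have hW := RG7_W_mono r n j
    have hD : (2 : ℝ) ≤ D j := by
      unfold D
      have : (0 : ℝ) ≤ ((j : ℕ) : ℝ) := Nat.cast_nonneg _
      linarith
    fin_cases m
    · simp only [rect, side, Rect.inner, Set.mem_setOf_eq] at hi
      have h4 := hi.2.1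
      simp at h4
      linarith
    · simp only [rect, side, Rect.inner, Set.mem_setOf_eq] at hi
      have h4 := hi.1
      simp at h4
      linarith
    · simp only [rect, side, Rect.inner, Set.mem_setOf_eq] at hi
      have h4 := hi.2.2.2
      simp at h4
      linarith
  · rw [hv] at hi
    simp only [rect, Rect.inner, Set.mem_setOf_eq] at hi
    have h4 := hi.2.2.1
    have : (0 : ℝ) ≤ ((a : ℕ) : ℝ) := Nat.cast_nonneg _
    linarith

private theorem RG7_X_abs {r n : ℕ} (hr : 1 ≤ r) (hn : 1 ≤ n) (C : Par) (hC : Near r n C)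
    (j : ℕ) (hj : j < r) : |(C j 1).1| < W r n 0 := by
  have h := (hC j 1 hj le_rfl (RG7_G_pos hr hn)).1
  have hG : (1 : ℝ) ≤ (G r n : ℝ) := by exact_mod_cast RG7_G_pos hr hn
  have hj0 : (0 : ℝ) ≤ (j : ℝ) := Nat.cast_nonneg j
  have hj1 : (j : ℝ) ≤ (r : ℝ) := by exact_mod_cast hj.le
  have hGj : (G r n : ℝ) * j ≤ (G r n : ℝ) * r :=
    mul_le_mul_of_nonneg_left hj1 (by linarith)
  have hGj0 : 0 ≤ (G r n : ℝ) * j := mul_nonneg (by linarith) hj0
  unfold pos at h
  rw [abs_le] at h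
  unfold W
  rw [abs_lt]
  push_cast at h ⊢
  constructor <;> nlinarith [h.1, h.2]

private theorem RG7_ep_pos {r n : ℕ} : 0 < ep r n := by
  unfold ep W
  positivity

/-- A height between the walls. -/
private theorem RG7_free_between {r n d N : ℕ} (e : Fin N ≃ Idx r n d)
    (hr : 1 ≤ r) (hn : 1 ≤ n) (C : Par) (hC : Near r n C) (τ : ℝ) (z : ℝ × ℝ)
    (h1 : |z.1| < W r n 0) (h2 : -2 < z.2) (h3 : z.2 ≤ r)
    (hno : ∀ j : ℕ, j < r → ¬ ((j : ℝ) - 1 / 4 < z.2 ∧ z.2 < j + 1 / 4)) (hτ : 0 < τ)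
    (hτ1 : τ ≤ 1 / 100) (hth : 0 < th r n) (hth1 : th r n ≤ 1 / 100) :
    z ∈ (inst e C τ).free := by
  refine RG7_free_pt e hr hn C τ hτ hC z h1 h2 h3 RG7_ep_pos ?_ ?_
  · intro j hj ha hb
    exact absurd ⟨by linarith, by linarith⟩ (hno j hj)
  · intro j hj ha hb
    exact absurd ⟨by linarith, by linarith⟩ (hno j hj)

/-- The vertical links. -/
private theorem RG7_vertical {r n d N : ℕ} (hr : 1 ≤ r) (hn : 1 ≤ n) (e : Fin N ≃ Idx r n d)
    (C : Par) (τ : ℝ) (hτ : 0 < τ) (hτ1 : τ ≤ th r n) (hC : Near r n C)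
    (j : ℕ) (hj : j < r) :
    segment ℝ (((C j 1).1, (j : ℝ) + 1 / 2) : ℝ × ℝ) ((C j 1).1, (j : ℝ) - 1 / 2) ⊆ (inst e C τ).free := by
  obtain ⟨hth, hth1⟩ := RG7_th_pos hr hn
  have hG1 := RG7_G_pos hr hn
  intro z hz
  obtain ⟨a, b, ha, hb, hab, hz1, hz2⟩ := RG7_seg_bounds _ _ z hz
  simp only at hz1 hz2
  have hx : z.1 = (C j 1).1 := by
    rw [hz1, ← add_mul, hab, one_mul]
  have hy : z.2 = j + 1 / 2 - b := by
    have : a = 1 - b := by linarith
    rw [hz2, this]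
    ring
  have hb1 : b ≤ 1 := by linarith
  have hj0 : (0 : ℝ) ≤ (j : ℝ) := Nat.cast_nonneg j
  have hjr : (j : ℝ) + 1 ≤ r := by exact_mod_cast hj
  have hX1 := hC j 1 hj le_rfl hG1
  rw [abs_le] at hX1
  have hXabs := RG7_X_abs hr hn C hC j hj
  refine RG7_free_pt e hr hn C τ hτ hC z (by rw [hx]; exact hXabs) (by linarith) (by linarith) RG7_ep_pos ?_ ?_
  · intro j' hj' h1 h2 q hq
    have e1 : j' = j := by
      have h3 : (j' : ℝ) < j + 1 := by linarith
      have h4 : (j : ℝ) < j' + 1 := by linarith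
      have h5 : j' < j + 1 := by exact_mod_cast h3
      have h6 : j < j' + 1 := by exact_mod_cast h4
      omega
    subst e1
    rintro ⟨h3, h4⟩
    rw [hx] at h3 h4
    by_cases hq0 : q = 0
    · subst hq0
      unfold BR at h4
      rw [if_neg (by omega)] at h4
      simp only [zero_add] at h4
      linarith [hX1.1]
    · unfold AR at h3
      rw [if_neg hq0] at h3
      by_cases hq1 : q = 1
      · subst hq1
        exact lt_irrefl _ h3
      · have hq2 : (2 : ℝ) ≤ (q : ℝ) := by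
          have : 2 ≤ q := by omega
          exact_mod_cast this
        have hXq := hC j' q hj' (by omega) hq
        rw [abs_le] at hXq
        unfold pos at hXq hX1
        push_cast at hX1
        linarith [hXq.1, hX1.2]
  · intro j' hj' h1 h2 q hq
    have e1 : j' = j := by
      have h3 : (j' : ℝ) < j + 1 := by linarith
      have h4 : (j : ℝ) < j' + 1 := by linarith
      have h5 : j' < j + 1 := by exact_mod_cast h3
      have h6 : j < j' + 1 := by exact_mod_cast h4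
      omega
    subst e1
    rintro ⟨h3, h4⟩
    rw [hx] at h3 h4
    by_cases hq0 : q = 0
    · subst hq0
      unfold BL at h4
      rw [if_neg (by omega)] at h4
      simp only [zero_add] at h4
      exact lt_irrefl _ h4
    · unfold AL at h3
      rw [if_neg hq0] at h3
      have hq1 : (1 : ℝ) ≤ (q : ℝ) := by
        have : 1 ≤ q := by omega
        exact_mod_cast this
      unfold pos at h3 hX1
      push_cast at hX1
      linarith [hX1.2]

theorem exists_long {r n d N : ℕ} (hr : 1 ≤ r) (hn : 1 ≤ n) (e : Fin N ≃ Idx r n d)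
    (C : Par) (τ : ℝ) (hτ : 0 < τ) (hτ1 : τ ≤ th r n / 4) (hC : Near r n C) :
    ∃ p, (inst e C τ).IsPath (2 * r + 1) p := by
  obtain ⟨hth, hth1⟩ := RG7_th_pos hr hn
  have hτ2 : τ ≤ 1 / 100 := by linarith
  have hr0 : (1 : ℝ) ≤ (r : ℝ) := by exact_mod_cast hr
  -- first link
  have hfirst : segment ℝ ((0, (r : ℝ)) : ℝ × ℝ) ((C (r - 1) 1).1, (r : ℝ) - 1 / 2) ⊆
      (inst e C τ).free := by
    intro z hz
    obtain ⟨a, b, ha, hb, hab, hz1, hz2⟩ := RG7_seg_bounds _ _ z hz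
    simp only at hz1 hz2
    have hXabs := RG7_X_abs hr hn C hC (r - 1) (by omega)
    have hb1 : b ≤ 1 := by linarith
    have hy : z.2 = r - b / 2 := by
      have : a = 1 - b := by linarith
      rw [hz2, this]
      ring
    refine RG7_free_between e hr hn C hC τ z ?_ (by linarith) (by linarith) ?_ hτ hτ2 hth hth1
    · rw [hz1, mul_zero, zero_add, abs_mul, abs_of_nonneg hb]
      calc b * |(C (r - 1) 1).1| ≤ 1 * |(C (r - 1) 1).1| :=
            mul_le_mul_of_nonneg_right hb1 (abs_nonneg _)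
        _ < W r n 0 := by rw [one_mul]; exact hXabs
    · rintro j hj ⟨h1, h2⟩
      have : (j : ℝ) + 1 ≤ r := by exact_mod_cast hj
      linarith
  -- horizontal links
  have hhor : ∀ j, j + 1 < r → segment ℝ (((C (j + 1) 1).1, (j : ℝ) + 1 / 2) : ℝ × ℝ)
      ((C j 1).1, (j : ℝ) + 1 / 2) ⊆ (inst e C τ).free := by
    intro j hj z hz
    obtain ⟨a, b, ha, hb, hab, hz1, hz2⟩ := RG7_seg_bounds _ _ z hz
    simp only at hz1 hz2
    have h1 := RG7_X_abs hr hn C hC (j + 1) hj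
    have h2 := RG7_X_abs hr hn C hC j (by omega)
    have hy : z.2 = j + 1 / 2 := by rw [hz2, ← add_mul, hab, one_mul]
    have hj0 : (0 : ℝ) ≤ (j : ℝ) := Nat.cast_nonneg j
    have hjr : (j : ℝ) + 1 < r := by exact_mod_cast hj
    refine RG7_free_between e hr hn C hC τ z ?_ (by linarith) (by linarith) ?_ hτ hτ2 hth hth1
    · rw [abs_lt] at h1 h2 ⊢
      rw [hz1]
      have ha' : a = 1 - b := by linarith
      have hb1 : b ≤ 1 := by linarith
      rw [ha']
      constructor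
      · rcases eq_or_lt_of_le hb with h | h
        · rw [← h]; linarith
        · nlinarith [mul_pos h (sub_pos.2 h2.1), mul_nonneg (sub_nonneg.2 hb1) (sub_pos.2 h1.1).le]
      · rcases eq_or_lt_of_le hb with h | h
        · rw [← h]; linarith
        · nlinarith [mul_pos h (sub_pos.2 h2.2), mul_nonneg (sub_nonneg.2 hb1) (sub_pos.2 h1.2).le]
    · rintro j' hj' ⟨h3, h4⟩
      rw [hy] at h3 h4
      have h5 : (j' : ℝ) < j + 1 := by linarith
      have h6 : (j : ℝ) < j' := by linarith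
      have h7 : j' < j + 1 := by exact_mod_cast h5
      have h8 : j < j' := by exact_mod_cast h6
      omega
  -- last link
  have hlast : segment ℝ (((C 0 1).1, (0 : ℕ) - 1 / 2) : ℝ × ℝ) (0, -1) ⊆ (inst e C τ).free := by
    intro z hz
    obtain ⟨a, b, ha, hb, hab, hz1, hz2⟩ := RG7_seg_bounds _ _ z hz
    simp only at hz1 hz2
    have h1 := RG7_X_abs hr hn C hC 0 (by omega)
    have hb1 : b ≤ 1 := by linarith
    have ha1 : a ≤ 1 := by linarith
    have hy : z.2 = -1 / 2 - b / 2 := by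
      have : a = 1 - b := by linarith
      rw [hz2, this]
      push_cast
      ring
    refine RG7_free_between e hr hn C hC τ z ?_ (by linarith) (by linarith) ?_ hτ hτ2 hth hth1
    · rw [hz1, mul_zero, add_zero, abs_mul, abs_of_nonneg ha]
      calc a * |(C 0 1).1| ≤ 1 * |(C 0 1).1| := mul_le_mul_of_nonneg_right ha1 (abs_nonneg _)
        _ < W r n 0 := by rw [one_mul]; exact h1
    · rintro j hj ⟨h3, h4⟩
      have : (0 : ℝ) ≤ (j : ℝ) := Nat.cast_nonneg j
      linarith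
  -- induction: reach the height above ring `j`
  have key : ∀ m, m < r → RG7_Reach (inst e C τ) (2 * m + 1) (0, (r : ℝ))
      ((C (r - 1 - m) 1).1, ((r - 1 - m : ℕ) : ℝ) + 1 / 2) := by
    intro m
    induction m with
    | zero =>
      intro _
      have h := RG7_reach_step _ 0 _ _ _ (RG7_reach_zero (inst e C τ) (0, (r : ℝ))) hfirst
      have hc : ((r - 1 - 0 : ℕ) : ℝ) + 1 / 2 = (r : ℝ) - 1 / 2 := by
        rw [Nat.sub_zero, Nat.cast_sub hr]
        push_cast
        ring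
      rw [hc]
      exact h
    | succ m ih =>
      intro hm
      have h := ih (by omega)
      have h1 := RG7_reach_step _ _ _ _ _ h
        (RG7_vertical hr hn e C τ hτ (by linarith) hC (r - 1 - m) (by omega))
      have e1 : r - 1 - m = (r - 1 - (m + 1)) + 1 := by omega
      have hc : ((r - 1 - m : ℕ) : ℝ) - 1 / 2 = ((r - 1 - (m + 1) : ℕ) : ℝ) + 1 / 2 := by
        rw [e1]
        push_cast
        ring
      rw [hc] at h1
      have h2 := hhor (r - 1 - (m + 1)) (by omega)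
      rw [← e1] at h2
      exact RG7_reach_step _ _ _ _ _ h1 h2
  have h := key (r - 1) (by omega)
  have e0 : r - 1 - (r - 1) = 0 := by omega
  rw [e0] at h
  have h1 := RG7_reach_step _ _ _ _ _ h (RG7_vertical hr hn e C τ hτ (by linarith) hC 0 (by omega))
  have h2 := RG7_reach_step _ _ _ _ _ h1 hlast
  have e2 : 2 * (r - 1) + 1 + 1 + 1 = 2 * r + 1 := by omega
  rw [e2] at h2
  obtain ⟨f, hf0, hf1, hf2⟩ := h2
  exact ⟨f, hf0, hf1, hf2⟩

end Pool.LibML82.R
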