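import Pool.Agent.LibML82.C1
import Pool.Agent.LibML82.RG4
import Pool.Agent.LibML82.RG6
import Pool.Agent.LibML82.RG7

/-!
# Row RC2: the upper bound for the ring family: `n² r` queries, factor `9`

Near copy of `BC2.lean` with `Tree 4 N` (the last two obstacles of a query are equal).
(a) `line_path`: all corners `P j = C j (1 + u + v j)`, `j < r`, are on the line through `P 0` and `P 1`
(induction: `orient (P j) (P (j+1)) (P (j+2)) = 0`, `P j` and `P (j+1)` on the line `x = α + β y`, heights strictly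
increasing, so `P (j+2)` is on it). Bounds: heights `|(P j).2 - (j + sl (1 + u + v j))| ≤ sl / 4`, `sl * G = th/10`,
`th * G = 1/100`, so `sl * (1 + u + v j) ≤ th/10 ≤ 1/1000` and `4 G * sl * (1 + u + v j) ≤ 1/250`.
`β = ((P (r-1)).1 - (P 0).1) / ((P (r-1)).2 - (P 0).2)`, numerator within `1/8` of `(2 G + v)(r - 1)`, denominator
within `(r - 1) sl v + sl/2 ≤ (r-1) * (th/10 + sl/4)` of `r - 1`, `r - 1 ≥ 2`: `|β - (2 G + v)| ≤ 1/4`. And
`α = (P 0).1 - β (P 0).2`, `β (P 0).2 ≤ 4 G * 2 sl (1 + u) ≤ 1/100`: `|α - (1 + u)| ≤ 1/4`. Then `path3_ok`.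
(b) `upperR`: the query of a pair `(u, v)` and of `j < r - 2` looks at the wall R pieces `g = 1 + u + v j` of the
rings `j, j+1, j+2`; the corner is `(x0, y1)` of the obstacle; the polynomial is `orient` of the three corners.
-/

namespace Pool.LibML82.R

open Pool.LibML82.B (G pos th W D ep side In TopPt SidePt)
open Pool.LibML82.Q (orient)

private theorem gap_le {r n : ℕ} (u v j : ℕ) (hu : u < n) (hv : v < n) (hj : j < r) :
    1 + u + v * j ≤ G r n := by
  unfold G
  have h1 : v * j ≤ (n - 1) * (r - 1) := Nat.mul_le_mul (by omega) (by omega)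
  obtain ⟨n', rfl⟩ : ∃ n', n = n' + 1 := ⟨n - 1, by omega⟩
  obtain ⟨r', rfl⟩ : ∃ r', r = r' + 1 := ⟨r - 1, by omega⟩
  simp only [Nat.add_sub_cancel] at h1
  nlinarith

/-- The piece of wall R of ring `j` whose upper left corner is the corner of the gap on the line. -/
private def ob {r n d N : ℕ} (e : Fin N ≃ Idx r n d) (q : Fin n × Fin n) (j : ℕ) (hj : j < r) :
    Fin N :=
  e.symm (.inl (⟨j, hj⟩, ⟨1 + (q.1 : ℕ) + (q.2 : ℕ) * j,
    Nat.lt_succ_of_le (gap_le q.1 q.2 j q.1.2 q.2.2 hj)⟩))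

private theorem obs_ob {r n d N : ℕ} (e : Fin N ≃ Idx r n d) (C : Par) (τ : ℝ)
    (q : Fin n × Fin n) (j : ℕ) (hj : j < r) :
    ((inst e C τ).obs (ob e q j hj)).x0 = (C j (1 + (q.1 : ℕ) + (q.2 : ℕ) * j)).1 := by
  have h : ¬ (1 + (q.1 : ℕ) + (q.2 : ℕ) * j = 0) := by omega
  simp [inst, ob, rect, AR]

private theorem obs_ob2 {r n d N : ℕ} (e : Fin N ≃ Idx r n d) (C : Par) (τ : ℝ)
    (q : Fin n × Fin n) (j : ℕ) (hj : j < r) :
    ((inst e C τ).obs (ob e q j hj)).y1 = (C j (1 + (q.1 : ℕ) + (q.2 : ℕ) * j)).2 := by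
  have h : ¬ (1 + (q.1 : ℕ) + (q.2 : ℕ) * j = 0) := by omega
  simp [inst, ob, rect, TR]

/-- The polynomial of a query: `orient` of the upper left corners of its first three obstacles. -/
private noncomputable def pol : MvPolynomial (Fin 4 ⊕ Fin 4 × Fin 4) ℝ :=
  (MvPolynomial.X (Sum.inr (1, 0)) - MvPolynomial.X (Sum.inr (0, 0))) *
      (MvPolynomial.X (Sum.inr (2, 3)) - MvPolynomial.X (Sum.inr (0, 3))) -
    (MvPolynomial.X (Sum.inr (1, 3)) - MvPolynomial.X (Sum.inr (0, 3))) *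
      (MvPolynomial.X (Sum.inr (2, 0)) - MvPolynomial.X (Sum.inr (0, 0)))

/-- The query of the pair `q` and the rings `j, j + 1, j + 2`. -/
private noncomputable def qu {r n d N : ℕ} (e : Fin N ≃ Idx r n d) (q : Fin n × Fin n)
    (j : Fin (r - 2)) : Query 4 N where
  who := ![ob e q j (by omega), ob e q (j + 1) (by omega), ob e q (j + 2) (by omega),
    ob e q (j + 2) (by omega)]
  m := 1
  poly := fun _ => pol

private theorem qu_ans {r n d N : ℕ} (e : Fin N ≃ Idx r n d) (C : Par) (τ : ℝ)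
    (q : Fin n × Fin n) (j : Fin (r - 2)) :
    (qu e q j).ans (inst e C τ) (0 : Fin 1) = SignType.sign
      (orient (C j (1 + (q.1 : ℕ) + (q.2 : ℕ) * j))
        (C (j + 1) (1 + (q.1 : ℕ) + (q.2 : ℕ) * (j + 1)))
        (C (j + 2) (1 + (q.1 : ℕ) + (q.2 : ℕ) * (j + 2)))) := by
  have hj := j.2
  have h0 : (inst e C τ).coords
      ![ob e q j (by omega), ob e q (j + 1) (by omega), ob e q (j + 2) (by omega),
        ob e q (j + 2) (by omega)]
      (Sum.inr (0, 0)) = (C j (1 + (q.1 : ℕ) + (q.2 : ℕ) * j)).1 := by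
    rw [← obs_ob e C τ q j (by omega)]
    rfl
  have h1 : (inst e C τ).coords
      ![ob e q j (by omega), ob e q (j + 1) (by omega), ob e q (j + 2) (by omega),
        ob e q (j + 2) (by omega)]
      (Sum.inr (1, 0)) = (C (j + 1) (1 + (q.1 : ℕ) + (q.2 : ℕ) * (j + 1))).1 := by
    rw [← obs_ob e C τ q (j + 1) (by omega)]
    rfl
  have h2 : (inst e C τ).coords
      ![ob e q j (by omega), ob e q (j + 1) (by omega), ob e q (j + 2) (by omega),
        ob e q (j + 2) (by omega)]
      (Sum.inr (2, 0)) = (C (j + 2) (1 + (q.1 : ℕ) + (q.2 : ℕ) * (j + 2))).1 := by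
    rw [← obs_ob e C τ q (j + 2) (by omega)]
    rfl
  have k0 : (inst e C τ).coords
      ![ob e q j (by omega), ob e q (j + 1) (by omega), ob e q (j + 2) (by omega),
        ob e q (j + 2) (by omega)]
      (Sum.inr (0, 3)) = (C j (1 + (q.1 : ℕ) + (q.2 : ℕ) * j)).2 := by
    rw [← obs_ob2 e C τ q j (by omega)]
    rfl
  have k1 : (inst e C τ).coords
      ![ob e q j (by omega), ob e q (j + 1) (by omega), ob e q (j + 2) (by omega),
        ob e q (j + 2) (by omega)]
      (Sum.inr (1, 3)) = (C (j + 1) (1 + (q.1 : ℕ) + (q.2 : ℕ) * (j + 1))).2 := by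
    rw [← obs_ob2 e C τ q (j + 1) (by omega)]
    rfl
  have k2 : (inst e C τ).coords
      ![ob e q j (by omega), ob e q (j + 1) (by omega), ob e q (j + 2) (by omega),
        ob e q (j + 2) (by omega)]
      (Sum.inr (2, 3)) = (C (j + 2) (1 + (q.1 : ℕ) + (q.2 : ℕ) * (j + 2))).2 := by
    rw [← obs_ob2 e C τ q (j + 2) (by omega)]
    rfl
  have h3 : MvPolynomial.eval ((inst e C τ).coords
      ![ob e q j (by omega), ob e q (j + 1) (by omega), ob e q (j + 2) (by omega),
        ob e q (j + 2) (by omega)]) pol =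
      orient (C j (1 + (q.1 : ℕ) + (q.2 : ℕ) * j))
        (C (j + 1) (1 + (q.1 : ℕ) + (q.2 : ℕ) * (j + 1)))
        (C (j + 2) (1 + (q.1 : ℕ) + (q.2 : ℕ) * (j + 2))) := by
    unfold pol orient
    simp only [map_sub, map_mul, MvPolynomial.eval_X]
    rw [h0, h1, h2, k0, k1, k2]
  exact congrArg SignType.sign h3

open Classical in
/-- The output when no line is found: some path with `2 r + 1` links. -/
private noncomputable def longOut {N : ℕ} (r : ℕ) (I : Inst N) : Fin (2 * r + 1 + 1) → ℝ × ℝ :=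
  if h : ∃ p, I.IsPath (2 * r + 1) p then Classical.choose h else fun _ => (0, 0)

/-- The output when the line of the pair `q` is found. -/
private noncomputable def lineOut {r n d N : ℕ} (h3 : 3 ≤ r) (e : Fin N ≃ Idx r n d)
    (q : Fin n × Fin n) (I : Inst N) : Fin 4 → ℝ × ℝ :=
  path3 r
    ((I.obs (ob e q 0 (by omega))).x0 -
      ((I.obs (ob e q 1 (by omega))).x0 - (I.obs (ob e q 0 (by omega))).x0) /
        ((I.obs (ob e q 1 (by omega))).y1 - (I.obs (ob e q 0 (by omega))).y1) *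
        (I.obs (ob e q 0 (by omega))).y1)
    (((I.obs (ob e q 1 (by omega))).x0 - (I.obs (ob e q 0 (by omega))).x0) /
      ((I.obs (ob e q 1 (by omega))).y1 - (I.obs (ob e q 0 (by omega))).y1))

/-- The queries for one pair. -/
private noncomputable def trJ {r n d N : ℕ} (h3 : 3 ≤ r) (e : Fin N ≃ Idx r n d)
    (q : Fin n × Fin n) (nx : Tree 4 N) : List (Fin (r - 2)) → Tree 4 N
  | [] => .leaf 3 (lineOut h3 e q)
  | j :: js => .node (qu e q j) (fun v => if v (0 : Fin 1) = 0 then trJ h3 e q nx js else nx)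

/-- The whole tree. -/
private noncomputable def trL {r n d N : ℕ} (h3 : 3 ≤ r) (e : Fin N ≃ Idx r n d) :
    List (Fin n × Fin n) → Tree 4 N
  | [] => .leaf (2 * r + 1) (longOut r)
  | q :: L => trJ h3 e q (trL h3 e L) (List.finRange (r - 2))

private theorem trJ_cost {r n d N : ℕ} (h3 : 3 ≤ r) (e : Fin N ≃ Idx r n d)
    (q : Fin n × Fin n) (nx : Tree 4 N) (I : Inst N) (js : List (Fin (r - 2))) :
    (trJ h3 e q nx js).cost I ≤ js.length + nx.cost I := by
  induction js with
  | nil => simp only [trJ, Tree.cost]; omega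
  | cons j js ih =>
    simp only [trJ, Tree.cost, List.length_cons]
    split_ifs <;> omega

private theorem trL_cost {r n d N : ℕ} (h3 : 3 ≤ r) (e : Fin N ≃ Idx r n d) (I : Inst N)
    (L : List (Fin n × Fin n)) : (trL h3 e L).cost I ≤ L.length * r := by
  induction L with
  | nil => simp [trL, Tree.cost]
  | cons q L ih =>
    simp only [trL, List.length_cons]
    have h := trJ_cost h3 e q (trL h3 e L) I (List.finRange (r - 2))
    rw [List.length_finRange] at h
    have h2 : (L.length + 1) * r = L.length * r + r := by ring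
    omega

private theorem trJ_out {r n d N : ℕ} (h3 : 3 ≤ r) (e : Fin N ≃ Idx r n d)
    (C : Par) (τ : ℝ) (Φ : (I : Inst N) → (k : ℕ) → (Fin (k + 1) → ℝ × ℝ) → Prop)
    (q : Fin n × Fin n) (nx : Tree 4 N) (js : List (Fin (r - 2)))
    (hyes : (∀ j ∈ js, (qu e q j).ans (inst e C τ) (0 : Fin 1) = 0) →
      Φ (inst e C τ) 3 (lineOut h3 e q (inst e C τ)))
    (hno : (¬ ∀ j ∈ js, (qu e q j).ans (inst e C τ) (0 : Fin 1) = 0) → nx.Out Φ (inst e C τ)) :
    (trJ h3 e q nx js).Out Φ (inst e C τ) := by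
  induction js with
  | nil =>
    simp only [trJ, Tree.Out]
    exact hyes (by simp)
  | cons j js ih =>
    simp only [trJ, Tree.Out]
    by_cases hj : (qu e q j).ans (inst e C τ) (0 : Fin 1) = 0
    · rw [if_pos hj]
      apply ih
      · intro h
        apply hyes
        intro j' hj'
        rcases List.mem_cons.1 hj' with rfl | h'
        · exact hj
        · exact h j' h'
      · intro h
        apply hno
        intro hcon
        exact h fun j' hj' => hcon j' (List.mem_cons_of_mem _ hj')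
    · rw [if_neg hj]
      apply hno
      intro hcon
      exact hj (hcon j List.mem_cons_self)

/-- Consecutive triples on a line, second coordinates strictly increasing: all on one line. -/
private theorem coll_of (r : ℕ) (P : ℕ → ℝ × ℝ)
    (h : ∀ j, j + 2 < r → orient (P j) (P (j + 1)) (P (j + 2)) = 0)
    (hm : ∀ j, j + 1 < r → (P j).2 < (P (j + 1)).2) (α β : ℝ)
    (h0 : (P 0).1 = α + β * (P 0).2) (h1 : (P 1).1 = α + β * (P 1).2) (j : ℕ) :
    j < r → (P j).1 = α + β * (P j).2 ∧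
      (j + 1 < r → (P (j + 1)).1 = α + β * (P (j + 1)).2) := by
  induction j with
  | zero =>
    intro _
    exact ⟨h0, fun _ => h1⟩
  | succ j ih =>
    intro hj
    obtain ⟨h2, h3⟩ := ih (by omega)
    have h3' := h3 hj
    refine ⟨h3', fun hj2 => ?_⟩
    have h4 := h j hj2
    have h5 := hm j hj
    unfold orient at h4
    have h6 : (P (j + 2)) = (P (j + 1 + 1)) := rfl
    rw [h6] at h4
    rw [h2, h3'] at h4
    have h7 : ((P (j + 1)).2 - (P j).2) *
        ((P (j + 1 + 1)).1 - (α + β * (P (j + 1 + 1)).2)) = 0 := by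
      linear_combination -h4
    rcases mul_eq_zero.1 h7 with h8 | h8
    · exfalso
      linarith
    · linarith

private theorem one_le_path {r n d N : ℕ} (e : Fin N ≃ Idx r n d) (C : Par)
    (τ : ℝ) (k : ℕ) (p : Fin (k + 1) → ℝ × ℝ) (hp : (inst e C τ).IsPath k p) : 1 ≤ k := by
  rcases Nat.eq_zero_or_pos k with rfl | h
  · exfalso
    have h0 := hp.1
    have h1 := hp.2.1
    have h2 : p 0 = p (Fin.last 0) := rfl
    rw [h2, h1] at h0
    have h3 := congrArg Prod.snd h0
    simp only [inst] at h3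
    have h4 : (0 : ℝ) ≤ (r : ℝ) := Nat.cast_nonneg r
    linarith
  · exact h

/-- The numbers. -/
private theorem nums {r n : ℕ} (hr : 1 ≤ r) (hn : 1 ≤ n) :
    1 ≤ (G r n : ℝ) ∧ (n : ℝ) ≤ G r n ∧ 0 < sl r n ∧ sl r n * (G r n : ℝ) ≤ 1 / 1000 ∧
      sl r n * ((G r n : ℝ) * (G r n : ℝ)) = 1 / 1000 := by
  have hG : 1 ≤ G r n := Nat.mul_pos hn hr
  have hG1 : (1 : ℝ) ≤ (G r n : ℝ) := by exact_mod_cast hG
  have hn1 : (n : ℝ) ≤ (G r n : ℝ) := by
    have : n ≤ G r n := Nat.le_mul_of_pos_right n hr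
    exact_mod_cast this
  have hG0 : (0 : ℝ) < (G r n : ℝ) := by linarith
  have hG2 : (G r n : ℝ) ≠ 0 := hG0.ne'
  have h1 : sl r n * ((G r n : ℝ) * (G r n : ℝ)) = 1 / 1000 := by
    unfold sl th
    field_simp
    norm_num
  have h0 : 0 < sl r n := by
    unfold sl th
    positivity
  refine ⟨hG1, hn1, h0, ?_, h1⟩
  have h2 : 0 < sl r n * (G r n : ℝ) := mul_pos h0 hG0
  nlinarith

/-- The bounds for the line. -/
private theorem bounds {B m s g x0 xm y0 ym β a : ℝ}
    (hG : 1 ≤ g) (hs : 0 < s) (hsg : s * (g * g) = 1 / 1000)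
    (hm : 2 ≤ m) (hB0 : 2 * g ≤ B) (hB1 : B ≤ 3 * g - 1)
    (ha1 : 1 ≤ a) (ha2 : a ≤ g)
    (hx0 : |x0 - a| ≤ 1 / 16) (hxm : |xm - (a + B * m)| ≤ 1 / 16)
    (hy0 : |y0 - s * a| ≤ s / 4) (hym : |ym - (m + s * (a + (B - 2 * g) * m))| ≤ s / 4)
    (hβ : xm - x0 = β * (ym - y0)) :
    |β - B| ≤ 1 / 4 ∧ |x0 - β * y0 - a| ≤ 1 / 4 := by
  rw [abs_le] at hx0 hxm hy0 hym
  have hsg1 : s * g ≤ 1 / 1000 := by nlinarith [mul_pos hs (by linarith : (0 : ℝ) < g)]
  have hsg0 : 0 < s * g := mul_pos hs (by linarith)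
  have hm0 : 0 < m := by linarith
  have hsm : 0 < s * m := mul_pos hs hm0
  obtain ⟨v, hv⟩ : ∃ v, v = B - 2 * g := ⟨_, rfl⟩
  have hv0 : 0 ≤ v := by rw [hv]; linarith
  have hv1 : v ≤ g - 1 := by rw [hv]; linarith
  rw [← hv] at hym
  obtain ⟨D, hD⟩ : ∃ D, D = ym - y0 := ⟨_, rfl⟩
  rw [← hD] at hβ
  have h1 : s * v * m ≤ s * (g - 1) * m := by
    have := mul_le_mul_of_nonneg_left hv1 hsm.le
    nlinarith
  have h2 : 0 ≤ s * v * m := mul_nonneg (mul_nonneg hs.le hv0) hm0.le
  have h3 : 2 * s ≤ s * m := by nlinarith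
  have hDu : D - m ≤ s * g * m := by
    have e1 : D - m ≤ s * v * m + s / 2 := by
      rw [hD]
      nlinarith [hym.1, hym.2, hy0.1, hy0.2]
    nlinarith
  have hDl : -(s * g * m) ≤ D - m := by
    have e1 : s * v * m - s / 2 ≤ D - m := by
      rw [hD]
      nlinarith [hym.1, hym.2, hy0.1, hy0.2]
    have e2 : s / 2 ≤ s * g * m := by nlinarith [mul_pos hsg0 hm0]
    linarith
  have hsgm : s * g * m ≤ m / 1000 := by nlinarith
  have hD0 : 999 / 1000 * m ≤ D := by linarith
  have hB00 : 0 < B := by linarith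
  have hBs : B * (s * g * m) ≤ 3 / 1000 * m := by
    have e1 : B * (s * g * m) ≤ 3 * g * (s * g * m) :=
      mul_le_mul_of_nonneg_right (by linarith) (mul_nonneg hsg0.le hm0.le)
    have e2 : 3 * g * (s * g * m) = 3 * (s * (g * g)) * m := by ring
    rw [e2, hsg] at e1
    linarith
  have hBD1 : B * (D - m) ≤ 3 / 1000 * m :=
    (mul_le_mul_of_nonneg_left hDu hB00.le).trans hBs
  have hBD2 : -(3 / 1000 * m) ≤ B * (D - m) := by
    have e1 := mul_le_mul_of_nonneg_left hDl hB00.le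
    have e2 : B * -(s * g * m) = -(B * (s * g * m)) := by ring
    rw [e2] at e1
    linarith
  have hkey : (β - B) * D = (xm - x0 - B * m) - B * (D - m) := by
    rw [hβ]
    ring
  have hk1 : (β - B) * D ≤ 1 / 8 + 3 / 1000 * m := by
    rw [hkey]
    linarith [hxm.2, hx0.1]
  have hk2 : -(1 / 8 + 3 / 1000 * m) ≤ (β - B) * D := by
    rw [hkey]
    linarith [hxm.1, hx0.2]
  have hβ1 : β - B ≤ 1 / 4 := by
    by_contra hcon
    rw [not_le] at hcon
    nlinarith
  have hβ2 : -(1 / 4) ≤ β - B := by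
    by_contra hcon
    rw [not_le] at hcon
    nlinarith
  refine ⟨abs_le.2 ⟨hβ2, hβ1⟩, ?_⟩
  have hβ0 : 0 < β := by linarith
  have hβ3 : β ≤ 3 * g := by linarith
  have hsa1 : s * a ≤ s * g := mul_le_mul_of_nonneg_left ha2 hs.le
  have hsa0 : s ≤ s * a := by nlinarith
  have hsg2 : s ≤ s * g := by nlinarith
  have hy00 : 0 ≤ y0 := by linarith [hy0.1]
  have hy01 : y0 ≤ 5 / 4 * (s * g) := by linarith [hy0.2]
  have hp0 : 0 ≤ β * y0 := mul_nonneg hβ0.le hy00
  have hp1 : β * y0 ≤ 1 / 100 := by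
    have e1 : β * y0 ≤ 3 * g * (5 / 4 * (s * g)) :=
      mul_le_mul hβ3 hy01 hy00 (by linarith)
    have e2 : 3 * g * (5 / 4 * (s * g)) = 15 / 4 * (s * (g * g)) := by ring
    rw [e2, hsg] at e1
    linarith
  rw [abs_le]
  constructor
  · linarith [hx0.1]
  · linarith [hx0.2]

theorem line_path {r n d N : ℕ} (h3 : 3 ≤ r) (hn : 1 ≤ n) (e : Fin N ≃ Idx r n d)
    (C : Par) (τ : ℝ) (hτ : 0 < τ) (hτ1 : τ ≤ th r n / 4) (hC : Near r n C)
    (u v : ℕ) (hu : u < n) (hv : v < n) (hL : Line r C u v) :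
    (inst e C τ).IsPath 3 (path3 r
      ((C 0 (1 + u)).1 - ((C 1 (1 + u + v)).1 - (C 0 (1 + u)).1) /
        ((C 1 (1 + u + v)).2 - (C 0 (1 + u)).2) * (C 0 (1 + u)).2)
      (((C 1 (1 + u + v)).1 - (C 0 (1 + u)).1) / ((C 1 (1 + u + v)).2 - (C 0 (1 + u)).2))) := by
  have hr : 1 ≤ r := by omega
  obtain ⟨hG1, hnG, hs0, hsG, hsGG⟩ := nums (n := n) hr hn
  have g0 : 1 + u + v * 0 ≤ G r n := gap_le u v 0 hu hv (by omega)
  obtain ⟨P, hP⟩ : ∃ P : ℕ → ℝ × ℝ, P = fun j => C j (1 + u + v * j) := ⟨_, rfl⟩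
  have hPj : ∀ j, P j = C j (1 + u + v * j) := fun j => by rw [hP]
  have hP0 : C 0 (1 + u) = P 0 := by
    rw [hPj 0, Nat.mul_zero, Nat.add_zero]
  have hP1 : C 1 (1 + u + v) = P 1 := by
    rw [hPj 1, Nat.mul_one]
  have hnear : ∀ j, j < r → |(P j).1 - ((1 + (u : ℝ)) + (2 * (G r n : ℝ) + v) * j)| ≤ 1 / 16 ∧
      |(P j).2 - (j + sl r n * ((1 + (u : ℝ)) + v * j))| ≤ sl r n / 4 := by
    intro j hj
    have h := hC j (1 + u + v * j) hj (by omega) (gap_le u v j hu hv hj)
    rw [← hPj j] at h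
    unfold pos at h
    push_cast at h
    have e1 : (P j).1 - (1 + (u : ℝ) + (2 * (G r n : ℝ) + v) * j) =
        (P j).1 - (2 * (G r n : ℝ) * j + (1 + u + v * j)) := by ring
    rw [e1]
    exact h
  have hmono : ∀ j, j + 1 < r → (P j).2 < (P (j + 1)).2 := by
    intro j hj
    have h1 := (hnear j (by omega)).2
    have h2 := (hnear (j + 1) hj).2
    rw [abs_le] at h1 h2
    push_cast at h2
    have h3 : 0 ≤ sl r n * v := mul_nonneg hs0.le (Nat.cast_nonneg v)
    have h4 : sl r n ≤ sl r n * (G r n : ℝ) := by nlinarith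
    nlinarith [h1.2, h2.1]
  have hcol : ∀ j, j + 2 < r → orient (P j) (P (j + 1)) (P (j + 2)) = 0 := by
    intro j hj
    rw [hPj, hPj, hPj]
    exact hL j hj
  rw [hP0, hP1]
  obtain ⟨β, hβ⟩ : ∃ β, β = ((P 1).1 - (P 0).1) / ((P 1).2 - (P 0).2) := ⟨_, rfl⟩
  rw [← hβ]
  obtain ⟨α, hα⟩ : ∃ α, α = (P 0).1 - β * (P 0).2 := ⟨_, rfl⟩
  rw [← hα]
  have hm01 : (P 0).2 < (P 1).2 := hmono 0 (by omega)
  have hne : (P 1).2 - (P 0).2 ≠ 0 := by
    intro h
    linarith
  have hβ' : β * ((P 1).2 - (P 0).2) = (P 1).1 - (P 0).1 := by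
    rw [hβ]
    exact div_mul_cancel₀ _ hne
  have hline0 : (P 0).1 = α + β * (P 0).2 := by rw [hα]; ring
  have hline1 : (P 1).1 = α + β * (P 1).2 := by
    rw [hα]
    linarith
  have hline : ∀ j, j < r → (P j).1 = α + β * (P j).2 := fun j hj =>
    (coll_of r P hcol hmono α β hline0 hline1 j hj).1
  have hb := bounds (B := 2 * (G r n : ℝ) + v) (m := (r : ℝ) - 1) (s := sl r n)
    (g := (G r n : ℝ)) (x0 := (P 0).1) (xm := (P (r - 1)).1) (y0 := (P 0).2)
    (ym := (P (r - 1)).2) (β := β) (a := 1 + (u : ℝ)) hG1 hs0 hsGG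
    (by
      have : (3 : ℝ) ≤ (r : ℝ) := by exact_mod_cast h3
      linarith)
    (by
      have : (0 : ℝ) ≤ (v : ℝ) := Nat.cast_nonneg v
      linarith)
    (by
      have : (v : ℝ) + 1 ≤ (n : ℝ) := by exact_mod_cast hv
      linarith)
    (by
      have : (0 : ℝ) ≤ (u : ℝ) := Nat.cast_nonneg u
      linarith)
    (by
      have h : 1 + u ≤ G r n := by simpa using g0
      exact_mod_cast h)
    (by
      have h := (hnear 0 (by omega)).1
      rw [Nat.cast_zero, mul_zero, add_zero] at h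
      exact h)
    (by
      have h := (hnear (r - 1) (by omega)).1
      rw [Nat.cast_sub hr, Nat.cast_one] at h
      exact h)
    (by
      have h := (hnear 0 (by omega)).2
      rw [Nat.cast_zero, mul_zero, add_zero, zero_add] at h
      exact h)
    (by
      have h := (hnear (r - 1) (by omega)).2
      rw [Nat.cast_sub hr, Nat.cast_one] at h
      have e1 : 2 * (G r n : ℝ) + v - 2 * (G r n : ℝ) = v := by ring
      rw [e1]
      exact h)
    (by
      rw [hline (r - 1) (by omega), hline0]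
      ring)
  refine path3_ok hr hn e C τ hτ hτ1 hC u v hu hv α β ?_ hb.1 ?_
  · rw [hα]
    exact hb.2
  · intro j hj
    rw [← hPj j]
    exact hline j hj

/-- The family. -/
def Fam {r n d N : ℕ} (e : Fin N ≃ Idx r n d) : Set (Inst N) :=
  {I | ∃ C τ, 0 < τ ∧ τ ≤ th r n / 4 ∧ Near r n C ∧
    (Blocked r n τ C ∨ ∃ u v, u < n ∧ v < n ∧ Line r C u v) ∧ I = inst e C τ}

theorem upperR {r n d N : ℕ} (h3 : 3 ≤ r) (hn : 1 ≤ n) (e : Fin N ≃ Idx r n d) :
    ∃ T : Tree 4 N, ∀ I ∈ Fam e, T.Out (Inst.IsApprox 9) I ∧ T.cost I ≤ n ^ 2 * r := by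
  refine ⟨trL h3 e (Finset.univ : Finset (Fin n × Fin n)).toList, ?_⟩
  rintro I ⟨C, τ, hτ, hτ1, hC, hcase, rfl⟩
  constructor
  · have key : ∀ L : List (Fin n × Fin n),
        ((∃ q ∈ L, Line r C q.1 q.2) ∨ Blocked r n τ C) →
        (trL h3 e L).Out (Inst.IsApprox 9) (inst e C τ) := by
      intro L
      induction L with
      | nil =>
        intro h
        have hB : Blocked r n τ C := by
          rcases h with ⟨q, hq, -⟩ | h
          · simp at hq
          · exact h
        simp only [trL, Tree.Out]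
        have hex := exists_long (by omega) hn e C τ hτ hτ1 hC
        have hpath : (inst e C τ).IsPath (2 * r + 1) (longOut r (inst e C τ)) := by
          unfold longOut
          rw [dif_pos hex]
          exact Classical.choose_spec hex
        refine ⟨hpath, fun k' p' hp' => ?_⟩
        have h1 := links (by omega) hn e C τ hτ hτ1 hC hB k' p' hp'
        have h2 := one_le_path e C τ k' p' hp'
        have h1' : (r : ℝ) ≤ 4 * k' := by exact_mod_cast h1
        have h2' : (1 : ℝ) ≤ k' := by exact_mod_cast h2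
        push_cast
        linarith
      | cons q L ih =>
        intro h
        simp only [trL]
        apply trJ_out
        · intro hz
          have hL : Line r C q.1 q.2 := by
            intro j hj
            have h := hz ⟨j, by omega⟩ (List.mem_finRange _)
            rw [qu_ans, sign_eq_zero_iff] at h
            exact h
          have hp := line_path h3 hn e C τ hτ hτ1 hC q.1 q.2 q.1.2 q.2.2 hL
          have hout : lineOut h3 e q (inst e C τ) = path3 r
              ((C 0 (1 + q.1)).1 - ((C 1 (1 + q.1 + q.2)).1 - (C 0 (1 + q.1)).1) /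
                ((C 1 (1 + q.1 + q.2)).2 - (C 0 (1 + q.1)).2) * (C 0 (1 + q.1)).2)
              (((C 1 (1 + q.1 + q.2)).1 - (C 0 (1 + q.1)).1) /
                ((C 1 (1 + q.1 + q.2)).2 - (C 0 (1 + q.1)).2)) := by
            unfold lineOut
            rw [obs_ob, obs_ob, obs_ob2, obs_ob2]
            simp only [mul_zero, add_zero, mul_one]
          rw [hout]
          refine ⟨hp, fun k' p' hp' => ?_⟩
          have h2 := one_le_path e C τ k' p' hp'
          have h2' : (1 : ℝ) ≤ k' := by exact_mod_cast h2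
          push_cast
          linarith
        · intro hz
          apply ih
          rcases h with ⟨q', hq', hL⟩ | hB
          · rcases List.mem_cons.1 hq' with rfl | hmem
            · exfalso
              apply hz
              intro j _
              rw [qu_ans, sign_eq_zero_iff]
              exact hL j (by have := j.2; omega)
            · exact Or.inl ⟨q', hmem, hL⟩
          · exact Or.inr hB
    apply key
    rcases hcase with hB | ⟨u, v, hu, hv, hL⟩
    · exact Or.inr hB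
    · exact Or.inl ⟨(⟨u, hu⟩, ⟨v, hv⟩), Finset.mem_toList.2 (Finset.mem_univ _), hL⟩
  · refine (trL_cost h3 e _ _).trans ?_
    rw [Finset.length_toList, Finset.card_univ, Fintype.card_prod, Fintype.card_fin, sq]

end Pool.LibML82.R
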