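import Pool.Agent.LibML82.RFam

/-!
# Row RG5: the instances are valid

Compare `BG5.lean` (same structure). Numbers: `G = G r n ≥ 1`, `th * G = 1/100`, `sl * G = th/10`, `sl ≤ th/10`.
Heights: `TR C j 0 = j`, `j < TR C j q ≤ j + th/10 + sl/4 < j + th/5` for `1 ≤ q ≤ G`;
`LL r n C τ j G = j + th/2`, and for `q < G`: `j < LL = (C j (q+1)).2 + τ ≤ j + th/10 + sl/4 + th/4 < j + th/2`.
Nondegenerate: as in `BG5.lean`.
Disjoint (it suffices to treat two different names):
* two pieces of wall R of the same ring: separated by first coordinates (as in `BG5.lean`); the same for wall L;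
* piece `q` of wall R and piece `q'` of wall L of the same ring: if `q ≤ q'` then
  `TR C j q < LL r n C τ j q'` (the heights increase: `(C j q).2 ≤ j + sl q + sl/4 < j + sl (q'+1) - sl/4 ≤ (C j (q'+1)).2`;
  for `q = 0`: `j < (C j 1).2`; for `q' = G`: `j + th/2`). If `q' + 1 = q` then `TR C j q = (C j q).2 < (C j q).2 + τ = LL r n C τ j q'`.
  If `q' + 1 < q` then `BL r n C j q' = (C j (q'+1)).1 ≤ pos j (q'+1) + 1/16 < pos j q - 1/16 ≤ (C j q).1 = AR r n C j q`;
* walls of different rings: heights in `[j - th, j + th]`;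
* walls and sides, sides and sides, dummies: as in `BG5.lean` (the tops of wall L are `j + th`, `th ≤ 1/100`).
`s = (0, r)` and `t = (0, -1)` are in no open rectangle.
-/

namespace Pool.LibML82.R

open Pool.LibML82.B (G pos th W D ep side In TopPt SidePt)

private theorem V_G1 {r n : ℕ} (hr : 1 ≤ r) (hn : 1 ≤ n) : (1 : ℝ) ≤ (G r n : ℝ) := by
  have h : 1 ≤ G r n := by
    unfold G
    exact Nat.mul_pos hn hr
  exact_mod_cast h

private theorem V_th {r n : ℕ} (hr : 1 ≤ r) (hn : 1 ≤ n) : 0 < th r n ∧ th r n ≤ 1 / 100 := by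
  have h := V_G1 hr hn
  unfold th
  constructor
  · positivity
  · apply one_div_le_one_div_of_le
    · norm_num
    · linarith

private theorem V_W {r n : ℕ} (j : ℕ) : 10 + 3 * (j : ℝ) ≤ W r n j := by
  unfold W
  have h1 : (0 : ℝ) ≤ 2 * (G r n : ℝ) * r := by positivity
  have h2 : (0 : ℝ) ≤ 2 * (G r n : ℝ) := by positivity
  linarith

private theorem V_ep (r n : ℕ) : 0 < ep r n ∧ ep r n ≤ 1 / 16 := by
  have h := V_W (r := r) (n := n) r
  have h2 : (0 : ℝ) ≤ (r : ℝ) := Nat.cast_nonneg r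
  unfold ep
  constructor
  · apply one_div_pos.mpr
    linarith
  · apply one_div_le_one_div_of_le
    · norm_num
    · linarith

private theorem V_pos {r n j g : ℕ} (hj : j < r) (hg : g ≤ G r n) :
    0 ≤ pos r n j g ∧ pos r n j g ≤ 2 * (G r n : ℝ) * r := by
  have hG : (0 : ℝ) ≤ (G r n : ℝ) := Nat.cast_nonneg _
  have hg' : (g : ℝ) ≤ (G r n : ℝ) := by exact_mod_cast hg
  have hj' : (j : ℝ) + 1 ≤ (r : ℝ) := by exact_mod_cast hj
  have h0 : (0 : ℝ) ≤ (j : ℝ) := Nat.cast_nonneg j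
  have h1 : (0 : ℝ) ≤ (g : ℝ) := Nat.cast_nonneg g
  unfold pos
  constructor
  · positivity
  · have h2 := mul_le_mul_of_nonneg_left hj' (by linarith : (0 : ℝ) ≤ 2 * (G r n : ℝ))
    nlinarith

private theorem V_pos_succ (r n j g : ℕ) : pos r n j (g + 1) = pos r n j g + 1 := by
  unfold pos
  push_cast
  ring

private theorem V_pos_mono {r n j g g' : ℕ} (h : g ≤ g') : pos r n j g ≤ pos r n j g' := by
  have h' : (g : ℝ) ≤ (g' : ℝ) := by exact_mod_cast h
  unfold pos
  linarith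

private theorem V_X {r n : ℕ} {C : Par} (hC : Near r n C) {j g : ℕ} (hj : j < r)
    (h1 : 1 ≤ g) (h2 : g ≤ G r n) :
    pos r n j g - 1 / 16 ≤ (C j g).1 ∧ (C j g).1 ≤ pos r n j g + 1 / 16 := by
  have h := abs_le.1 (hC j g hj h1 h2).1
  constructor <;> linarith [h.1, h.2]

private theorem V_sl {r n : ℕ} (hr : 1 ≤ r) (hn : 1 ≤ n) :
    0 < sl r n ∧ sl r n * (G r n : ℝ) = th r n / 10 ∧ sl r n ≤ th r n / 10 := by
  have hG := V_G1 hr hn
  have ht := V_th hr hn
  have hG0 : (0 : ℝ) < (G r n : ℝ) := by linarith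
  have h1 : 0 < sl r n := by
    unfold sl
    have := ht.1
    positivity
  have h2 : sl r n * (G r n : ℝ) = th r n / 10 := by
    unfold sl
    field_simp
  refine ⟨h1, h2, ?_⟩
  have h3 : sl r n * 1 ≤ sl r n * (G r n : ℝ) := mul_le_mul_of_nonneg_left hG h1.le
  linarith

private theorem V_h {r n : ℕ} {C : Par} (hC : Near r n C) {j g : ℕ} (hj : j < r)
    (h1 : 1 ≤ g) (h2 : g ≤ G r n) :
    (j : ℝ) + sl r n * g - sl r n / 4 ≤ (C j g).2 ∧
      (C j g).2 ≤ (j : ℝ) + sl r n * g + sl r n / 4 := by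
  have h := abs_le.1 (hC j g hj h1 h2).2
  constructor <;> linarith [h.1, h.2]

/-- heights of the moving corners -/
private theorem V_hb {r n : ℕ} (hr : 1 ≤ r) (hn : 1 ≤ n) {C : Par} (hC : Near r n C) {j g : ℕ}
    (hj : j < r) (h1 : 1 ≤ g) (h2 : g ≤ G r n) :
    (j : ℝ) < (C j g).2 ∧ (C j g).2 ≤ (j : ℝ) + th r n / 8 := by
  have hs := V_sl hr hn
  have hs1 := hs.1
  have hs2 := hs.2.1
  have hs3 := hs.2.2
  have h := V_h hC hj h1 h2
  have g1 : (1 : ℝ) ≤ (g : ℝ) := by exact_mod_cast h1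
  have g2 : (g : ℝ) ≤ (G r n : ℝ) := by exact_mod_cast h2
  have k1 : sl r n * 1 ≤ sl r n * (g : ℝ) := mul_le_mul_of_nonneg_left g1 hs1.le
  have k2 : sl r n * (g : ℝ) ≤ sl r n * (G r n : ℝ) := mul_le_mul_of_nonneg_left g2 hs1.le
  constructor
  · linarith [h.1]
  · linarith [h.2]

private theorem V_TR {r n : ℕ} (hr : 1 ≤ r) (hn : 1 ≤ n) {C : Par} (hC : Near r n C) {j q : ℕ}
    (hj : j < r) (hq : q ≤ G r n) :
    (j : ℝ) ≤ TR C j q ∧ TR C j q ≤ (j : ℝ) + th r n / 8 := by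
  have ht := V_th hr hn
  unfold TR
  split_ifs with h
  · exact ⟨le_refl _, by linarith [ht.1]⟩
  · have h1 := V_hb hr hn hC hj (Nat.one_le_iff_ne_zero.2 h) hq
    exact ⟨h1.1.le, h1.2⟩

private theorem V_LLb {r n : ℕ} (hr : 1 ≤ r) (hn : 1 ≤ n) {C : Par} {τ : ℝ} (hτ : 0 < τ)
    (hτ1 : τ ≤ th r n / 4) (hC : Near r n C) {j q : ℕ}
    (hj : j < r) (hq : q ≤ G r n) :
    (j : ℝ) < LL r n C τ j q ∧ LL r n C τ j q ≤ (j : ℝ) + th r n / 2 := by
  have ht := V_th hr hn
  unfold LL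
  split_ifs with h
  · exact ⟨by linarith [ht.1], le_refl _⟩
  · have h1 := V_hb hr hn hC hj (show 1 ≤ q + 1 by omega) (show q + 1 ≤ G r n by omega)
    exact ⟨by linarith [h1.1], by linarith [h1.2, ht.1]⟩

private theorem V_Wmono {r n j j' : ℕ} (h : j < j') : W r n j + 3 ≤ W r n j' := by
  have h' : (j : ℝ) + 1 ≤ (j' : ℝ) := by exact_mod_cast h
  unfold W
  linarith

private theorem V_Wr {r n : ℕ} (j : ℕ) : 2 * (G r n : ℝ) * r + 10 ≤ W r n j := by
  unfold W
  have h1 : (0 : ℝ) ≤ (j : ℝ) := Nat.cast_nonneg j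
  have h2 : (0 : ℝ) ≤ 2 * (G r n : ℝ) := by positivity
  linarith

private theorem V_AR {r n : ℕ} {C : Par} (hC : Near r n C) {j q : ℕ} (hj : j < r)
    (hq : q ≤ G r n) : -W r n j - 1 ≤ AR r n C j q := by
  unfold AR
  split_ifs with h
  · exact le_refl _
  · have h1 := V_X hC hj (Nat.one_le_iff_ne_zero.2 h) hq
    have h2 := (V_pos hj hq).1
    have h3 := V_W (r := r) (n := n) j
    have h4 : (0 : ℝ) ≤ (j : ℝ) := Nat.cast_nonneg j
    linarith [h1.1]

private theorem V_BR {r n : ℕ} {j q : ℕ} (hj : j < r)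
    (hq : q ≤ G r n) : BR r n j q ≤ W r n j + 1 := by
  unfold BR
  split_ifs with h
  · exact le_refl _
  · have h2 := (V_pos hj (show q + 1 ≤ G r n by omega)).2
    have h3 := V_Wr (r := r) (n := n) j
    linarith

private theorem V_AL {r n : ℕ} {j q : ℕ} (hj : j < r)
    (hq : q ≤ G r n) : -W r n j - 1 ≤ AL r n j q := by
  unfold AL
  split_ifs with h
  · exact le_refl _
  · have h2 := (V_pos hj hq).1
    have h3 := V_W (r := r) (n := n) j
    have h4 : (0 : ℝ) ≤ (j : ℝ) := Nat.cast_nonneg j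
    linarith

private theorem V_BL {r n : ℕ} {C : Par} (hC : Near r n C) {j q : ℕ} (hj : j < r)
    (hq : q ≤ G r n) : BL r n C j q ≤ W r n j + 1 := by
  unfold BL
  split_ifs with h
  · exact le_refl _
  · have h1 := V_X hC hj (show 1 ≤ q + 1 by omega) (show q + 1 ≤ G r n by omega)
    have h2 := (V_pos hj (show q + 1 ≤ G r n by omega)).2
    have h3 := V_Wr (r := r) (n := n) j
    linarith [h1.2]

private theorem V_nR {r n : ℕ} (hr : 1 ≤ r) (hn : 1 ≤ n) {C : Par} (hC : Near r n C)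
    {j q : ℕ} (hj : j < r) (hq : q ≤ G r n) : AR r n C j q < BR r n j q := by
  have hG : 1 ≤ G r n := by exact_mod_cast V_G1 hr hn
  have h3 := V_Wr (r := r) (n := n) j
  have h4 := V_W (r := r) (n := n) j
  have h5 : (0 : ℝ) ≤ (j : ℝ) := Nat.cast_nonneg j
  unfold AR BR
  by_cases h0 : q = 0
  · rw [if_pos h0, if_neg (by omega)]
    have h2 := (V_pos hj (show q + 1 ≤ G r n by omega)).1
    linarith
  · rw [if_neg h0]
    have h1 := V_X hC hj (Nat.one_le_iff_ne_zero.2 h0) hq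
    have h2 := (V_pos hj hq).2
    split_ifs with h
    · linarith [h1.2]
    · rw [V_pos_succ]
      linarith [h1.2]

private theorem V_nL {r n : ℕ} (hr : 1 ≤ r) (hn : 1 ≤ n) {C : Par} (hC : Near r n C)
    {j q : ℕ} (hj : j < r) (hq : q ≤ G r n) : AL r n j q < BL r n C j q := by
  have hG : 1 ≤ G r n := by exact_mod_cast V_G1 hr hn
  have h3 := V_Wr (r := r) (n := n) j
  have h4 := V_W (r := r) (n := n) j
  have h5 : (0 : ℝ) ≤ (j : ℝ) := Nat.cast_nonneg j
  unfold AL BL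
  by_cases h : q = G r n
  · rw [if_neg (by omega), if_pos h]
    have h2 := (V_pos hj hq).2
    linarith
  · rw [if_neg h]
    have h1 := V_X hC hj (show 1 ≤ q + 1 by omega) (show q + 1 ≤ G r n by omega)
    have h6 := (V_pos hj hq).1
    rw [V_pos_succ] at h1
    split_ifs with h0
    · linarith [h1.1]
    · linarith [h1.1]

/-- separation of two rectangles -/
private def Sep (R R' : Rect) : Prop :=
  (R.x1 < R'.x0 ∨ R'.x1 < R.x0) ∨ (R.y1 < R'.y0 ∨ R'.y1 < R.y0)

private theorem Sep.symm {R R' : Rect} (h : Sep R R') : Sep R' R := by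
  unfold Sep at *
  tauto

private theorem Sep.disj {R R' : Rect} (h : Sep R R') : Disjoint R.closed R'.closed := by
  rw [Set.disjoint_left]
  rintro p ⟨h1, h2, h3, h4⟩ ⟨h5, h6, h7, h8⟩
  rcases h with (h | h) | (h | h) <;> linarith

private theorem V_cast {a b : ℕ} (h : a < b) : (a : ℝ) + 1 ≤ (b : ℝ) := by exact_mod_cast h

private theorem V_cast' {a b : ℕ} (h : a ≤ b) : (a : ℝ) ≤ (b : ℝ) := by exact_mod_cast h

private theorem side0 (r n j : ℕ) :
    side r n j 0 = ⟨-W r n j - 1, -W r n j, -D j, j - th r n - ep r n⟩ := rfl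
private theorem side1 (r n j : ℕ) :
    side r n j 1 = ⟨W r n j, W r n j + 1, -D j, j - th r n - ep r n⟩ := rfl
private theorem side2 (r n j : ℕ) :
    side r n j 2 = ⟨-W r n j - 1, W r n j + 1, -D j - 1 - ep r n, -D j - ep r n⟩ := rfl

/-- bounds for the sides -/
private theorem V_sideB {r n : ℕ} (j : ℕ) (hth : 0 < th r n ∧ th r n ≤ 1 / 100) (k : Fin 3) :
    -W r n j - 1 ≤ (side r n j k).x0 ∧ (side r n j k).x1 ≤ W r n j + 1 ∧
      -D j - 1 - ep r n ≤ (side r n j k).y0 ∧ (side r n j k).y1 ≤ j - th r n - ep r n := by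
  have h3 := V_W (r := r) (n := n) j
  have h5 : (0 : ℝ) ≤ (j : ℝ) := Nat.cast_nonneg j
  have he := V_ep r n
  have ht : D j = 2 + 3 * (j : ℝ) := rfl
  have ht1 := hth.1
  have ht2 := hth.2
  fin_cases k
  · show _ ≤ -W r n j - 1 ∧ -W r n j ≤ _ ∧ _ ≤ -D j ∧ (j : ℝ) - th r n - ep r n ≤ _
    refine ⟨by linarith, by linarith, by linarith [he.1], by linarith⟩
  · show _ ≤ W r n j ∧ W r n j + 1 ≤ _ ∧ _ ≤ -D j ∧ (j : ℝ) - th r n - ep r n ≤ _
    refine ⟨by linarith, by linarith, by linarith [he.1], by linarith⟩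
  · show _ ≤ -W r n j - 1 ∧ W r n j + 1 ≤ _ ∧ _ ≤ -D j - 1 - ep r n ∧ -D j - ep r n ≤ _
    refine ⟨by linarith, by linarith, by linarith [he.1], by linarith⟩

/-- nondegenerate -/
private theorem V_nondeg {r n d : ℕ} (hr : 1 ≤ r) (hn : 1 ≤ n) (C : Par) (τ : ℝ) (hτ : 0 < τ)
    (hτ1 : τ ≤ th r n / 4) (hC : Near r n C) (v : Idx r n d) :
    (rect r n d C τ v).x0 < (rect r n d C τ v).x1 ∧
      (rect r n d C τ v).y0 < (rect r n d C τ v).y1 := by
  have ht := V_th hr hn
  have he := V_ep r n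
  rcases v with ⟨j, q⟩ | ⟨j, q⟩ | ⟨j, k⟩ | i
  · have h1 := V_nR hr hn hC j.2 (Nat.lt_succ_iff.1 q.2)
    refine ⟨h1, ?_⟩
    have h2 := V_TR hr hn hC j.2 (Nat.lt_succ_iff.1 q.2)
    show (j : ℝ) - th r n < TR C j q
    linarith [ht.1, h2.1]
  · have h1 := V_nL hr hn hC j.2 (Nat.lt_succ_iff.1 q.2)
    refine ⟨h1, ?_⟩
    have h2 := V_LLb hr hn hτ hτ1 hC j.2 (Nat.lt_succ_iff.1 q.2)
    show LL r n C τ j q < (j : ℝ) + th r n
    linarith [ht.1, h2.2]
  · have hW := V_W (r := r) (n := n) j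
    have h5 : (0 : ℝ) ≤ (j : ℝ) := Nat.cast_nonneg _
    have hD : D (j : ℕ) = 2 + 3 * (j : ℝ) := rfl
    have ht1 := ht.1
    have ht2 := ht.2
    have he1 := he.1
    have he2 := he.2
    show (side r n j k).x0 < (side r n j k).x1 ∧ (side r n j k).y0 < (side r n j k).y1
    fin_cases k
    · show -W r n j - 1 < -W r n j ∧ -D j < (j : ℝ) - th r n - ep r n
      constructor <;> linarith
    · show W r n j < W r n j + 1 ∧ -D j < (j : ℝ) - th r n - ep r n
      constructor <;> linarith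
    · show -W r n j - 1 < W r n j + 1 ∧ -D j - 1 - ep r n < -D j - ep r n
      constructor <;> linarith
  · refine ⟨?_, ?_⟩
    · show (0 : ℝ) < 1
      norm_num
    · show (r : ℝ) + 100 + 2 * (i : ℕ) < (r : ℝ) + 101 + 2 * (i : ℕ)
      linarith

/-- two walls (of any kind) of different rings -/
private theorem V_ring {t : ℝ} (ht : 0 < t) (ht' : t ≤ 1 / 100) (R R' : Rect) {j j' : ℕ}
    (h1 : (j : ℝ) - t ≤ R.y0) (h2 : R.y1 ≤ j + t) (h3 : (j' : ℝ) - t ≤ R'.y0)
    (h4 : R'.y1 ≤ j' + t) (h : j ≠ j') : Sep R R' := by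
  right
  rcases lt_or_gt_of_ne h with hjj | hjj
  · left
    have := V_cast hjj
    linarith
  · right
    have := V_cast hjj
    linarith

private theorem V_RR {r n : ℕ} {C : Par} (hC : Near r n C) {a b c d : ℝ} {j q q' : ℕ}
    (hj : j < r) (hq : q ≤ G r n) (hq' : q' ≤ G r n) (h : q ≠ q') :
    Sep ⟨AR r n C j q, BR r n j q, a, b⟩ ⟨AR r n C j q', BR r n j q', c, d⟩ := by
  have key : ∀ {q q' : ℕ}, q' ≤ G r n → q < q' → BR r n j q < AR r n C j q' := by
    intro q q' h1 h2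
    unfold BR AR
    rw [if_neg (by omega), if_neg (by omega)]
    have h3 := V_X hC hj (show 1 ≤ q' by omega) h1
    have h4 := V_pos_mono (r := r) (n := n) (j := j) (show q + 1 ≤ q' from h2)
    linarith [h3.1]
  left
  rcases lt_or_gt_of_ne h with hqq | hqq
  · left
    exact key hq' hqq
  · right
    exact key hq hqq

private theorem V_LL {r n : ℕ} {C : Par} (hC : Near r n C) {a b c d : ℝ} {j q q' : ℕ}
    (hj : j < r) (hq : q ≤ G r n) (hq' : q' ≤ G r n) (h : q ≠ q') :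
    Sep ⟨AL r n j q, BL r n C j q, a, b⟩ ⟨AL r n j q', BL r n C j q', c, d⟩ := by
  have key : ∀ {q q' : ℕ}, q' ≤ G r n → q < q' → BL r n C j q < AL r n j q' := by
    intro q q' h1 h2
    unfold BL AL
    rw [if_neg (by omega), if_neg (by omega)]
    have h3 := V_X hC hj (show 1 ≤ q + 1 by omega) (show q + 1 ≤ G r n by omega)
    have h4 := V_pos_mono (r := r) (n := n) (j := j) (show q + 1 ≤ q' from h2)
    linarith [h3.2]
  left
  rcases lt_or_gt_of_ne h with hqq | hqq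
  · left
    exact key hq' hqq
  · right
    exact key hq hqq

/-- a piece of wall R and a piece of wall L of the same ring -/
private theorem V_RL {r n : ℕ} (hr : 1 ≤ r) (hn : 1 ≤ n) {C : Par} {τ : ℝ} (hτ : 0 < τ)
    (hC : Near r n C) {j q q' : ℕ} {b c a' d' : ℝ}
    (hj : j < r) (hq : q ≤ G r n) (hq' : q' ≤ G r n) :
    Sep ⟨AR r n C j q, b, c, TR C j q⟩ ⟨a', BL r n C j q', LL r n C τ j q', d'⟩ := by
  have ht := V_th hr hn
  have hs := V_sl hr hn
  rcases Nat.lt_or_ge q' q with hqq | hqq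
  · rcases Nat.lt_or_ge (q' + 1) q with h2 | h2
    · left; right
      show BL r n C j q' < AR r n C j q
      unfold BL AR
      rw [if_neg (by omega), if_neg (by omega)]
      have h3 := V_X hC hj (show 1 ≤ q' + 1 by omega) (show q' + 1 ≤ G r n by omega)
      have h4 := V_X hC hj (show 1 ≤ q by omega) hq
      have h5 := V_pos_mono (r := r) (n := n) (j := j) (show q' + 1 + 1 ≤ q from h2)
      rw [V_pos_succ] at h5
      linarith [h3.2, h4.1]
    · have h3 : q = q' + 1 := by omega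
      subst h3
      right; left
      show TR C j (q' + 1) < LL r n C τ j q'
      unfold TR LL
      rw [if_neg (by omega), if_neg (by omega)]
      linarith
  · right; left
    show TR C j q < LL r n C τ j q'
    by_cases hG : q' = G r n
    · have h1 := V_TR hr hn hC hj hq
      unfold LL
      rw [if_pos hG]
      linarith [h1.2, ht.1]
    · unfold LL
      rw [if_neg hG]
      have h1 := V_h hC hj (show 1 ≤ q' + 1 by omega) (show q' + 1 ≤ G r n by omega)
      by_cases h0 : q = 0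
      · have h2 := V_hb hr hn hC hj (show 1 ≤ q' + 1 by omega) (show q' + 1 ≤ G r n by omega)
        unfold TR
        rw [if_pos h0]
        linarith [h2.1]
      · have h2 := V_h hC hj (Nat.one_le_iff_ne_zero.2 h0) hq
        unfold TR
        rw [if_neg h0]
        have h3 : (q : ℝ) + 1 ≤ ((q' + 1 : ℕ) : ℝ) := by exact_mod_cast Nat.succ_le_succ hqq
        have h4 := mul_le_mul_of_nonneg_left h3 hs.1.le
        linarith [h1.1, h2.2, hs.1]

/-- a wall of ring j (x-range within W j + 1, lower end at least j - th) and a side -/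
private theorem V_wS {r n : ℕ} (R : Rect) {j : ℕ} (ht : 0 < th r n ∧ th r n ≤ 1 / 100)
    (h0 : -W r n j - 1 ≤ R.x0) (h1 : R.x1 ≤ W r n j + 1) (h2 : (j : ℝ) - th r n ≤ R.y0)
    (j' : ℕ) (k : Fin 3) : Sep R (side r n j' k) := by
  have he := V_ep r n
  have he1 := he.1
  have ht1 := ht.1
  have ht2 := ht.2
  have h5 : (0 : ℝ) ≤ (j : ℝ) := Nat.cast_nonneg _
  have h6 : (0 : ℝ) ≤ (j' : ℝ) := Nat.cast_nonneg _
  have hD : D (j' : ℕ) = 2 + 3 * (j' : ℝ) := rfl
  rcases Nat.lt_or_ge j j' with hjj | hjj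
  · have hW := V_Wmono (r := r) (n := n) hjj
    fin_cases k
    · left; right
      show -W r n j' < R.x0
      linarith
    · left; left
      show R.x1 < W r n j'
      linarith
    · right; right
      show -D j' - ep r n < R.y0
      linarith
  · have hc := V_cast' hjj
    fin_cases k
    · right; right
      show (j' : ℝ) - th r n - ep r n < R.y0
      linarith
    · right; right
      show (j' : ℝ) - th r n - ep r n < R.y0
      linarith
    · right; right
      show -D j' - ep r n < R.y0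
      linarith

private theorem V_SS1 {r n : ℕ} (ht : 0 < th r n ∧ th r n ≤ 1 / 100) {j j' : ℕ} (h : j < j')
    (k k' : Fin 3) : Sep (side r n j k) (side r n j' k') := by
  obtain ⟨b0, b1, b2, b3⟩ := V_sideB j ht k
  have hW := V_Wmono (r := r) (n := n) h
  have hc := V_cast h
  have hD : D (j : ℕ) = 2 + 3 * (j : ℝ) := rfl
  have hD' : D (j' : ℕ) = 2 + 3 * (j' : ℝ) := rfl
  fin_cases k'
  · left; right
    show -W r n j' < _
    linarith
  · left; left
    show _ < W r n j'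
    linarith
  · right; right
    show -D j' - ep r n < _
    linarith

private theorem V_SS0 {r n : ℕ} (j : ℕ) {k k' : Fin 3} (h : k < k') :
    Sep (side r n j k) (side r n j k') := by
  have he := (V_ep r n).1
  have hW := V_W (r := r) (n := n) j
  have h5 : (0 : ℝ) ≤ (j : ℝ) := Nat.cast_nonneg _
  fin_cases k <;> fin_cases k' <;> first | (exact absurd h (by decide)) | skip
  · left; left
    show -W r n j < W r n j
    linarith
  · right; right
    show -D j - ep r n < -D j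
    linarith
  · right; right
    show -D j - ep r n < -D j
    linarith

private theorem V_SS {r n : ℕ} (ht : 0 < th r n ∧ th r n ≤ 1 / 100) {j j' : ℕ} {k k' : Fin 3}
    (h : ¬ (j = j' ∧ k = k')) : Sep (side r n j k) (side r n j' k') := by
  rcases lt_trichotomy j j' with hjj | hjj | hjj
  · exact V_SS1 ht hjj k k'
  · subst hjj
    rcases lt_trichotomy k k' with hk | hk | hk
    · exact V_SS0 j hk
    · exact absurd ⟨rfl, hk⟩ h
    · exact (V_SS0 j hk).symm
  · exact (V_SS1 ht hjj k' k).symm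

private theorem V_wD {r : ℕ} (R : Rect) (h : R.y1 < r + 1) (i : ℕ) :
    Sep R ⟨0, 1, r + 100 + 2 * (i : ℕ), r + 101 + 2 * (i : ℕ)⟩ := by
  right; left
  show R.y1 < (r : ℝ) + 100 + 2 * (i : ℕ)
  have h6 : (0 : ℝ) ≤ ((i : ℕ) : ℝ) := Nat.cast_nonneg _
  linarith

/-- the upper ends -/
private theorem V_up {r n d : ℕ} (hr : 1 ≤ r) (hn : 1 ≤ n) (C : Par) (τ : ℝ)
    (hC : Near r n C) (v : Idx r n d) (hv : ∀ i, v ≠ .inr (.inr (.inr i))) :
    (rect r n d C τ v).y1 < r := by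
  have ht := V_th hr hn
  have he := V_ep r n
  rcases v with ⟨j, q⟩ | ⟨j, q⟩ | ⟨j, k⟩ | i
  · have h2 := V_TR hr hn hC j.2 (Nat.lt_succ_iff.1 q.2)
    show TR C j q < r
    have := V_cast j.2
    linarith [ht.1, ht.2, h2.2]
  · show ((j : ℕ) : ℝ) + th r n < r
    have := V_cast j.2
    linarith [ht.2]
  · have h1 := (V_sideB j ht k).2.2.2
    have := V_cast j.2
    show (side r n j k).y1 < r
    linarith [ht.1, he.1]
  · exact absurd rfl (hv i)

private theorem V_sep {r n d : ℕ} (hr : 1 ≤ r) (hn : 1 ≤ n) (C : Par) (τ : ℝ) (hτ : 0 < τ)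
    (hτ1 : τ ≤ th r n / 4) (hC : Near r n C) (v v' : Idx r n d) (h : v ≠ v') :
    Sep (rect r n d C τ v) (rect r n d C τ v') := by
  have ht := V_th hr hn
  have hup := V_up (d := d) hr hn C τ hC
  have hR : ∀ (j : Fin r) (q : Fin (G r n + 1)),
      ((j : ℕ) : ℝ) - th r n ≤ (rect r n d C τ (.inl (j, q))).y0 ∧
        (rect r n d C τ (.inl (j, q))).y1 ≤ ((j : ℕ) : ℝ) + th r n := by
    intro j q
    have h2 := V_TR hr hn hC j.2 (Nat.lt_succ_iff.1 q.2)
    refine ⟨le_refl _, ?_⟩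
    show TR C j q ≤ ((j : ℕ) : ℝ) + th r n
    linarith [ht.1, h2.2]
  have hL : ∀ (j : Fin r) (q : Fin (G r n + 1)),
      ((j : ℕ) : ℝ) - th r n ≤ (rect r n d C τ (.inr (.inl (j, q)))).y0 ∧
        (rect r n d C τ (.inr (.inl (j, q)))).y1 ≤ ((j : ℕ) : ℝ) + th r n := by
    intro j q
    have h2 := V_LLb hr hn hτ hτ1 hC j.2 (Nat.lt_succ_iff.1 q.2)
    refine ⟨?_, le_refl _⟩
    show ((j : ℕ) : ℝ) - th r n ≤ LL r n C τ j q
    linarith [ht.1, h2.1]
  have hRL : ∀ (j : Fin r) (q : Fin (G r n + 1)) (j' : Fin r) (q' : Fin (G r n + 1)),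
      Sep (rect r n d C τ (.inl (j, q))) (rect r n d C τ (.inr (.inl (j', q')))) := by
    intro j q j' q'
    by_cases hjj : j = j'
    · subst hjj
      exact V_RL hr hn hτ hC j.2 (Nat.lt_succ_iff.1 q.2) (Nat.lt_succ_iff.1 q'.2)
    · exact V_ring ht.1 ht.2 _ _ (hR j q).1 (hR j q).2 (hL j' q').1 (hL j' q').2
        (fun h' => hjj (Fin.ext h'))
  have hRS : ∀ (j : Fin r) (q : Fin (G r n + 1)) (j' : Fin r) (k : Fin 3),
      Sep (rect r n d C τ (.inl (j, q))) (side r n j' k) := by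
    intro j q j' k
    exact V_wS _ (j := j) ht (V_AR hC j.2 (Nat.lt_succ_iff.1 q.2))
      (V_BR j.2 (Nat.lt_succ_iff.1 q.2)) (le_refl _) j' k
  have hLS : ∀ (j : Fin r) (q : Fin (G r n + 1)) (j' : Fin r) (k : Fin 3),
      Sep (rect r n d C τ (.inr (.inl (j, q)))) (side r n j' k) := by
    intro j q j' k
    exact V_wS _ (j := j) ht (V_AL j.2 (Nat.lt_succ_iff.1 q.2))
      (V_BL hC j.2 (Nat.lt_succ_iff.1 q.2)) (hL j q).1 j' k
  have hD : ∀ (v : Idx r n d) (i : Fin d), (∀ i, v ≠ .inr (.inr (.inr i))) →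
      Sep (rect r n d C τ v) (rect r n d C τ (.inr (.inr (.inr i)))) := by
    intro v i hv
    exact V_wD _ (by linarith [hup v hv]) i
  rcases v with ⟨j, q⟩ | ⟨j, q⟩ | ⟨j, k⟩ | i <;> rcases v' with ⟨j', q'⟩ | ⟨j', q'⟩ | ⟨j', k'⟩ | i'
  · by_cases hjj : j = j'
    · subst hjj
      refine V_RR hC j.2 (Nat.lt_succ_iff.1 q.2) (Nat.lt_succ_iff.1 q'.2) ?_
      intro h2
      have e2 : q = q' := Fin.ext h2
      exact h (by rw [e2])
    · exact V_ring ht.1 ht.2 _ _ (hR j q).1 (hR j q).2 (hR j' q').1 (hR j' q').2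
        (fun h' => hjj (Fin.ext h'))
  · exact hRL j q j' q'
  · exact hRS j q j' k'
  · exact hD _ _ (fun i => by simp)
  · exact (hRL j' q' j q).symm
  · by_cases hjj : j = j'
    · subst hjj
      refine V_LL hC j.2 (Nat.lt_succ_iff.1 q.2) (Nat.lt_succ_iff.1 q'.2) ?_
      intro h2
      have e2 : q = q' := Fin.ext h2
      exact h (by rw [e2])
    · exact V_ring ht.1 ht.2 _ _ (hL j q).1 (hL j q).2 (hL j' q').1 (hL j' q').2
        (fun h' => hjj (Fin.ext h'))
  · exact hLS j q j' k'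
  · exact hD _ _ (fun i => by simp)
  · exact (hRS j' q' j k).symm
  · exact (hLS j' q' j k).symm
  · refine V_SS ht ?_
    rintro ⟨h1, h2⟩
    have e1 : j = j' := Fin.ext h1
    have e2 : k = k' := h2
    exact h (by rw [e1, e2])
  · exact hD _ _ (fun i => by simp)
  · exact (hD _ _ (fun i => by simp)).symm
  · exact (hD _ _ (fun i => by simp)).symm
  · exact (hD _ _ (fun i => by simp)).symm
  · right
    have hne : i ≠ i' := fun h' => h (by rw [h'])
    rcases lt_or_gt_of_ne (fun h' => hne (Fin.ext h')) with hlt | hlt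
    · left
      show (r : ℝ) + 101 + 2 * (i : ℕ) < (r : ℝ) + 100 + 2 * (i' : ℕ)
      have := V_cast hlt
      linarith
    · right
      show (r : ℝ) + 101 + 2 * (i' : ℕ) < (r : ℝ) + 100 + 2 * (i : ℕ)
      have := V_cast hlt
      linarith

theorem valid {r n d N : ℕ} (hr : 1 ≤ r) (hn : 1 ≤ n) (e : Fin N ≃ Idx r n d)
    (C : Par) (τ : ℝ) (hτ : 0 < τ) (hτ1 : τ ≤ th r n / 4) (hC : Near r n C) :
    (inst e C τ).Valid := by
  have ht := V_th hr hn
  have he := V_ep r n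
  have ht1 := ht.1
  have ht2 := ht.2
  have he1 := he.1
  refine ⟨?_, ?_, ?_, ?_⟩
  · intro i
    exact V_nondeg hr hn C τ hτ hτ1 hC (e i)
  · intro i j hij
    exact (V_sep hr hn C τ hτ hτ1 hC (e i) (e j) (fun h => hij (e.injective h))).disj
  · intro i hi
    obtain ⟨h1, h2, h3, h4⟩ := hi
    have h4' : (r : ℝ) < (rect r n d C τ (e i)).y1 := h4
    have h3' : (rect r n d C τ (e i)).y0 < (r : ℝ) := h3
    by_cases hd : ∃ k, e i = .inr (.inr (.inr k))
    · obtain ⟨k, hk⟩ := hd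
      rw [hk] at h3'
      have h5 : (r : ℝ) + 100 + 2 * (k : ℕ) < (r : ℝ) := h3'
      have h6 : (0 : ℝ) ≤ ((k : ℕ) : ℝ) := Nat.cast_nonneg _
      linarith
    · push Not at hd
      have := V_up hr hn C τ hC (e i) hd
      linarith
  · intro i hi
    obtain ⟨h1, h2, h3, h4⟩ := hi
    have g1 : (rect r n d C τ (e i)).x0 < (0 : ℝ) := h1
    have g2 : (0 : ℝ) < (rect r n d C τ (e i)).x1 := h2
    have g3 : (rect r n d C τ (e i)).y0 < (-1 : ℝ) := h3
    have g4 : (-1 : ℝ) < (rect r n d C τ (e i)).y1 := h4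
    rcases he' : e i with ⟨j, q⟩ | ⟨j, q⟩ | ⟨j, k⟩ | k
    · rw [he'] at g3
      have g5 : ((j : ℕ) : ℝ) - th r n < -1 := g3
      have h6 : (0 : ℝ) ≤ ((j : ℕ) : ℝ) := Nat.cast_nonneg _
      linarith
    · rw [he'] at g3
      have g5 : LL r n C τ j q < -1 := g3
      have h7 := V_LLb hr hn hτ hτ1 hC j.2 (Nat.lt_succ_iff.1 q.2)
      have h6 : (0 : ℝ) ≤ ((j : ℕ) : ℝ) := Nat.cast_nonneg _
      linarith [h7.1]
    · rw [he'] at g1 g2 g4
      have hW := V_W (r := r) (n := n) j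
      have h6 : (0 : ℝ) ≤ ((j : ℕ) : ℝ) := Nat.cast_nonneg _
      have hD : D (j : ℕ) = 2 + 3 * (j : ℝ) := rfl
      fin_cases k
      · have g5 : (0 : ℝ) < -W r n j := g2
        linarith
      · have g5 : W r n j < (0 : ℝ) := g1
        linarith
      · have g5 : (-1 : ℝ) < -D j - ep r n := g4
        linarith
    · rw [he'] at g3
      have g5 : (r : ℝ) + 100 + 2 * (k : ℕ) < -1 := g3
      have h6 : (0 : ℝ) ≤ ((k : ℕ) : ℝ) := Nat.cast_nonneg _
      have h7 : (0 : ℝ) ≤ (r : ℝ) := Nat.cast_nonneg _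
      linarith

end Pool.LibML82.R
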