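import Pool.Agent.LibML82.C1
import Pool.Agent.LibML82.QA6
import Pool.Agent.LibML82.RA0
import Pool.Agent.LibML82.RA1
import Pool.Agent.LibML82.RA2
import Pool.Agent.LibML82.RA3
import Pool.Agent.LibML82.RA5
import Pool.Agent.LibML82.RA6
import Pool.Agent.LibML82.RG5
import Pool.Agent.LibML82.RC2

/-!
# Approximation within any constant factor, queries about four obstacles
-/

open Filter Topology

namespace Pool.LibML82.R

open Pool.LibML82.B (G pos th W D ep side)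
open Pool.LibML82.Q (cor den orient GenPos sh ev)

variable {r n d N : ℕ}

theorem ev_zero (θ : Fin 9 → ℝ) (Q : Polynomial (MvPolynomial (Fin 9) ℝ)) :
    ev θ 0 Q = MvPolynomial.eval θ (Q.coeff 0) := by
  simp only [ev, Polynomial.coe_eval₂RingHom]
  rw [Polynomial.eval₂_at_zero]

/-- `Cond` is the matching condition. -/
theorem of_cond (u₀ v₀ : ℕ) (u0 u1 u2 ρ : ℝ) (o : Option (ℕ × ℕ))
    (h : Cond r n u₀ v₀ u0 u1 u2 ρ o) (θ : Fin 9 → ℝ) (η : ℝ) :
    val (Cc r n u₀ v₀ θ η) o = val (Cb r n (θ + η • sh u0 u1 u2) (ρ * η)) o := by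
  cases o with
  | none => rfl
  | some a =>
    obtain ⟨j, g⟩ := a
    have h' := h j g rfl
    show cor θ (η * (kp r n j * ((g : ℝ) - (1 + u₀ + v₀ * j)) ^ 2)) ((g : ℝ), (j : ℝ)) =
      cor (θ + η • sh u0 u1 u2) (ρ * η * (kp r n j * (g : ℝ) ^ 2)) ((g : ℝ), (j : ℝ))
    have e0 : (θ + η • sh u0 u1 u2) 0 = θ 0 + η * u0 := rfl
    have e1 : (θ + η • sh u0 u1 u2) 1 = θ 1 + η * u1 := rfl
    have e2 : (θ + η • sh u0 u1 u2) 2 = θ 2 + η * u2 := rfl
    have e3 : (θ + η • sh u0 u1 u2) 3 = θ 3 := by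
      show θ 3 + η * 0 = θ 3
      ring
    have e4 : (θ + η • sh u0 u1 u2) 4 = θ 4 := by
      show θ 4 + η * 0 = θ 4
      ring
    have e5 : (θ + η • sh u0 u1 u2) 5 = θ 5 := by
      show θ 5 + η * 0 = θ 5
      ring
    have e6 : (θ + η • sh u0 u1 u2) 6 = θ 6 := by
      show θ 6 + η * 0 = θ 6
      ring
    have e7 : (θ + η • sh u0 u1 u2) 7 = θ 7 := by
      show θ 7 + η * 0 = θ 7
      ring
    have e8 : (θ + η • sh u0 u1 u2) 8 = θ 8 := by
      show θ 8 + η * 0 = θ 8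
      ring
    unfold cor den
    rw [e0, e1, e2, e3, e4, e5, e6, e7, e8]
    simp only
    congr 2
    linear_combination η * (-h')

/-- The corners with perturbations `η * p j g`. -/
noncomputable def gen (p : ℕ → ℕ → ℝ) (θ : Fin 9 → ℝ) (η : ℝ) : Par := fun j g =>
  cor θ (η * p j g) ((g : ℝ), (j : ℝ))

theorem gen_zero (p p' : ℕ → ℕ → ℝ) (θ : Fin 9 → ℝ) : gen p θ 0 = gen p' θ 0 := by
  funext j g
  simp only [gen, zero_mul]

theorem continuous_gen_eval (F : MvPolynomial (Fin 4 ⊕ Fin 4) ℝ) (l : Fin 4 → Option (ℕ × ℕ))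
    (p : ℕ → ℕ → ℝ) (θ : Fin 9 → ℝ) :
    Continuous fun η : ℝ => MvPolynomial.eval (vals (gen p θ η) l) F := by
  have h1 : Continuous fun η : ℝ => vals (gen p θ η) l := by
    refine continuous_pi fun a => ?_
    have h2 : ∀ o : Option (ℕ × ℕ), Continuous fun η : ℝ => val (gen p θ η) o := by
      intro o
      cases o with
      | none => exact continuous_const
      | some a => simp only [val, gen, cor]; fun_prop
    rcases a with i | i
    · exact continuous_fst.comp (h2 (l i))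
    · exact continuous_snd.comp (h2 (l i))
  exact (MvPolynomial.continuous_eval F).comp h1

theorem sign_of_tendsto (f : ℝ → ℝ) (c : ℝ) (hc : c ≠ 0)
    (hf : Tendsto f (𝓝[>] (0 : ℝ)) (𝓝 c)) :
    ∀ᶠ η in 𝓝[>] (0 : ℝ), SignType.sign (f η) = SignType.sign c := by
  rcases lt_or_gt_of_ne hc with h | h
  · filter_upwards [hf.eventually_lt_const h] with η hη
    rw [sign_neg hη, sign_neg h]
  · filter_upwards [hf.eventually_const_lt h] with η hη
    rw [sign_pos hη, sign_pos h]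

/-- Labels in general position. -/
theorem sign_generic (F : MvPolynomial (Fin 4 ⊕ Fin 4) ℝ) (l : Fin 4 → Option (ℕ × ℕ))
    (hst : ∀ a, l a ≠ none) (hl : GenPos (fun a => lp (l a))) :
    ∃ g : MvPolynomial (Fin 9) ℝ, g ≠ 0 ∧ ∀ θ : Fin 9 → ℝ, MvPolynomial.eval θ g ≠ 0 →
      (∀ a, 0 < den θ (lp (l a))) → ∀ u₀ v₀ : ℕ, ∀ᶠ η in 𝓝[>] (0 : ℝ),
        SignType.sign (MvPolynomial.eval (vals (Cc r n u₀ v₀ θ η) l) F) =
          SignType.sign (MvPolynomial.eval (vals (Cb r n θ η) l) F) := by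
  by_cases hF : F = 0
  · refine ⟨1, one_ne_zero, fun θ _ _ u₀ v₀ => Eventually.of_forall fun η => ?_⟩
    rw [hF, (MvPolynomial.eval (vals (Cc r n u₀ v₀ θ η) l)).map_zero,
      (MvPolynomial.eval (vals (Cb r n θ η) l)).map_zero]
  · obtain ⟨dd, Q, hQ⟩ := clear r n F l
    have hval : ∀ θ : Fin 9 → ℝ, vals (Cb r n θ 0) l =
        Sum.elim (fun a => (cor θ 0 (lp (l a))).1) (fun a => (cor θ 0 (lp (l a))).2) := by
      intro θ
      have h : ∀ a, val (Cb r n θ 0) (l a) = cor θ 0 (lp (l a)) := by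
        intro a
        rcases hla : l a with _ | ⟨j, g⟩
        · exact absurd hla (hst a)
        · show cor θ (0 * _) ((g : ℝ), (j : ℝ)) = cor θ 0 ((g : ℝ), (j : ℝ))
          rw [zero_mul]
      unfold vals
      congr 1
      · funext a
        rw [h a]
      · funext a
        rw [h a]
    refine ⟨Q.coeff 0, ?_, ?_⟩
    · intro h0
      obtain ⟨θ, h1, h2⟩ := Pool.LibML82.Q.exists_ne F hF (fun a => lp (l a)) hl
      have h3 := hQ θ 0 h1
      rw [ev_zero, h0, map_zero, hval] at h3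
      have h4 : (∏ a, den θ (lp (l a))) ^ dd ≠ 0 :=
        pow_ne_zero _ (Finset.prod_ne_zero_iff.2 fun a _ => h1 a)
      exact (mul_ne_zero h4 h2) h3.symm
    · intro θ hθ hden u₀ v₀
      have h3 := hQ θ 0 (fun a => (hden a).ne')
      rw [ev_zero] at h3
      have hne : MvPolynomial.eval (vals (Cb r n θ 0) l) F ≠ 0 := by
        intro h0
        rw [h0, mul_zero] at h3
        exact hθ h3
      have t1 : Tendsto (fun η : ℝ => MvPolynomial.eval (vals (Cc r n u₀ v₀ θ η) l) F)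
          (𝓝[>] (0 : ℝ)) (𝓝 (MvPolynomial.eval (vals (Cb r n θ 0) l) F)) := by
        have h := (continuous_gen_eval F l
          (fun j g => kp r n j * ((g : ℝ) - (1 + u₀ + v₀ * j)) ^ 2) θ).tendsto 0
        rw [gen_zero _ (fun j g => kp r n j * (g : ℝ) ^ 2) θ] at h
        exact h.mono_left nhdsWithin_le_nhds
      have t2 : Tendsto (fun η : ℝ => MvPolynomial.eval (vals (Cb r n θ η) l) F)
          (𝓝[>] (0 : ℝ)) (𝓝 (MvPolynomial.eval (vals (Cb r n θ 0) l) F)) :=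
        ((continuous_gen_eval F l
          (fun j g => kp r n j * (g : ℝ) ^ 2) θ).tendsto 0).mono_left nhdsWithin_le_nhds
      filter_upwards [sign_of_tendsto _ _ hne t1, sign_of_tendsto _ _ hne t2] with η h4 h5
      rw [h4, h5]

/-- One polynomial in the eight coordinates of four corners. -/
theorem one_test (hr : 1 ≤ r) (hn : 1 ≤ n) (F : MvPolynomial (Fin 4 ⊕ Fin 4) ℝ)
    (l : Fin 4 → Option (ℕ × ℕ))
    (hrange : ∀ a j g, l a = some (j, g) → j < r ∧ 1 ≤ g ∧ g ≤ G r n) :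
    ∃ g : MvPolynomial (Fin 9) ℝ, g ≠ 0 ∧ ∀ θ : Fin 9 → ℝ, MvPolynomial.eval θ g ≠ 0 →
      (∀ a, 0 < den θ (lp (l a))) → ∀ u₀ v₀ : ℕ, u₀ < n → v₀ < n → ¬ CovL u₀ v₀ l →
        ∀ᶠ η in 𝓝[>] (0 : ℝ),
          SignType.sign (MvPolynomial.eval (vals (Cc r n u₀ v₀ θ η) l) F) =
            SignType.sign (MvPolynomial.eval (vals (Cb r n θ η) l) F) := by
  obtain ⟨g1, h1, h2⟩ := sign_stable r n F l
  by_cases hgen : (∀ a, l a ≠ none) ∧ GenPos (fun a => lp (l a))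
  · obtain ⟨g2, h3, h4⟩ := sign_generic (r := r) (n := n) F l hgen.1 hgen.2
    refine ⟨g1 * g2, mul_ne_zero h1 h3, fun θ hθ hden u₀ v₀ _ _ _ => ?_⟩
    rw [map_mul] at hθ
    exact h4 θ (right_ne_zero_of_mul hθ) hden u₀ v₀
  · refine ⟨g1, h1, fun θ hθ hden u₀ v₀ hu hv hcov => ?_⟩
    rcases classify r n hr hn u₀ v₀ hu hv l hrange hcov with ⟨u0, u1, u2, ρ, hρ, hc⟩ | hg
    · filter_upwards [h2 θ hθ hden u0 u1 u2 ρ hρ] with η hη
      rw [← hη]
      have hv : vals (Cc r n u₀ v₀ θ η) l =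
          vals (Cb r n (θ + η • sh u0 u1 u2) (ρ * η)) l := by
        unfold vals
        congr 1
        · funext a
          rw [of_cond _ _ _ _ _ _ _ (hc a)]
        · funext a
          rw [of_cond _ _ _ _ _ _ _ (hc a)]
      rw [hv]
    · exact absurd hg hgen

theorem generic9 (S : Finset (MvPolynomial (Fin 9) ℝ)) (hS : ∀ g ∈ S, g ≠ 0) (θ₀ : Fin 9 → ℝ)
    (ε : ℝ) (hε : 0 < ε) :
    ∃ θ : Fin 9 → ℝ, (∀ j, |θ j - θ₀ j| < ε) ∧ ∀ g ∈ S, MvPolynomial.eval θ g ≠ 0 := by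
  classical
  have hprod : (∏ g ∈ S, g) ≠ 0 := Finset.prod_ne_zero_iff.2 hS
  by_contra hcon
  apply hprod
  refine MvPolynomial.funext_set (fun j => Set.Ioo (θ₀ j - ε) (θ₀ j + ε))
    (fun j => Set.Ioo_infinite (by linarith)) ?_
  intro θ hθ
  rw [map_zero]
  by_contra hne
  apply hcon
  refine ⟨θ, fun j => ?_, fun g hg h0 => hne ?_⟩
  · have h := hθ j (Set.mem_univ j)
    rw [abs_lt]
    exact ⟨by linarith [h.1], by linarith [h.2]⟩
  · rw [map_prod]
    exact Finset.prod_eq_zero hg h0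

theorem gap_le (u v j : ℕ) (hu : u < n) (hv : v < n) (hj : j < r) :
    1 + u + v * j ≤ G r n := by
  unfold G
  have h1 : v * j ≤ (n - 1) * (r - 1) := Nat.mul_le_mul (by omega) (by omega)
  obtain ⟨n', rfl⟩ : ∃ n', n = n' + 1 := ⟨n - 1, by omega⟩
  obtain ⟨r', rfl⟩ : ∃ r', r = r' + 1 := ⟨r - 1, by omega⟩
  simp only [Nat.add_sub_cancel] at h1
  nlinarith

/-- All queries of a finite list. -/
theorem choose_query (hr : 1 ≤ r) (hn : 1 ≤ n) (e : Fin N ≃ Idx r n d)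
    (L : List (Query 4 N)) :
    ∃ (θ : Fin 9 → ℝ) (η τ : ℝ), 0 < τ ∧ τ ≤ th r n / 4 ∧ Near r n (Cb r n θ η) ∧
      Blocked r n τ (Cb r n θ η) ∧
      (∀ u₀ v₀ : ℕ, u₀ < n → v₀ < n → Near r n (Cc r n u₀ v₀ θ η) ∧
        Line r (Cc r n u₀ v₀ θ η) u₀ v₀) ∧
      ∀ Q ∈ L, ∀ u₀ v₀ : ℕ, u₀ < n → v₀ < n → ¬ Cov e u₀ v₀ Q.who →
        Q.ans (inst e (Cc r n u₀ v₀ θ η) τ) = Q.ans (inst e (Cb r n θ η) τ) := by
  classical
  choose F hF using fun (Q : Query 4 N) (a : Fin Q.m) => poly_val e Q.who (Q.poly a)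
  choose g hg0 hg using fun (Q : Query 4 N) (a : Fin Q.m) (m : ℕ) =>
    one_test hr hn ((F Q a).coeff m) (fun i => lab r n d (e (Q.who i)))
      (fun i j g h => lab_lt _ j g h)
  obtain ⟨ε, δ, hε, hδ, hnear⟩ := near_family r n hr hn
  obtain ⟨θ, hθ, hθg⟩ := generic9
    (L.toFinset.biUnion fun Q => (Finset.univ : Finset (Fin Q.m)).biUnion fun a =>
      (Finset.range ((F Q a).natDegree + 1)).image (g Q a))
    (by
      intro p hp
      rw [Finset.mem_biUnion] at hp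
      obtain ⟨Q, -, hp⟩ := hp
      rw [Finset.mem_biUnion] at hp
      obtain ⟨a, -, hp⟩ := hp
      rw [Finset.mem_image] at hp
      obtain ⟨m, -, rfl⟩ := hp
      exact hg0 Q a m) (th0 r n) ε hε
  have hden0 : ∀ j g : ℕ, j < r → g ≤ G r n → 0 < den θ ((g : ℝ), (j : ℝ)) :=
    (hnear θ hθ 0 le_rfl hδ).2.2.1
  have hden : ∀ v : Idx r n d, 0 < den θ (lp (lab r n d v)) := by
    intro v
    rcases hv : lab r n d v with _ | ⟨j, g⟩
    · have h := hden0 0 0 (by omega) (by omega)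
      simpa [lp] using h
    · obtain ⟨h1, -, h3⟩ := lab_lt v j g hv
      exact hden0 j g h1 h3
  -- all coefficients have equal signs for small η
  have key2 : ∀ᶠ η in 𝓝[>] (0 : ℝ), ∀ Q ∈ L.toFinset, ∀ a ∈ (Finset.univ : Finset (Fin Q.m)),
      ∀ m ∈ Finset.range ((F Q a).natDegree + 1), ∀ u₀ ∈ Finset.range n,
      ∀ v₀ ∈ Finset.range n, ¬ Cov e u₀ v₀ Q.who →
        SignType.sign (MvPolynomial.eval
          (vals (Cc r n u₀ v₀ θ η) (fun i => lab r n d (e (Q.who i)))) ((F Q a).coeff m)) =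
        SignType.sign (MvPolynomial.eval
          (vals (Cb r n θ η) (fun i => lab r n d (e (Q.who i)))) ((F Q a).coeff m)) := by
    rw [Filter.eventually_all_finset]
    intro Q hQ
    rw [Filter.eventually_all_finset]
    intro a ha
    rw [Filter.eventually_all_finset]
    intro m hm
    rw [Filter.eventually_all_finset]
    intro u₀ hu₀
    rw [Filter.eventually_all_finset]
    intro v₀ hv₀
    by_cases hc : Cov e u₀ v₀ Q.who
    · exact Eventually.of_forall fun η h => absurd hc h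
    · have hgT : MvPolynomial.eval θ (g Q a m) ≠ 0 := by
        apply hθg
        rw [Finset.mem_biUnion]
        refine ⟨Q, hQ, ?_⟩
        rw [Finset.mem_biUnion]
        exact ⟨a, ha, Finset.mem_image_of_mem _ hm⟩
      filter_upwards [hg Q a m θ hgT (fun i => hden _) u₀ v₀ (Finset.mem_range.1 hu₀)
        (Finset.mem_range.1 hv₀) hc] with η hη _
      exact hη
  have hpos : ∀ᶠ η in 𝓝[>] (0 : ℝ), 0 < η ∧ η < δ := by
    have h := Ioo_mem_nhdsGT hδ
    filter_upwards [h] with η hη using hη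
  obtain ⟨η, h1, h2, h3⟩ := (key2.and hpos).exists
  obtain ⟨hb, hc, -, hor⟩ := hnear θ hθ η h2.le h3
  have hGpos : 1 ≤ G r n := Nat.mul_pos hn hr
  have hGr : (1 : ℝ) ≤ (G r n : ℝ) := by exact_mod_cast hGpos
  have hth : 0 < th r n := by
    unfold th
    positivity
  have hth1 : th r n ≤ 1 / 100 := by
    unfold th
    exact one_div_le_one_div_of_le (by norm_num) (by linarith)
  have hsl0 : 0 < sl r n := by
    unfold sl
    positivity
  have hslG : sl r n * (G r n : ℝ) = th r n / 10 := by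
    unfold sl
    field_simp
  -- the base point is blocked
  have hbl : ∀ᶠ τ in 𝓝[>] (0 : ℝ), Blocked r n τ (Cb r n θ η) := by
    apply blocked_of
    intro j g₁ g₂ g₃ hj a1 b1 a2 b2 a3 b3
    by_cases hg3 : g₁ + g₃ = 2 * g₂
    · refine orient_base r n hr hn θ η h2 j g₁ g₂ g₃ a1 b1 hg3 (hden0 _ _ (by omega) b1)
        (hden0 _ _ (by omega) b2) (hden0 _ _ (by omega) b3) ?_
      have e1 := abs_le.1 (hb j g₁ (by omega) a1 b1).2
      have e2 := abs_le.1 (hb (j + 1) g₂ (by omega) a2 b2).2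
      push_cast at e2
      have c1 : sl r n * (g₁ : ℝ) ≤ th r n / 10 := by
        rw [← hslG]
        exact mul_le_mul_of_nonneg_left (by exact_mod_cast b1) hsl0.le
      have c2 : 0 ≤ sl r n * (g₂ : ℝ) := mul_nonneg hsl0.le (Nat.cast_nonneg _)
      have c3 : sl r n ≤ th r n / 10 := by
        rw [← hslG]
        exact le_mul_of_one_le_right hsl0.le hGr
      linarith [e1.2, e2.1]
    · exact hor j g₁ g₂ g₃ hj b1 b2 b3 hg3
  -- now τ
  have kt2 : ∀ᶠ τ in 𝓝[>] (0 : ℝ), ∀ Q ∈ L.toFinset, ∀ a ∈ (Finset.univ : Finset (Fin Q.m)),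
      ∀ u₀ ∈ Finset.range n, ∀ v₀ ∈ Finset.range n,
        ¬ Cov e u₀ v₀ Q.who →
        SignType.sign (((F Q a).map (MvPolynomial.eval
          (vals (Cc r n u₀ v₀ θ η) (fun i => lab r n d (e (Q.who i)))))).eval τ) =
        SignType.sign (((F Q a).map (MvPolynomial.eval
          (vals (Cb r n θ η) (fun i => lab r n d (e (Q.who i)))))).eval τ) := by
    rw [Filter.eventually_all_finset]
    intro Q hQ
    rw [Filter.eventually_all_finset]
    intro a ha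
    rw [Filter.eventually_all_finset]
    intro u₀ hu₀
    rw [Filter.eventually_all_finset]
    intro v₀ hv₀
    by_cases hcv : Cov e u₀ v₀ Q.who
    · exact Eventually.of_forall fun τ h => absurd hcv h
    · have hs := sign_tau (F Q a) (vals (Cc r n u₀ v₀ θ η) (fun i => lab r n d (e (Q.who i))))
        (vals (Cb r n θ η) (fun i => lab r n d (e (Q.who i)))) (fun m => by
          by_cases hm : m ∈ Finset.range ((F Q a).natDegree + 1)
          · exact h1 Q hQ a ha m hm u₀ hu₀ v₀ hv₀ hcv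
          · rw [Finset.mem_range, not_lt] at hm
            rw [Polynomial.coeff_eq_zero_of_natDegree_lt (by omega)]
            rw [(MvPolynomial.eval _).map_zero, (MvPolynomial.eval _).map_zero])
      filter_upwards [hs] with τ hτ _ using hτ
  have hτpos : ∀ᶠ τ in 𝓝[>] (0 : ℝ), 0 < τ ∧ τ < th r n / 4 := by
    have h := Ioo_mem_nhdsGT (show (0 : ℝ) < th r n / 4 by linarith)
    filter_upwards [h] with τ hτ using hτ
  obtain ⟨τ, ⟨hk, hblk⟩, hτ0, hτ1⟩ := ((kt2.and hbl).and hτpos).exists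
  refine ⟨θ, η, τ, hτ0, hτ1.le, hb, hblk, ?_, ?_⟩
  · intro u₀ v₀ hu hv
    refine ⟨hc u₀ v₀ hu hv, coll_line r n u₀ v₀ θ η fun j hj => ?_⟩
    exact (hden0 j _ hj (gap_le u₀ v₀ j hu hv hj)).ne'
  · intro Q hQ u₀ v₀ hu₀ hv₀ hcov
    funext a
    have h := hk Q (List.mem_toFinset.2 hQ) a (Finset.mem_univ a) u₀ (Finset.mem_range.2 hu₀) v₀
      (Finset.mem_range.2 hv₀) hcov
    unfold Query.ans
    rw [hF Q a, hF Q a]
    exact h

theorem exists_equivR (r n N : ℕ) (h : 2 * n * r ^ 2 + 5 * r ≤ N) :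
    ∃ d, Nonempty (Fin N ≃ Idx r n d) := by
  obtain ⟨d, rfl⟩ := Nat.exists_eq_add_of_le h
  refine ⟨d, ⟨(Fintype.equivFinOfCardEq ?_).symm⟩⟩
  rw [Fintype.card_sum, Fintype.card_sum, Fintype.card_sum, Fintype.card_prod,
    Fintype.card_prod, Fintype.card_fin, Fintype.card_fin, Fintype.card_fin, Fintype.card_fin]
  unfold G
  ring

open Classical in
/-- **Part R.** -/
theorem partR (r n N : ℕ) (hr : 3 ≤ r) (hn : 1 ≤ n) (hN : 2 * n * r ^ 2 + 5 * r ≤ N) :
    ∃ H : Set (Inst N),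
      (∀ I ∈ H, I.Valid ∧ ((∃ p, I.IsPath 3 p) ∨ ∀ k p, I.IsPath k p → r ≤ 4 * k)) ∧
      (∃ T : Tree 4 N, ∀ I ∈ H, T.Out (Inst.IsApprox 9) I ∧ T.cost I ≤ n ^ 2 * r) ∧
      ∀ (c : ℝ), 12 * c < r → ∀ (Ω : Type) [Fintype Ω] (w : Ω → ℝ) (T : Ω → Tree 4 N) (δ : ℝ),
        (∀ ω, 0 ≤ w ω) → ∑ ω, w ω = 1 →
        (∀ I ∈ H, 1 - δ ≤ ∑ ω, if (T ω).Out (Inst.IsApprox c) I then w ω else 0) →
        ∃ I ∈ H, (1 - 2 * δ) * (n : ℝ) ^ 2 ≤ ∑ ω, w ω * ((T ω).cost I : ℝ) := by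
  have hr1 : 1 ≤ r := by omega
  obtain ⟨d, ⟨e⟩⟩ := exists_equivR r n N hN
  refine ⟨Fam e, ?_, upperR hr hn e, ?_⟩
  · rintro I ⟨C, τ, hτ, hτ1, hC, hcase, rfl⟩
    refine ⟨valid hr1 hn e C τ hτ hτ1 hC, ?_⟩
    rcases hcase with hB | ⟨u, v, hu, hv, hL⟩
    · exact Or.inr fun k p hp => links hr1 hn e C τ hτ hτ1 hC hB k p hp
    · exact Or.inl ⟨_, line_path hr hn e C τ hτ hτ1 hC u v hu hv hL⟩
  intro c hc Ω _ w T δ hw0 hw1 hcor
  have h := adversary (Fam e) (Inst.IsApprox c)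
    (fun a : Fin n × Fin n => Cov e a.1 a.2)
    (fun who a b h1 h2 => by
      obtain ⟨h3, h4⟩ := cov_unique e who _ _ _ _ h1 h2
      exact Prod.ext (Fin.ext h3) (Fin.ext h4))
    (fun L => by
      obtain ⟨θ, η, τ, hτ0, hτ1, hb, hbl, hcn, hans⟩ := choose_query hr1 hn e L
      refine ⟨inst e (Cb r n θ η) τ, ⟨_, τ, hτ0, hτ1, hb, Or.inl hbl, rfl⟩,
        fun a => inst e (Cc r n a.1 a.2 θ η) τ,
        fun a => ⟨_, τ, hτ0, hτ1, (hcn a.1 a.2 a.1.2 a.2.2).1,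
          Or.inr ⟨a.1, a.2, a.1.2, a.2.2, (hcn a.1 a.2 a.1.2 a.2.2).2⟩, rfl⟩,
        fun Q hQ a ha => hans Q hQ a.1 a.2 a.1.2 a.2.2 ha, ?_⟩
      intro a k p p' hp hp'
      obtain ⟨hna, hli⟩ := hcn a.1 a.2 a.1.2 a.2.2
      have h4 : r ≤ 4 * k := links hr1 hn e _ τ hτ0 hτ1 hb hbl k p hp.1
      have h3 := hp'.2 3 _ (line_path hr hn e _ τ hτ0 hτ1 hna a.1 a.2 a.1.2 a.2.2 hli)
      have h4' : (r : ℝ) ≤ 4 * k := by exact_mod_cast h4
      push_cast at h3
      linarith)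
    Ω w T δ hw0 hw1 hcor
  obtain ⟨I, hI, hcost⟩ := h
  refine ⟨I, hI, ?_⟩
  have hcard : (Fintype.card (Fin n × Fin n) : ℝ) = (n : ℝ) ^ 2 := by
    rw [Fintype.card_prod, Fintype.card_fin]
    push_cast
    ring
  rw [hcard] at hcost
  exact hcost

end Pool.LibML82.R
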